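import Pool.Agent.Lib.MP_45f16c_ag.AS.BL
import Pool.Agent.Lib.MP_45f16c_ag.AL

/-! The contradictions in small codimension. -/

set_option autoImplicit false
open Metric MeasureTheory MvPolynomial Filter Module
open scoped ComplexConjugate Matrix Topology

namespace Pool.Agent.Lib.MP_45f16c_ag.AS

noncomputable section

namespace Al1Aux

theorem ev {c : ℝ} (C : ℝ) (hc : 0 < c) : ∀ᶠ T : ℝ in atTop, C < Real.exp (c * T) :=
  (Real.tendsto_exp_atTop.comp (tendsto_id.const_mul_atTop hc)).eventually_gt_atTop C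

theorem small {K c₀ : ℝ} (hK : 1 ≤ K) (hc : 0 < c₀) : ∀ᶠ T : ℝ in atTop,
    Real.exp (-(100 * (K * T))) ≤
      c₀ * (Real.exp (-(17 * (K * T))) / Real.exp (17 * (K * T))) ^ 2 := by
  filter_upwards [ev c₀⁻¹ (show 0 < 32 * K by positivity)] with T h
  have e : (Real.exp (-(17 * (K * T))) / Real.exp (17 * (K * T))) ^ 2 =
      Real.exp (32 * K * T) * Real.exp (-(100 * (K * T))) := by
    rw [← Real.exp_sub, ← Real.exp_nat_mul, ← Real.exp_add]
    congr 1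
    push_cast
    ring
  rw [e, ← mul_assoc c₀]
  refine le_mul_of_one_le_left (Real.exp_pos _).le ?_
  have := mul_le_mul_of_nonneg_left h.le hc.le
  rwa [mul_inv_cancel₀ hc.ne'] at this

theorem cancel {a b x y C : ℝ} {D : ℕ} (ha : 0 < a) (h1 : Real.exp x * a ≤ b)
    (h2 : b ^ D ≤ C * Real.exp y * a ^ D) : Real.exp (D * x - y) ≤ C := by
  have h3 : (Real.exp x * a) ^ D ≤ b ^ D := pow_le_pow_left₀ (by positivity) h1 D
  rw [mul_pow, ← Real.exp_nat_mul] at h3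
  rw [Real.exp_sub, div_le_iff₀ (Real.exp_pos _)]
  exact le_of_mul_le_mul_right (h3.trans h2) (pow_pos ha D)

end Al1Aux

open ALAux in
theorem al1S (hG : GenStmt) (hP : PAStmt) (hM : MPStmt) : Al1Stmt := by
  intro ν d j D η hν hD hη
  have hd : 2 ≤ d := by omega
  obtain ⟨N, Cg, hCg, hG⟩ := hG ν d j (ν - 1) η (by omega) (by omega) hη
  obtain ⟨C, hC, hP⟩ := point hP hν (by omega : 1 ≤ d) j N (ν - 1 + j) hη hCg
  obtain ⟨c₁, hc₁, hc₁', hnear⟩ := grad_near (ν := ν) hd hη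
  obtain ⟨M₁, hM₁⟩ : ∃ M : ℝ, M = (Fintype.card (Mon ν (d - 1)) : ℝ) * (d + 1) := ⟨_, rfl⟩
  have hM₁0 : 0 ≤ M₁ := by rw [hM₁]; positivity
  refine ⟨3 * C * (C * 2 ^ D / η) * M₁ + 1, c₁ ^ 2 / (6 * C), by positivity,
    by positivity, fun c hc y hy f ξ γ L B Λ ε hf hξ hγ hL hLB hΛ1 hε hεc hb hlip hcirc => ?_⟩
  obtain ⟨Θ, hΘ, hΘ1, hΘ2⟩ := hG c hc y hy
  have hB : 0 < B := hL.trans_le hLB
  have hpos : ∀ z ∈ closedBall (0 : ℂ) 1, 0 < ‖f z‖ := fun z hz => hL.trans_le (hb z hz).1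
  have hne : ∀ z ∈ closedBall (0 : ℂ) 1, f z ≠ 0 := fun z hz => norm_pos_iff.1 (hpos z hz)
  have hpt := fun z (hz : z ∈ closedBall (0 : ℂ) 1) =>
    hP c hc y Θ hΘ hΘ1 hΘ2 (f z) (fun m => ξ m z) (Λ * ‖f z‖) ε (hne z hz) hε
      (le_mul_of_one_le_left (norm_nonneg _) hΛ1) (hb z hz).2
  have h0m : (0 : ℂ) ∈ closedBall (0 : ℂ) 1 := mem_closedBall_self zero_le_one
  have hx0 := hpos 0 h0m
  have hΛ : 0 ≤ Λ := zero_le_one.trans hΛ1
  have : Nonempty (Fin ν) := ⟨⟨0, by omega⟩⟩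
  have : Nonempty (Fin N) := by
    by_contra h
    rw [not_nonempty_iff] at h
    have h1 := (hpt 0 h0m).2.1
    rw [Subsingleton.elim (Dl Θ (f 0) fun m => ξ m 0) 0, norm_zero, mul_zero] at h1
    exact absurd h1 (not_le.2 (by positivity))
  have hLB1 : L / B ≤ 1 := (div_le_one hB).2 hLB
  have hLB0 : 0 < L / B := by positivity
  have hδ2 : c₁ * (L / B) ≤ 1 / 2 := by nlinarith
  have hBδ : B * (c₁ * (L / B)) = c₁ * L := by field_simp
  have key := core hM (fun z => Dl Θ (f z) fun m => ξ m z) (fun z => grad c (f z))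
    (fun z => γ z ^ D) (c₁ * (L / B)) (C * ε)
    (C * 2 ^ D / η * Λ ^ (ν - 1)) (differentiable_Dl Θ hf hξ)
    (differentiable_grad c hf) (hγ.pow _) (by positivity) (by linarith) (by positivity)
    (by
      have h1 := mul_le_mul_of_nonneg_left hεc (show 0 ≤ 6 * C by positivity)
      have e : 6 * C * (c₁ ^ 2 / (6 * C) * (L / B) ^ 2) = (c₁ * (L / B)) ^ 2 := by field_simp
      linarith)
    (fun z hz => Usm.grad_ne hc hη (hne z hz)) (fun z hz => (hpt z hz).2.2)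
    (fun z₀ hz₀ z hz => by
      rw [mem_closedBall_iff_norm] at hz
      have hz₀m : z₀ ∈ closedBall (0 : ℂ) 1 := mem_closedBall_zero_iff.2 (by nlinarith)
      have hzm : z ∈ closedBall (0 : ℂ) 1 := mem_closedBall_zero_iff.2 (by
        have := norm_le_norm_add_norm_sub' z z₀
        linarith)
      refine hnear c hc _ _ (hne z₀ hz₀m) ((hlip z hzm z₀ hz₀m).1.trans ?_)
      calc B * ‖z - z₀‖ ≤ B * (c₁ * (L / B)) := by gcongr
        _ = c₁ * L := hBδ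
        _ ≤ c₁ * ‖f z₀‖ := by have := (hb z₀ hz₀m).1; gcongr)
    (fun z hz hz1 => by
      have hzm : z ∈ closedBall (0 : ℂ) 1 := mem_closedBall_zero_iff.2 hz1
      have hz0 : 0 < ‖z‖ := by linarith
      have hx := hpos z hzm
      set w : ℂ := ((‖z‖⁻¹ : ℝ) : ℂ) * z with hw
      have hw1 : ‖w‖ = 1 := by
        rw [hw, norm_mul, Complex.norm_real, Real.norm_of_nonneg (by positivity),
          inv_mul_cancel₀ hz0.ne']
      have hwm : w ∈ closedBall (0 : ℂ) 1 := mem_closedBall_zero_iff.2 hw1.le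
      have hzw : ‖z - w‖ ≤ c₁ * (L / B) := by
        have e : z - w = ((‖z‖ - 1 : ℝ) : ℂ) * w := by
          have : ((‖z‖ : ℝ) : ℂ) ≠ 0 := by exact_mod_cast hz0.ne'
          rw [hw]; push_cast; field_simp
        rw [e, norm_mul, hw1, mul_one, Complex.norm_real, Real.norm_eq_abs, abs_le]
        constructor <;> linarith
      have h1 : B * ‖z - w‖ ≤ c₁ * L := by rw [← hBδ]; gcongr
      obtain ⟨h2, h3⟩ := hlip z hzm w hwm
      have h4 := hcirc w hw1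
      have h5 := norm_le_norm_add_norm_sub' (γ z) (γ w)
      have h6 := norm_le_norm_add_norm_sub (f z) (f w)
      have h7 := (hb z hzm).1
      have h8 : ‖γ z‖ ≤ 2 * ‖f z‖ := by nlinarith
      have h9 := Usm.le_norm_grad hc (hne z hzm)
      have h10 := (hpt z hzm).1
      calc ‖Dl Θ (f z) fun m => ξ m z‖ * ‖γ z ^ D‖ / ‖grad c (f z)‖
          ≤ C * ‖f z‖ ^ (ν - 1 + j) * (Λ * ‖f z‖) ^ (ν - 1) * (2 * ‖f z‖) ^ D /
            (η * ‖f z‖ ^ (d - 1)) := by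
            rw [norm_pow]
            gcongr
        _ = _ := by
            rw [show d - 1 = (ν - 1 + j) + (D + (ν - 1)) by omega, pow_add ‖f z‖ (ν - 1 + j),
              pow_add ‖f z‖ D, mul_pow, mul_pow]
            field_simp)
  have hH0 : 0 < ‖grad c (f 0)‖ := norm_pos_iff.2 (Usm.grad_ne hc hη (hne 0 h0m))
  rw [div_le_iff₀ hH0, norm_pow] at key
  have hH : ‖grad c (f 0)‖ ≤ M₁ * (‖f 0‖ ^ D * ‖f 0‖ ^ (ν - 1 + j + (ν - 1))) := by
    refine (norm_grad_le c _).trans ?_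
    rw [← pow_add, show D + (ν - 1 + j + (ν - 1)) = d - 1 by omega, hM₁]
    have := hc.1
    calc _ ≤ Fintype.card (Mon ν (d - 1)) * (((d : ℝ) + 1) * 1) * ‖f 0‖ ^ (d - 1) := by gcongr
      _ = _ := by ring
  have hlo := (hpt 0 h0m).2.1
  refine le_of_mul_le_mul_right ?_ (show 0 < ‖f 0‖ ^ (ν - 1 + j + (ν - 1)) by positivity)
  calc ‖γ 0‖ ^ D * ‖f 0‖ ^ (ν - 1 + j + (ν - 1))
      ≤ ‖γ 0‖ ^ D * (C * ‖Dl Θ (f 0) fun m => ξ m 0‖) := by gcongr
    _ = C * (‖Dl Θ (f 0) fun m => ξ m 0‖ * ‖γ 0‖ ^ D) := by ring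
    _ ≤ C * (3 * (C * 2 ^ D / η * Λ ^ (ν - 1)) *
          (M₁ * (‖f 0‖ ^ D * ‖f 0‖ ^ (ν - 1 + j + (ν - 1))))) := by
        refine mul_le_mul_of_nonneg_left (key.trans ?_) hC.le
        gcongr
    _ = 3 * C * (C * 2 ^ D / η) * M₁ * Λ ^ (ν - 1) * ‖f 0‖ ^ D *
          ‖f 0‖ ^ (ν - 1 + j + (ν - 1)) := by ring
    _ ≤ _ := by gcongr; linarith

theorem noRelS (h : Al1Stmt) : NoRelStmt := by
  intro ν d j D η K ε hν hD hη hK hε hD1 hεD
  obtain ⟨C, c₀, hC, hc₀, h⟩ := h ν d j D η hν hD hη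
  filter_upwards [Al1Aux.small hK hc₀, Al1Aux.ev C (show (0 : ℝ) < 1 / 4 by norm_num),
    eventually_ge_atTop 0] with T h1 h2 hT g σ c hc y f ξ γ H
  obtain ⟨m, -, hm⟩ := H.pf
  have hKT : 0 ≤ K * T := by positivity
  have h0m : (0 : ℂ) ∈ closedBall (0 : ℂ) 1 := mem_closedBall_self zero_le_one
  have h3 := h c hc y H.hy f ξ γ _ _ (Real.exp (ε * T)) _
    (differentiable_pi.2 fun a => (hm a).differentiable) H.dξ H.dγ (Real.exp_pos _)
    (Real.exp_le_exp.2 (by linarith)) (Real.one_le_exp (by positivity)) (Real.exp_pos _).le h1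
    (fun z hz => ⟨(H.abs z hz).1, fun n => ⟨H.hξ z hz n, H.err z hz n⟩⟩) H.lip H.circ
  rw [← Real.exp_nat_mul, Nat.cast_sub (by omega), Nat.cast_one] at h3
  have h4 := Al1Aux.cancel ((Real.exp_pos _).trans_le (H.abs 0 h0m).1) H.g0 h3
  refine absurd (h4.trans_lt h2) (not_lt.2 (Real.exp_le_exp.2 ?_))
  have h5 : (1 : ℝ) ≤ D := by exact_mod_cast hD1
  have h6 := mul_le_mul_of_nonneg_right hεD hT
  have h7 := mul_le_mul_of_nonneg_right h5 hT
  linarith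

theorem noSlowS (h : ALStmt) : NoSlowStmt := by
  intro ν d j D η K ε hν hD hη hK hε hε4 hD1 hεD
  obtain ⟨C, c₀, hC, hc₀, h⟩ := h ν d j D η hν hD hη
  filter_upwards [Al1Aux.small hK hc₀,
    Al1Aux.ev (C * Real.exp (ν - 1)) (show (0 : ℝ) < 1 / 4 by norm_num),
    eventually_ge_atTop 0] with T h1 h2 hT N cl ρ Γ g s hcl c hc ⟨m, y, f, ξ, γ, _, H⟩
  have hKT : 0 ≤ K * T := by positivity
  have hεT : 0 ≤ ε * T := by positivity
  have h0m : (0 : ℂ) ∈ closedBall (0 : ℂ) 1 := mem_closedBall_self zero_le_one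
  have h3 := h c hc y H.hy f ξ γ _ _ (Real.exp ((ε + ε) * T) * Real.exp (-s)) _
    (differentiable_pi.2 fun a => (H.pf a).differentiable) H.dξ H.dγ (Real.exp_pos _)
    (Real.exp_le_exp.2 (by linarith)) (Real.exp_pos _).le h1
    (fun z hz => by
      obtain ⟨i, hi⟩ := hcl.cover z (mem_closedBall_zero_iff.1 hz)
      exact ⟨(H.abs z hz).1, (H.hi i z hi).trans (mul_le_mul_of_nonneg_right
        (Real.exp_le_exp.2 (by linarith)) (Real.exp_pos _).le),
        fun n => ⟨H.hξ i z hi n, H.err z hz n⟩⟩) H.lip H.circ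
  have hγ : 0 < ‖γ 0‖ := (Real.exp_pos _).trans_le H.g1
  have h4 : Real.exp ((ε + ε) * T) * Real.exp (-s) ≤ Real.exp (4 * ε * T + 1) * ‖γ 0‖ := by
    refine le_trans (le_of_eq ?_) (mul_le_mul_of_nonneg_left H.g1 (Real.exp_pos _).le)
    rw [← Real.exp_add, ← Real.exp_add]
    congr 1
    ring
  have h5 : ‖γ 0‖ ^ D ≤ C * Real.exp ((ν - 1) * (4 * ε * T + 1)) * ‖f 0‖ ^ D := by
    refine le_of_mul_le_mul_right ?_ (pow_pos hγ (ν - 1))
    rw [← pow_add]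
    refine h3.trans ?_
    calc _ ≤ C * (Real.exp (4 * ε * T + 1) * ‖γ 0‖) ^ (ν - 1) * ‖f 0‖ ^ D := by gcongr
      _ = _ := by
        rw [mul_pow, ← Real.exp_nat_mul, Nat.cast_sub (by omega), Nat.cast_one]
        ring
  have h6 := Al1Aux.cancel ((Real.exp_pos _).trans_le (H.abs 0 h0m).1) H.g0 h5
  have h7 := (mul_le_mul_of_nonneg_right h6 (Real.exp_pos (ν - 1)).le).trans_lt h2
  rw [← Real.exp_add] at h7
  refine absurd h7 (not_lt.2 (Real.exp_le_exp.2 ?_))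
  have h8 : (1 : ℝ) ≤ D := by exact_mod_cast hD1
  have h9 := mul_le_mul_of_nonneg_right hεD hT
  have h10 := mul_le_mul_of_nonneg_right h8 hT
  have h11 := mul_le_mul_of_nonneg_right hε4 (show 0 ≤ D * T by positivity)
  linarith

end

end Pool.Agent.Lib.MP_45f16c_ag.AS
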