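import Pool.Agent.Lib.MP_45f16c_ag.AS.BL

/-! The contradiction in large codimension. -/

set_option autoImplicit false
open Metric MeasureTheory MvPolynomial Filter Module
open scoped ComplexConjugate Matrix Topology

namespace Pool.Agent.Lib.MP_45f16c_ag.AS

noncomputable section

namespace Al2Aux

open Real

attribute [local irreducible] form formR

theorem exists_small {g₁ : ℝ} (h₁ : 0 < g₁) {g₀ : ℕ → ℝ} (h₀ : ∀ N, 0 < g₀ N) (i : ℕ) :
    ∃ g, 0 < g ∧ g ≤ g₁ ∧ ∀ N, N ≤ i → g ≤ g₀ N := by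
  induction i with
  | zero => exact ⟨min g₁ (g₀ 0), lt_min h₁ (h₀ 0), min_le_left _ _, fun N hN => by
      rw [Nat.le_zero.1 hN]; exact min_le_right _ _⟩
  | succ i ih =>
    obtain ⟨g, a, b, c⟩ := ih
    refine ⟨min g (g₀ (i + 1)), lt_min a (h₀ _), (min_le_left _ _).trans b, fun N hN => ?_⟩
    rcases Nat.le_succ_iff.1 hN with h | rfl
    exacts [(min_le_left _ _).trans (c N h), min_le_right _ _]

theorem ev (C : ℝ) {c : ℝ} (hc : 0 < c) : ∀ᶠ T : ℝ in atTop, C ≤ exp (c * T) :=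
  (tendsto_exp_atTop.comp (tendsto_id.const_mul_atTop hc)).eventually_ge_atTop C

theorem ev' {δ c : ℝ} (hδ : 0 < δ) (hc : 0 < c) : ∀ᶠ T : ℝ in atTop, exp (-(c * T)) ≤ δ :=
  (ev δ⁻¹ hc).mono fun T h => by rw [exp_neg]; exact inv_le_of_inv_le₀ hδ h

theorem unit {ν : ℕ} {x : Fin ν → ℂ} (hx : x ≠ 0) :
    ∃ p : Fin ν → ℂ, ‖p‖ = 1 ∧ x = (‖x‖ : ℂ) • p := by
  have h : ‖x‖ ≠ 0 := norm_ne_zero_iff.2 hx
  refine ⟨(‖x‖ : ℂ)⁻¹ • x, by simp [norm_smul, h], ?_⟩
  rw [smul_inv_smul₀ (by exact_mod_cast h)]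

end Al2Aux

attribute [local irreducible] form formR

open Al2Aux Real in
theorem al2S (hU : UltStmt) (hP : PtStmt) (hD : DifStmt) (hG : GenCStmt) (hA : AnStmt)
    (hH : HtStmt) : Al2Stmt := by
  intro ν d w D b η K ε τ ζ C g₁ hw hd hν hDd hη hK hε hD1 hεD hζ hC hg₁
  have hw1 : ∀ k, 1 ≤ w ^ k := fun k => Nat.one_le_pow _ _ (by omega)
  obtain ⟨q, rfl⟩ : ∃ q, ν = q + 1 := ⟨ν - 1, by have := hw1 44; omega⟩
  have hd2 : 2 ≤ d := by have := hw1 45; omega
  have hp0 : (0 : ℝ) ≤ ((w ^ 44 : ℕ) : ℝ) := Nat.cast_nonneg _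
  choose g₀ hg₀ hAn using fun N : ℕ => hA (q + 1) d D (N + 1) b (209 * K) η
    (τ + log (2 * ((w ^ 44 : ℕ) : ℝ) + 2)) C (((w ^ 44 : ℕ) : ℝ) + 2) hd2 hD1 (by omega) (by omega)
    (by linarith) hη hC (by linarith)
  obtain ⟨δ, hδ, hHt⟩ := hH (q + 1) d (w ^ 44) ζ (by omega) hζ
  by_contra hcon
  simp only [not_exists, not_and, not_eventually, not_forall, not_not, exists_prop] at hcon
  choose g hg hg' hgN using exists_small hg₁ hg₀
  choose T hT using fun i : ℕ => ((hcon (g i) (hg i) (hg' i)).and_eventually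
    ((eventually_ge_atTop (i : ℝ)).and ((Set.finite_le_nat i).eventually_all.2 fun N hN =>
      hAn N (g i) (hg i) (hgN i N hN)))).exists
  choose c hc hyp y f ξ γ hR using fun i => (hT i).1
  have hle : (hyperfilter ℕ : Filter ℕ) ≤ atTop := Nat.hyperfilter_le_atTop
  have hTt : Tendsto T (hyperfilter ℕ) atTop :=
    (tendsto_atTop_mono (fun i => (hT i).2.1) tendsto_natCast_atTop_atTop).mono_left hle
  choose E hE hEv hEp using fun n => hG (q + 1) d (w ^ 46) (by omega) (c n) (y n) (hc n).1 (hR n).hy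
  have h1 : (1 : ℝ) ≤ d + ((w ^ 46 : ℕ) : ℝ) + 1 := le_add_of_nonneg_left (by positivity)
  obtain ⟨N₁, N₂, N₃, c₀, s, r, e, A, hc₀, he, hAn', hβ⟩ := hU (q + 1) d w _ (hyperfilter ℕ) T E y
    (fun n m l => conj (y n l m)) (fun m => .inr (.inl m)) (d + ((w ^ 46 : ℕ) : ℝ) + 1) η hw hd hν
    hTt hη (fun n => ⟨hE n, (hR n).hy.trans h1, le_trans ((pi_norm_le_iff_of_nonneg zero_le_one).2
      fun m => (pi_norm_le_iff_of_nonneg zero_le_one).2 fun l => by
        rw [RCLike.norm_conj]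
        exact ((norm_le_pi_norm _ m).trans (norm_le_pi_norm _ l)).trans (hR n).hy) h1⟩)
    fun n m => by rw [hEp]; exact single_eq_prj (y n) m
  obtain ⟨Cp, hCp, hPt⟩ := hP q d (w ^ 46) (w ^ 29) (w ^ 15) D N₁ N₂ η (by omega) (hw1 _) hDd hη
  obtain ⟨c', hc', hc'0, hc'1⟩ : ∃ c' : ℝ, 0 < c' ∧ c' ≤ c₀ ∧ c' ≤ 1 :=
    ⟨min c₀ 1, lt_min hc₀ one_pos, min_le_left _ _, min_le_right _ _⟩
  obtain ⟨β, hβ0, hβq⟩ : ∃ β : ℝ, 0 < β ∧ q * β ≤ c' / 200 := ⟨c' / 200 / (q + 1), by positivity, by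
    rw [← mul_div_assoc, div_le_iff₀ (by positivity)]; nlinarith⟩
  obtain ⟨c₁, hc₁, hev⟩ := hβ β hβ0
  obtain ⟨N, hN₃, hN₁, hN₂⟩ : ∃ N : ℕ, N₃ ≤ N + 1 ∧ 1 / c₁ ≤ ((N + 1 : ℕ) : ℝ) ∧
      16 / c' ≤ ((N + 1 : ℕ) : ℝ) := by
    obtain ⟨N, hN⟩ := exists_nat_ge (N₃ + 1 / c₁ + 16 / c')
    have a1 : 0 < 1 / c₁ := by positivity
    have a2 : 0 < 16 / c' := by positivity
    have a3 : (0 : ℝ) ≤ N₃ := Nat.cast_nonneg _
    have a4 : (N₃ : ℝ) ≤ N := by linarith
    exact ⟨N, (Nat.cast_le.1 a4).trans (Nat.le_succ _), by push_cast; linarith,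
      by push_cast; linarith⟩
  have hN0 : (0 : ℝ) < ((N + 1 : ℕ) : ℝ) := by positivity
  obtain ⟨n, ⟨hs, hr, hx⟩, hn, hT0, e1, e2, e3, e4⟩ :=
    (hev.and (((eventually_ge_atTop N).filter_mono hle).and
    (hTt.eventually ((eventually_ge_atTop 0).and ((ev Cp (show 0 < 1 / 200 by norm_num)).and
      ((ev (2 * Cp) (show 0 < c' / 4 by positivity)).and ((ev' hδ one_pos).and
        (ev' hδ (show 0 < 1 / (2 * ((N + 1 : ℕ) : ℝ)) by positivity))))))))).exists
  have key := (hT n).2.2 N hn (c n) (hc n)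
  have hRn := hR n
  have hyp' := hyp n
  have hcn := hc n
  have hen := hAn' n
  rw [funext (hEv n)] at hx
  clear hT hR hyp hc hAn' hev hβ hEv hEp hE hcon hAn hTt
  generalize T n = T at *
  generalize c n = c at *
  generalize y n = y at *
  generalize f n = f at *
  generalize ξ n = ξ at *
  generalize γ n = γ at *
  generalize s n = s at *
  generalize r n = r at *
  generalize A n = A at *
  generalize ((N + 1 : ℕ) : ℝ) = M at *
  obtain ⟨m, hm, hf⟩ := hRn.pf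
  have hfd : Differentiable ℂ f := differentiable_pi.2 fun a => (hf a).differentiable
  have hne : ∀ z ∈ closedBall (0 : ℂ) 1, f z ≠ 0 := fun z hz =>
    norm_pos_iff.1 ((exp_pos _).trans_le (hRn.abs z hz).1)
  have hKT : T ≤ K * T := le_mul_of_one_le_left hT0 hK
  have hD' : (1 : ℝ) ≤ D := by exact_mod_cast hD1
  have hDT : T ≤ D * T := le_mul_of_one_le_left hT0 hD'
  have b1 : q * β * T ≤ c' / 200 * T := by gcongr
  have b2 : c' * T ≤ T := mul_le_of_le_one_left hT0 hc'1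
  have b3 : c' * T ≤ c₀ * T := by gcongr
  have b4 : 4 * ε * q * T ≤ D * T := by
    push_cast at hεD
    rw [add_sub_cancel_right] at hεD
    gcongr
  have b5 : T / M ≤ c₁ * T := by
    rw [div_le_iff₀ hc₁] at hN₁
    rw [div_le_iff₀ hN0]
    have := mul_le_mul_of_nonneg_right hN₁ hT0
    linarith
  have b6 : 8 * T / M ≤ c' / 2 * T := by
    rw [div_le_iff₀ hc'] at hN₂
    rw [div_le_iff₀ hN0]
    have := mul_le_mul_of_nonneg_right hN₂ hT0
    linarith
  have pt := fun z (hz : z ∈ closedBall (0 : ℂ) 1) p hp =>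
    hPt c hcn y s r (f z) p (fun m => ξ m z) (exp (β * T)) (exp (ε * T)) (exp (-(100 * (K * T))))
      (exp (-(c₀ * T))) (hne z hz) hp (one_le_exp (by positivity)) (one_le_exp (by positivity))
      (exp_pos _).le (exp_pos _).le hs hr (hRn.hξ z hz)
  refine key _ N₃ m (fun ρ => resL (e ρ) (A ρ)) f γ
    (fun z => Dl2 (w ^ 29) s r (f z) fun m => ξ m z) hN₃ (by linarith)
    (fun ρ x => norm_res_le (he ρ) (hen ρ) x) hf hRn.dγ (hD _ _ _ _ _ _ _ s r f ξ hfd hRn.dξ)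
    (fun z hz => ⟨le_trans (exp_le_exp.2 (by linarith)) (hRn.abs z hz).1,
      (hRn.abs z hz).2.trans (exp_le_exp.2 (by linarith))⟩) hRn.osc hRn.circ hRn.g0
    (fun z hz => ?_) (fun z hz h => ?_) fun ρ a t ht hsub h => ?_
  · obtain ⟨p, -, hp⟩ := unit (hne z hz)
    refine (pt z hz p hp).1.trans (mul_le_mul_of_nonneg_right ?_ (by positivity))
    calc _ ≤ exp (1 / 200 * T) * (exp (β * T) * exp (ε * T)) ^ q := by gcongr
      _ ≤ _ := by
        rw [← exp_add, ← exp_nat_mul, ← exp_add, exp_le_exp]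
        linarith
  · obtain ⟨p, hp1, hp⟩ := unit (hne z hz)
    obtain ⟨x1, x2, x3⟩ := hx p hp1
    have h0 := norm_pos_iff.2 (hne z hz)
    obtain ⟨y1, y2⟩ := (pt z hz p hp).2 (hRn.err z hz) x1 x2 (x3 fun ρ => by
      have h2 := h ρ
      have h3 : ‖resL (e ρ) (A ρ) (f z)‖ = ‖res (e ρ) (A ρ) p‖ * ‖f z‖ := by
        conv_lhs => rw [hp, map_smul, norm_smul, resL_apply]
        simp [mul_comm]
      rw [h3] at h2
      exact (exp_le_exp.2 (by linarith)).trans (le_of_mul_le_mul_right h2 h0))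
    refine ⟨y1.trans (mul_le_mul_of_nonneg_right ?_ (by positivity)), fun i a a' =>
      (y2 i a a').trans (add_le_add le_rfl (mul_le_mul_of_nonneg_right
        (mul_le_mul_of_nonneg_right ?_ (norm_nonneg _)) (norm_nonneg _)))⟩
    · calc _ ≤ exp (1 / 200 * T) * exp (β * T) ^ q := by gcongr
        _ ≤ _ := by
          rw [← exp_nat_mul, ← exp_add, exp_le_exp]
          linarith
    · have h2 : exp (-(c₀ * T)) ≤ exp (-(c' * T)) := exp_le_exp.2 (by linarith)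
      have h3 : exp (-(100 * (K * T))) ≤ exp (-(c' * T)) := exp_le_exp.2 (by linarith)
      calc _ ≤ Cp * exp (β * T) ^ (2 * q) * (exp (-(c' * T)) + exp (-(c' * T))) := by gcongr
        _ = 2 * Cp * (exp (β * T) ^ (2 * q) * exp (-(c' * T))) := by ring
        _ ≤ exp (c' / 4 * T) * (exp (β * T) ^ (2 * q) * exp (-(c' * T))) := by gcongr
        _ ≤ _ := by
          rw [← exp_nat_mul, ← exp_add, ← exp_add, exp_le_exp]
          push_cast
          have : 0 ≤ c' * T := by positivity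
          linarith
  · refine hHt c τ C (e ρ) (A ρ) f a t hcn.1 hC hyp' (he ρ) (hen ρ) hfd ht fun z hz =>
      ⟨hne z (hsub hz), (hRn.onX z (hsub hz)).trans (mul_le_mul_of_nonneg_right
        ((exp_le_exp.2 (by linarith)).trans e3) (by positivity)), (h z hz).trans
        (mul_le_mul_of_nonneg_right (le_of_eq_of_le (by congr 1; ring) e4) (norm_nonneg _))⟩

end

end Pool.Agent.Lib.MP_45f16c_ag.AS
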