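import Pool.Agent.Lib.MP_45f16c_ag.AS.BL
import Pool.Agent.Lib.MP_45f16c_ag.AL

/-! The maximum principle with an exceptional set. -/

set_option autoImplicit false
open Metric MeasureTheory MvPolynomial Filter Module
open scoped ComplexConjugate Matrix Topology

namespace Pool.Agent.Lib.MP_45f16c_ag.AS

noncomputable section

namespace AnAux

open Real

variable {J : Type} [Fintype J] {ν : ℕ}

theorem sub_cB {z₀ : ℂ} {r r' : ℝ} (h : ‖z₀‖ ≤ 1 - r') (hr : r ≤ r') :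
    closedBall z₀ r ⊆ closedBall (0 : ℂ) 1 := fun z hz => by
  rw [mem_closedBall_iff_norm] at hz
  rw [mem_closedBall_zero_iff]
  have := norm_le_norm_add_norm_sub' z z₀
  linarith

theorem one_le_fac {z a : ℂ} (r : ℝ) (h : z ≠ a) : 1 ≤ max r ‖z - a‖ / ‖z - a‖ :=
  (one_le_div (norm_pos_iff.2 (sub_ne_zero.2 h))).2 (le_max_right _ _)

theorem one_le_Rz (a : J → ℂ) (r : ℝ) {z : ℂ} (hz : ∀ k, z ≠ a k) : 1 ≤ Rz a r z := by
  have := Finset.prod_le_prod (s := Finset.univ) (f := fun _ : J => (1 : ℝ))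
    (fun _ _ => zero_le_one) fun k _ => one_le_fac r (hz k)
  rwa [Finset.prod_const_one] at this

theorem Rz_le {P : Type} [Fintype P] {m : ℕ} (a : P × Fin m → ℂ) (r : ℝ) {z : ℂ}
    (hz : ∀ k, z ≠ a k) (p₀ : P) : Rz (fun k => a (p₀, k)) r z ≤ Rz a r z := by
  classical
  have e : Rz a r z = ∏ p, Rz (fun k => a (p, k)) r z := Fintype.prod_prod_type _
  have h1 : ∀ p, 1 ≤ Rz (fun k => a (p, k)) r z := fun p => one_le_Rz _ r fun k => hz _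
  rw [e, ← Finset.mul_prod_erase _ _ (Finset.mem_univ p₀)]
  refine le_mul_of_one_le_right (zero_le_one.trans (h1 p₀)) ?_
  have := Finset.prod_le_prod (s := Finset.univ.erase p₀) (f := fun _ : P => (1 : ℝ))
    (fun _ _ => zero_le_one) fun p _ => h1 p
  simpa using this

theorem Wz_cont (a : J → ℂ) {lam : ℝ} (hl : 0 ≤ lam) (κ : ℝ) : Continuous (Wz a lam κ) :=
  (continuous_finsetProd _ fun k _ => Continuous.rpow_const (by fun_prop)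
    fun _ => Or.inr hl).mul (by fun_prop)

theorem Wz_nonneg (a : J → ℂ) (lam κ : ℝ) (z : ℂ) : 0 ≤ Wz a lam κ z :=
  mul_nonneg (Finset.prod_nonneg fun _ _ => by positivity) (exp_pos _).le

theorem Wz_le {a : J → ℂ} (ha : ∀ k, ‖a k‖ ≤ 2) {lam κ : ℝ} (hl : 0 ≤ lam) (hκ : 0 ≤ κ) {z : ℂ}
    (hz : ‖z‖ ≤ 1) : Wz a lam κ z ≤ exp κ := by
  have h1 : ∏ k, (‖z - a k‖ / 3) ^ lam ≤ 1 := Finset.prod_le_one (fun _ _ => by positivity)
    fun k _ => rpow_le_one (by positivity) (by linarith [norm_sub_le z (a k), ha k]) hl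
  have h2 : κ * ‖z‖ ^ 2 ≤ κ := mul_le_of_le_one_right hκ (pow_le_one₀ (norm_nonneg _) hz)
  calc Wz a lam κ z ≤ 1 * exp κ :=
        mul_le_mul h1 (exp_le_exp.2 h2) (exp_pos _).le zero_le_one
    _ = _ := one_mul _

theorem avg_le {f : ℂ → Fin ν → ℂ} (hf : Differentiable ℂ f) {z₀ : ℂ} {r B : ℝ} (hr : 0 < r)
    (h : ∀ z ∈ closedBall z₀ r, f z ≠ 0 ∧ ‖f z‖ ≤ exp B * ‖f z₀‖) : Tch f z₀ r ≤ B := by
  have hs : sphere z₀ |r| ⊆ closedBall z₀ r := by rw [abs_of_pos hr]; exact sphere_subset_closedBall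
  have h0 := (h z₀ (mem_closedBall_self hr.le)).1
  have := circleAverage_mono_on_of_le_circle (a := B + lg f z₀)
    (continuousOn_lg hf.continuous.continuousOn fun z hz => (h z (hs hz)).1).circleIntegrable'
    fun z hz => by
      rw [← exp_le_exp, exp_add, exp_lg h0, exp_lg (h z (hs hz)).1]; exact (h z (hs hz)).2
  unfold Tch
  linarith

/-- An interior maximum point is very good. -/
theorem notBad (hB : BadStmt) {N' m d : ℕ} {Y : Fin N' → (Fin ν → ℂ) →ₗ[ℂ] (Fin ν → ℂ)}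
    {f : ℂ → Fin ν → ℂ} {a : (Fin N' × Fin ν) × Fin m → ℂ} {lam κ σ' s t A B C τ E : ℝ}
    (hf : Differentiable ℂ f) (hne : ∀ z ∈ closedBall (0 : ℂ) 1, f z ≠ 0)
    (hroot : ∀ ρ b (z z' : ℂ), ‖z‖ ≤ 1 → ‖z' - z‖ ≤ s → (∀ k, z ≠ a ((ρ, b), k)) →
      ‖Y ρ (f z') b‖ ≤ ‖Y ρ (f z) b‖ * (E * Rz (fun k => a ((ρ, b), k)) σ' z))
    (hosc : ∀ z ∈ closedBall (0 : ℂ) 1, ∀ z' ∈ closedBall (0 : ℂ) 1, ‖z' - z‖ ≤ σ' →
      ‖f z'‖ ≤ exp B * ‖f z‖)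
    (hβ : ∀ ρ z₀, closedBall z₀ s ⊆ closedBall 0 1 →
      (∀ z ∈ closedBall z₀ s, ‖Y ρ (f z)‖ ≤ exp (-(A / 2)) * ‖f z‖) → Tch f z₀ t ≤ τ)
    (hσ : 0 < σ') (hs : s ≤ σ') (ht : 0 < t) (htσ : t ≤ σ') (hl : 0 < lam) (hκ : 0 ≤ κ)
    (hC : 0 < C) (hE : 0 ≤ E) (n1 : 3 * E * exp B ≤ exp (A / 4))
    (n2 : C ^ 2 * exp (d * B) < exp (A / 4 * lam)) (n3 : C ^ 2 * exp (d * τ) < exp (κ * t ^ 2))
    {I : Type} [Fintype I] {U : ℂ → I → ℂ} {G : ℂ → ℝ} {z₀ : ℂ} (hU : Differentiable ℂ U)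
    (hz₀ : ‖z₀‖ ≤ 1 - σ')
    (hmax : ∀ z ∈ closedBall (0 : ℂ) 1, G z ≤ C * ‖f z‖ ^ d ∧ ‖f z‖ ^ d ≤ C * G z ∧
      ‖U z‖ / G z * Wz a lam κ z ≤ ‖U z₀‖ / G z₀ * Wz a lam κ z₀)
    (hpos : 0 < ‖U z₀‖ / G z₀ * Wz a lam κ z₀) (ρ : Fin N') :
    3 * exp (-A) * ‖f z₀‖ ≤ ‖Y ρ (f z₀)‖ := by
  by_contra hlt
  rw [not_le] at hlt
  have key : ∀ r, 0 < r → r ≤ σ' → (∀ k, z₀ ≠ a k) ∧
      Rz a r z₀ ^ lam * exp (κ * r ^ 2) ≤ C ^ 2 * exp (d * Tch f z₀ r) := fun r hr hrσ =>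
    hB _ I ν d a lam κ r C f U G z₀ hf hU hr hl hC
      (fun z hz => ⟨hne z (sub_cB hz₀ hrσ hz), hmax z (sub_cB hz₀ hrσ hz)⟩) hpos
  have hz₀m : z₀ ∈ closedBall (0 : ℂ) 1 := sub_cB hz₀ hσ.le (mem_closedBall_self le_rfl)
  have hp := norm_pos_iff.2 (hne z₀ hz₀m)
  by_cases hc : ∀ z ∈ closedBall z₀ s, ‖Y ρ (f z)‖ ≤ exp (-(A / 2)) * ‖f z‖
  · obtain ⟨h1, h2⟩ := key t ht htσ
    have h3 := hβ ρ z₀ (sub_cB hz₀ hs) hc
    have h4 : 1 ≤ Rz a t z₀ ^ lam := one_le_rpow (one_le_Rz a t h1) hl.le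
    have h5 : C ^ 2 * exp (d * Tch f z₀ t) ≤ C ^ 2 * exp (d * τ) := by gcongr
    have h6 := le_mul_of_one_le_left (exp_pos (κ * t ^ 2)).le h4
    linarith
  · simp only [not_forall, not_le] at hc
    obtain ⟨z', hz', hc⟩ := hc
    obtain ⟨h1, h2⟩ := key σ' hσ le_rfl
    have hz'm := sub_cB hz₀ hs hz'
    rw [mem_closedBall_iff_norm] at hz'
    have : Nonempty (Fin ν) := by
      by_contra h
      rw [not_nonempty_iff] at h
      exact hne z₀ hz₀m (Subsingleton.elim _ _)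
    obtain ⟨b, hb⟩ := exists_norm_eq (Y ρ (f z'))
    have a1 := hroot ρ b z₀ z' (by linarith) hz' fun k => h1 _
    have a2 := hosc z' hz'm z₀ hz₀m (by rw [norm_sub_rev]; linarith)
    have a3 := Rz_le a σ' h1 (ρ, b)
    have a0 := one_le_Rz (fun k => a ((ρ, b), k)) σ' fun k => h1 _
    have a4 : ‖Y ρ (f z') b‖ ≤ 3 * exp (-A) * ‖f z₀‖ * (E * Rz a σ' z₀) :=
      a1.trans (mul_le_mul ((norm_le_pi_norm _ b).trans hlt.le) (by gcongr) (by positivity)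
        (by positivity))
    have a5 : exp (-(A / 2)) * ‖f z₀‖ ≤ exp (-A) * exp (A / 4) * Rz a σ' z₀ * ‖f z₀‖ := by
      calc exp (-(A / 2)) * ‖f z₀‖ ≤ exp (-(A / 2)) * (exp B * ‖f z'‖) := by gcongr
        _ = exp B * (exp (-(A / 2)) * ‖f z'‖) := by ring
        _ ≤ exp B * (3 * exp (-A) * ‖f z₀‖ * (E * Rz a σ' z₀)) :=
          mul_le_mul_of_nonneg_left (hc.le.trans (hb ▸ a4)) (exp_pos _).le
        _ = exp (-A) * (3 * E * exp B) * Rz a σ' z₀ * ‖f z₀‖ := by ring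
        _ ≤ _ := by
          have : 0 ≤ Rz a σ' z₀ := by linarith
          gcongr
    have a6 : exp (A / 4) ≤ Rz a σ' z₀ := by
      have e : exp (-(A / 2)) = exp (-A) * exp (A / 4) * exp (A / 4) := by
        rw [← exp_add, ← exp_add]; congr 1; ring
      have := le_of_mul_le_mul_right a5 hp
      rw [e] at this
      exact le_of_mul_le_mul_left this (by positivity)
    have a7 : exp (A / 4 * lam) ≤ Rz a σ' z₀ ^ lam := by
      rw [exp_mul]; exact rpow_le_rpow (exp_pos _).le a6 hl.le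
    have a8 : Tch f z₀ σ' ≤ B := avg_le hf hσ fun z hz =>
      ⟨hne z (sub_cB hz₀ le_rfl hz), hosc z₀ hz₀m z (sub_cB hz₀ le_rfl hz)
        (mem_closedBall_iff_norm.1 hz)⟩
    have a9 : C ^ 2 * exp (d * Tch f z₀ σ') ≤ C ^ 2 * exp (d * B) := by gcongr
    have a10 := le_mul_of_one_le_right ((exp_pos _).le.trans a7)
      (one_le_exp (show 0 ≤ κ * σ' ^ 2 by positivity))
    linarith

/-- The maximum of the first function is large. -/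
theorem start (hJ : JmpStmt) {f : ℂ → Fin ν → ℂ} {γ : ℂ → ℂ} {a : J → ℂ} {D : ℕ}
    {lam κ σ B T x M : ℝ} (hf : Differentiable ℂ f) (hγ : Differentiable ℂ γ)
    (hne : ∀ z ∈ closedBall (0 : ℂ) 1, f z ≠ 0) (hσ : 0 < σ) (hσ1 : σ ≤ 1) (hl : 0 ≤ lam)
    (hκ : 0 ≤ κ) (hosc : ∀ z ∈ closedBall (0 : ℂ) σ, ‖f z‖ ≤ exp B * ‖f 0‖)
    (h0 : exp (T / 2) * ‖f 0‖ ≤ ‖γ 0‖) (hx : Fintype.card J * (lam * log (3 / σ)) ≤ x)
    (hM : ∀ z ∈ closedBall (0 : ℂ) 1, ‖γ z ^ D‖ / ‖f z‖ ^ D * Wz a lam κ z ≤ M) :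
    exp (D * (T / 2 - B) - x) ≤ M := by
  have hsub : closedBall (0 : ℂ) σ ⊆ closedBall 0 1 := closedBall_subset_closedBall hσ1
  have hs : sphere (0 : ℂ) σ ⊆ closedBall 0 1 := sphere_subset_closedBall.trans hsub
  have h0m : (0 : ℂ) ∈ closedBall (0 : ℂ) 1 := mem_closedBall_self zero_le_one
  have hM0 : 0 ≤ M := le_trans (mul_nonneg (by positivity) (Wz_nonneg _ _ _ _)) (hM 0 h0m)
  refine le_of_forall_pos_le_add fun e he => ?_
  have hc := continuousOn_lg hf.continuous.continuousOn fun z hz => hne z (hs hz)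
  have key := hJ J a lam κ σ (M + e) (fun z => γ z ^ D) (fun z => D * lg f z) 0 (hγ.pow D) hσ hl
    (by linarith) (continuousOn_const.mul hc) fun z hz => by
      have hp := norm_pos_iff.2 (hne z (hs hz))
      have h1 := hM z (hs hz)
      rw [exp_nat_mul, exp_lg (hne z (hs hz))]
      rw [div_mul_eq_mul_div, div_le_iff₀ (by positivity)] at h1
      exact h1.trans (by gcongr; linarith)
  have h1 : circleAverage (fun z => D * lg f z) 0 σ ≤ D * (B + lg f 0) := by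
    have h2 := avg_le hf hσ fun z hz => ⟨hne z (hsub hz), hosc z hz⟩
    have h3 : circleAverage (fun z => D * lg f z) 0 σ = D * circleAverage (lg f) 0 σ :=
      circleAverage_fun_smul (a := (D : ℝ)) (f := lg f)
    unfold Tch at h2
    rw [h3]
    gcongr
    linarith
  have h2 : exp (-x) ≤ ∏ k, (max σ ‖0 - a k‖ / 3) ^ lam := by
    calc exp (-x) ≤ exp (Fintype.card J * (log (σ / 3) * lam)) := by
          refine exp_le_exp.2 ?_
          rw [← inv_div, log_inv]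
          linarith
      _ = ∏ _ : J, (σ / 3) ^ lam := by
          rw [exp_nat_mul, ← rpow_def_of_pos (by positivity)]; simp
      _ ≤ _ := Finset.prod_le_prod (fun _ _ => by positivity) fun k _ => by
          gcongr; exact le_max_left _ _
  have h3 : exp (D * (T / 2 + lg f 0)) ≤ ‖γ 0 ^ D‖ := by
    rw [exp_nat_mul, exp_add, exp_lg (hne 0 h0m), norm_pow]; gcongr
  have h4 : 1 ≤ exp (κ * (‖(0 : ℂ)‖ ^ 2 + σ ^ 2)) := one_le_exp (by positivity)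
  have h5 : exp (D * (T / 2 + lg f 0)) * exp (-x) * 1 ≤ (M + e) * exp (D * (B + lg f 0)) :=
    le_trans (by gcongr) (key.trans (by gcongr))
  refine le_of_mul_le_mul_right (le_of_eq_of_le ?_ h5) (exp_pos _)
  rw [mul_one, ← exp_add, ← exp_add]
  congr 1
  ring

/-- The disc moves little at a small scale. -/
theorem lip {f : ℂ → Fin ν → ℂ} (hf : Differentiable ℂ f) {z₀ z : ℂ} {r δ B : ℝ} (hB : 0 ≤ B)
    (hδ : δ < r) (h : ∀ z ∈ closedBall z₀ r, ‖f z‖ ≤ exp B * ‖f z₀‖) (hz : z ∈ closedBall z₀ δ) :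
    ‖f z - f z₀‖ ≤ 2 * exp B * δ / r * ‖f z₀‖ := by
  have hr : 0 < r := (dist_nonneg.trans hz).trans_lt hδ
  have h1 := Complex.dist_le_div_mul_dist_of_mapsTo_ball (c := z₀) (R₁ := r)
    (R₂ := 2 * exp B * ‖f z₀‖) hf.differentiableOn (fun w hw => by
      rw [mem_closedBall_iff_norm]
      have h2 := h w (ball_subset_closedBall hw)
      have h3 := le_mul_of_one_le_left (norm_nonneg (f z₀)) (one_le_exp hB)
      linarith [norm_sub_le (f w) (f z₀)]) (closedBall_subset_ball hδ hz)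
  rw [dist_eq_norm] at h1
  calc _ ≤ 2 * exp B * ‖f z₀‖ / r * δ := h1.trans (by gcongr; exact hz)
    _ = _ := by ring

theorem small (b : ℕ) {c e : ℝ} (he : 0 < e) :
    ∃ g₀ : ℝ, 0 < g₀ ∧ ∀ g : ℝ, 0 < g → g ≤ g₀ → c * (g * log (3 / g ^ b)) ≤ e := by
  have h1 : Continuous fun g : ℝ => c * (g * log 3 - b * (g * log g)) :=
    continuous_const.mul ((continuous_id.mul continuous_const).sub
      (continuous_const.mul continuous_mul_log))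
  have h2 := (h1.tendsto 0).eventually_lt_const (u := e) (by simpa using he)
  obtain ⟨r, hr, h3⟩ := Metric.eventually_nhds_iff.1 h2
  refine ⟨r / 2, by positivity, fun g hg hg' => ?_⟩
  have h4 := h3 (y := g) (by rw [Real.dist_eq, sub_zero, abs_of_pos hg]; linarith)
  rw [log_div (by norm_num) (by positivity), log_pow]
  refine le_of_eq_of_le ?_ h4.le
  ring

theorem ev (C : ℝ) {c : ℝ} (hc : 0 < c) : ∀ᶠ T : ℝ in atTop, C < exp (c * T) :=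
  (tendsto_exp_atTop.comp (tendsto_id.const_mul_atTop hc)).eventually_gt_atTop C

theorem pd_Y {m : ℕ} (Y : (Fin ν → ℂ) →ₗ[ℂ] (Fin ν → ℂ)) {f : ℂ → Fin ν → ℂ}
    (hf : ∀ a, PD ℂ m fun z => f z a) (b : Fin ν) : PD ℂ m fun z => Y (f z) b :=
  (PD.sum Finset.univ fun a _ => (hf a).mul_const (Y (Pi.single a 1) b)).congr fun z => by
    conv_lhs => rw [pi_eq_sum_univ' (f z)]
    simp [map_sum]

theorem grad_two (ν d : ℕ) {η : ℝ} (hη : 0 < η) : ∃ C : ℝ, 1 ≤ C ∧ ∀ c ∈ Usm ν d η, ∀ x, x ≠ 0 →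
    ‖grad c x‖ ≤ C * ‖x‖ ^ (d - 1) ∧ ‖x‖ ^ (d - 1) ≤ C * ‖grad c x‖ := by
  have h := fun c : Mon ν d → ℂ => norm_grad_le c
  have hM := Nat.cast_nonneg (α := ℝ) (Fintype.card (Mon ν (d - 1)))
  generalize (Fintype.card (Mon ν (d - 1)) : ℝ) = M at h hM
  have h1 : 0 ≤ M * (d + 1) := by positivity
  have h2 : 0 < 1 / η := by positivity
  refine ⟨M * (d + 1) + 1 / η + 1, by linarith, fun c hc x hx => ⟨(h c x).trans ?_, ?_⟩⟩
  · have h3 := hc.1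
    calc _ ≤ M * ((d + 1) * 1) * ‖x‖ ^ (d - 1) := by gcongr
      _ ≤ _ := by gcongr; linarith
  · have h3 := Usm.le_norm_grad hc hx
    calc _ = 1 / η * (η * ‖x‖ ^ (d - 1)) := by field_simp
      _ ≤ _ := by gcongr; linarith

/-- The two maximum principles, with abstract constants. -/
theorem core (hJ : JmpStmt) (hB : BadStmt) (hG : GoodStmt) {N' m d D : ℕ}
    {Y : Fin N' → (Fin ν → ℂ) →ₗ[ℂ] (Fin ν → ℂ)} {f : ℂ → Fin ν → ℂ} {γ : ℂ → ℂ}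
    {H : ℂ → Fin ν → ℂ} {I : Type} [Fintype I] {Δ : ℂ → I × Fin ν → ℂ}
    {a : (Fin N' × Fin ν) × Fin m → ℂ} {lam κ σ σ' s t A B C τ E T x δ η c₁ CY L₁ L₂ : ℝ}
    (hf : Differentiable ℂ f) (hγ : Differentiable ℂ γ) (hH : Differentiable ℂ H)
    (hΔ : Differentiable ℂ Δ) (hne : ∀ z ∈ closedBall (0 : ℂ) 1, f z ≠ 0) (ha : ∀ k, ‖a k‖ ≤ 2)
    (hroot : ∀ ρ b (z z' : ℂ), ‖z‖ ≤ 1 → ‖z' - z‖ ≤ s → (∀ k, z ≠ a ((ρ, b), k)) →
      ‖Y ρ (f z') b‖ ≤ ‖Y ρ (f z) b‖ * (E * Rz (fun k => a ((ρ, b), k)) σ' z))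
    (hosc : ∀ z ∈ closedBall (0 : ℂ) 1, ∀ z' ∈ closedBall (0 : ℂ) 1, ‖z' - z‖ ≤ σ →
      ‖f z'‖ ≤ exp B * ‖f z‖)
    (hβ : ∀ ρ z₀, closedBall z₀ s ⊆ closedBall 0 1 →
      (∀ z ∈ closedBall z₀ s, ‖Y ρ (f z)‖ ≤ exp (-(A / 2)) * ‖f z‖) → Tch f z₀ t ≤ τ)
    (hY : ∀ ρ x, ‖Y ρ x‖ ≤ CY * ‖x‖)
    (hHC : ∀ z ∈ closedBall (0 : ℂ) 1,
      ‖H z‖ ≤ C * ‖f z‖ ^ (d - 1) ∧ ‖f z‖ ^ (d - 1) ≤ C * ‖H z‖)
    (hnear : ∀ z ∈ closedBall (0 : ℂ) 1, ∀ z', ‖f z' - f z‖ ≤ c₁ * ‖f z‖ →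
      ‖H z' - H z‖ ≤ ‖H z‖ / 4)
    (hann : ∀ z ∈ closedBall (0 : ℂ) 1, 1 - σ' < ‖z‖ → ‖γ z‖ ≤ exp (2 * B) * ‖f z‖)
    (h0 : exp (T / 2) * ‖f 0‖ ≤ ‖γ 0‖)
    (hup : ∀ z ∈ closedBall (0 : ℂ) 1, ‖Δ z‖ * ‖f z‖ ^ D ≤ exp L₁ * ‖f z‖ ^ (d - 1))
    (hgood : ∀ z ∈ closedBall (0 : ℂ) 1, (∀ ρ, exp (-A) * ‖f z‖ ≤ ‖Y ρ (f z)‖) →
      ‖f z‖ ^ (d - 1) ≤ exp L₂ * (‖Δ z‖ * ‖f z‖ ^ D) ∧
      ∀ i b b', ‖H z b‖ * ‖Δ z (i, b')‖ ≤ ‖H z b'‖ * ‖Δ z (i, b)‖ + η * ‖H z‖ * ‖Δ z‖)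
    (hD : D ≤ d) (hσ : 0 < σ') (hσσ : σ' ≤ σ) (hσ1 : σ ≤ 1) (hs : s ≤ σ') (ht : 0 < t)
    (htσ : t ≤ σ') (hl : 0 < lam) (hκ : 0 ≤ κ) (hC : 1 ≤ C) (hE : 0 ≤ E) (hB0 : 0 ≤ B)
    (hτ : 0 ≤ τ) (hδ : 0 < δ) (hδσ : δ < σ') (hη : 0 ≤ η) (hη' : η ≤ 1 / 2) (hc₁ : c₁ ≤ 1)
    (hCY : 0 ≤ CY) (hL₁ : 0 ≤ L₁) (hL₂ : 0 ≤ L₂) (n1 : 3 * E * exp B ≤ exp (A / 4))
    (n2 : C ^ 2 * exp (d * B) < exp (A / 4 * lam)) (n3 : C ^ 2 * exp (d * τ) < exp (κ * t ^ 2))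
    (n4 : (1 + 2 * η) ^ 2 < exp (κ * δ ^ 2)) (n5 : 2 * exp B * δ / σ' ≤ c₁)
    (n6 : CY * (2 * exp B * δ / σ') ≤ exp (-A))
    (n7 : (Fintype.card ((Fin N' × Fin ν) × Fin m) : ℝ) * (lam * log (3 / σ)) ≤ x)
    (n8 : C ^ 2 * exp (L₁ + L₂ + D * (2 * B) + κ) < exp (D * (T / 2 - B) - x)) : False := by
  have hC0 : 0 < C := by linarith
  have hpos : ∀ z ∈ closedBall (0 : ℂ) 1, 0 < ‖f z‖ := fun z hz => norm_pos_iff.2 (hne z hz)
  have hHpos : ∀ z ∈ closedBall (0 : ℂ) 1, 0 < ‖H z‖ := fun z hz =>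
    (mul_pos_iff_of_pos_left hC0).1 ((pow_pos (hpos z hz) _).trans_le (hHC z hz).2)
  have h0m : (0 : ℂ) ∈ closedBall (0 : ℂ) 1 := mem_closedBall_self zero_le_one
  have hW := Wz_cont a hl.le κ
  have hosc' : ∀ z ∈ closedBall (0 : ℂ) 1, ∀ z' ∈ closedBall (0 : ℂ) 1, ‖z' - z‖ ≤ σ' →
      ‖f z'‖ ≤ exp B * ‖f z‖ := fun z hz z' hz' h => hosc z hz z' hz' (h.trans hσσ)
  have nb : ∀ d' : ℕ, d' ≤ d → ∀ {I : Type} [Fintype I] {U : ℂ → I → ℂ} {G : ℂ → ℝ} {z₀ : ℂ},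
      Differentiable ℂ U → ‖z₀‖ ≤ 1 - σ' →
      (∀ z ∈ closedBall (0 : ℂ) 1, G z ≤ C * ‖f z‖ ^ d' ∧ ‖f z‖ ^ d' ≤ C * G z ∧
        ‖U z‖ / G z * Wz a lam κ z ≤ ‖U z₀‖ / G z₀ * Wz a lam κ z₀) →
      0 < ‖U z₀‖ / G z₀ * Wz a lam κ z₀ → ∀ ρ, 3 * exp (-A) * ‖f z₀‖ ≤ ‖Y ρ (f z₀)‖ :=
    fun d' hd' => notBad hB hf hne hroot hosc' hβ hσ hs ht htσ hl hκ hC0 hE n1
      (lt_of_le_of_lt (by gcongr) n2) (lt_of_le_of_lt (by gcongr) n3)
  have hγa : ∀ z ∈ closedBall (0 : ℂ) 1, 1 - σ' < ‖z‖ →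
      ‖γ z ^ D‖ * Wz a lam κ z ≤ exp (D * (2 * B) + κ) * ‖f z‖ ^ D := fun z hz h => by
    have h1 := hann z hz h
    have h2 := Wz_le ha hl.le hκ (mem_closedBall_zero_iff.1 hz)
    have h3 := Wz_nonneg a lam κ z
    calc _ ≤ (exp (2 * B) * ‖f z‖) ^ D * exp κ := by rw [norm_pow]; gcongr
      _ = _ := by rw [exp_add, exp_nat_mul, mul_pow]; ring
  -- the first maximum
  obtain ⟨z₁, hz₁, hm₁⟩ := (isCompact_closedBall (0 : ℂ) 1).exists_isMaxOn ⟨0, h0m⟩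
    (f := fun z => ‖γ z ^ D‖ / ‖f z‖ ^ D * Wz a lam κ z)
    (((hγ.continuous.pow D).norm.continuousOn.div (hf.continuous.norm.pow D).continuousOn
      fun z hz => (pow_pos (hpos z hz) D).ne').mul hW.continuousOn)
  have hM₁ := start hJ hf hγ hne (hσ.trans_le hσσ) hσ1 hl.le hκ
    (fun z hz => hosc 0 h0m z (closedBall_subset_closedBall hσ1 hz)
      (mem_closedBall_iff_norm.1 hz)) h0 n7 hm₁
  beta_reduce at hM₁
  have hp₁ := pow_pos (hpos z₁ hz₁) D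
  have hC2 : 1 ≤ C ^ 2 := one_le_pow₀ hC
  have hin₁ : ‖z₁‖ ≤ 1 - σ' := by
    by_contra h
    have h1 := hγa z₁ hz₁ (not_le.1 h)
    rw [div_mul_eq_mul_div, le_div_iff₀ hp₁] at hM₁
    have h2 := le_of_mul_le_mul_right (hM₁.trans h1) hp₁
    have h3 : exp (D * (2 * B) + κ) ≤ exp (L₁ + L₂ + D * (2 * B) + κ) := by
      refine exp_le_exp.2 (by linarith)
    have h4 := le_mul_of_one_le_left (exp_pos (L₁ + L₂ + D * (2 * B) + κ)).le hC2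
    linarith
  have hg₁ := hgood z₁ hz₁ fun ρ => le_trans (by
      have := hpos z₁ hz₁
      have := exp_pos (-A)
      nlinarith)
    (nb D hD (U := fun z (_ : Unit) => γ z ^ D) (G := fun z => ‖f z‖ ^ D)
      (differentiable_pi.2 fun _ => hγ.pow D) hin₁ (fun z hz => by
        have := le_mul_of_one_le_left (pow_pos (hpos z hz) D).le hC
        simp only [pi_norm_const]
        exact ⟨this, this, hm₁ hz⟩)
      (by simp only [pi_norm_const]; exact (exp_pos _).trans_le hM₁) ρ)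
  -- the second maximum
  obtain ⟨z₂, hz₂, hm₂⟩ := (isCompact_closedBall (0 : ℂ) 1).exists_isMaxOn ⟨0, h0m⟩
    (f := fun z => ‖Δ z‖ * ‖γ z ^ D‖ / ‖H z‖ * Wz a lam κ z)
    (((hΔ.continuous.norm.mul (hγ.continuous.pow D).norm).continuousOn.div
      hH.continuous.norm.continuousOn fun z hz => (hHpos z hz).ne').mul hW.continuousOn)
  have hM₂ : exp (D * (T / 2 - B) - x) ≤
      C * exp L₂ * (‖Δ z₂‖ * ‖γ z₂ ^ D‖ / ‖H z₂‖ * Wz a lam κ z₂) := by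
    have h1 : ‖H z₁‖ ≤ C * exp L₂ * ‖Δ z₁‖ * ‖f z₁‖ ^ D :=
      (hHC z₁ hz₁).1.trans ((mul_le_mul_of_nonneg_left hg₁.1 hC0.le).trans_eq (by ring))
    have h2 : ‖γ z₁ ^ D‖ / ‖f z₁‖ ^ D ≤ C * exp L₂ * (‖Δ z₁‖ * ‖γ z₁ ^ D‖ / ‖H z₁‖) := by
      rw [← mul_div_assoc, div_le_div_iff₀ hp₁ (hHpos z₁ hz₁)]
      exact (mul_le_mul_of_nonneg_left h1 (norm_nonneg _)).trans_eq (by ring)
    calc _ ≤ _ := hM₁
      _ ≤ C * exp L₂ * (‖Δ z₁‖ * ‖γ z₁ ^ D‖ / ‖H z₁‖) * Wz a lam κ z₁ :=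
        mul_le_mul_of_nonneg_right h2 (Wz_nonneg _ _ _ _)
      _ = C * exp L₂ * (‖Δ z₁‖ * ‖γ z₁ ^ D‖ / ‖H z₁‖ * Wz a lam κ z₁) := by ring
      _ ≤ _ := mul_le_mul_of_nonneg_left (hm₂ hz₁) (by positivity)
  have hpos₂ : 0 < ‖Δ z₂‖ * ‖γ z₂ ^ D‖ / ‖H z₂‖ * Wz a lam κ z₂ :=
    (mul_pos_iff_of_pos_left (by positivity)).1 ((exp_pos _).trans_le hM₂)
  have hin₂ : ‖z₂‖ ≤ 1 - σ' := by
    by_contra h
    have h1 := hγa z₂ hz₂ (not_le.1 h)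
    have h2 : ‖Δ z₂‖ * ‖γ z₂ ^ D‖ / ‖H z₂‖ * Wz a lam κ z₂ ≤
        C * exp L₁ * exp (D * (2 * B) + κ) := by
      rw [div_mul_eq_mul_div, div_le_iff₀ (hHpos z₂ hz₂)]
      calc _ = ‖Δ z₂‖ * (‖γ z₂ ^ D‖ * Wz a lam κ z₂) := by ring
        _ ≤ ‖Δ z₂‖ * (exp (D * (2 * B) + κ) * ‖f z₂‖ ^ D) := by gcongr
        _ = exp (D * (2 * B) + κ) * (‖Δ z₂‖ * ‖f z₂‖ ^ D) := by ring
        _ ≤ exp (D * (2 * B) + κ) * (exp L₁ * (C * ‖H z₂‖)) :=
          mul_le_mul_of_nonneg_left ((hup z₂ hz₂).trans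
            (mul_le_mul_of_nonneg_left (hHC z₂ hz₂).2 (exp_pos _).le)) (exp_pos _).le
        _ = _ := by ring
    have h3 : C * exp L₂ * (C * exp L₁ * exp (D * (2 * B) + κ)) =
        C ^ 2 * exp (L₁ + L₂ + D * (2 * B) + κ) := by
      simp only [exp_add]; ring
    have h4 := mul_le_mul_of_nonneg_left h2 (show 0 ≤ C * exp L₂ by positivity)
    linarith
  have e : ∀ z, ‖γ z ^ D • Δ z‖ = ‖Δ z‖ * ‖γ z ^ D‖ := fun z => by rw [norm_smul, mul_comm]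
  have hg₂ := nb (d - 1) (Nat.sub_le _ _) (U := fun z => γ z ^ D • Δ z) (G := fun z => ‖H z‖)
    ((hγ.pow D).smul hΔ) hin₂
    (fun z hz => ⟨(hHC z hz).1, (hHC z hz).2, by simp only [e]; exact hm₂ hz⟩)
    (by simp only [e]; exact hpos₂)
  have key := hG _ I ν a lam κ δ η H Δ (fun z => γ z ^ D) z₂ hH hΔ (hγ.pow D) hδ hl hη hη'
    (norm_pos_iff.1 (hHpos z₂ hz₂)) (fun z hz => by
      have hzm := sub_cB hin₂ hδσ.le hz
      have h1 := lip hf hB0 hδσ (fun w hw => hosc' z₂ hz₂ w (sub_cB hin₂ le_rfl hw)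
        (mem_closedBall_iff_norm.1 hw)) hz
      have hp := hpos z₂ hz₂
      have h2 : ‖f z - f z₂‖ ≤ c₁ * ‖f z₂‖ := h1.trans (by gcongr)
      refine ⟨hnear z₂ hz₂ z h2, (hgood z hzm fun ρ => ?_).2, hm₂ hzm⟩
      have h3 : ‖f z‖ ≤ 2 * ‖f z₂‖ := by
        have := norm_le_norm_add_norm_sub' (f z) (f z₂)
        nlinarith
      have h4 : ‖Y ρ (f z₂) - Y ρ (f z)‖ ≤ exp (-A) * ‖f z₂‖ := by
        rw [← map_sub]
        refine (hY ρ _).trans ?_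
        rw [norm_sub_rev]
        calc _ ≤ CY * (2 * exp B * δ / σ' * ‖f z₂‖) := by gcongr
          _ = CY * (2 * exp B * δ / σ') * ‖f z₂‖ := by ring
          _ ≤ _ := by gcongr
      have h5 := norm_le_norm_add_norm_sub' (Y ρ (f z₂)) (Y ρ (f z))
      have h6 := hg₂ ρ
      have h7 := mul_le_mul_of_nonneg_left h3 (exp_pos (-A)).le
      linarith) hpos₂
  linarith

end AnAux

open AnAux Real in
theorem anS (hR : RootsStmt) (hJ : JmpStmt) (hA : AnnStmt) (hB : BadStmt) (hG : GoodStmt) : AnStmt := by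
  intro ν d D N b K η τ C₁ CY hd hD hDd hN hK hη hC₁ hCY
  obtain ⟨c₁, hc₁, hc₁', hnear⟩ := ALAux.grad_near (ν := ν) hd hη
  obtain ⟨C, hC1, hC⟩ := grad_two ν d hη
  obtain ⟨g₁, hg₁, hsm⟩ := small b (c := N * ν * K * (8 * d * N)) (e := 1 / 100) (by norm_num)
  have hN' : (1 : ℝ) ≤ N := by exact_mod_cast hN
  have hd' : (2 : ℝ) ≤ d := by exact_mod_cast hd
  have hD' : (1 : ℝ) ≤ D := by exact_mod_cast hD
  refine ⟨min g₁ (min (1 / 36) (1 / ((K + 1) * (8 * N)))), by positivity, fun g hg hg' => ?_⟩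
  have g1 := hsm g hg (hg'.trans (min_le_left _ _))
  have g2 : g ≤ 1 / 36 := hg'.trans ((min_le_right _ _).trans (min_le_left _ _))
  have g3 : g * (K + 1) ≤ 1 / (8 * N) := by
    have := hg'.trans ((min_le_right _ _).trans (min_le_right _ _))
    rw [le_div_iff₀ (by positivity)] at this ⊢
    linarith
  obtain ⟨σ, hσ⟩ : ∃ σ : ℝ, σ = g ^ b := ⟨_, rfl⟩
  have hσ0 : 0 < σ := by rw [hσ]; positivity
  have hσ1 : σ ≤ 1 := by rw [hσ]; exact pow_le_one₀ hg.le (by linarith)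
  rw [← hσ] at g1 ⊢
  obtain ⟨σ', hσ'⟩ : ∃ σ' : ℝ, σ' = g * σ ^ 2 / (4 * K) := ⟨_, rfl⟩
  have hσ'0 : 0 < σ' := by rw [hσ']; positivity
  have hσσ : σ' ≤ σ := by
    rw [hσ', div_le_iff₀ (by positivity)]
    have : g * σ ≤ 4 * K := by nlinarith
    nlinarith
  obtain ⟨t, ht⟩ : ∃ t : ℝ, t = g * σ' / C₁ := ⟨_, rfl⟩
  have ht0 : 0 < t := by rw [ht]; positivity
  have hCt : C₁ * t = g * σ' := by rw [ht]; field_simp
  have hs : g * σ' ≤ σ' := by nlinarith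
  have htσ : t ≤ σ' := by nlinarith
  have hN8 : 0 < 1 / (8 * (N : ℝ)) := by positivity
  filter_upwards [eventually_gt_atTop 0, ev 3 hN8, ev (C ^ 2) hg,
    ev (C ^ 2 * exp (d * |τ|)) (show 0 < t ^ 2 / 100 by positivity), ev (2 / c₁) hN8,
    ev (2 * CY) hN8, eventually_gt_atTop (400 / σ' ^ 2), ev (C ^ 2) (show 0 < 1 / 20 by norm_num)]
    with T hT e1 e2 e3 e4 e5 e6 e7
  intro c hc I _ N' m Y f γ Δ hN'N hm hY hf hγ hΔ habs hosc hcirc h0 hup hgood hβ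
  have hfd : Differentiable ℂ f := differentiable_pi.2 fun a => (hf a).differentiable
  have hne : ∀ z ∈ closedBall (0 : ℂ) 1, f z ≠ 0 := fun z hz =>
    norm_pos_iff.1 ((exp_pos _).trans_le (habs z hz).1)
  choose a ha hroot using fun k : Fin N' × Fin ν => hR m _ (pd_Y (Y k.1) hf k.2)
  obtain ⟨u, hu⟩ : ∃ u : ℝ, u = 1 / (8 * N) * T := ⟨_, rfl⟩
  have hu0 : 0 < u := by rw [hu]; positivity
  have hTN : T / N = 8 * u := by rw [hu]; field_simp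
  have hgu : g * (K + 1) * T ≤ u := by rw [hu]; gcongr
  have hgT : 0 < g * T := by positivity
  have hgK : 0 < K * (g * T) := by positivity
  rw [← hu] at e1 e4 e5
  have e8 : 8 * T / N = 64 * u := by rw [mul_div_assoc, hTN]; ring
  have e9 : T / (2 * N) = 8 * u / 2 := by rw [← hTN]; field_simp
  rw [hTN, e8] at hgood
  rw [e9] at hβ
  have hω : 2 * exp (g * T) * (σ' * exp (-(16 * u))) / σ' = 2 * exp (g * T - 16 * u) := by
    rw [sub_eq_add_neg, exp_add]; field_simp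
  have hη2 : exp (-(64 * u)) ≤ exp (-u) := exp_le_exp.2 (by linarith)
  have hη3 : exp (-u) * exp u = 1 := by rw [← exp_add]; simp
  have hη4 := exp_pos (-u)
  have hgu' : K * (g * T) + g * T ≤ u := le_of_eq_of_le (by ring) hgu
  have hη5 : exp (-(64 * u)) ≤ 1 / 2 := by
    have := mul_le_mul_of_nonneg_left e1.le hη4.le
    linarith
  refine core hJ hB hG (a := fun k => a k.1 k.2) (lam := 8 * d * N * g) (κ := T / 100) (σ' := σ')
    (s := g * σ') (t := t) (A := 8 * u) (C := C) (τ := |τ|) (E := exp (K * (g * T)))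
    (x := T / 100) (δ := σ' * exp (-(16 * u))) (H := fun z => grad c (f z)) (c₁ := c₁)
    hfd hγ (differentiable_grad c hfd) hΔ hne (fun k => ha _ _) (fun ρ b z z' hz hz' hk => ?_) hosc
    (fun ρ z₀ h1 h2 => (hβ ρ z₀ t ht0 (hCt ▸ h1) (hCt ▸ h2)).trans (le_abs_self _)) hY
    (fun z hz => hC c hc _ (hne z hz)) (fun z hz z' h => hnear c hc _ _ (hne z hz) h)
    (fun z hz h => ?_) h0 hup
    hgood hDd hσ'0 hσσ hσ1 hs ht0 htσ (by positivity) (by positivity) hC1 (exp_pos _).le hgT.le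
    (abs_nonneg _) (by positivity) ?_ (exp_pos _).le hη5 (by linarith) (by linarith)
    (by positivity) (by positivity) ?_ ?_ ?_ ?_ ?_ ?_ ?_ ?_
  · refine (hroot (ρ, b) z z' σ' _ hz hσ'0 (hσσ.trans hσ1) hz' hk).trans ?_
    have h1 := one_le_Rz _ σ' hk
    have h2 : m * (g * σ') / σ' ≤ K * (g * T) := by
      rw [mul_div_assoc, mul_div_assoc, div_self hσ'0.ne']
      have := mul_le_mul_of_nonneg_right hm hg.le
      linarith
    gcongr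
  · refine (hA ν f γ (K * T) (g * T) σ hfd hγ hσ0 hgT.le habs hosc hcirc z hz).trans ?_
    have h1 : 4 * (K * T) * (1 - ‖z‖) / σ ^ 2 ≤ 4 * (K * T) * σ' / σ ^ 2 := by
      gcongr; linarith
    have h2 : 4 * (K * T) * σ' / σ ^ 2 = g * T := by rw [hσ']; field_simp
    gcongr
    linarith
  · exact mul_lt_of_lt_one_right hσ'0 (exp_lt_one_iff.2 (by linarith))
  · calc 3 * exp (K * (g * T)) * exp (g * T) = 3 * exp (g * (K + 1) * T) := by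
          rw [mul_assoc, ← exp_add]; congr 2; ring
      _ ≤ exp u * exp u := by gcongr
      _ = _ := by rw [← exp_add]; congr 1; ring
  · calc C ^ 2 * exp (d * (g * T)) < exp (g * T) * exp (d * (g * T)) := by gcongr
      _ ≤ _ := by
        rw [← exp_add, exp_le_exp]
        have : 8 * u / 4 * (8 * d * N * g) = 2 * (d * (g * T)) := by rw [hu]; field_simp; ring
        have := mul_le_mul_of_nonneg_right hd' hgT.le
        linarith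
  · exact e3.trans_eq (by congr 1; ring)
  · have h1 : (1 + 2 * exp (-(64 * u))) ^ 2 ≤ exp (2 * exp (-(64 * u))) ^ 2 := by
      gcongr
      linarith [add_one_le_exp (2 * exp (-(64 * u)))]
    refine h1.trans_lt ?_
    rw [← exp_nat_mul, exp_lt_exp, mul_pow, ← exp_nat_mul]
    rw [div_lt_iff₀ (by positivity)] at e6
    have h2 : exp (-(64 * u)) ≤ exp (((2 : ℕ) : ℝ) * -(16 * u)) :=
      exp_le_exp.2 (by push_cast; linarith)
    have h3 := mul_lt_mul_of_pos_right e6 (exp_pos (((2 : ℕ) : ℝ) * -(16 * u)))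
    rw [Nat.cast_ofNat] at h2 h3 ⊢
    linarith
  · rw [hω]
    rw [div_lt_iff₀ hc₁] at e4
    have h1 : exp (g * T - 16 * u) ≤ exp (-u) := exp_le_exp.2 (by linarith)
    calc _ ≤ exp u * c₁ * exp (-u) := by gcongr
      _ = exp (-u) * exp u * c₁ := by ring
      _ = _ := by rw [hη3, one_mul]
  · rw [hω]
    calc CY * (2 * exp (g * T - 16 * u)) = 2 * CY * exp (g * T - 16 * u) := by ring
      _ ≤ exp u * exp (g * T - 16 * u) := by gcongr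
      _ ≤ _ := by rw [← exp_add, exp_le_exp]; linarith
  · have h1 : 0 ≤ log (3 / σ) := log_nonneg ((one_le_div hσ0).2 (by linarith))
    have h2 : (N' : ℝ) ≤ N := by exact_mod_cast hN'N
    simp only [Fintype.card_prod, Fintype.card_fin]
    push_cast
    calc _ ≤ N * ν * (K * T) * (8 * d * N * g * log (3 / σ)) := by gcongr
      _ = N * ν * K * (8 * d * N) * (g * log (3 / σ)) * T := by ring
      _ ≤ 1 / 100 * T := by gcongr
      _ = _ := by ring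
  · calc _ < exp (1 / 20 * T) * exp (D * T / 3 + T / 100 + D * (2 * (g * T)) + T / 100) := by gcongr
      _ ≤ _ := by
        rw [← exp_add, exp_le_exp]
        have h1 : T ≤ D * T := le_mul_of_one_le_left hT.le hD'
        have h2 : g * (D * T) ≤ 1 / 36 * (D * T) := by gcongr
        linarith

end

end Pool.Agent.Lib.MP_45f16c_ag.AS
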