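import Pool.Agent.Lib.MP_45f16c_ag.AS.BL
import Pool.Agent.Lib.MP_45f16c_ag.Three

/-! Jumps from a maximum point. -/

set_option autoImplicit false
open Metric MeasureTheory MvPolynomial Filter Module
open scoped ComplexConjugate Matrix Topology

namespace Pool.Agent.Lib.MP_45f16c_ag.AS

noncomputable section

namespace BadAux

variable {J : Type} [Fintype J] {a : J → ℂ} {lam κ r : ℝ} {z₀ : ℂ}

theorem Wz_nonneg (z : ℂ) : 0 ≤ Wz a lam κ z :=
  mul_nonneg (Finset.prod_nonneg fun _ _ => by positivity) (Real.exp_pos _).le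

theorem ne_of_Wz (hl : 0 < lam) (hW : Wz a lam κ z₀ ≠ 0) (k : J) : z₀ ≠ a k := by
  intro h
  refine hW (mul_eq_zero_of_left (Finset.prod_eq_zero (Finset.mem_univ k) ?_) _)
  rw [h, sub_self, norm_zero, zero_div, Real.zero_rpow hl.ne']

theorem one_le_Rz (h : ∀ k, z₀ ≠ a k) : 1 ≤ Rz a r z₀ :=
  Finset.one_le_prod fun k _ =>
    (one_le_div (norm_pos_iff.2 (sub_ne_zero.2 (h k)))).2 (le_max_right _ _)

theorem jump (hJ : JmpStmt) {M : ℝ} {u : ℂ → ℂ} {φ : ℂ → ℝ} (hu : Differentiable ℂ u) (hr : 0 < r)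
    (hl : 0 < lam) (hM : 0 < M) (hφ : ContinuousOn φ (sphere z₀ r)) (h0 : ∀ k, z₀ ≠ a k)
    (h : ∀ z ∈ sphere z₀ r, ‖u z‖ * Wz a lam κ z ≤ M * Real.exp (φ z)) :
    ‖u z₀‖ * Wz a lam κ z₀ * (Rz a r z₀ ^ lam * Real.exp (κ * r ^ 2)) ≤
      M * Real.exp (Real.circleAverage φ z₀ r) := by
  refine le_of_eq_of_le ?_ (hJ J a lam κ r M u φ z₀ hu hr hl.le hM hφ h)
  have e : ∏ k, (max r ‖z₀ - a k‖ / 3) ^ lam =
      (∏ k, (‖z₀ - a k‖ / 3) ^ lam) * Rz a r z₀ ^ lam := by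
    rw [Rz, ← Real.finsetProd_rpow _ _ (fun k _ => by positivity), ← Finset.prod_mul_distrib]
    refine Finset.prod_congr rfl fun k _ => ?_
    have hk : ‖z₀ - a k‖ ≠ 0 := norm_ne_zero_iff.2 (sub_ne_zero.2 (h0 k))
    rw [← Real.mul_rpow (by positivity) (by positivity)]
    congr 1
    field_simp
  rw [e, Wz, mul_add, Real.exp_add]
  ring

end BadAux

open BadAux

theorem badS (hJ : JmpStmt) : BadStmt := by
  intro J I _ _ ν d a lam κ r C f U G z₀ hf hU hr hl hC h hM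
  have hW : Wz a lam κ z₀ ≠ 0 := fun e => by rw [e, mul_zero] at hM; exact lt_irrefl _ hM
  have hU0 : U z₀ ≠ 0 := fun e => by
    rw [e, norm_zero, zero_div, zero_mul] at hM; exact lt_irrefl _ hM
  have h0 := ne_of_Wz hl hW
  refine ⟨h0, ?_⟩
  have hG : ∀ z ∈ closedBall z₀ r, 0 < G z := fun z hz =>
    pos_of_mul_pos_right ((pow_pos (norm_pos_iff.2 (h z hz).1) d).trans_le (h z hz).2.2.1) hC.le
  have hz₀ : z₀ ∈ closedBall z₀ r := mem_closedBall_self hr.le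
  have : Nonempty I := by
    by_contra hI
    rw [not_nonempty_iff] at hI
    exact hU0 (Subsingleton.elim _ _)
  obtain ⟨i, hi⟩ := exists_norm_eq (U z₀)
  have hlg : ContinuousOn (lg f) (sphere z₀ r) :=
    continuousOn_lg hf.continuous.continuousOn fun z hz => (h z (sphere_subset_closedBall hz)).1
  have hlg' : ContinuousOn (fun z => (d : ℝ) • lg f z) (sphere z₀ r) := hlg.const_smul (d : ℝ)
  have hpw : ∀ z ∈ closedBall z₀ r, Real.exp (d * lg f z) = ‖f z‖ ^ d := fun z hz => by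
    rw [Real.exp_nat_mul, exp_lg (h z hz).1]
  have key := jump (κ := κ) (φ := fun z => Real.log C + (d : ℝ) • lg f z) hJ
    (differentiable_pi.1 hU i) hr hl hM (continuousOn_const.add hlg') h0
    fun z hz => by
      have hz' := sphere_subset_closedBall hz
      obtain ⟨-, h1, -, h2⟩ := h z hz'
      have h3 := hG z hz'
      rw [Real.exp_add, Real.exp_log hC, smul_eq_mul, hpw z hz']
      calc ‖U z i‖ * Wz a lam κ z ≤ ‖U z‖ * Wz a lam κ z :=
            mul_le_mul_of_nonneg_right (norm_le_pi_norm _ _) (Wz_nonneg _)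
        _ = ‖U z‖ / G z * Wz a lam κ z * G z := by field_simp
        _ ≤ _ := mul_le_mul h2 h1 h3.le hM.le
  rw [Real.circleAverage_fun_add (circleIntegrable_const _ _ _)
    (hlg'.circleIntegrable hr.le), Real.circleAverage_const,
    Real.circleAverage_fun_smul, Real.exp_add, Real.exp_log hC, smul_eq_mul, hi] at key
  have hG0 := hG z₀ hz₀
  have h1 := (h z₀ hz₀).2.2.1
  rw [← hpw z₀ hz₀] at h1
  have e : Real.exp (d * Real.circleAverage (lg f) z₀ r) =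
      Real.exp (d * lg f z₀) * Real.exp (d * Tch f z₀ r) := by
    rw [← Real.exp_add, Tch]; congr 1; ring
  rw [e] at key
  refine le_of_mul_le_mul_left ?_ (mul_pos hM hG0)
  calc _ = ‖U z₀‖ * Wz a lam κ z₀ * (Rz a r z₀ ^ lam * Real.exp (κ * r ^ 2)) := by field_simp
    _ ≤ _ := key
    _ ≤ ‖U z₀‖ / G z₀ * Wz a lam κ z₀ * (C * (C * G z₀ * Real.exp (d * Tch f z₀ r))) := by
        gcongr
    _ = _ := by ring

theorem goodS (hJ : JmpStmt) : GoodStmt := by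
  intro J I _ _ ν a lam κ δ η H Δ γ z₀ hH hΔ hγ hδ hl hη hη2 hH0 h hM
  have hW : Wz a lam κ z₀ ≠ 0 := fun e => by rw [e, mul_zero] at hM; exact lt_irrefl _ hM
  have hΔ0 : Δ z₀ ≠ 0 := fun e => by
    rw [e, norm_zero, zero_mul, zero_div, zero_mul] at hM; exact lt_irrefl _ hM
  have h0 := ne_of_Wz hl hW
  have hz₀ : z₀ ∈ closedBall z₀ δ := mem_closedBall_self hδ.le
  have : Nonempty (I × Fin ν) := by
    by_contra hI
    rw [not_nonempty_iff] at hI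
    exact hΔ0 (Subsingleton.elim _ _)
  obtain ⟨⟨i, b'⟩, hi⟩ := exists_norm_eq (Δ z₀)
  have : Nonempty (Fin ν) := ⟨b'⟩
  obtain ⟨b, hb⟩ := exists_norm_eq (H z₀)
  have hp₀ : 0 < ‖H z₀‖ := norm_pos_iff.2 hH0
  have hnear : ∀ z ∈ closedBall z₀ δ, ‖H z‖ ≤ 2 * ‖H z b‖ ∧ 0 < ‖H z b‖ := fun z hz => by
    have h1 := (h z hz).1
    have h2 : ‖H z b - H z₀ b‖ ≤ ‖H z - H z₀‖ := norm_le_pi_norm (H z - H z₀) b
    have h3 := norm_le_norm_add_norm_sub' (H z) (H z₀)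
    have h4 := norm_le_norm_add_norm_sub (H z b) (H z₀ b)
    constructor <;> linarith
  have hHb : Differentiable ℂ fun z => H z b := differentiable_pi.1 hH b
  have hlg : ContinuousOn (fun z => Real.log ‖H z b‖) (sphere z₀ δ) :=
    hHb.continuous.norm.continuousOn.log fun z hz => (hnear z (sphere_subset_closedBall hz)).2.ne'
  have hη1 : 0 < 1 + 2 * η := by positivity
  have key := jump (κ := κ) (u := fun z => Δ z (i, b) * γ z)
    (φ := fun z => Real.log (1 + 2 * η) + Real.log ‖H z b‖) hJ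
    ((differentiable_pi.1 hΔ (i, b)).mul hγ) hδ hl hM (continuousOn_const.add hlg) h0
    fun z hz => by
      have hz' := sphere_subset_closedBall hz
      obtain ⟨h1, h2⟩ := hnear z hz'
      obtain ⟨a', ha'⟩ := exists_norm_eq (H z)
      have hp : 0 < ‖H z‖ := h2.trans_le (norm_le_pi_norm _ _)
      have h3 := (h z hz').2.1 i a' b
      rw [ha'] at h3
      have h4 : ‖H z b‖ * ‖Δ z (i, a')‖ ≤ ‖H z b‖ * ‖Δ z‖ :=
        mul_le_mul_of_nonneg_left (norm_le_pi_norm _ _) h2.le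
      have h5 : η * ‖H z‖ * ‖Δ z‖ ≤ η * (2 * ‖H z b‖) * ‖Δ z‖ := by gcongr
      have h6 : ‖Δ z (i, b)‖ ≤ (1 + 2 * η) * ‖H z b‖ * (‖Δ z‖ / ‖H z‖) := by
        rw [← mul_div_assoc, le_div_iff₀ hp]; linarith
      have h7 := Wz_nonneg (a := a) (lam := lam) (κ := κ) z
      rw [Real.exp_add, Real.exp_log hη1, Real.exp_log h2, norm_mul]
      calc ‖Δ z (i, b)‖ * ‖γ z‖ * Wz a lam κ z
          ≤ (1 + 2 * η) * ‖H z b‖ * (‖Δ z‖ / ‖H z‖) * ‖γ z‖ * Wz a lam κ z := by gcongr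
        _ = ‖Δ z‖ * ‖γ z‖ / ‖H z‖ * Wz a lam κ z * ((1 + 2 * η) * ‖H z b‖) := by ring
        _ ≤ _ := mul_le_mul_of_nonneg_right (h z hz').2.2 (by positivity)
  have hav : Real.circleAverage (fun z => Real.log ‖H z b‖) z₀ δ = Real.log ‖H z₀ b‖ :=
    AnalyticOnNhd.circleAverage_log_norm_of_ne_zero (g := fun z => H z b)
      (fun z _ => hHb.analyticAt z) fun z hz =>
        norm_pos_iff.1 (hnear z (by rwa [abs_of_pos hδ] at hz)).2
  rw [Real.circleAverage_fun_add (circleIntegrable_const _ _ _) (hlg.circleIntegrable hδ.le),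
    Real.circleAverage_const, hav, hb, Real.exp_add, Real.exp_log hη1, Real.exp_log hp₀,
    norm_mul] at key
  have h1 := (h z₀ hz₀).2.1 i b b'
  rw [hb, hi] at h1
  have h2 : ‖H z₀ b'‖ * ‖Δ z₀ (i, b)‖ ≤ ‖H z₀‖ * ‖Δ z₀ (i, b)‖ :=
    mul_le_mul_of_nonneg_right (norm_le_pi_norm _ _) (norm_nonneg _)
  have h3 : ‖Δ z₀‖ ≤ ‖Δ z₀ (i, b)‖ + η * ‖Δ z₀‖ := by
    refine le_of_mul_le_mul_left ?_ hp₀
    linarith
  have h4 : ‖Δ z₀‖ ≤ (1 + 2 * η) * ‖Δ z₀ (i, b)‖ := by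
    have h5 : 0 ≤ η * (1 - 2 * η) * ‖Δ z₀‖ :=
      mul_nonneg (mul_nonneg hη (by linarith)) (norm_nonneg _)
    have h6 := mul_le_mul_of_nonneg_left h3 hη1.le
    nlinarith
  have h7 := Wz_nonneg (a := a) (lam := lam) (κ := κ) z₀
  have h8 : 1 ≤ Rz a δ z₀ ^ lam := Real.one_le_rpow (one_le_Rz h0) hl.le
  refine le_of_mul_le_mul_left ?_ (mul_pos hM hp₀)
  calc _ = ‖Δ z₀‖ * ‖γ z₀‖ * Wz a lam κ z₀ * (1 * Real.exp (κ * δ ^ 2)) := by field_simp
    _ ≤ (1 + 2 * η) * ‖Δ z₀ (i, b)‖ * ‖γ z₀‖ * Wz a lam κ z₀ *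
        (Rz a δ z₀ ^ lam * Real.exp (κ * δ ^ 2)) := by gcongr
    _ = (1 + 2 * η) * (‖Δ z₀ (i, b)‖ * ‖γ z₀‖ * Wz a lam κ z₀ *
        (Rz a δ z₀ ^ lam * Real.exp (κ * δ ^ 2))) := by ring
    _ ≤ (1 + 2 * η) * _ := mul_le_mul_of_nonneg_left key hη1.le
    _ = _ := by ring

end

end Pool.Agent.Lib.MP_45f16c_ag.AS
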