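import Pool.Agent.Lib.MP_45f16c_ag.AS.BL

/-! Discs close to a section, and relative data. -/

set_option autoImplicit false
open Metric MeasureTheory MvPolynomial Filter Module
open scoped ComplexConjugate Matrix Topology

namespace Pool.Agent.Lib.MP_45f16c_ag.AS

noncomputable section

theorem htS : HtStmt := by
  intro ν d p ζ hd hζ
  obtain ⟨M, hM⟩ : ∃ M : ℝ, M = Fintype.card (Mon ν d) * d * 2 ^ d := ⟨_, rfl⟩
  have M0 : 0 ≤ M := by rw [hM]; positivity
  have p0 : (0 : ℝ) < 2 * p + 2 := by positivity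
  refine ⟨min (1 / 2) (ζ / ((1 + M) * (2 * p + 2) ^ d)), by positivity,
    fun c τ C e A f a t hc hC hH he hA hf ht h => ?_⟩
  generalize hδ : min (1 / 2) (ζ / ((1 + M) * (2 * p + 2) ^ d)) = δ at h
  have d0 : 0 ≤ δ := by rw [← hδ]; positivity
  have d1 : δ ≤ 1 / 2 := hδ ▸ min_le_left _ _
  have d2 : δ * ((1 + M) * (2 * p + 2) ^ d) ≤ ζ :=
    (le_div_iff₀ (by positivity)).1 (hδ ▸ min_le_right _ _)
  let g : ℂ → Fin p → ℂ := fun z i => f z (e i)
  have hg : Differentiable ℂ g := differentiable_pi.2 fun i => differentiable_pi.1 hf (e i)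
  have e1 : ∀ z, lin e A (g z) = f z - res e A (f z) := fun z => (sub_sub_cancel _ _).symm
  have k1 : ∀ z ∈ closedBall a (C * t), ‖f z‖ ≤ (2 * p + 2) * ‖g z‖ := fun z hz => by
    have a1 := (h z hz).2.2.trans (mul_le_mul_of_nonneg_right d1 (norm_nonneg _))
    have a2 : ‖lin e A (g z)‖ ≤ (p * 1 + 1) * ‖g z‖ := (norm_lin_le he A _).trans (by gcongr)
    have a3 := norm_sub_norm_le (f z) (res e A (f z))
    rw [← e1] at a3
    linarith
  have k2 : ∀ z ∈ closedBall a (C * t), g z ≠ 0 := fun z hz k => by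
    have a1 := k1 z hz
    rw [k, norm_zero, mul_zero] at a1
    exact (h z hz).1 (norm_le_zero_iff.1 a1)
  have k3 := hH e A g a t he hA hg ht fun z hz => ⟨k2 z hz, by
    obtain ⟨-, b1, b2⟩ := h z hz
    have n0 := norm_nonneg (f z)
    have a1 := b2.trans (mul_le_mul_of_nonneg_right d1 n0)
    have a2 : ‖lin e A (g z)‖ ≤ 2 * ‖f z‖ := by
      rw [e1]
      linarith [norm_sub_le (f z) (res e A (f z))]
    have a3 := form_lip c a2 (show ‖f z‖ ≤ 2 * ‖f z‖ by linarith)
    rw [e1, sub_sub_cancel_left, norm_neg, ← e1] at a3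
    have a4 : (Fintype.card (Mon ν d) : ℝ) * ‖c‖ * (d * ‖res e A (f z)‖ * (2 * ‖f z‖) ^ (d - 1)) ≤
        δ * M * ‖f z‖ ^ d := by
      obtain ⟨n, rfl⟩ := Nat.exists_eq_add_of_le' hd
      rw [Nat.add_sub_cancel, hM]
      calc _ ≤ (Fintype.card (Mon ν (n + 1)) : ℝ) * 1 *
            ((n + 1 : ℕ) * (δ * ‖f z‖) * (2 * ‖f z‖) ^ n * 2) := by
            refine mul_le_mul (by gcongr) (le_trans ?_ (le_mul_of_one_le_right (by positivity)
              one_le_two)) (by positivity) (by positivity)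
            gcongr
        _ = _ := by ring
    have a5 := norm_le_norm_add_norm_sub' (eval (lin e A (g z)) (form c)) (eval (f z) (form c))
    have a6 : ‖f z‖ ^ d ≤ (2 * p + 2) ^ d * ‖g z‖ ^ d := by
      rw [← mul_pow]
      exact pow_le_pow_left₀ n0 (k1 z hz) d
    calc _ ≤ δ * (1 + M) * ‖f z‖ ^ d := by linarith
      _ ≤ δ * (1 + M) * ((2 * p + 2) ^ d * ‖g z‖ ^ d) := by gcongr
      _ = δ * ((1 + M) * (2 * p + 2) ^ d) * ‖g z‖ ^ d := by ring
      _ ≤ _ := by gcongr⟩
  have sub : sphere a |t| ⊆ closedBall a (C * t) := sphere_subset_closedBall.trans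
    (closedBall_subset_closedBall (by rw [abs_of_pos ht]; exact le_mul_of_one_le_left ht.le hC))
  have i1 : CircleIntegrable (lg f) a t :=
    (continuousOn_lg hf.continuous.continuousOn fun z hz => (h z (sub hz)).1).circleIntegrable'
  have i2 : CircleIntegrable (lg g) a t :=
    (continuousOn_lg hg.continuous.continuousOn fun z hz => k2 z (sub hz)).circleIntegrable'
  have i3 : CircleIntegrable (fun _ : ℂ => Real.log (2 * p + 2)) a t := circleIntegrable_const _ _ _
  have k4 := Real.circleAverage_mono i1 (i2.add i3) fun z hz => by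
    change Real.log ‖f z‖ ≤ Real.log ‖g z‖ + Real.log (2 * p + 2)
    rw [← Real.log_mul (norm_ne_zero_iff.2 (k2 z (sub hz))) p0.ne', mul_comm]
    exact Real.log_le_log (norm_pos_iff.2 (h z (sub hz)).1) (k1 z (sub hz))
  rw [Real.circleAverage_add i2 i3, Real.circleAverage_const] at k4
  have k5 : lg g a ≤ lg f a := Real.log_le_log (norm_pos_iff.2 (k2 a (mem_closedBall_self
    (mul_nonneg (zero_le_one.trans hC) ht.le)))) (norm_comp_le e (f a))
  unfold Tch at k3 ⊢
  linarith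

theorem relS : RelStmt := by
  rintro ν d j N K ε θ s s₀ T ρ Γ cl c h0 h1 h2 hT hv ho ⟨m, y, f, ξ, γ, hm, h⟩
  have t0 : 0 ≤ θ * T := mul_nonneg h0.le hT
  have up : ∀ {u v x : ℝ}, u ≤ v → 0 ≤ x → Real.exp u * x ≤ Real.exp v * x := fun k hx =>
    mul_le_mul_of_nonneg_right (Real.exp_le_exp.2 k) hx
  have st : ∀ {u v x x' : ℝ}, x ≤ Real.exp v * x' → Real.exp u * x ≤ Real.exp (u + v) * x' :=
    fun k => by
      rw [Real.exp_add, mul_assoc]
      exact mul_le_mul_of_nonneg_left k (Real.exp_pos _).le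
  refine ⟨y, f, ξ, γ, h.hy, ⟨m, hm, h.pf⟩, h.dξ, h.dγ, h.abs, fun z hz z' hz' hs => ?_,
    fun z hz n => ?_, h.err, h.onX, h.lip, h.circ, le_trans (up ?_ (norm_nonneg _)) h.g0⟩
  · obtain ⟨i, hi⟩ := hv.cover z (mem_closedBall_zero_iff.1 hz)
    obtain ⟨i', hi'⟩ := hv.cover z' (mem_closedBall_zero_iff.1 hz')
    exact (h.hi i' z' hi').trans ((st (st ((ho i i' z hi z' hi' hs).trans
      (st (h.lo i z hi))))).trans (up (by linarith) (norm_nonneg _)))
  · obtain ⟨i, hi⟩ := hv.cover z (mem_closedBall_zero_iff.1 hz)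
    refine (h.hξ i z hi n).trans ((st (st (h.lo i z hi))).trans (up ?_ (norm_nonneg _)))
    nlinarith [mul_le_mul_of_nonneg_right h2 hT]
  · nlinarith [mul_le_mul_of_nonneg_right h1 hT]

end

end Pool.Agent.Lib.MP_45f16c_ag.AS
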