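import Pool.Agent.Lib.MP_45f16c_ag.AS.BL
import Pool.Agent.Lib.MP_45f16c_ag.Three

/-! The sub-mean inequality with weights. -/

set_option autoImplicit false
open Metric MeasureTheory MvPolynomial Filter Module
open scoped ComplexConjugate Matrix Topology

namespace Pool.Agent.Lib.MP_45f16c_ag.AS

noncomputable section

namespace JmpAux

variable {J : Type} [Fintype J]

/-- The logarithm of the weight. -/
def L (a : J → ℂ) (lam κ : ℝ) (z : ℂ) : ℝ :=
  lam * ∑ k, (Real.log ‖z - a k‖ - Real.log 3) + κ * ‖z‖ ^ 2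

theorem nrm (x : Fin 2 → ℂ) : ∃ i, ‖x i‖ = ‖x‖ := by
  obtain ⟨i, hi⟩ := Finite.exists_max fun i => ‖x i‖
  exact ⟨i, le_antisymm (norm_le_pi_norm x i) ((pi_norm_le_iff_of_nonneg (norm_nonneg _)).2 hi)⟩

theorem cont (a : J → ℂ) {lam : ℝ} (hl : 0 ≤ lam) (κ : ℝ) : Continuous (Wz a lam κ) := by
  unfold Wz
  refine (continuous_finsetProd _ fun k _ => ?_).mul (by fun_prop)
  exact Continuous.rpow_const (by fun_prop) fun _ => Or.inr hl

theorem prod_eq (t : J → ℝ) (lam : ℝ) (ht : ∀ k, 0 < t k) :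
    ∏ k, (t k / 3) ^ lam = Real.exp (lam * ∑ k, (Real.log (t k) - Real.log 3)) := by
  rw [Finset.mul_sum, Real.exp_sum]
  refine Finset.prod_congr rfl fun k _ => ?_
  rw [Real.rpow_def_of_pos (div_pos (ht k) three_pos), Real.log_div (ht k).ne' three_ne_zero,
    mul_comm]

theorem Wz_eq (a : J → ℂ) (lam κ : ℝ) {z : ℂ} (hz : z ∉ Set.range a) :
    Wz a lam κ z = Real.exp (L a lam κ z) := by
  rw [Wz, L, Real.exp_add, prod_eq]
  exact fun k => norm_pos_iff.2 (sub_ne_zero.2 fun e => hz ⟨k, e.symm⟩)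

theorem int1 (b c : ℂ) (r : ℝ) :
    CircleIntegrable (fun z => Real.log ‖z - b‖ - Real.log 3) c r :=
  (circleIntegrable_log_norm_sub_const r).sub (circleIntegrable_const _ _ _)

theorem int2 (a : J → ℂ) (lam : ℝ) (c : ℂ) (r : ℝ) :
    CircleIntegrable (fun z => lam * ∑ k, (Real.log ‖z - a k‖ - Real.log 3)) c r := by
  have h := (CircleIntegrable.sum Finset.univ fun k _ => int1 (a k) c r).const_smul (a := lam)
  refine (congrArg (fun g => CircleIntegrable g c r) (funext fun z => ?_)).mp h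
  simp only [Pi.smul_apply, Finset.sum_apply, smul_eq_mul]

theorem int3 (κ : ℝ) (c : ℂ) (r : ℝ) : CircleIntegrable (fun z : ℂ => κ * ‖z‖ ^ 2) c r :=
  ContinuousOn.circleIntegrable' (by fun_prop)

theorem int (a : J → ℂ) (lam κ : ℝ) (c : ℂ) (r : ℝ) : CircleIntegrable (L a lam κ) c r :=
  (int2 a lam c r).add (int3 κ c r)

theorem avg1 (b c : ℂ) {r : ℝ} (hr : 0 < r) :
    Real.circleAverage (fun z => Real.log ‖z - b‖ - Real.log 3) c r =
      Real.log (max r ‖c - b‖) - Real.log 3 := by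
  rw [Real.circleAverage_fun_sub (circleIntegrable_log_norm_sub_const r)
    (circleIntegrable_const _ _ _), Real.circleAverage_const,
    circleAverage_log_norm_sub_const_eq_log_radius_add_posLog hr.ne',
    Real.posLog_eq_log_max_one (by positivity), ← Real.log_mul hr.ne' (by positivity),
    mul_max_of_nonneg _ _ hr.le, mul_one, mul_inv_cancel_left₀ hr.ne']

theorem avg3 (c : ℂ) {r : ℝ} (hr : 0 < r) :
    Real.circleAverage (fun z : ℂ => ‖z‖ ^ 2) c r = ‖c‖ ^ 2 + r ^ 2 := by
  have h := GaugeAux.re_mean (h := fun z => (‖c‖ ^ 2 + r ^ 2 : ℝ) + 2 * conj c * (z - c))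
    (U := Set.univ) (by fun_prop) (z := c) hr (Set.subset_univ _)
  rw [sub_self, mul_zero, add_zero, Complex.ofReal_re] at h
  rw [← h]
  refine Real.circleAverage_congr_sphere fun z hz => ?_
  rw [abs_of_pos hr, mem_sphere_iff_norm] at hz
  simp only [← hz, Complex.sq_norm, Complex.normSq_apply, Complex.add_re, Complex.ofReal_re,
    Complex.mul_re, Complex.mul_im, Complex.sub_re, Complex.sub_im, Complex.conj_re,
    Complex.conj_im, Complex.re_ofNat, Complex.im_ofNat]
  ring

theorem avg (a : J → ℂ) (lam κ : ℝ) (c : ℂ) {r : ℝ} (hr : 0 < r) :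
    Real.exp (Real.circleAverage (L a lam κ) c r) =
      (∏ k, (max r ‖c - a k‖ / 3) ^ lam) * Real.exp (κ * (‖c‖ ^ 2 + r ^ 2)) := by
  rw [prod_eq _ lam fun k => lt_max_of_lt_left hr, ← Real.exp_add]
  congr 1
  have e1 := Real.circleAverage_fun_smul (a := lam) (c := c) (R := r)
    (f := fun z => ∑ k, (Real.log ‖z - a k‖ - Real.log 3))
  have e3 := Real.circleAverage_fun_smul (a := κ) (c := c) (R := r) (f := fun z : ℂ => ‖z‖ ^ 2)
  rw [Real.circleAverage_fun_sum fun k _ => int1 (a k) c r] at e1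
  rw [avg3 c hr] at e3
  simp only [smul_eq_mul, avg1 _ c hr] at e1 e3
  rw [← e1, ← e3]
  exact Real.circleAverage_fun_add (int2 a lam c r) (int3 κ c r)

end JmpAux

theorem jmpS (hM : MonoStmt) : JmpStmt := by
  intro J _ a lam κ r M u φ z₀ hu hr hl hM0 hφ h
  have hc : ContinuousOn (fun z => Wz a lam κ z * Real.exp (-φ z)) (sphere z₀ r) :=
    (JmpAux.cont a hl κ).continuousOn.mul hφ.neg.rexp
  obtain ⟨B, hB⟩ := (isCompact_sphere z₀ r).bddAbove_image hc
  have hB1 : 0 < max B 1 := lt_max_of_lt_right one_pos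
  have he : 0 < M / max B 1 := div_pos hM0 hB1
  let f : ℂ → Fin 2 → ℂ := fun z => ![u z, ((M / max B 1 : ℝ) : ℂ)]
  have hf : Ent f := ⟨differentiable_pi.2 fun i => by
      fin_cases i
      · exact hu
      · exact differentiable_const _, fun z e => by
      have := congrFun e 1
      simp only [f, Matrix.cons_val_one, Matrix.cons_val_zero, Pi.zero_apply,
        Complex.ofReal_eq_zero] at this
      exact he.ne' this⟩
  have h1 : ∀ z ∈ sphere z₀ r, ‖f z‖ * Wz a lam κ z ≤ M * Real.exp (φ z) := fun z hz => by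
    obtain ⟨i, hi⟩ := JmpAux.nrm (f z)
    rw [← hi]
    fin_cases i
    · exact h z hz
    · have b : Wz a lam κ z * Real.exp (-φ z) ≤ max B 1 :=
        (hB ⟨z, hz, rfl⟩).trans (le_max_left _ _)
      have e : ‖((M / max B 1 : ℝ) : ℂ)‖ = M / max B 1 := by
        rw [Complex.norm_real, Real.norm_of_nonneg he.le]
      show ‖((M / max B 1 : ℝ) : ℂ)‖ * _ ≤ _
      rw [Real.exp_neg, ← div_eq_mul_inv, div_le_iff₀ (Real.exp_pos _)] at b
      rw [e, div_mul_eq_mul_div, div_le_iff₀ hB1, mul_assoc, mul_comm (Real.exp _)]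
      exact mul_le_mul_of_nonneg_left b hM0.le
  have iφ : CircleIntegrable φ z₀ r := hφ.circleIntegrable hr.le
  have iL := JmpAux.int a lam κ z₀ r
  have i1 : CircleIntegrable (fun z => Real.log M + φ z) z₀ r :=
    (circleIntegrable_const _ _ _).add iφ
  have h2 := PoisAux.avg_mono (f := lg f) (g := fun z => Real.log M + φ z - JmpAux.L a lam κ z)
    hr.ne' (hf.circleIntegrable z₀ r) (i1.sub iL) (Set.countable_range a) fun z hz hn => by
      rw [abs_of_pos hr] at hz
      have b := h1 z hz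
      rw [JmpAux.Wz_eq a lam κ hn, ← exp_lg (hf.ne z), ← Real.exp_add, ← Real.exp_log hM0,
        ← Real.exp_add, Real.exp_le_exp] at b
      show lg f z ≤ Real.log M + φ z - JmpAux.L a lam κ z
      linarith
  rw [Real.circleAverage_fun_sub i1 iL,
    Real.circleAverage_fun_add (circleIntegrable_const _ _ _) iφ, Real.circleAverage_const] at h2
  have h3 := (hM 2 f hf z₀ r r hr.le le_rfl).1
  rw [Tch] at h3
  have h4 : ‖u z₀‖ ≤ Real.exp (lg f z₀) := by
    rw [exp_lg (hf.ne z₀)]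
    exact norm_le_pi_norm (f z₀) 0
  rw [mul_assoc, ← JmpAux.avg a lam κ z₀ hr]
  refine (mul_le_mul_of_nonneg_right h4 (Real.exp_pos _).le).trans ?_
  rw [← Real.exp_add, ← Real.exp_log hM0, ← Real.exp_add, Real.exp_le_exp]
  linarith

end

end Pool.Agent.Lib.MP_45f16c_ag.AS
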