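import Pool.Agent.Lib.MP_45f16c_ag.AS.BL

/-! The choice of the integers. -/

set_option autoImplicit false
open Metric MeasureTheory MvPolynomial Filter Module
open scoped ComplexConjugate Matrix Topology

namespace Pool.Agent.Lib.MP_45f16c_ag.AS

noncomputable section

namespace NumAux

theorem ev (A c : ℝ) (hA : 0 < A) :
    ∃ w₀ : ℕ, ∀ w : ℕ, w₀ ≤ w → A * (c + 90 * Real.log (2 * w) + 1) ≤ w := by
  have h1 := (Real.isLittleO_log_id_atTop.def (c := 1 / (360 * A)) (by positivity))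
  have h2 : Tendsto (fun w : ℕ => (2 * w : ℝ)) atTop atTop :=
    tendsto_natCast_atTop_atTop.const_mul_atTop two_pos
  have h3 := (tendsto_natCast_atTop_atTop (R := ℝ)).eventually_ge_atTop (2 * (A * (c + 1)))
  obtain ⟨w₀, h⟩ := eventually_atTop.1 ((h2.eventually h1).and h3)
  refine ⟨w₀, fun w hw => ?_⟩
  obtain ⟨h4, h5⟩ := h w hw
  have h6 : (0 : ℝ) ≤ 2 * w := by positivity
  rw [id, Real.norm_of_nonneg h6] at h4
  have h7 : Real.log (2 * w) ≤ 1 / (360 * A) * (2 * w) := (le_abs_self _).trans h4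
  have h8 : A * (90 * Real.log (2 * w)) ≤ w / 2 := by
    calc A * (90 * Real.log (2 * w)) ≤ A * (90 * (1 / (360 * A) * (2 * w))) := by gcongr
      _ = w / 2 := by field_simp; ring
  linarith

theorem root (n : ℕ) : ∃ w : ℕ, w ^ 45 ≤ n ∧ n < (w + 1) ^ 45 :=
  ⟨Nat.nthRoot 45 n, Nat.pow_nthRoot_le (Or.inl (by norm_num)),
    Nat.lt_pow_nthRoot_add_one (by norm_num) n⟩

theorem log_le {K₀ : ℝ} {n d w : ℕ} (hn : 1 ≤ n) (hd : (d : ℝ) ≤ K₀ * n * Real.log n)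
    (hw : (n : ℝ) ≤ (2 * w) ^ 45) :
    Real.log (4 * d + 3) ≤ Real.log (4 * |K₀| + 3) + 90 * Real.log (2 * w) := by
  have hn' : (1 : ℝ) ≤ n := by exact_mod_cast hn
  have h1 : 0 ≤ Real.log n := Real.log_nonneg hn'
  have h2 : Real.log n ≤ n := (Real.log_le_sub_one_of_pos (by linarith)).trans (by linarith)
  have h3 : (d : ℝ) ≤ |K₀| * n * n :=
    hd.trans (by gcongr; exact le_abs_self _)
  have h4 : (4 * d + 3 : ℝ) ≤ (4 * |K₀| + 3) * n ^ 2 := by nlinarith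
  have h5 : Real.log n ≤ 45 * Real.log (2 * w) := by
    have := Real.log_le_log (by linarith) hw
    rwa [Real.log_pow, Nat.cast_ofNat] at this
  calc Real.log (4 * d + 3) ≤ Real.log ((4 * |K₀| + 3) * n ^ 2) :=
        Real.log_le_log (by positivity) h4
    _ = Real.log (4 * |K₀| + 3) + 2 * Real.log n := by
        rw [Real.log_mul (by positivity) (by positivity), Real.log_pow, Nat.cast_ofNat]
    _ ≤ _ := by linarith

theorem exD {ε : ℝ} {n d j : ℕ} (hε : ε ≤ 1) (hn : 7 ≤ ε * n) (hd : (2 + ε) * n ≤ d)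
    (hj : (j : ℝ) ≤ ε * n / 4) :
    ∃ D : ℕ, D + 2 * (n + 2) + j = d + 1 ∧ 1 ≤ D ∧ 8 * (ε / 32) * (n + 1) ≤ D := by
  have h1 : 1 + 2 * (n + 2) + j ≤ d + 1 := by
    have : ((1 + 2 * (n + 2) + j : ℕ) : ℝ) ≤ ((d + 1 : ℕ) : ℝ) := by push_cast; linarith
    exact_mod_cast this
  obtain ⟨D, hD⟩ : ∃ D : ℕ, D + 2 * (n + 2) + j = d + 1 := ⟨d + 1 - 2 * (n + 2) - j, by omega⟩
  refine ⟨D, hD, by omega, ?_⟩
  have h2 : ((D + 2 * (n + 2) + j : ℕ) : ℝ) = ((d + 1 : ℕ) : ℝ) := by rw [hD]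
  push_cast at h2
  linarith

theorem core {K ε L M x w : ℝ} (hK : 1 ≤ K) (hM : 1 ≤ M) (hx : 1 ≤ x)
    (h : 2912 * M * K * 128 * (L + 1) ≤ ε ^ 2 * w) :
    2912 * (M * x) * K * L + 3 ≤ ε ^ 2 * w * x / 128 := by
  have h1 : 1 ≤ M * K * x := one_le_mul_of_one_le_of_one_le (one_le_mul_of_one_le_of_one_le hM hK) hx
  have h2 : 2912 * M * K * 128 * (L + 1) * x ≤ ε ^ 2 * w * x :=
    mul_le_mul_of_nonneg_right h (by linarith)
  nlinarith

theorem reals {K ε L M x w n j : ℝ} (hK : 1 ≤ K) (hM : 1 ≤ M) (hx : 1 ≤ x) (hw : 1 ≤ w)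
    (hL : 0 ≤ L) (hε : 0 < ε) (hε1 : ε ≤ 1) (hA : 2912 * M * K * 128 * (L + 1) ≤ ε ^ 2 * w)
    (hxn : w * x ≤ n) (hn : n + 2 ≤ M * (w * x)) (hj : ε * n / 4 ≤ j + 1) :
    7 ≤ ε * n ∧ x ≤ ε * n / 4 ∧ 3 ≤ ε / 32 * (j + 1) ∧
      2912 * x * K * L + 2 ≤ ε / 32 * (j + 1) ∧
      2912 * (n + 2) * K * L + 2 ≤ ε / 32 * (w * (w * x) + 1) := by
  have hA1 : 2912 * 1 * K * 128 * (L + 1) ≤ ε ^ 2 * w := le_trans (by gcongr) hA
  have hε2 : ε ^ 2 ≤ ε := by nlinarith only [hε, hε1]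
  have hKL : 0 ≤ K * L := by positivity
  have hεw : 7 ≤ ε * w := by
    have h1 : ε ^ 2 * w ≤ ε * w := by gcongr
    linarith
  have h3 : ε * (w * x) ≤ ε * n := by gcongr
  have h4 : 7 * x ≤ ε * w * x := by gcongr
  have hy : 1 ≤ w * x := one_le_mul_of_one_le_of_one_le hw hx
  have hj1 : ε ^ 2 * w * x / 128 ≤ ε / 32 * (j + 1) := by
    calc ε ^ 2 * w * x / 128 = ε / 32 * (ε * (w * x) / 4) := by ring
      _ ≤ ε / 32 * (ε * n / 4) := by gcongr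
      _ ≤ _ := by gcongr
  have c1 := core hK le_rfl hx hA1
  have c2 := core hK hM hy hA
  have h5 : 0 ≤ 2912 * (1 * x) * K * L := by positivity
  have hn0 : 0 ≤ n + 2 := by linarith
  have h6 : 2912 * (n + 2) * K * L ≤ 2912 * (M * (w * x)) * K * L := by gcongr
  have h7 : ε ^ 2 * (w * (w * x)) ≤ ε * (w * (w * x)) := by gcongr
  have h8 : 0 ≤ ε * (w * (w * x)) := by positivity
  refine ⟨by linarith, by linarith, by linarith, by linarith, by linarith⟩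

theorem pick (w₀ n : ℕ) (hn : w₀ ^ 45 ≤ n) : ∃ w : ℕ, w₀ ≤ w ∧ w ^ 45 ≤ n ∧ n < (w + 1) ^ 45 := by
  obtain ⟨w, hw1, hw2⟩ := root n
  exact ⟨w, Nat.lt_succ_iff.1 (lt_of_pow_lt_pow_left₀ 45 (Nat.zero_le _) (hn.trans_lt hw2)),
    hw1, hw2⟩

end NumAux

open NumAux in
theorem numS : NumStmt := by
  intro K K₀ ε hK hε hε1
  obtain ⟨M, hM, hM'⟩ : ∃ M : ℝ, 1 ≤ M ∧ ∀ w : ℝ, M * (w * w ^ 44) = 2 * (2 * w) ^ 45 :=
    ⟨2 ^ 46, by norm_num, fun w => by rw [mul_pow, pow_succ' 2 45, mul_assoc, pow_succ' w 44]⟩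
  have hK0 : 0 < K := by linarith
  obtain ⟨w₀, hw₀⟩ := ev (2912 * M * K * 128 / ε ^ 2) (Real.log (4 * |K₀| + 3)) (by positivity)
  refine ⟨(max w₀ 12) ^ 45, fun n d hn hd hd' => ?_⟩
  obtain ⟨w, hw3, hw1, hw2⟩ := pick _ n hn
  have hw12 : 12 ≤ w := (le_max_right _ _).trans hw3
  have hw0 := hw₀ w ((le_max_left _ _).trans hw3)
  clear hn hw3 hw₀
  have hw1' : 1 ≤ w := le_trans (by norm_num) hw12
  have hwR : (1 : ℝ) ≤ w := by exact_mod_cast hw1'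
  have hw4 : n < (2 * w) ^ 45 :=
    hw2.trans_le (Nat.pow_le_pow_left (by rw [two_mul]; exact Nat.add_le_add_left hw1' w) _)
  have hw5 : (n : ℝ) + 1 ≤ (2 * w) ^ 45 := by exact_mod_cast hw4
  clear hw2 hw4
  have hwn : w ≤ n := (Nat.le_self_pow (by norm_num) w).trans hw1
  have hL := log_le (hw1'.trans hwn) hd' ((le_add_of_nonneg_right zero_le_one).trans hw5)
  have hL0 : 0 ≤ Real.log (4 * d + 3) :=
    Real.log_nonneg (by have : (0 : ℝ) ≤ d := Nat.cast_nonneg d; linarith only [this])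
  generalize Real.log (4 * d + 3) = L at hL hL0 ⊢
  have hA : 2912 * M * K * 128 * (L + 1) ≤ ε ^ 2 * w := by
    have h2 : 2912 * M * K * 128 / ε ^ 2 * (L + 1) ≤ w :=
      le_trans (mul_le_mul_of_nonneg_left (by linarith only [hL]) (by positivity)) hw0
    rwa [div_mul_eq_mul_div, div_le_iff₀' (by positivity)] at h2
  have hx : (1 : ℝ) ≤ (w : ℝ) ^ 44 := one_le_pow₀ hwR
  have hxn : (w : ℝ) * w ^ 44 ≤ n := by
    rw [← pow_succ']
    exact_mod_cast hw1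
  have hnM : (n : ℝ) + 2 ≤ M * (w * (w : ℝ) ^ 44) := by
    have h2 : (1 : ℝ) ≤ (2 * w) ^ 45 := one_le_pow₀ (by linarith only [hwR])
    rw [hM']
    generalize (2 * (w : ℝ)) ^ 45 = t at h2 hw5
    linarith only [h2, hw5]
  obtain ⟨r1, r2, r3, r4, r5⟩ := reals hK hM hx hwR hL0 hε hε1 hA hxn hnM
    (Nat.lt_floor_add_one (ε * n / 4)).le
  have hj2 : ((w ^ 29 * (w ^ 15 - 1) : ℕ) : ℝ) ≤ ε * n / 4 := by
    have h1 : w ^ 29 * (w ^ 15 - 1) ≤ w ^ 44 := by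
      rw [show 44 = 29 + 15 from rfl, pow_add]
      exact Nat.mul_le_mul_left _ (Nat.sub_le _ _)
    have h2 : ((w ^ 29 * (w ^ 15 - 1) : ℕ) : ℝ) ≤ (w : ℝ) ^ 44 := by exact_mod_cast h1
    exact h2.trans r2
  obtain ⟨D₁, e1, p1, q1⟩ := exD hε1 r1 hd (Nat.floor_le (a := ε * n / 4) (by positivity))
  obtain ⟨D₂, e2, p2, q2⟩ := exD hε1 r1 hd hj2
  refine ⟨w, ⌊ε * n / 4⌋₊, D₁, D₂, hw12, ?_, ?_, e1, e2, p1, p2, q1, q2, r3, r4, ?_⟩
  · have h1 : ((2 * n : ℕ) : ℝ) ≤ d := by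
      push_cast
      linarith only [hd, r1]
    exact (Nat.mul_le_mul_left 2 hw1).trans (by exact_mod_cast h1)
  · exact ((Nat.pow_le_pow_right hw1' (by norm_num)).trans hw1).trans (Nat.le_add_right n 2)
  · rwa [← pow_succ', ← pow_succ'] at r5

end

end Pool.Agent.Lib.MP_45f16c_ag.AS
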