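import Pool.Agent.Lib.MP_45f16c_ag.AS.BL

-- part Pool.Agent.Lib.MP_45f16c_ag.AS.Ult
section

/-! Transfer along an ultrafilter. -/

set_option autoImplicit false
open Metric MeasureTheory MvPolynomial Filter Module
open scoped ComplexConjugate Matrix Topology

namespace Pool.Agent.Lib.MP_45f16c_ag.AS

noncomputable section

attribute [local irreducible] form formR

namespace UltAux

/-- A diagonal choice along a filter. -/
theorem diag {X : Type} {F : Filter ℕ} [F.NeBot] {t : ℕ → ℕ} (ht : Tendsto t F atTop)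
    (Q : ℕ → ℕ → X → Prop) (hm : ∀ n m m' x, m ≤ m' → Q n m' x → Q n m x)
    (h : ∀ m, ∀ᶠ n in F, ∃ x, Q n m x) : ∃ x : ℕ → X, ∀ m, ∀ᶠ n in F, Q n m (x n) := by
  classical
  obtain ⟨_, x₀, -⟩ := (h 0).exists
  have : Nonempty X := ⟨x₀⟩
  refine ⟨fun n => Classical.epsilon (Q n (Nat.findGreatest (fun m => ∃ x, Q n m x) (t n))),
    fun m => ?_⟩
  filter_upwards [h m, ht.eventually_ge_atTop m] with n hn hmn
  have h1 : ∃ x, Q n (Nat.findGreatest (fun m => ∃ x, Q n m x) (t n)) x :=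
    Nat.findGreatest_spec (P := fun m => ∃ x, Q n m x) hmn hn
  exact hm n m _ _ (Nat.le_findGreatest hmn hn) (Classical.epsilon_spec h1)

/-- A sequence with finitely many values is constant along an ultrafilter. -/
theorem ev_const {α : Type} [Finite α] (𝒰 : Ultrafilter ℕ) (f : ℕ → α) :
    ∃ a, ∀ᶠ n in 𝒰, f n = a := by
  obtain ⟨a, ha⟩ := (𝒰.map f).eq_pure_of_finite
  refine ⟨a, ?_⟩
  have h : {b | b = a} ∈ 𝒰.map f := by rw [ha]; simp
  exact h

variable {𝒰 : Ultrafilter ℕ} {T : ℕ → ℝ}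

/-- A common exponent for finitely many smallness conditions. -/
theorem common {J : Type} [Finite J] (hT : Tendsto T 𝒰 atTop) (Q : J → ℕ → ℝ → Prop)
    (hm : ∀ j n a b, a ≤ b → Q j n a → Q j n b)
    (h : ∀ j, ∃ c : ℝ, 0 < c ∧ ∀ᶠ n in 𝒰, Q j n (Real.exp (-(c * T n)))) :
    ∃ c : ℝ, 0 < c ∧ ∀ᶠ n in 𝒰, ∀ j, Q j n (Real.exp (-(c * T n))) := by
  choose c hc hQ using h
  have h1 : ∀ᶠ a in 𝓝[>] (0 : ℝ), ∀ j, a ≤ c j :=
    eventually_all.2 fun j => mem_nhdsWithin_of_mem_nhds (Iic_mem_nhds (hc j))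
  obtain ⟨a, ha, ha0⟩ := (h1.and self_mem_nhdsWithin).exists
  refine ⟨a, ha0, eventually_all.2 fun j => ?_⟩
  filter_upwards [hQ j, hT.eventually_ge_atTop 0] with n hn h0
  exact hm j n _ _ (Real.exp_le_exp.2 (neg_le_neg (mul_le_mul_of_nonneg_right (ha j) h0))) hn

theorem le_exp (hT : Tendsto T 𝒰 atTop) (C : ℝ) {c : ℝ} (hc : 0 < c) :
    ∀ᶠ n in 𝒰, C ≤ Real.exp (c * T n) :=
  (Real.tendsto_exp_atTop.comp (hT.const_mul_atTop hc)).eventually_ge_atTop C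

theorem exp_lt (hT : Tendsto T 𝒰 atTop) {η c : ℝ} (hη : 0 < η) (hc : 0 < c) :
    ∀ᶠ n in 𝒰, Real.exp (-(c * T n)) < η :=
  (Real.tendsto_exp_neg_atTop_nhds_zero.comp (hT.const_mul_atTop hc)).eventually
    (gt_mem_nhds hη)

variable {O : Subring (ℕ → ℂ)} {k : Type} [Field k] {π : O →+* k}

/-- Evaluation of a sequence at an index. -/
def ev (O : Subring (ℕ → ℂ)) (n : ℕ) : O →+* ℂ := (Pi.evalRingHom (fun _ => ℂ) n).comp O.subtype

theorem ev_apply (n : ℕ) (a : O) : ev O n a = a.1 n := rfl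

theorem mem_of_bdd (hT : Tendsto T 𝒰 atTop) (hU : UF 𝒰 T O π) {a : ℕ → ℂ} {C : ℝ}
    (h : ∀ᶠ n in 𝒰, ‖a n‖ ≤ C) : a ∈ O :=
  (hU.mem a).2 fun _ hc => (h.and (le_exp hT C hc)).mono fun _ hn => hn.1.trans hn.2

theorem zero_of_ev (hU : UF 𝒰 T O π) {a : O} (h : ∀ᶠ n in 𝒰, ev O n a = 0) : π a = 0 :=
  (hU.ker a).2 ⟨1, one_pos, h.mono fun n hn => by
    rw [← ev_apply, hn, norm_zero]; exact (Real.exp_pos _).le⟩

/-- A polynomial with vanishing residue is uniformly small on the unit sphere. -/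
theorem small_poly (hT : Tendsto T 𝒰 atTop) (hU : UF 𝒰 T O π) {ν : ℕ}
    (P : MvPolynomial (Fin ν) O) (hP : MvPolynomial.map π P = 0) :
    ∃ c : ℝ, 0 < c ∧ ∀ᶠ n in 𝒰, ∀ x : Fin ν → ℂ, ‖x‖ = 1 →
      ‖eval x (MvPolynomial.map (ev O n) P)‖ ≤ Real.exp (-(c * T n)) := by
  obtain ⟨c, hc, h⟩ := common (J := P.support) hT (fun m n δ => ‖(coeff m.1 P).1 n‖ ≤ δ)
    (fun _ _ _ _ hab h => h.trans hab) fun m => (hU.ker _).1 (by rw [← coeff_map, hP, coeff_zero])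
  refine ⟨c / 2, half_pos hc, ?_⟩
  filter_upwards [h, le_exp hT P.support.card (half_pos hc)] with n hn hcard x hx
  rw [eval_map, eval₂_eq']
  have h1 : ∀ m ∈ P.support, ‖ev O n (coeff m P) * ∏ i, x i ^ m i‖ ≤ Real.exp (-(c * T n)) := by
    intro m hm
    have h2 : ‖∏ i, x i ^ m i‖ ≤ 1 := by
      rw [norm_prod]
      refine Finset.prod_le_one (fun _ _ => norm_nonneg _) fun i _ => ?_
      rw [norm_pow]
      exact pow_le_one₀ (norm_nonneg _) ((norm_le_pi_norm x i).trans hx.le)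
    rw [norm_mul]
    exact (mul_le_of_le_one_right (norm_nonneg _) h2).trans (hn ⟨m, hm⟩)
  calc _ ≤ ∑ m ∈ P.support, Real.exp (-(c * T n)) := norm_sum_le_of_le _ h1
    _ = P.support.card * Real.exp (-(c * T n)) := by rw [Finset.sum_const, nsmul_eq_mul]
    _ ≤ Real.exp (c / 2 * T n) * Real.exp (-(c * T n)) := by gcongr
    _ = _ := by rw [← Real.exp_add]; congr 1; ring

/-- Syzygies over the residue field lift to approximate syzygies. -/
theorem small_syz (hT : Tendsto T 𝒰 atTop) (hU : UF 𝒰 T O π) {ν d t : ℕ} {ι : Type} [Fintype ι]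
    (E : ι → Mon ν d → O) (s : ι → Mon ν t → O)
    (h : ∑ i, formR (fun m => π (s i m)) * formR (fun m => π (E i m)) = 0) :
    ∃ c : ℝ, 0 < c ∧ ∀ᶠ n in 𝒰, ∀ x : Fin ν → ℂ, ‖x‖ = 1 →
      ‖∑ i, vv (fun i m => (s i m).1 n) x i * vv (fun i m => (E i m).1 n) x i‖ ≤
        Real.exp (-(c * T n)) := by
  obtain ⟨c, hc, h1⟩ := small_poly hT hU (∑ i, formR (s i) * formR (E i))
    (by simpa only [map_sum, map_mul, map_formR] using h)
  refine ⟨c, hc, h1.mono fun n hn x hx => ?_⟩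
  simpa only [map_sum, map_mul, map_formR, ev_apply, vv] using hn x hx

/-- Normal forms of subspaces over the residue field. -/
theorem subsp (hS : SubspStmt) (hT : Tendsto T 𝒰 atTop) (hU : UF 𝒰 T O π) {ν p : ℕ} (hp : p ≤ ν)
    (b : Fin p → Fin ν → k) : ∃ (e : Fin p → Fin ν) (A : Fin ν → Fin p → O),
      Function.Injective e ∧ (∀ n, ‖fun a i => (A a i).1 n‖ ≤ 1) ∧
      ∀ x ∈ Submodule.span k (Set.range b), res e (fun a i => π (A a i)) x = 0 := by
  choose B hB using fun κ a => hU.surj (b κ a)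
  choose e A he hA hres using fun n => hS ν p (fun κ a => (B κ a).1 n) hp
  obtain ⟨e₀, he₀⟩ := ev_const 𝒰 e
  have hmem : ∀ a i, (fun n => A n a i) ∈ O := fun a i => mem_of_bdd hT hU (C := 1)
    (.of_forall fun n => ((norm_le_pi_norm (A n a) i).trans (norm_le_pi_norm (A n) a)).trans (hA n))
  obtain ⟨n₀, hn₀⟩ := he₀.exists
  refine ⟨e₀, fun a i => ⟨_, hmem a i⟩, hn₀ ▸ he n₀, hA, fun x hx => ?_⟩
  rw [← resL_apply, ← LinearMap.mem_ker]
  refine Submodule.span_le.2 ?_ hx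
  rintro _ ⟨κ, rfl⟩
  rw [SetLike.mem_coe, LinearMap.mem_ker, resL_apply]
  funext a
  have h1 := map_res (e := e₀) π (fun a i => (⟨_, hmem a i⟩ : O)) (B κ) a
  simp only [hB] at h1
  rw [← h1]
  refine zero_of_ev hU (he₀.mono fun n hn => ?_)
  rw [map_res, ← hn]
  exact congrFun (hres n κ) a

/-- Quantitative generation away from the subspaces. -/
theorem good_away (hTr : TransStmt) (hT : Tendsto T 𝒰 atTop) (hU : UF 𝒰 T O π)
    {ν d d₁ d₂ p μ N₁ N₂ N₃ : ℕ} {ι : Type} [Fintype ι] [DecidableEq ι] (E : ι → Mon ν d → O)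
    (s : Fin N₁ → ι → Mon ν d₁ → O) (r : Fin N₂ → ι → Mon ν d₂ → O) (e : Fin N₃ → Fin p → Fin ν)
    (A : Fin N₃ → Fin ν → Fin p → O) {η β : ℝ} (hη : 0 < η) (hβ : 0 < β)
    (h : ∀ (x : Fin ν → k) (i₀ : ι), vv (fun i m => π (E i m)) x i₀ ≠ 0 →
      (∀ ρ, res (e ρ) (fun a i => π (A ρ a i)) x ≠ 0) → ∃ sel : Fin μ → Fin N₂,
        Submodule.span k (Set.range (Sum.elim (fun α => vv (fun i m => π (s α i m)) x)
          (Sum.elim (fun κ => vv (fun i m => π (r (sel κ) i m)) x)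
            fun _ : Unit => Pi.single i₀ 1))) = ⊤) :
    ∃ c₁ : ℝ, 0 < c₁ ∧ ∀ᶠ n in 𝒰, ∀ x : Fin ν → ℂ, ‖x‖ = 1 →
      (∀ ρ, Real.exp (-(c₁ * T n)) ≤ ‖res (e ρ) (fun a i => (A ρ a i).1 n) x‖) → ∀ i₀,
        η ≤ ‖vv (fun i m => (E i m).1 n) x i₀‖ →
        Good μ (fun α => vv (fun i m => (s α i m).1 n) x)
          (fun κ => vv (fun i m => (r κ i m).1 n) x) i₀ (Real.exp (β * T n)) := by
  by_contra hcon
  obtain ⟨z, hz⟩ := diag (F := 𝒰) (X := (Fin ν → ℂ) × ι) (tendsto_nat_floor_atTop.comp hT)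
    (fun n m z => 0 ≤ T n ∧ ‖z.1‖ = 1 ∧
      (∀ ρ, Real.exp (-(1 / (m + 1) * T n)) ≤ ‖res (e ρ) (fun a i => (A ρ a i).1 n) z.1‖) ∧
      η ≤ ‖vv (fun i m => (E i m).1 n) z.1 z.2‖ ∧
      ¬Good μ (fun α => vv (fun i m => (s α i m).1 n) z.1)
          (fun κ => vv (fun i m => (r κ i m).1 n) z.1) z.2 (Real.exp (β * T n)))
    (fun n m m' z hm hz => ⟨hz.1, hz.2.1, fun ρ => le_trans (Real.exp_le_exp.2 (neg_le_neg
      (mul_le_mul_of_nonneg_right (Nat.one_div_le_one_div hm) hz.1))) (hz.2.2.1 ρ), hz.2.2.2⟩)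
    fun m => by
      have h1 := Ultrafilter.eventually_not.2 fun h1 => hcon ⟨1 / (m + 1), by positivity, h1⟩
      filter_upwards [h1, hT.eventually_ge_atTop 0] with n hn h0
      by_contra h2
      exact hn fun x hx hρ i₀ hi => by_contra fun hg => h2 ⟨(x, i₀), h0, hx, hρ, hi, hg⟩
  obtain ⟨i₀, hi₀⟩ := ev_const 𝒰 fun n => (z n).2
  have hmem : ∀ a, (fun n => (z n).1 a) ∈ O := fun a => mem_of_bdd hT hU (C := 1)
    ((hz 0).mono fun n hn => (norm_le_pi_norm _ a).trans hn.2.1.le)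
  obtain ⟨x, hx⟩ : ∃ x : Fin ν → O, ∀ n, (fun a => ev O n (x a)) = (z n).1 :=
    ⟨fun a => ⟨_, hmem a⟩, fun _ => rfl⟩
  obtain ⟨sel, hsel⟩ := h (fun a => π (x a)) i₀ (by
    rw [← map_vv]
    intro h0
    obtain ⟨c, hc, h1⟩ := (hU.ker _).1 h0
    obtain ⟨n, ⟨h2, h3⟩, h4, h5⟩ := ((h1.and (hz 0)).and (hi₀.and (exp_lt hT hη hc))).exists
    rw [← ev_apply, map_vv, hx, ← h4] at h2
    exact absurd (h3.2.2.2.1.trans h2) (not_le.2 h5)) fun ρ h0 => by
    obtain ⟨c, hc, h1⟩ := common (J := Fin ν) hT (fun a n δ => ‖(res (e ρ) (A ρ) x a).1 n‖ ≤ δ)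
      (fun _ _ _ _ hab h => h.trans hab) fun a => (hU.ker _).1 (by rw [map_res, h0]; rfl)
    obtain ⟨m, hm⟩ := exists_nat_one_div_lt hc
    obtain ⟨n, ⟨h2, h3⟩, h4⟩ := ((h1.and (hz m)).and (hT.eventually_gt_atTop 0)).exists
    have h5 : ‖res (e ρ) (fun a i => (A ρ a i).1 n) (z n).1‖ ≤ Real.exp (-(c * T n)) := by
      refine (pi_norm_le_iff_of_nonneg (Real.exp_pos _).le).2 fun a => ?_
      have h6 := h2 a
      rwa [← ev_apply, map_res, hx] at h6
    have h7 := Real.exp_le_exp.1 ((h3.2.2.1 ρ).trans h5)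
    nlinarith
  have h1 := hTr 𝒰 T O k π hT hU ι (Fin N₁ ⊕ Fin μ ⊕ Unit)
    (Sum.elim (fun α => vv (s α) x) (Sum.elim (fun κ => vv (r (sel κ)) x)
      fun _ => Pi.single i₀ 1)) (by
      rw [← hsel]
      congr 2
      funext b i
      rcases b with α | κ | u
      · exact map_vv π _ _ _
      · exact map_vv π _ _ _
      · exact Pi.apply_single (fun _ => π) (fun _ => map_zero π) i₀ 1 i |>.trans
          (by rw [map_one]; rfl))
    β hβ
  obtain ⟨n, ⟨h2, h3⟩, h4⟩ := ((h1.and (hz 0)).and hi₀).exists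
  refine h3.2.2.2.2 ⟨sel, fun v => ?_⟩
  obtain ⟨a, ha, hv⟩ := h2 v
  refine ⟨fun α => a (.inl α), fun κ => a (.inr (.inl κ)), a (.inr (.inr ())), ?_, ?_, ?_⟩
  · exact (pi_norm_le_iff_of_nonneg ((norm_nonneg _).trans ha)).2 fun α =>
      (norm_le_pi_norm a _).trans ha
  · exact (pi_norm_le_iff_of_nonneg ((norm_nonneg _).trans ha)).2 fun α =>
      (norm_le_pi_norm a _).trans ha
  · rw [Fintype.sum_sum_type, Fintype.sum_sum_type, ← add_assoc, Fintype.sum_unique (ι := Unit)] at hv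
    refine hv.trans (congrArg₂ _ (congrArg₂ _ (Finset.sum_congr rfl fun α _ => congrArg _ ?_)
      (Finset.sum_congr rfl fun κ _ => congrArg _ ?_)) ?_)
    · funext i
      rw [Sum.elim_inl, ← ev_apply, map_vv, hx]; rfl
    · funext i
      rw [Sum.elim_inr, Sum.elim_inl, ← ev_apply, map_vv, hx]; rfl
    · funext i
      rw [h4]
      by_cases hi : i = i₀
      · subst hi; simp
      · simp [hi]

theorem norm_le (hU : UF 𝒰 T O π) {N : ℕ} {ι μ : Type} [Fintype ι] [Fintype μ]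
    (s : Fin N → ι → μ → O) {β : ℝ} (hβ : 0 < β) :
    ∀ᶠ n in 𝒰, ‖fun α i m => (s α i m).1 n‖ ≤ Real.exp (β * T n) := by
  have h : ∀ᶠ n in 𝒰, ∀ α i m, ‖(s α i m).1 n‖ ≤ Real.exp (β * T n) :=
    eventually_all.2 fun α => eventually_all.2 fun i => eventually_all.2 fun m =>
      (hU.mem _).1 (s α i m).2 β hβ
  refine h.mono fun n hn => ?_
  have h0 := (Real.exp_pos (β * T n)).le
  exact (pi_norm_le_iff_of_nonneg h0).2 fun α => (pi_norm_le_iff_of_nonneg h0).2 fun i =>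
    (pi_norm_le_iff_of_nonneg h0).2 fun m => hn α i m

theorem lift (hT : Tendsto T 𝒰 atTop) (hU : UF 𝒰 T O π) {ι μ : Type} [Fintype ι] [Fintype μ]
    (E : ℕ → ι → μ → ℂ) {C : ℝ} (h : ∀ n, ‖E n‖ ≤ C) :
    ∃ E' : ι → μ → O, ∀ n, (fun i m => (E' i m).1 n) = E n :=
  ⟨fun i m => ⟨fun n => E n i m, mem_of_bdd hT hU (C := C) (.of_forall fun n =>
    ((norm_le_pi_norm (E n i) m).trans (norm_le_pi_norm (E n) i)).trans (h n))⟩, fun _ => rfl⟩

theorem span_top (hU : UF 𝒰 T O π) {ι J M : Type} [Fintype J] [Fintype M] [DecidableEq M]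
    (E : ι → M → O) (Y : J → M → O) (Z : M → J → O) (τ : M → ι)
    (h : ∀ n m, Pi.single m 1 = (fun a => (E (τ m) a).1 n) +
      ∑ l, (Z m l).1 n • fun a => (Y l a).1 n) :
    Submodule.span k (Set.range (fun i m => π (E i m)) ∪ Set.range fun l m => π (Y l m)) = ⊤ := by
  rw [eq_top_iff, ← (Pi.basisFun k M).span_eq, Submodule.span_le]
  rintro _ ⟨m, rfl⟩
  have h1 : Pi.basisFun k M m = (fun a => π (E (τ m) a)) + ∑ l, π (Z m l) • fun a => π (Y l a) := by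
    funext a
    have h2 : π (Pi.single (M := fun _ => O) m 1 a - (E (τ m) a + ∑ l, Z m l * Y l a)) = 0 := by
      refine zero_of_ev hU (.of_forall fun n => ?_)
      have h3 := congrFun (h n m) a
      simp only [Pi.add_apply, Finset.sum_apply, Pi.smul_apply, smul_eq_mul] at h3
      simp only [map_sub, map_add, map_sum, map_mul, ev_apply, ← h3]
      by_cases ha : a = m
      · subst ha; simp
      · simp [ha]
    simp only [map_sub, map_add, map_sum, map_mul, sub_eq_zero] at h2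
    simp only [Pi.add_apply, Finset.sum_apply, Pi.smul_apply, smul_eq_mul, ← h2, Pi.basisFun_apply]
    by_cases ha : a = m
    · subst ha; simp
    · simp [ha]
  rw [SetLike.mem_coe, h1]
  exact add_mem (Submodule.subset_span (.inl ⟨_, rfl⟩)) (sum_mem fun l _ =>
    Submodule.smul_mem _ _ (Submodule.subset_span (.inr ⟨_, rfl⟩)))

end UltAux

open UltAux

theorem ultS (hF : FieldStmt) (hT : TransStmt) (hS : SubspStmt) (hA : AlgStmt) : UltStmt := by
  intro ν d w ι _ _ 𝒰 T E Y Z τ C η hw hd hν hTt hη hC hEY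
  obtain ⟨O, k, _, _, π, hU⟩ := hF 𝒰 T hTt
  obtain ⟨E', hE⟩ := lift hTt hU E fun n => (hC n).1
  obtain ⟨Y', hY⟩ := lift hTt hU Y fun n => (hC n).2.1
  obtain ⟨Z', hZ⟩ := lift hTt hU Z fun n => (hC n).2.2
  obtain ⟨N₁, N₂, N₃, s, r, b, hs, hr, hgen⟩ := hA k ν d w ι _ _ hw hd
    (span_top hU E' Y' Z' τ fun n m => by rw [hEY n m, ← hE n, ← hY n, ← hZ n])
  choose s' hs' using fun α i m => hU.surj (s α i m)
  choose r' hr' using fun κ i m => hU.surj (r κ i m)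
  choose e A he hA1 hres using fun ρ => subsp hS hTt hU hν (b ρ)
  obtain ⟨c₀, hc₀, hdef⟩ := common (J := Fin N₁ ⊕ Fin N₂) hTt
    (fun j n δ => ∀ x : Fin ν → ℂ, ‖x‖ = 1 → ‖Sum.elim
      (fun α => ∑ i, vv (fun i m => (s' α i m).1 n) x i * vv (fun i m => (E' i m).1 n) x i)
      (fun κ => ∑ i, vv (fun i m => (r' κ i m).1 n) x i * vv (fun i m => (E' i m).1 n) x i) j‖ ≤ δ)
    (fun _ _ _ _ hab h x hx => (h x hx).trans hab) (by
      rintro (α | κ)
      · exact small_syz hTt hU E' (s' α) (by simpa only [hs'] using hs α)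
      · exact small_syz hTt hU E' (r' κ) (by simpa only [hr'] using hr κ))
  refine ⟨N₁, N₂, N₃, c₀, fun n α i m => (s' α i m).1 n, fun n κ i m => (r' κ i m).1 n, e,
    fun n ρ a i => (A ρ a i).1 n, hc₀, he, fun n ρ => hA1 ρ n, fun β hβ => ?_⟩
  obtain ⟨c₁, hc₁, hgood⟩ := good_away (μ := w ^ 29) hT hTt hU E' s' r' e A hη hβ
    fun x i₀ hx hρ => by
    simpa only [hs', hr'] using hgen x i₀ hx fun ρ h => hρ ρ (hres ρ x h)
  refine ⟨c₁, hc₁, ?_⟩
  filter_upwards [norm_le hU s' hβ, norm_le hU r' hβ, hdef, hgood] with n h1 h2 h3 h4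
  rw [← hE n]
  exact ⟨h1, h2, fun x hx => ⟨fun α => h3 (.inl α) x hx, fun κ => h3 (.inr κ) x hx, h4 x hx⟩⟩

end

end Pool.Agent.Lib.MP_45f16c_ag.AS
end

-- part Pool.Agent.Lib.MP_45f16c_ag.AS.Exp
section

/-! Pointwise algebra of the minors. -/

set_option autoImplicit false
open Metric MeasureTheory MvPolynomial Filter Module
open scoped ComplexConjugate Matrix Topology

namespace Pool.Agent.Lib.MP_45f16c_ag.AS

noncomputable section

namespace ExpAux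

variable {ι : Type} [Fintype ι] {q N₁ N₂ μ : ℕ}

/-- The lift of a vector of coefficients. -/
def XL (Ξ : ι → Fin (q + 1) → ℂ) : (ι → ℂ) →ₗ[ℂ] Fin (q + 1) → ℂ :=
  Matrix.vecMulLinear (Matrix.of Ξ)

theorem XL_apply (Ξ : ι → Fin (q + 1) → ℂ) (v : ι → ℂ) (b : Fin (q + 1)) :
    XL Ξ v b = ∑ i, v i * Ξ i b := rfl

/-- The determinant with given first row. -/
def D0 (x : Fin (q + 1) → ℂ) (y : Fin q → Fin (q + 1) → ℂ) : ℂ :=
  (Matrix.of (Fin.cons x y : Fin (q + 1) → Fin (q + 1) → ℂ)).det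

/-- The alternating form on the coefficients. -/
def Om (Ξ : ι → Fin (q + 1) → ℂ) (x : Fin (q + 1) → ℂ) : (ι → ℂ) [⋀^Fin q]→ₗ[ℂ] ℂ :=
  (Matrix.detRowAlternating.curryLeft x).compLinearMap (XL Ξ)

theorem Om_apply (Ξ : ι → Fin (q + 1) → ℂ) (x : Fin (q + 1) → ℂ) (v : Fin q → ι → ℂ) :
    Om Ξ x v = D0 x fun k => XL Ξ (v k) := rfl

theorem Dt_eq (Ξ : ι → Fin (q + 1) → ℂ) (u : Fin N₁ → ι → ℂ) (r : Fin N₂ → ι → ℂ)
    (θ : Fin q → Fin N₁ ⊕ Fin N₂) (a : Fin (q + 1)) :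
    Dt Ξ u r θ a = Om Ξ (Pi.single a 1) fun k => Sum.elim u r (θ k) := rfl

theorem D0_lin (s t : ℂ) (x x' : Fin (q + 1) → ℂ) (y : Fin q → Fin (q + 1) → ℂ) :
    D0 (s • x - t • x') y = s * D0 x y - t * D0 x' y := by
  change Matrix.detRowAlternating.curryLeft (s • x - t • x') y =
    s * Matrix.detRowAlternating.curryLeft x y - t * Matrix.detRowAlternating.curryLeft x' y
  rw [map_sub, map_smul, map_smul]
  rfl

theorem D0_par {x : Fin (q + 1) → ℂ} {y : Fin q → Fin (q + 1) → ℂ} {k : Fin q} {c : ℂ}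
    (h : y k = c • x) : D0 x y = 0 := by
  have e : Matrix.of (Fin.cons x y : Fin (q + 1) → Fin (q + 1) → ℂ) =
      (Matrix.of (Fin.cons x y : Fin (q + 1) → Fin (q + 1) → ℂ)).updateRow k.succ
        (c • Matrix.of (Fin.cons x y : Fin (q + 1) → Fin (q + 1) → ℂ) 0) := by
    symm
    refine (congrArg _ ?_).trans (Matrix.updateRow_eq_self _ _)
    exact h.symm
  rw [D0, e, Matrix.det_updateRow_smul, Matrix.det_updateRow_eq_zero (Fin.succ_ne_zero k).symm,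
    mul_zero]

theorem norm_det_perm {n : ℕ} (σ : Equiv.Perm (Fin n)) (M : Matrix (Fin n) (Fin n) ℂ) :
    ‖(M.submatrix σ id).det‖ = ‖M.det‖ := by
  rw [Matrix.det_permute, norm_mul]
  rcases Int.units_eq_one_or (Equiv.Perm.sign σ) with h | h <;> simp [h]

theorem D0_perm (a : Fin (q + 1)) :
    ‖D0 (Pi.single a 1) fun k => Pi.single (a.succAbove k) (1 : ℂ)‖ = 1 := by
  have e : Matrix.of (Fin.cons (Pi.single a 1) fun k => Pi.single (a.succAbove k) (1 : ℂ) :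
      Fin (q + 1) → Fin (q + 1) → ℂ) =
      (1 : Matrix (Fin (q + 1)) (Fin (q + 1)) ℂ).submatrix a.cycleRange.symm id := by
    ext i j
    refine Fin.cases ?_ (fun k => ?_) i <;> simp [Matrix.one_apply, Pi.single_apply, eq_comm]
  rw [D0, e, norm_det_perm, Matrix.det_one, norm_one]

theorem D0_swap (x z : Fin (q + 1) → ℂ) (y : Fin q → Fin (q + 1) → ℂ) (k : Fin q) :
    ‖((Matrix.of (Fin.cons x y : Fin (q + 1) → Fin (q + 1) → ℂ)).updateRow k.succ z).det‖ =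
      ‖D0 z (Function.update y k x)‖ := by
  have e : (Matrix.of (Fin.cons x y : Fin (q + 1) → Fin (q + 1) → ℂ)).updateRow k.succ z =
      (Matrix.of (Fin.cons z (Function.update y k x) : Fin (q + 1) → Fin (q + 1) → ℂ)).submatrix
        (Equiv.swap 0 k.succ) id := by
    ext i j
    refine Fin.cases ?_ (fun l => ?_) i
    · simp [Matrix.updateRow_ne (Fin.succ_ne_zero k).symm]
    · by_cases h : l = k
      · subst h
        simp [-Fin.cons_update]
      · have h1 : l.succ ≠ k.succ := fun e => h (Fin.succ_injective _ e)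
        simp [Matrix.updateRow_ne h1, Equiv.swap_apply_of_ne_of_ne (Fin.succ_ne_zero l) h1,
          Function.update_of_ne h, -Fin.cons_update]
  rw [e, norm_det_perm, D0]

/-- Cramer's rule. -/
theorem cramer (x H : Fin (q + 1) → ℂ) (y : Fin q → Fin (q + 1) → ℂ) (a : Fin (q + 1))
    (hx : lf H x = 0) : ‖D0 x y‖ * ‖H a‖ ≤
      ∑ k, ‖lf H (y k)‖ * ‖D0 (Pi.single a 1) (Function.update y k x)‖ := by
  set M := Matrix.of (Fin.cons x y : Fin (q + 1) → Fin (q + 1) → ℂ) with hM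
  have h1 : M.det * H a = ∑ k, (M *ᵥ H) k * (M.updateRow k (Pi.single a 1)).det := by
    have e := congrFun (Matrix.mulVec_mulVec H M.adjugate M) a
    rw [Matrix.adjugate_mul, Matrix.smul_mulVec, Matrix.one_mulVec] at e
    rw [← smul_eq_mul, ← Pi.smul_apply, ← e, Matrix.mulVec, dotProduct]
    exact Finset.sum_congr rfl fun k _ => by rw [Matrix.adjugate_apply, mul_comm]
  have h2 : (M *ᵥ H) 0 = 0 := by
    rw [← hx]
    exact dotProduct_comm x H
  have h3 : ∀ k : Fin q, (M *ᵥ H) k.succ = lf H (y k) := fun k => dotProduct_comm (y k) H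
  rw [← norm_mul, D0, ← hM, h1, Fin.sum_univ_succ, h2, zero_mul, zero_add]
  refine (norm_sum_le _ _).trans (le_of_eq (Finset.sum_congr rfl fun k _ => ?_))
  rw [norm_mul, h3, hM, D0_swap]

theorem norm_D0_le {a : Fin (q + 1)} {y : Fin q → Fin (q + 1) → ℂ} {B : ℝ}
    (h : ∀ k b, ‖y k b‖ ≤ B) : ‖D0 (Pi.single a 1) y‖ ≤ (q + 1).factorial * B ^ q := by
  rw [D0, ← Matrix.det_transpose, Matrix.det_apply']
  refine (norm_sum_le _ _).trans ((Finset.sum_le_card_nsmul _ _ (B ^ q) fun σ _ => ?_).trans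
    (by simp [Fintype.card_perm]))
  have h1 : ‖((Equiv.Perm.sign σ : ℤ) : ℂ)‖ = 1 := by
    rcases Int.units_eq_one_or (Equiv.Perm.sign σ) with h | h <;> simp [h]
  rw [norm_mul, h1, one_mul, Fin.prod_univ_succ, norm_mul, norm_prod]
  refine (mul_le_mul (b := 1) (d := B ^ q) ?_ ?_ (by positivity) zero_le_one).trans (one_mul _).le
  · simp only [Matrix.transpose_apply, Matrix.of_apply, Fin.cons_zero, Pi.single_apply]
    split_ifs <;> simp
  · refine (Finset.prod_le_prod (fun _ _ => norm_nonneg _) fun k _ => h k (σ k.succ)).trans ?_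
    simp

theorem norm_dot_le {v e : ι → ℂ} {A B : ℝ} (hv : ‖v‖ ≤ A) (he : ∀ i, ‖e i‖ ≤ B) :
    ‖∑ i, v i * e i‖ ≤ Fintype.card ι * (A * B) := by
  refine (norm_sum_le _ _).trans ((Finset.sum_le_card_nsmul _ _ (A * B) fun i _ => ?_).trans
    (by simp))
  rw [norm_mul]
  exact mul_le_mul ((norm_le_pi_norm v i).trans hv) (he i) (norm_nonneg _)
    ((norm_nonneg _).trans hv)

theorem norm_elim_le {u : Fin N₁ → ι → ℂ} {r : Fin N₂ → ι → ℂ} {R : ℝ} (hu : ‖u‖ ≤ R)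
    (hr : ‖r‖ ≤ R) (t : Fin N₁ ⊕ Fin N₂) : ‖Sum.elim u r t‖ ≤ R := by
  rcases t with t | t
  · exact (norm_le_pi_norm u t).trans hu
  · exact (norm_le_pi_norm r t).trans hr

theorem lf_XL (Ξ : ι → Fin (q + 1) → ℂ) (H : Fin (q + 1) → ℂ) (v : ι → ℂ) :
    lf H (XL Ξ v) = ∑ i, v i * lf H (Ξ i) := by
  simp only [lf, XL_apply, Finset.mul_sum]
  rw [Finset.sum_comm]
  exact Finset.sum_congr rfl fun i _ => Finset.sum_congr rfl fun b _ => by ring

variable [DecidableEq ι]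

/-- Expansion of every slot. -/
theorem expand {Ξ : ι → Fin (q + 1) → ℂ} {u : Fin N₁ → ι → ℂ} {r : Fin N₂ → ι → ℂ} {R P : ℝ}
    {i₀ : ι} {a₀ : Fin (q + 1)} (hP : 0 ≤ P) (h0 : ∀ b, b ≠ a₀ → Ξ i₀ b = 0)
    (hG : Good μ u r i₀ R) (hD : ∀ θ, nR θ ≤ μ → ‖Dt Ξ u r θ a₀‖ ≤ P) (v : Fin q → ι → ℂ) :
    ‖Om Ξ (Pi.single a₀ 1) v‖ ≤ ((N₁ + μ + 1 : ℕ) : ℝ) ^ q * ((∏ k, R * ‖v k‖) * P) := by
  obtain ⟨sel, hs⟩ := hG
  choose a a' t ha ha' hv using fun k => hs (v k)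
  let vec : Option (Fin N₁ ⊕ Fin μ) → ι → ℂ := fun c =>
    c.elim (Pi.single i₀ 1) fun s => Sum.elim u r (s.map id sel)
  let co : Fin q → Option (Fin N₁ ⊕ Fin μ) → ℂ := fun k c => c.elim (t k) (Sum.elim (a k) (a' k))
  have e : v = fun k => ∑ c, co k c • vec c := funext fun k => by
    rw [hv k, Fintype.sum_option, Fintype.sum_sum_type, add_comm]
    congr 1
    ext i
    simp [co, vec, Pi.single_apply]
  have hn : ∀ k, 0 ≤ R * ‖v k‖ := fun k => (norm_nonneg _).trans (ha k)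
  have hb : 0 ≤ (∏ k, R * ‖v k‖) * P := mul_nonneg (Finset.prod_nonneg fun k _ => hn k) hP
  have e1 : Om Ξ (Pi.single a₀ 1) v = ∑ g : Fin q → Option (Fin N₁ ⊕ Fin μ),
      (∏ k, co k (g k)) • Om Ξ (Pi.single a₀ 1) fun k => vec (g k) := by
    conv_lhs => rw [e]
    refine ((Om Ξ (Pi.single a₀ 1)).toMultilinearMap.map_sum fun k c => co k c • vec c).trans ?_
    exact Finset.sum_congr rfl fun g _ => (Om Ξ (Pi.single a₀ 1)).map_smul_univ _ _
  rw [e1]
  refine (norm_sum_le _ _).trans ((Finset.sum_le_card_nsmul _ _ ((∏ k, R * ‖v k‖) * P)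
    fun g _ => ?_).trans (by simp))
  by_cases h1 : ∃ k, g k = none
  · obtain ⟨k, hk⟩ := h1
    rw [Om_apply, D0_par (k := k) (c := Ξ i₀ a₀), smul_zero, norm_zero]
    · exact hb
    · ext b
      by_cases hb : b = a₀
      · simp [hk, vec, XL_apply, Pi.single_apply, hb]
      · simp [hk, vec, XL_apply, Pi.single_apply, hb, h0 b hb]
  push Not at h1
  choose g' hg' using fun k => Option.ne_none_iff_exists'.1 (h1 k)
  obtain rfl : g = fun k => some (g' k) := funext hg'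
  by_cases h2 : Function.Injective g'
  · rw [norm_smul, norm_prod]
    refine mul_le_mul (Finset.prod_le_prod (fun _ _ => norm_nonneg _) fun k _ => ?_)
      (hD (fun k => (g' k).map id sel) ?_) (norm_nonneg _) (Finset.prod_nonneg fun k _ => hn k)
    · change ‖Sum.elim (a k) (a' k) (g' k)‖ ≤ _
      rcases g' k with s | s
      · exact (norm_le_pi_norm _ s).trans (ha k)
      · exact (norm_le_pi_norm _ s).trans (ha' k)
    · refine (Finset.card_le_card_of_injOn (t := Finset.univ.map Function.Embedding.inr) g'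
        (fun k hk => ?_) h2.injOn).trans (by simp)
      have hk' : ((g' k).map id sel).isRight = true := (Finset.mem_filter.1 hk).2
      generalize g' k = s at hk' ⊢
      rcases s with s | s
      · simp at hk'
      · simp
  · rw [(Om Ξ (Pi.single a₀ 1)).map_eq_zero_of_not_injective _
      fun h3 => h2 fun k l e => h3 (congrArg (fun s => vec (some s)) e), smul_zero, norm_zero]
    exact hb

end ExpAux

open ExpAux in
theorem expS : ExpStmt := by
  intro ι _ _ q N₁ N₂ μ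
  obtain ⟨n, hn⟩ : ∃ n : ℝ, n = Fintype.card ι := ⟨_, rfl⟩
  obtain ⟨K, hK⟩ : ∃ K : ℝ, K = ((N₁ + μ + 1 : ℕ) : ℝ) ^ q := ⟨_, rfl⟩
  have n0 : 0 ≤ n := by rw [hn]; positivity
  have K0 : 0 ≤ K := by rw [hK]; positivity
  have c1 : (0 : ℝ) ≤ (q + 1).factorial * n ^ q := by positivity
  have c2 : 0 ≤ q * (2 * (n + 1) * K) := by positivity
  refine ⟨1 + (q + 1).factorial * n ^ q + K + q * (2 * (n + 1) * K), by linarith,
    fun Ξ u r R hR hu hr => ⟨fun Λ hΛ θ a => ?_, ?_⟩⟩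
  · have hΛ0 := (norm_nonneg _).trans hΛ
    have h1 : ‖Dt Ξ u r θ a‖ ≤ (q + 1).factorial * (n * (R * Λ)) ^ q :=
      norm_D0_le fun k b => hn ▸ norm_dot_le (norm_elim_le hu hr _) fun i =>
        (norm_le_pi_norm (Ξ i) b).trans ((norm_le_pi_norm Ξ i).trans hΛ)
    rw [mul_pow, ← mul_assoc] at h1
    exact h1.trans (mul_le_mul_of_nonneg_right (by linarith) (by positivity))
  intro e H w i₀ a₀ E δ P hδ hH ha h0 hw hw1 he hue hre hG hD
  have R0 : 0 ≤ R := by linarith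
  have E0 : 0 ≤ E := (norm_nonneg _).trans (he i₀)
  have hx : ∀ a, XL Ξ (w a) = Pi.single a 1 := fun a => funext fun b => by
    rw [XL_apply, hw, Pi.single_apply]
    exact if_congr eq_comm rfl rfl
  have hw2 : ∀ a, ‖w a‖ ≤ 1 := fun a => (norm_le_pi_norm w a).trans hw1
  have lo : ∀ P' : ℝ, 0 ≤ P' → P ≤ P' → 1 ≤ K * (R ^ q * P') := fun P' h1 h2 => by
    have h3 := expand h1 h0 hG (fun θ hθ => (hD θ hθ).trans h2) fun k => w (a₀.succAbove k)
    rw [Om_apply] at h3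
    simp only [hx] at h3
    rw [D0_perm, ← hK] at h3
    refine h3.trans (mul_le_mul_of_nonneg_left (mul_le_mul_of_nonneg_right ?_ h1) K0)
    refine (Finset.prod_le_prod (g := fun _ => R) (fun k _ => by positivity)
      fun k _ => mul_le_of_le_one_right R0 (hw2 _)).trans (by simp)
  have P0 : 0 ≤ P := by
    by_contra! h1
    have := lo 0 le_rfl h1.le
    norm_num at this
  have hq : 0 ≤ R ^ q * P := by positivity
  refine ⟨?_, fun θ a b => ?_⟩
  · rw [mul_assoc]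
    exact (lo P P0 le_rfl).trans (mul_le_mul_of_nonneg_right (by linarith) hq)
  have hH0 : 0 < ‖H‖ := norm_pos_iff.2 hH
  let y : Fin q → ι → ℂ := fun k => Sum.elim u r (θ k)
  let w₀ : ι → ℂ := H a • w b - H b • w a
  have e1 : XL Ξ w₀ = H a • Pi.single b 1 - H b • Pi.single a 1 := by
    rw [map_sub, map_smul, map_smul, hx, hx]
  have e2 : D0 (XL Ξ w₀) (fun k => XL Ξ (y k)) = H a * Dt Ξ u r θ b - H b * Dt Ξ u r θ a := by
    rw [e1, D0_lin]
    rfl
  have e3 : lf H (XL Ξ w₀) = 0 := by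
    rw [e1, lf_sub_right, lf_smul_right, lf_smul_right]
    simp [lf, Pi.single_apply, mul_comm]
  have b0 : ‖w₀‖ ≤ 2 * ‖H‖ := by
    refine (norm_sub_le _ _).trans ?_
    rw [norm_smul, norm_smul, two_mul]
    exact add_le_add
      ((mul_le_of_le_one_right (norm_nonneg _) (hw2 b)).trans (norm_le_pi_norm H a))
      ((mul_le_of_le_one_right (norm_nonneg _) (hw2 a)).trans (norm_le_pi_norm H b))
  have b1 : ∀ k, ‖lf H (XL Ξ (y k))‖ ≤ (n + 1) * (R * (δ + E)) := fun k => by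
    have h1 : ‖∑ i, y k i * e i‖ ≤ δ := by
      change ‖∑ i, Sum.elim u r (θ k) i * e i‖ ≤ δ
      rcases θ k with s | s
      · exact hue s
      · exact hre s
    have h2 : ‖∑ i, y k i * (e i + lf H (Ξ i))‖ ≤ n * (R * E) :=
      hn ▸ norm_dot_le (norm_elim_le hu hr _) he
    have h3 : lf H (XL Ξ (y k)) = ∑ i, y k i * (e i + lf H (Ξ i)) - ∑ i, y k i * e i := by
      rw [lf_XL, ← Finset.sum_sub_distrib]
      exact Finset.sum_congr rfl fun i _ => by ring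
    rw [h3]
    refine (norm_sub_le _ _).trans ((add_le_add h2 h1).trans ?_)
    have h4 := mul_nonneg R0 hδ
    nlinarith [mul_nonneg n0 h4, mul_nonneg R0 E0, mul_nonneg (sub_nonneg.2 hR) hδ]
  have b2 : ∀ k, R * ‖D0 (Pi.single a₀ 1) (Function.update (fun k => XL Ξ (y k)) k (XL Ξ w₀))‖ ≤
      K * (R ^ (2 * q) * (2 * ‖H‖) * P) := fun k => by
    have h1 := expand P0 h0 hG hD (Function.update y k w₀)
    rw [Om_apply, ← hK] at h1
    have h2 : (fun l => XL Ξ (Function.update y k w₀ l)) =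
        Function.update (fun l => XL Ξ (y l)) k (XL Ξ w₀) :=
      Function.comp_update (XL Ξ) y k w₀
    rw [h2] at h1
    have h3 : R * ∏ l, R * ‖Function.update y k w₀ l‖ ≤ R ^ (2 * q) * (2 * ‖H‖) := by
      rw [← Finset.mul_prod_erase _ _ (Finset.mem_univ k), Function.update_self]
      have h4 : ∏ l ∈ Finset.univ.erase k, R * ‖Function.update y k w₀ l‖ ≤ (R * R) ^ (q - 1) := by
        refine (Finset.prod_le_prod (g := fun _ => R * R) (fun l _ => by positivity)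
          fun l hl => ?_).trans (by simp)
        rw [Function.update_of_ne (Finset.ne_of_mem_erase hl)]
        exact mul_le_mul_of_nonneg_left (norm_elim_le hu hr _) R0
      have h5 : R ^ (2 * q) = R * R * (R * R) ^ (q - 1) := by
        rw [← pow_succ', Nat.sub_add_cancel k.pos, pow_mul, sq]
      calc R * (R * ‖w₀‖ * ∏ l ∈ Finset.univ.erase k, R * ‖Function.update y k w₀ l‖)
          ≤ R * (R * (2 * ‖H‖) * (R * R) ^ (q - 1)) := by
            gcongr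
        _ = _ := by rw [h5]; ring
    calc _ ≤ R * (K * ((∏ l, R * ‖Function.update y k w₀ l‖) * P)) :=
          mul_le_mul_of_nonneg_left h1 R0
      _ = K * ((R * ∏ l, R * ‖Function.update y k w₀ l‖) * P) := by ring
      _ ≤ _ := by gcongr
  have b3 := cramer (XL Ξ w₀) H (fun k => XL Ξ (y k)) a₀ e3
  rw [e2, ha] at b3
  have b4 : ‖H a * Dt Ξ u r θ b - H b * Dt Ξ u r θ a‖ ≤
      q * (2 * (n + 1) * K) * (R ^ (2 * q) * (δ + E) * P) := by
    refine le_of_mul_le_mul_right (b3.trans ((Finset.sum_le_card_nsmul _ _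
      ((n + 1) * (δ + E) * (K * (R ^ (2 * q) * (2 * ‖H‖) * P))) fun k _ => ?_).trans
      (le_of_eq ?_))) hH0
    · refine (mul_le_mul_of_nonneg_right (b1 k) (norm_nonneg _)).trans ?_
      rw [show ∀ x : ℝ, (n + 1) * (R * (δ + E)) * x = (n + 1) * (δ + E) * (R * x) from
        fun x => by ring]
      exact mul_le_mul_of_nonneg_left (b2 k) (by positivity)
    · rw [Finset.card_univ, Fintype.card_fin, nsmul_eq_mul]
      ring
  have b5 := norm_le_insert' (H a * Dt Ξ u r θ b) (H b * Dt Ξ u r θ a)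
  rw [norm_mul, norm_mul] at b5
  refine b5.trans (add_le_add le_rfl (b4.trans ?_))
  rw [show ∀ C : ℝ, C * R ^ (2 * q) * (δ + E) * P = C * (R ^ (2 * q) * (δ + E) * P) from
    fun C => by ring]
  exact mul_le_mul_of_nonneg_right (by linarith) (by positivity)

end

end Pool.Agent.Lib.MP_45f16c_ag.AS
end

-- part Pool.Agent.Lib.MP_45f16c_ag.AS.Pt
section

/-! Pointwise estimates for the homogenised minors. -/

set_option autoImplicit false
open Metric MeasureTheory MvPolynomial Filter Module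
open scoped ComplexConjugate Matrix Topology

namespace Pool.Agent.Lib.MP_45f16c_ag.AS

noncomputable section

attribute [local irreducible] form formR

namespace PtAux

variable {q d j μ h N₁ N₂ : ℕ}

theorem prod_pow (hh : 1 ≤ h) (t : ℂ) (θ : Fin q → Fin N₁ ⊕ Fin N₂) :
    ∏ k, t * Sum.elim (fun _ => t ^ 1) (fun _ => t ^ h) (θ k) = t ^ (2 * q + (h - 1) * nR θ) := by
  have e : ∀ k, t * Sum.elim (fun _ => t ^ 1) (fun _ => t ^ h) (θ k) =
      t ^ (2 + if (θ k).isRight then h - 1 else 0) := fun k => by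
    cases θ k with
    | inl a => simp [sq]
    | inr a => simp [← pow_succ', show 2 + (h - 1) = h + 1 by omega]
  simp only [e, Finset.prod_pow_eq_pow_sum, Finset.sum_add_distrib, ← Finset.sum_filter, nR,
    Finset.sum_const, Finset.card_univ, Fintype.card_fin, smul_eq_mul, mul_comm]

theorem Dt_smul {ι : Type} [Fintype ι] (Ξ : ι → Fin (q + 1) → ℂ) (u : Fin N₁ → ι → ℂ)
    (r : Fin N₂ → ι → ℂ) (θ : Fin q → Fin N₁ ⊕ Fin N₂) (a : Fin (q + 1)) (t x y : ℂ) :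
    Dt (t • Ξ) (fun α => x • u α) (fun κ => y • r κ) θ a =
      (∏ k, t * Sum.elim (fun _ => x) (fun _ => y) (θ k)) * Dt Ξ u r θ a := by
  have e := Fin.prod_cons 1 fun k => t * Sum.elim (fun _ => x) (fun _ => y) (θ k)
  rw [one_mul] at e
  rw [Dt, Dt, ← e, ← Matrix.det_mul_column]
  refine congrArg Matrix.det (Matrix.ext fun k b => ?_)
  induction k using Fin.cases with
  | zero => simp
  | succ k =>
    simp only [Matrix.of_apply, Fin.cons_succ, Finset.mul_sum]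
    refine Finset.sum_congr rfl fun i _ => ?_
    cases θ k <;> simp only [Sum.elim_inl, Sum.elim_inr, Pi.smul_apply, smul_eq_mul] <;> ring

theorem Xi_smul {ν : ℕ} (t : ℂ) (x : Fin ν → ℂ) (ξ : Mon ν d → Fin ν → ℂ) :
    Xi j (t • x) (t • ξ) = t • Xi j x ξ := by
  funext i
  rcases i with ab | m | l
  · simp [Xi, ← Pi.single_smul]
  · rfl
  · simp [Xi]

theorem Dl2_smul (hh : 1 ≤ h) (s : Fin N₁ → Gi (q + 1) d j → Mon (q + 1) 1 → ℂ)
    (r : Fin N₂ → Gi (q + 1) d j → Mon (q + 1) h → ℂ) (t : ℂ) (x : Fin (q + 1) → ℂ)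
    (ξ : Mon (q + 1) d → Fin (q + 1) → ℂ) :
    Dl2 μ s r (t • x) (t • ξ) = t ^ (2 * q + (h - 1) * μ) • Dl2 μ s r x ξ := by
  funext τ
  simp only [Dl2, Pi.smul_apply, smul_eq_mul, vv_smul, Xi_smul, Dt_smul, prod_pow hh]
  split_ifs with k
  · obtain ⟨n, rfl⟩ := Nat.exists_eq_add_of_le k
    rw [Nat.add_sub_cancel_left]
    ring
  · rw [mul_zero]

theorem norm_Xi_le {ν : ℕ} {x : Fin ν → ℂ} {ξ : Mon ν d → Fin ν → ℂ} {Λ : ℝ} (hx : ‖x‖ ≤ Λ)
    (hξ : ∀ m, ‖ξ m‖ ≤ Λ) : ‖Xi j x ξ‖ ≤ Λ := by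
  have h0 : 0 ≤ Λ := (norm_nonneg _).trans hx
  refine (pi_norm_le_iff_of_nonneg h0).2 fun i => ?_
  rcases i with ab | m | l
  · simp only [Xi, Sum.elim_inl, Pi.norm_single, norm_neg]
    exact (norm_le_pi_norm _ _).trans hx
  · exact hξ m
  · simpa [Xi] using h0

theorem norm_vv {ν N t : ℕ} {ι : Type} [Fintype ι] {s : Fin N → ι → Mon ν t → ℂ} {p : Fin ν → ℂ}
    {R C : ℝ} (hp : ‖p‖ = 1) (hs : ‖s‖ ≤ R) (hC : Fintype.card (Mon ν t) ≤ C) :
    ‖fun α => vv (s α) p‖ ≤ C * R := by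
  have h0 : 0 ≤ C := (Nat.cast_nonneg _).trans hC
  have h1 : 0 ≤ R := (norm_nonneg _).trans hs
  refine (pi_norm_le_iff_of_nonneg (by positivity)).2 fun α => (norm_vv_le _ _).trans ?_
  rw [hp, one_pow, mul_one]
  exact mul_le_mul hC ((norm_le_pi_norm s α).trans hs) (norm_nonneg _) h0

/-- The estimates at a point of norm one. -/
theorem unit (hE : ExpStmt) (q d j μ h N₁ N₂ : ℕ) {η : ℝ} (hη : 0 < η) : ∃ C : ℝ, 1 ≤ C ∧
    ∀ c ∈ Usm (q + 1) d η, ∀ (y : Fin j → Mon (q + 1) d → ℂ)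
      (s : Fin N₁ → Gi (q + 1) d j → Mon (q + 1) 1 → ℂ)
      (r : Fin N₂ → Gi (q + 1) d j → Mon (q + 1) h → ℂ) (p : Fin (q + 1) → ℂ)
      (ξ : Mon (q + 1) d → Fin (q + 1) → ℂ) (R Λ E δ : ℝ), ‖p‖ = 1 → 1 ≤ R →
      1 ≤ Λ → 0 ≤ E → 0 ≤ δ → ‖s‖ ≤ R → ‖r‖ ≤ R → (∀ m, ‖ξ m‖ ≤ Λ) →
      ‖Dl2 μ s r p ξ‖ ≤ C * (R * Λ) ^ q ∧
      ((∀ m, ‖eval p (form (prj y m)) + lf (grad c p) (ξ m)‖ ≤ E) →
        (∀ α, ‖∑ i, vv (s α) p i * gen c y p i‖ ≤ δ) →
        (∀ κ, ‖∑ i, vv (r κ) p i * gen c y p i‖ ≤ δ) →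
        (∀ i₀, η ≤ ‖gen c y p i₀‖ →
          Good μ (fun α => vv (s α) p) (fun κ => vv (r κ) p) i₀ R) →
        1 ≤ C * R ^ q * ‖Dl2 μ s r p ξ‖ ∧
        ∀ t a b, ‖grad c p a‖ * ‖Dl2 μ s r p ξ (t, b)‖ ≤ ‖grad c p b‖ * ‖Dl2 μ s r p ξ (t, a)‖ +
          C * R ^ (2 * q) * (δ + E) * ‖grad c p‖ * ‖Dl2 μ s r p ξ‖) := by
  obtain ⟨C, hC, hE⟩ := hE (Gi (q + 1) d j) q N₁ N₂ μ
  obtain ⟨B, b0, b1, b2⟩ : ∃ B : ℝ, 1 ≤ B ∧ Fintype.card (Mon (q + 1) 1) ≤ B ∧
      Fintype.card (Mon (q + 1) h) ≤ B := ⟨max 1 (max _ _), le_max_left _ _,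
    (le_max_left _ _).trans (le_max_right _ _), (le_max_right _ _).trans (le_max_right _ _)⟩
  have c1 : C * B ^ (2 * q) ≤ C * B ^ (2 * q) * (1 + η⁻¹) :=
    le_mul_of_one_le_right (by positivity) (le_add_of_nonneg_right (by positivity))
  have c2 : C * B ^ q ≤ C * B ^ (2 * q) * (1 + η⁻¹) :=
    (mul_le_mul_of_nonneg_left (pow_le_pow_right₀ b0 (by omega)) (by positivity)).trans c1
  refine ⟨C * B ^ (2 * q) * (1 + η⁻¹), (one_le_mul_of_one_le_of_one_le hC (one_le_pow₀ b0)).trans c1,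
    fun c hc y s r p ξ R Λ E δ hp hR hΛ hE0 hδ hs hr hξ => ?_⟩
  obtain ⟨h1, h2⟩ := hE (Xi j p ξ) _ _ (B * R) (one_le_mul_of_one_le_of_one_le b0 hR)
    (norm_vv hp hs b1) (norm_vv hp hr b2)
  have p1 : ∀ (b : Fin (q + 1)) (n : ℕ), ‖p b ^ n‖ ≤ 1 := fun b n => by
    rw [norm_pow]
    exact pow_le_one₀ (norm_nonneg _) ((norm_le_pi_norm p b).trans hp.le)
  refine ⟨(pi_norm_le_iff_of_nonneg (by positivity)).2 fun τ => ?_, fun k1 k2 k3 k4 => ?_⟩
  · rw [Dl2]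
    split_ifs
    · rw [norm_mul]
      refine (mul_le_of_le_one_left (norm_nonneg _) (p1 _ _)).trans
        ((h1 Λ (norm_Xi_le (hp.le.trans hΛ) hξ) _ _).trans ?_)
      rw [mul_assoc B, mul_pow B, ← mul_assoc]
      exact mul_le_mul_of_nonneg_right c2 (by positivity)
    · rw [norm_zero]; positivity
  obtain ⟨b₀, hb₀⟩ := exists_norm_eq p
  obtain ⟨a₀, ha₀⟩ := exists_norm_eq (grad c p)
  rw [hp] at hb₀
  have hxb : p b₀ ≠ 0 := norm_pos_iff.1 (hb₀ ▸ one_pos)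
  have hH := hc.2 p hp
  obtain ⟨h3, h4⟩ := h2 (gen c y p) (grad c p)
    (fun a => Pi.single (Sum.inl (a, b₀)) (-(p b₀)⁻¹)) (.inl (a₀, b₀)) a₀ E δ ‖Dl2 μ s r p ξ‖ hδ
    (norm_pos_iff.1 (hη.trans_le hH)) ha₀ (fun b hb => by simp [Xi, hb])
    (fun a b => by
      rw [Finset.sum_eq_single (Sum.inl (a, b₀)) (fun i _ hi => by simp [hi]) (by simp)]
      by_cases h : a = b
      · subst h; simp [Xi, hxb]
      · simp [Xi, h])
    ((pi_norm_le_iff_of_nonneg zero_le_one).2 fun a => by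
      rw [Pi.norm_single, norm_neg, norm_inv, hb₀, inv_one])
    (fun i => by
      rcases i with ab | m | l
      · have : gen c y p (Sum.inl ab) + lf (grad c p) (Xi j p ξ (Sum.inl ab)) = 0 := by
          simp only [gen, Xi, lf, Sum.elim_inl]
          rw [Finset.sum_eq_single ab.1 (fun i _ hi => by simp [hi]) (by simp)]
          simp [mul_comm]
        rwa [this, norm_zero]
      · exact k1 m
      · have : gen c y p (Sum.inr (Sum.inr l)) +
            lf (grad c p) (Xi j p ξ (Sum.inr (Sum.inr l))) = 0 := by simp [gen, Xi, lf]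
        rwa [this, norm_zero]) k2 k3
    (by
      obtain ⟨sel, k⟩ := k4 (.inl (a₀, b₀)) (by
        rwa [gen, Sum.elim_inl, norm_mul, hb₀, one_mul, ha₀])
      refine ⟨sel, fun v => ?_⟩
      obtain ⟨a, a', t, e1, e2, e3⟩ := k v
      have e : R * ‖v‖ ≤ B * R * ‖v‖ :=
        mul_le_mul_of_nonneg_right (le_mul_of_one_le_left (by positivity) b0) (norm_nonneg _)
      exact ⟨a, a', t, e1.trans e, e2.trans e, e3⟩)
    fun θ k => by
      have e := norm_le_pi_norm (Dl2 μ s r p ξ) ((θ, b₀), a₀)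
      rwa [Dl2, if_pos k, norm_mul, norm_pow, hb₀, one_pow, one_mul] at e
  refine ⟨h3.trans ?_, fun t a b => ?_⟩
  · rw [mul_pow, ← mul_assoc]
    gcongr
  have e1 : C * (B * R) ^ (2 * q) * (δ + E) * ‖Dl2 μ s r p ξ‖ ≤ C * B ^ (2 * q) * (1 + η⁻¹) *
      R ^ (2 * q) * (δ + E) * ‖grad c p‖ * ‖Dl2 μ s r p ξ‖ := by
    have e : 1 ≤ (1 + η⁻¹) * ‖grad c p‖ := (inv_mul_cancel₀ hη.ne').symm.trans_le
      (mul_le_mul (le_add_of_nonneg_left zero_le_one) hH hη.le (by positivity))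
    refine (le_mul_of_one_le_right (by positivity) e).trans_eq ?_
    rw [mul_pow]
    ring
  have e0 : 0 ≤ C * (B * R) ^ (2 * q) * (δ + E) * ‖Dl2 μ s r p ξ‖ := by positivity
  refine le_trans ?_ (add_le_add le_rfl e1)
  generalize C * (B * R) ^ (2 * q) * (δ + E) * ‖Dl2 μ s r p ξ‖ = Z at h4 e0
  rw [Dl2, Dl2]
  split_ifs
  · have e2 := mul_le_mul_of_nonneg_left (h4 t.1 a b) (norm_nonneg (p t.2 ^ ((h - 1) * (μ - nR t.1))))
    have e3 := mul_le_of_le_one_left e0 (p1 t.2 ((h - 1) * (μ - nR t.1)))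
    rw [norm_mul, norm_mul]
    linarith
  · simpa using e0

end PtAux

theorem ptS (hE : ExpStmt) : PtStmt := by
  intro q d j μ h D N₁ N₂ η hd hh hD hη
  obtain ⟨C, hC, H⟩ := PtAux.unit hE q d j μ h N₁ N₂ hη
  refine ⟨C, hC, fun c hc y s r x p ξ R Λ E δ hx hp hR hΛ hE0 hδ hs hr hξ => ?_⟩
  have h0 : 0 < ‖x‖ := norm_pos_iff.2 hx
  generalize hρ : ‖x‖ = ρ at *
  have hn : ‖(ρ : ℂ)‖ = ρ := by rw [Complex.norm_real, Real.norm_of_nonneg h0.le]
  have h1 : ‖p‖ = 1 := by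
    rw [hp, norm_smul, hn] at hρ
    exact (mul_eq_left₀ h0.ne').1 hρ
  obtain ⟨ξ, rfl⟩ : ∃ ξ', ξ = (ρ : ℂ) • ξ' :=
    ⟨(ρ : ℂ)⁻¹ • ξ, (smul_inv_smul₀ (by exact_mod_cast h0.ne') _).symm⟩
  subst hp
  obtain ⟨h2, h3⟩ := H c hc y s r p ξ R Λ E δ h1 hR hΛ hE0 hδ hs hr fun m => by
    have e := hξ m
    rwa [Pi.smul_apply, norm_smul, hn, mul_comm, mul_le_mul_iff_left₀ h0] at e
  have e1 : ‖Dl2 μ s r ((ρ : ℂ) • p) ((ρ : ℂ) • ξ)‖ * ρ ^ D = ‖Dl2 μ s r p ξ‖ * ρ ^ (d - 1) := by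
    rw [PtAux.Dl2_smul hh, norm_smul, norm_pow, hn, show d - 1 = 2 * q + (h - 1) * μ + D by
      rw [mul_comm (h - 1)]; omega, pow_add ρ _ D]
    ring
  rw [e1]
  refine ⟨by gcongr, fun k1 k2 k3 k4 => ?_⟩
  obtain ⟨h4, h5⟩ := h3 (fun m => by
    have e := k1 m
    rwa [eval_form_smul, grad_smul, Pi.smul_apply, lf_smul_left, lf_smul_right, ← mul_assoc,
      ← pow_succ, Nat.sub_add_cancel hd, ← mul_add, norm_mul, norm_pow, hn, mul_comm,
      mul_le_mul_iff_left₀ (pow_pos h0 d)] at e) k2 k3 k4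
  refine ⟨by rw [← mul_assoc]; exact le_mul_of_one_le_left (by positivity) h4, fun t a b => ?_⟩
  have e2 := mul_le_mul_of_nonneg_left (h5 t a b)
    (show 0 ≤ ρ ^ (d - 1) * ρ ^ (2 * q + (h - 1) * μ) by positivity)
  simp only [PtAux.Dl2_smul hh, grad_smul, Pi.smul_apply, norm_smul, norm_pow, hn]
  linarith

end

end Pool.Agent.Lib.MP_45f16c_ag.AS
end
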