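import Pool.Agent.Lib.MP_45f16c_ag.AS.BL
import Pool.Agent.Lib.MP_45f16c_ag.Three
import Pool.Agent.Lib.MP_45f16c_ag.Unif
import Pool.Agent.Lib.MP_45f16c_ag.Smooth

-- part Pool.Agent.Lib.MP_45f16c_ag.AS.Sel2
section

/-! Local scale selection. -/

set_option autoImplicit false
open Metric MeasureTheory MvPolynomial Filter Module
open scoped ComplexConjugate Matrix Topology

namespace Pool.Agent.Lib.MP_45f16c_ag.AS

noncomputable section

namespace Sel2Aux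

open SelAux

variable {ν : ℕ}

/-- Point selection near a given disc. -/
theorem hofer_loc {f : ℂ → Fin ν → ℂ} (hf : Ent f) {τ C t : ℝ} {a : ℂ} (hτ : 0 < τ) (hC : 0 < C)
    (ht : 0 < t) (h0 : τ ≤ Tch f a t) : ∃ (a' : ℂ) (t' : ℝ), 0 < t' ∧ t' ≤ t ∧
      dist a' a ≤ 2 * C * t ∧ τ ≤ Tch f a' t' ∧
      ∀ z ∈ closedBall a' (C * t'), Tch f z (t' / 2) ≤ τ := by
  by_contra hc
  have it : ∀ k : ℕ, ∃ z, dist z a ≤ 2 * C * t - 2 * C * (t * (1 / 2) ^ k) ∧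
      τ ≤ Tch f z (t * (1 / 2) ^ k) := by
    intro k
    induction k with
    | zero => exact ⟨a, by simp, by simpa using h0⟩
    | succ k ih =>
      obtain ⟨z, hz, h⟩ := ih
      have hp : 0 < t * (1 / 2 : ℝ) ^ k := by positivity
      have hp' : 0 < 2 * C * (t * (1 / 2 : ℝ) ^ k) := by positivity
      have hle : t * (1 / 2 : ℝ) ^ k ≤ t :=
        mul_le_of_le_one_right ht.le (pow_le_one₀ (by norm_num) (by norm_num))
      obtain ⟨y, hy, h'⟩ : ∃ y ∈ closedBall z (C * (t * (1 / 2) ^ k)),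
          τ ≤ Tch f y (t * (1 / 2) ^ k / 2) := by
        by_contra h2
        exact hc ⟨z, _, hp, hle, by linarith, h,
          fun y hy => (lt_of_not_ge fun h3 => h2 ⟨y, hy, h3⟩).le⟩
      have e : t * (1 / 2) ^ (k + 1) = t * (1 / 2) ^ k / 2 := by ring
      refine ⟨y, ?_, by rwa [e]⟩
      have hy' : dist y z ≤ C * (t * (1 / 2) ^ k) := hy
      rw [e]
      linarith [dist_triangle y z a]
  obtain ⟨δ, hδ, hs⟩ := HoferAux.small hf a (2 * C * t) hτ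
  obtain ⟨k, hk⟩ := exists_pow_lt_of_lt_one (div_pos hδ ht) (by norm_num : (1 / 2 : ℝ) < 1)
  obtain ⟨z, hz, h⟩ := it k
  have hp : 0 < t * (1 / 2 : ℝ) ^ k := by positivity
  have hp' : 0 < 2 * C * (t * (1 / 2 : ℝ) ^ k) := by positivity
  have := hs z (by rw [mem_closedBall]; linarith) _ hp (by rwa [lt_div_iff₀' ht] at hk)
  linarith

/-- The normalised disc, with its location. -/
theorem disc_loc (hG : GaugeStmt) {f : ℂ → Fin ν → ℂ} (hf : Ent f) {a a₀ : ℂ}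
    {t ρ K T R : ℝ} (ht : 0 < t) (hρ : 2 ≤ ρ) (hR : dist a a₀ + ρ * t ≤ R)
    (hup : ∀ z ∈ closedBall a (ρ * t), Tch f z (2 * ρ * t) ≤ K * T) (hlo : T ≤ Tch f a t) :
    ∃ g : ℂ → Fin ν → ℂ, From f a₀ R ρ g ∧ Disc ρ K T g ∧
      ∀ (z : ℂ) (s : ℝ), 0 < s → closedBall z s ⊆ ball 0 ρ →
        Tch g z s = Tch f (a + t * z) (t * s) := by
  obtain ⟨g, hd, hl, hb, hT⟩ := hG ν f hf a t ρ ht (by linarith)
  have hpos : ∀ ζ, 0 < ‖g ζ‖ := by
    intro ζ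
    obtain ⟨l, hl0, e⟩ := hl ζ
    rw [e, norm_pos_iff]
    exact smul_ne_zero hl0 (hf.ne _)
  have hmem : ∀ z ∈ ball (0 : ℂ) ρ, a + t * z ∈ closedBall a (ρ * t) := fun z hz => by
    rw [mem_closedBall, dist_aff a ht]
    rw [mem_ball_zero_iff] at hz
    nlinarith
  refine ⟨g, fun ζ hζ => ?_, ⟨hd, fun z hz => ?_, fun z hz => ?_, ?_⟩, hT⟩
  · obtain ⟨l, -, e⟩ := hl ζ
    refine ⟨l, _, ?_, e⟩
    have h1 : dist (a + t * ζ) a ≤ ρ * t := hmem ζ hζ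
    rw [mem_closedBall]
    linarith [dist_triangle (a + t * ζ) a a₀]
  · have h1 := (hb z hz).1
    have h2 := hup _ (hmem z hz)
    rw [← Real.exp_log (hpos z)]
    refine Real.exp_le_exp.2 ?_
    unfold lg at h1
    linarith
  · have h1 := (hb z hz).2
    unfold lg at h1
    exact (Real.log_nonpos_iff (hpos z).le).1 h1
  · rw [hT 0 1 one_pos (closedBall_subset_ball (by linarith))]
    simpa using hlo

/-- The small scale is at least a power of `θ`. -/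
theorem scale {q θ : ℝ} {b : ℕ} (hq0 : 0 ≤ q) (hq : q ≤ 2 ^ b) (hθ : 0 < θ) (hθ' : θ ≤ 1 / 2) :
    ∃ I : ℕ, 1 ≤ 2 ^ I * θ ∧ θ ^ (2 * b + 1) * (2 * q ^ I) ≤ 1 := by
  have h1 : 1 ≤ θ⁻¹ := (one_le_inv₀ hθ).2 (by linarith)
  obtain ⟨n, h2, h3⟩ := exists_nat_pow_near h1 (by norm_num : (1 : ℝ) < 2)
  have h4 := mul_le_mul_of_nonneg_right h2 hθ.le
  have h5 := mul_le_mul_of_nonneg_right h3.le hθ.le
  rw [inv_mul_cancel₀ hθ.ne'] at h4 h5
  refine ⟨n + 1, h5, ?_⟩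
  have h6 : 2 ^ (n + 1) * θ ^ 2 ≤ 1 := by
    have e : 2 ^ (n + 1) * θ ^ 2 = 2 ^ n * θ * (2 * θ) := by ring
    rw [e]
    exact mul_le_one₀ h4 (by positivity) (by linarith)
  have h7 : q ^ (n + 1) * θ ^ (2 * b) ≤ 1 :=
    calc q ^ (n + 1) * θ ^ (2 * b) ≤ (2 ^ b) ^ (n + 1) * θ ^ (2 * b) := by gcongr
      _ = (2 ^ (n + 1) * θ ^ 2) ^ b := by rw [mul_pow, ← pow_mul, ← pow_mul, ← pow_mul, mul_comm b]
      _ ≤ 1 := pow_le_one₀ (by positivity) h6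
  have e : θ ^ (2 * b + 1) * (2 * q ^ (n + 1)) = q ^ (n + 1) * θ ^ (2 * b) * (2 * θ) := by ring
  rw [e]
  exact mul_le_one₀ h7 (by positivity) (by linarith)

/-- The statement for nowhere vanishing maps. -/
theorem ent (hG : GaugeStmt) (hM : MonoStmt) (hD : DblStmt) (ρf : ℝ) (hρf : 2 ≤ ρf) :
    ∃ K C : ℝ, 1 ≤ K ∧ 1 ≤ C ∧ ∀ ρs : ℝ, 2 ≤ ρs → ∃ b : ℕ, ∀ θ : ℝ, 0 < θ →
    θ ≤ 1 / 2 → ∀ (ν : ℕ) (f : ℂ → Fin ν → ℂ) (a : ℂ) (t : ℝ) (τ : ℕ), Ent f →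
      0 < t → 2 ≤ θ * τ → τ ≤ Tch f a t →
      ∃ g : ℂ → Fin ν → ℂ, (From f a (C * t) ρf g ∧ Disc ρf K τ g ∧
          ∀ z ∈ ball (0 : ℂ) (ρf / 2), Tch g z (θ ^ b) ≤ θ * τ) ∨
        ∃ T : ℕ, θ * τ / 4 ≤ T ∧ T ≤ τ ∧ From f a (C * t) ρs g ∧ Disc ρs K T g := by
  obtain ⟨n, hn⟩ := pow_unbounded_of_one_lt (4 * ρf) (by norm_num : (1 : ℝ) < 3 / 2)
  have h32 : (0 : ℝ) < (3 / 2) ^ n := by positivity
  refine ⟨max (6 ^ n) 4, 2 * (ρf + (3 / 2) ^ n) + (ρf + 1),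
    le_trans (by norm_num) (le_max_right _ _), by linarith, ?_⟩
  intro ρs hρs
  obtain ⟨b, hb⟩ := pow_unbounded_of_one_lt (2 * ρs) (by norm_num : (1 : ℝ) < 2)
  refine ⟨2 * b + 1, fun θ hθ hθ' => ?_⟩
  obtain ⟨I, hIθ, hθσ⟩ := scale (by linarith) hb.le hθ hθ'
  have hq : (1 : ℝ) ≤ 2 * ρs := by linarith
  have hqI : (1 : ℝ) ≤ (2 * ρs) ^ I := one_le_pow₀ hq
  have hqI0 : (0 : ℝ) < (2 * ρs) ^ I := by linarith
  set σ : ℝ := 1 / (2 * (2 * ρs) ^ I) with hσ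
  have hσ0 : 0 < σ := by positivity
  have hσI : σ * (2 * ρs) ^ I = 1 / 2 := by rw [hσ]; field_simp
  have hσ1 : σ ≤ 1 := by nlinarith
  have hθb : θ ^ (2 * b + 1) ≤ σ := by rw [hσ, le_div_iff₀ (by positivity)]; exact hθσ
  have hθ0 : 0 < θ ^ (2 * b + 1) := by positivity
  intro ν f a₀ t₀ τ hf ht₀ hτ hlo₀
  have hτ0 : (0 : ℝ) < τ := by
    by_contra hneg
    have : (τ : ℝ) = 0 := le_antisymm (not_lt.1 hneg) (Nat.cast_nonneg τ)
    rw [this] at hτ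
    linarith
  obtain ⟨a, t, ht, htt, ha, hlo, hup⟩ :=
    hofer_loc (C := ρf + (3 / 2) ^ n) hf hτ0 (by linarith) ht₀ hlo₀
  have hρt : ρf * t ≤ ρf * t₀ := mul_le_mul_of_nonneg_left htt (by linarith)
  have hρt0 : 0 ≤ ρf * t := by positivity
  have hti : ∀ i : ℕ, 0 < t * σ * (2 * ρs) ^ i := fun i => by positivity
  have htle : ∀ i : ℕ, i ≤ I → t * σ * (2 * ρs) ^ i ≤ t / 2 := by
    intro i hi
    have h1 : (2 * ρs) ^ i ≤ (2 * ρs) ^ I := pow_le_pow_right₀ hq hi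
    have h2 : t * σ * (2 * ρs) ^ i ≤ t * σ * (2 * ρs) ^ I :=
      mul_le_mul_of_nonneg_left h1 (by positivity)
    have h3 : t * σ * (2 * ρs) ^ I = t / 2 := by rw [mul_assoc, hσI]; ring
    linarith
  have hreg : ∀ i : ℕ, i ≤ I → ∀ z ∈ closedBall a (ρf * t / 2 + t * σ * (2 * ρs) ^ i),
      Tch f z (t * σ * (2 * ρs) ^ i) ≤ τ := by
    intro i hi z hz
    refine le_trans (hM ν f hf z _ _ (hti i).le (htle i hi)).2 (hup z ?_)
    refine closedBall_subset_closedBall ?_ hz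
    have := htle i hi
    nlinarith
  let A : ℕ → Prop := fun i => ∀ z ∈ closedBall a (ρf * t / 2 + t * σ * (2 * ρs) ^ i),
    Tch f z (t * σ * (2 * ρs) ^ i) ≤ 2 ^ i * θ * τ
  have hAI : A I := by
    intro z hz
    refine le_trans (hreg I le_rfl z hz) ?_
    nlinarith
  by_cases hA0 : A 0
  · have hup' : ∀ z ∈ closedBall a (ρf * t), Tch f z (2 * ρf * t) ≤ max (6 ^ n) 4 * (τ : ℝ) := by
      intro z hz
      have h1 := iter hD hf ht hup n z (closedBall_subset_closedBall (by nlinarith) hz)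
      have h2 : 2 * ρf * t ≤ (3 / 2) ^ n * t / 2 := by nlinarith
      have h3 := (hM ν f hf z _ _ (by positivity) h2).2
      have h4 : (6 : ℝ) ^ n * τ ≤ max (6 ^ n) 4 * (τ : ℝ) :=
        mul_le_mul_of_nonneg_right (le_max_left _ _) hτ0.le
      linarith
    obtain ⟨g, hg, hdisc, hT⟩ := disc_loc (a₀ := a₀)
      (R := (2 * (ρf + (3 / 2) ^ n) + (ρf + 1)) * t₀) hG hf ht hρf (by linarith) hup' hlo
    refine ⟨g, Or.inl ⟨hg, hdisc, fun z hz => ?_⟩⟩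
    rw [mem_ball_zero_iff] at hz
    have hsub : closedBall z (θ ^ (2 * b + 1)) ⊆ ball 0 ρf := by
      intro w hw
      rw [mem_closedBall, dist_eq_norm] at hw
      rw [mem_ball_zero_iff]
      have : ‖w‖ ≤ ‖w - z‖ + ‖z‖ := by simpa using norm_add_le (w - z) z
      linarith
    rw [hT z _ hθ0 hsub]
    have h1 := hA0 (a + t * z) (by
      rw [mem_closedBall, dist_aff a ht]
      have := hti 0
      nlinarith)
    refine (hM ν f hf _ _ (t * σ) (by positivity) (by gcongr)).2.trans ?_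
    simpa using h1
  · obtain ⟨i, hi, hAi, hAi1⟩ := exists_step A hA0 I hAI
    simp only [A, not_forall, not_le] at hAi
    obtain ⟨z', hz', hlt⟩ := hAi
    have h2i : (1 : ℝ) ≤ 2 ^ i := one_le_pow₀ (by norm_num)
    set x : ℝ := 2 ^ i * θ * τ with hx
    have hxθ : θ * τ ≤ x := by rw [hx]; nlinarith
    have hx2 : 2 ≤ x := le_trans hτ hxθ
    have hfl : (⌊x⌋₊ : ℝ) ≤ x := Nat.floor_le (by linarith)
    have hfl' : x < ⌊x⌋₊ + 1 := Nat.lt_floor_add_one x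
    have hzτ := hreg i hi.le z' hz'
    have e : 2 * ρs * (t * σ * (2 * ρs) ^ i) = t * σ * (2 * ρs) ^ (i + 1) := by ring
    have hup' : ∀ z ∈ closedBall z' (ρs * (t * σ * (2 * ρs) ^ i)),
        Tch f z (2 * ρs * (t * σ * (2 * ρs) ^ i)) ≤ max (6 ^ n) 4 * (⌊x⌋₊ : ℝ) := by
      intro z hz
      have h1 := hAi1 z (by
        rw [mem_closedBall] at hz hz' ⊢
        have h3 := dist_triangle z z' a
        have h4 := hti i
        rw [← e]
        nlinarith)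
      have h2 : (2 : ℝ) ^ (i + 1) * θ * τ = 2 * x := by rw [hx]; ring
      have h4 : 4 * (⌊x⌋₊ : ℝ) ≤ max (6 ^ n) 4 * (⌊x⌋₊ : ℝ) :=
        mul_le_mul_of_nonneg_right (le_max_right _ _) (Nat.cast_nonneg _)
      rw [e]
      linarith
    obtain ⟨g, hg, hdisc, -⟩ := disc_loc (a₀ := a₀)
      (R := (2 * (ρf + (3 / 2) ^ n) + (ρf + 1)) * t₀) hG hf (hti i) hρs (by
        have h1 := htle i hi.le
        have h2 := htle (i + 1) hi
        rw [mem_closedBall] at hz'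
        linarith [dist_triangle z' a a₀]) hup' (by linarith)
    refine ⟨g, Or.inr ⟨⌊x⌋₊, by linarith, ?_, hg, hdisc⟩⟩
    have : (⌊x⌋₊ : ℝ) ≤ τ := by linarith
    exact_mod_cast this

theorem tch_congr {ν' : ℕ} {f : ℂ → Fin ν → ℂ} {g : ℂ → Fin ν' → ℂ} {z : ℂ} {s : ℝ} (hs : 0 ≤ s)
    (h : ∀ w ∈ closedBall z s, ‖f w‖ = ‖g w‖) : Tch f z s = Tch g z s := by
  have h1 : ∀ w ∈ closedBall z s, lg f w = lg g w := fun w hw => by rw [lg, lg, h w hw]
  rw [Tch, Tch, h1 z (mem_closedBall_self hs), Real.circleAverage_congr_sphere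
    (f₂ := lg g) fun w hw => h1 w (sphere_subset_closedBall (by rwa [abs_of_nonneg hs] at hw))]

theorem norm_cons {ε : ℂ} {x : Fin ν → ℂ} (h : ‖ε‖ ≤ ‖x‖) :
    ‖(Fin.cons ε x : Fin (ν + 1) → ℂ)‖ = ‖x‖ := by
  refine le_antisymm ((pi_norm_le_iff_of_nonneg (norm_nonneg _)).2 fun i => ?_)
    ((pi_norm_le_iff_of_nonneg (norm_nonneg _)).2 fun i => ?_)
  · exact Fin.cases h (fun k => norm_le_pi_norm x k) i
  · exact norm_le_pi_norm (Fin.cons ε x : Fin (ν + 1) → ℂ) i.succ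

/-- Forgetting the auxiliary coordinate. -/
theorem tail {f : ℂ → Fin ν → ℂ} {ε a : ℂ} {R ρ K T : ℝ} {g : ℂ → Fin (ν + 1) → ℂ} (hρ : 2 ≤ ρ)
    (hε : ∀ w ∈ closedBall a R, ‖ε‖ ≤ ‖f w‖)
    (h1 : From (fun z => (Fin.cons ε (f z) : Fin (ν + 1) → ℂ)) a R ρ g) (h2 : Disc ρ K T g) :
    From f a R ρ (fun z i => g z i.succ) ∧ Disc ρ K T (fun z i => g z i.succ) ∧
      ∀ (z : ℂ) (s : ℝ), 0 ≤ s → closedBall z s ⊆ ball 0 ρ →
        Tch (fun z (i : Fin ν) => g z i.succ) z s = Tch g z s := by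
  have h3 : ∀ ζ ∈ ball (0 : ℂ) ρ, ‖fun i : Fin ν => g ζ i.succ‖ = ‖g ζ‖ ∧
      ∃ (l w : ℂ), w ∈ closedBall a R ∧ (fun i : Fin ν => g ζ i.succ) = l • f w := fun ζ hζ => by
    obtain ⟨l, w, hw, e⟩ := h1 ζ hζ
    have e' : (fun i : Fin ν => g ζ i.succ) = l • f w := by
      funext i
      rw [e]
      rfl
    exact ⟨by rw [e', e, norm_smul, norm_smul, norm_cons (hε w hw)], l, w, hw, e'⟩
  have h4 : ∀ (z : ℂ) (s : ℝ), 0 ≤ s → closedBall z s ⊆ ball 0 ρ →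
      Tch (fun z (i : Fin ν) => g z i.succ) z s = Tch g z s :=
    fun z s hs hsub => tch_congr hs fun w hw => (h3 w (hsub hw)).1
  refine ⟨fun ζ hζ => (h3 ζ hζ).2, ⟨?_, fun z hz => ?_, fun z hz => ?_, ?_⟩, h4⟩
  · exact differentiableOn_pi.2 fun i => differentiableOn_pi.1 h2.diff i.succ
  · rw [(h3 z hz).1]
    exact h2.lo z hz
  · rw [(h3 z hz).1]
    exact h2.hi z hz
  · rw [h4 0 1 zero_le_one (closedBall_subset_ball (by linarith))]
    exact h2.gr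

end Sel2Aux

theorem sel2S (hG : GaugeStmt) (hM : MonoStmt) (hD : DblStmt) : Sel2Stmt := by
  intro ρf hρf
  obtain ⟨K, C, hK, hC, h⟩ := Sel2Aux.ent hG hM hD ρf hρf
  refine ⟨K, C, hK, hC, fun ρs hρs => ?_⟩
  obtain ⟨b, h⟩ := h ρs hρs
  refine ⟨b, fun θ hθ hθ' ν f a t τ hf ht hne hτ hlo => ?_⟩
  have hCt : t ≤ C * t := le_mul_of_one_le_left ht.le hC
  obtain ⟨w₀, hw₀, hmin⟩ := (isCompact_closedBall a (C * t)).exists_isMinOn
    ⟨a, mem_closedBall_self (by linarith)⟩ hf.continuous.norm.continuousOn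
  have h0 : 0 < ‖f w₀‖ := norm_pos_iff.2 (hne w₀ hw₀)
  have hε : ∀ w ∈ closedBall a (C * t), ‖((‖f w₀‖ : ℝ) : ℂ)‖ ≤ ‖f w‖ := fun w hw => by
    rw [Complex.norm_real, norm_norm]
    exact hmin hw
  have hF : Ent fun z => (Fin.cons ((‖f w₀‖ : ℝ) : ℂ) (f z) : Fin (ν + 1) → ℂ) := by
    refine ⟨differentiable_pi.2 fun i => ?_, fun z hz => h0.ne' ?_⟩
    · refine Fin.cases ?_ (fun k => ?_) i
      · exact differentiable_const _
      · exact differentiable_pi.1 hf k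
    · exact Complex.ofReal_eq_zero.1 (congrFun hz 0)
  obtain ⟨g, hg⟩ := h θ hθ hθ' (ν + 1) _ a t τ hF ht hτ (by
    rwa [Sel2Aux.tch_congr (g := f) ht.le fun w hw =>
      Sel2Aux.norm_cons (hε w (closedBall_subset_closedBall hCt hw))])
  refine ⟨fun z i => g z i.succ, ?_⟩
  rcases hg with ⟨h1, h2, h3⟩ | ⟨T, h1, h2, h3, h4⟩
  · obtain ⟨h4, h5, h6⟩ := Sel2Aux.tail hρf hε h1 h2
    refine Or.inl ⟨h4, h5, fun z hz => ?_⟩
    rw [h6 z _ (by positivity) fun w hw => ?_]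
    · exact h3 z hz
    · have h7 : θ ^ b ≤ 1 := pow_le_one₀ hθ.le (by linarith)
      rw [mem_closedBall] at hw
      rw [mem_ball] at hz ⊢
      linarith [dist_triangle w z 0]
  · obtain ⟨h5, h6, -⟩ := Sel2Aux.tail hρs hε h3 h4
    exact Or.inr ⟨T, h1, h2, h5, h6⟩

end

end Pool.Agent.Lib.MP_45f16c_ag.AS
end

-- part Pool.Agent.Lib.MP_45f16c_ag.AS.Fast2
section

/-! Classes of fast discs. -/

set_option autoImplicit false
open Metric MeasureTheory MvPolynomial Filter Module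
open scoped ComplexConjugate Matrix Topology

namespace Pool.Agent.Lib.MP_45f16c_ag.AS

noncomputable section

namespace Fast2Aux

open FastAux

theorem cosc_of {ν N : ℕ} {ρ s E : ℝ} {f : ℂ → Fin ν → ℂ} {cl : Cls N} (hρ : 3 ≤ ρ) (hE : 0 ≤ E)
    (hv : cl.Valid ρ (E ^ 20)) (hm : cl.Mem ρ (E ^ 20) f) (a : Adm ρ s E f) :
    COsc cl s (E ^ 42) := by
  intro i i' w hw w' hw' h
  have h2 : ‖w‖ ≤ 2 := mem_closedBall_zero_iff.1 (small_disc_subset (hv.hz i) hv.σle hw)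
  have h3 := hm.lo i' w' hw'
  have h4 := a.osc w w' (by linarith) h
  have h5 := hm.hi i w hw
  calc cl.ω i' ≤ E ^ 20 * ‖f w'‖ := h3
    _ ≤ E ^ 20 * (E ^ 2 * ‖f w‖) := by gcongr
    _ ≤ E ^ 20 * (E ^ 2 * (E ^ 20 * cl.ω i)) := by gcongr
    _ = E ^ 42 * cl.ω i := by ring

end Fast2Aux

open FastAux Fast2Aux in
theorem fast2S (hO : OscStmt) (h3 : ThreeStmt) : Fast2Stmt := by
  intro ν ρ K θ σ hρ hK hθ hθK hσ hσ1
  obtain ⟨C, -, hC⟩ := h3 ν
  have hK0 : 0 < K := by linarith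
  obtain ⟨r, hr, hr1, hrK, hrs⟩ :
      ∃ r : ℝ, 0 < r ∧ r < 1 ∧ 2 * r * K ≤ θ ∧ θ * σ / (2 * K) = r * σ := by
    refine ⟨θ / (2 * K), by positivity, ?_, le_of_eq (by field_simp), by ring⟩
    rw [div_lt_one (by positivity)]
    linarith
  rw [hrs]
  have hs : 0 < r * σ := by positivity
  have hs1 : r * σ ≤ 1 := by nlinarith
  obtain ⟨N, z, hz, hzc⟩ := cover 1 hs
  obtain ⟨J, y, hy, hyc⟩ := cover ρ hs
  refine ⟨N, Fintype.card (Fin J → Fin (⌊K / θ⌋₊ + 1)), ?_⟩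
  filter_upwards [eventually_ge_atTop (((r * σ)⁻¹ + C ^ 2 + ν ^ 2) / θ)] with T hT
  have p1 : 0 < (r * σ)⁻¹ := by positivity
  have p2 : 0 ≤ C ^ 2 := by positivity
  have p3 : (0 : ℝ) ≤ ν ^ 2 := by positivity
  have hT' : (r * σ)⁻¹ + C ^ 2 + ν ^ 2 ≤ θ * T := by rwa [div_le_iff₀' hθ] at hT
  have hθT : 0 < θ * T := by linarith
  have hT0 : 0 < T := (mul_pos_iff_of_pos_left hθ).1 hθT
  have hE := Real.add_one_le_exp (θ * T)
  have hΓ : Real.exp (20 * θ * T) = Real.exp (θ * T) ^ 20 := by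
    rw [← Real.exp_nat_mul]
    congr 1
    push_cast
    ring
  have hΓ' : Real.exp (42 * θ * T) = Real.exp (θ * T) ^ 42 := by
    rw [← Real.exp_nat_mul]
    congr 1
    push_cast
    ring
  have hE1 : 1 ≤ Real.exp (θ * T) := by linarith
  have hyb : ∀ j, y j ∈ ball (0 : ℂ) (2 * ρ + 2) := fun j =>
    mem_ball_zero_iff.2 (by linarith [hy j])
  rw [hΓ, hΓ']
  have key : ∀ p : Fin J → Fin (⌊K / θ⌋₊ + 1), ∃ cl : Cls N,
      (cl.Valid ρ (Real.exp (θ * T) ^ 20) ∧ COsc cl (r * σ) (Real.exp (θ * T) ^ 42)) ∧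
      ∀ f : ℂ → Fin ν → ℂ, Disc (2 * ρ + 2) K T f →
        (∀ z ∈ ball (0 : ℂ) (ρ + 1), Tch f z σ ≤ θ * T) →
        (∀ j, ⌊-lg f (y j) / (θ * T)⌋₊ = p j) → cl.Mem ρ (Real.exp (θ * T) ^ 20) f := by
    intro p
    by_cases hp : ∃ f : ℂ → Fin ν → ℂ, Disc (2 * ρ + 2) K T f ∧
        (∀ z ∈ ball (0 : ℂ) (ρ + 1), Tch f z σ ≤ θ * T) ∧ ∀ j, ⌊-lg f (y j) / (θ * T)⌋₊ = p j
    · obtain ⟨f', d', t', e'⟩ := hp
      have a' := adm_of hO hρ hT0.le hσ hσ1 hr.le hr1 hrK d' t'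
      obtain ⟨cl, hv, hm⟩ := cls_of hρ hs hs1 (by linarith) (by linarith) (by linarith)
        (by linarith) hC hz hzc a'
      have h5 : ∀ w : ℂ, ‖f' w‖ ≤ Real.exp (θ * T) ^ 5 * ‖f' w‖ := fun w =>
        le_mul_of_one_le_left (norm_nonneg _) (one_le_pow₀ hE1)
      refine ⟨cl, ⟨hv, cosc_of hρ (Real.exp_pos _).le hv
        (hm f' a' fun w _ => ⟨h5 w, h5 w⟩) a'⟩, fun f d t e => ?_⟩
      have a := adm_of hO hρ hT0.le hσ hσ1 hr.le hr1 hrK d t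
      have lv : ∀ {u v : ℂ → Fin ν → ℂ}, Disc (2 * ρ + 2) K T u → Disc (2 * ρ + 2) K T v →
          (∀ j, ⌊-lg u (y j) / (θ * T)⌋₊ = p j) → (∀ j, ⌊-lg v (y j) / (θ * T)⌋₊ = p j) →
          ∀ j, ‖u (y j)‖ ≤ Real.exp (θ * T) * ‖v (y j)‖ := fun du dv eu ev j => by
        rw [← exp_lg (du.ne (hyb j)), ← exp_lg (dv.ne (hyb j)), ← Real.exp_add]
        exact Real.exp_le_exp.2 (level hθT (du.lg_le (hyb j)) ((eu j).trans (ev j).symm))
      exact hm f a fun w hw => ⟨a.cmp a' (Real.exp_pos _).le hy hyc (lv d' d e' e) hw,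
        a'.cmp a (Real.exp_pos _).le hy hyc (lv d d' e e') hw⟩
    · refine ⟨⟨z, r * σ, fun _ => 1, fun _ _ => 1⟩, ⟨⟨hz, hs, hs1,
        fun w hw => (hzc w hw).imp fun i hi => mem_closedBall_iff_norm.2 hi, fun _ => one_pos,
        fun _ => differentiableOn_const _, fun i w _ => ⟨0, ?_⟩⟩, fun i i' w _ w' _ _ => ?_⟩,
        fun f d t e => (hp ⟨f, d, t, e⟩).elim⟩
      · simpa using one_le_pow₀ (n := 20) hE1
      · simpa using one_le_pow₀ (n := 42) hE1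
  choose cl hv hm using key
  refine ⟨fun n => cl ((Fintype.equivFin _).symm n), fun n => hv _, fun f d t => ?_⟩
  have hlt : ∀ j, ⌊-lg f (y j) / (θ * T)⌋₊ < ⌊K / θ⌋₊ + 1 := fun j => by
    refine Nat.lt_succ_of_le (Nat.floor_le_floor ?_)
    have := d.le_lg (hyb j)
    rw [div_le_div_iff₀ hθT hθ]
    nlinarith
  refine ⟨Fintype.equivFin _ fun j => ⟨_, hlt j⟩, ?_⟩
  simp only [Equiv.symm_apply_apply]
  exact hm _ f d t fun j => rfl

end

end Pool.Agent.Lib.MP_45f16c_ag.AS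
end

-- part Pool.Agent.Lib.MP_45f16c_ag.AS.True2
section

/-! True discs solve the truncated problem. -/

set_option autoImplicit false
open Metric MeasureTheory MvPolynomial Filter Module
open scoped ComplexConjugate Matrix Topology

namespace Pool.Agent.Lib.MP_45f16c_ag.AS

noncomputable section

namespace True2Aux

/-- The projection to the old unknowns. -/
def xsL (ν p m : ℕ) (F G : Type) [NormedAddCommGroup F] [NormedSpace ℂ F] [NormedAddCommGroup G]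
    [NormedSpace ℂ G] : ((Unk2 ν p m → ℂ) × F) →L[ℂ] ((Unk p m → ℂ) × G) :=
  ((ContinuousLinearMap.pi fun i => ContinuousLinearMap.proj (R := ℂ)
    (φ := fun _ : Unk2 ν p m => ℂ) (.inl i)).comp (ContinuousLinearMap.fst ℂ _ F)).prod 0

theorem xsL_apply {ν p m : ℕ} {F G : Type} [NormedAddCommGroup F] [NormedSpace ℂ F]
    [NormedAddCommGroup G] [NormedSpace ℂ G] (v : (Unk2 ν p m → ℂ) × F) :
    xsL ν p m F G v = (xs v.1, 0) := rfl

theorem pd_fx {ν p m : ℕ} {F : Type} [NormedAddCommGroup F] [NormedSpace ℂ F] (B : ℝ) (w : ℂ)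
    (a : Fin p) : PD ℂ 1 fun v : (Unk2 ν p m → ℂ) × F => fx B (xs v.1) w a :=
  (PD.pol_x (F := F) B (.inl a) w).comp_clm (xsL ν p m F F)

open TrueAux in
theorem old (hT : TruncStmt) {ν N m : ℕ} (M : ℕ) {cl : Cls N} {pr : Par m} {f : ℂ → Fin ν → ℂ}
    {b : Fin 3 → ℂ → Fin ν → ℂ} {l : Fin ν → ℂ} {q : ℕ → ℂ} {g : ℂ → ℂ} {R δ : ℝ}
    (hR : 8 ≤ R) (hm : 1 ≤ m) (hk : pr.k ≤ m) (hB : 1 ≤ pr.B) (hδ : 2 * pr.B * (4 / R) ^ m ≤ δ)
    (hδ1 : δ ≤ 1) (hz : ∀ i, ‖cl.z i‖ ≤ 1) (hσ : 0 < cl.σ) (hσ1 : cl.σ ≤ 1)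
    (hf : DifferentiableOn ℂ f (ball 0 R)) (hb : ∀ i, DifferentiableOn ℂ (b i) (ball 0 R))
    (hg : DifferentiableOn ℂ g (ball 0 R))
    (hball : ∀ z ∈ ball (0 : ℂ) R, ‖f z‖ ≤ 1 ∧ (∀ i, ‖b i z‖ ≤ pr.B) ∧ ‖g z‖ ≤ pr.B ∧
      (∀ i, lf (b i z) (f z) = cl.P i z) ∧ lf l (f z) = pr.β * Qp pr.k q z * (1 + z * g z))
    (hl : ‖l‖ ≤ 1) (hq : ∀ s, ‖q s‖ ≤ pr.B)
    (hQ : ∀ z ∈ closedBall (0 : ℂ) 2, ‖Qp pr.k q z‖ ≤ pr.B ∧ ∀ i, ‖cl.P i z - pr.Ptz i z‖ ≤ δ)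
    (hsm : ∀ i, ∀ w ∈ closedBall (cl.z i) cl.σ, ∀ i', ‖b i' w‖ + δ ≤ pr.Γb * cl.ω i)
    (hω : ∀ i, 0 < cl.ω i) (hε' : 0 < pr.ε') (hΓb : 0 < pr.Γb) (hϑ : 0 < pr.ϑ) (hβ0 : 0 ≤ pr.β)
    (hβ1 : pr.β ≤ 1) (hf0 : ‖f 0‖ ≤ pr.ϑ) (hδϑ : δ ≤ pr.ϑ)
    (hfin : (3 * ν + 3) * pr.B * δ ≤ pr.ε') :
    ∃ x : Unk ν m → ℂ, ‖x‖ ≤ 1 ∧ (∀ w ∈ closedBall (0 : ℂ) 2, ‖fx pr.B x w - f w‖ ≤ δ) ∧
      ∀ r : Con ν N M, ‖Gm (d := 1) cl pr M r (x, 0)‖ ≤ 1 := by
  have hB0 : 0 < pr.B := by linarith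
  have hδ0 : 0 ≤ δ := le_trans (by positivity) hδ
  choose af haf hfa using fun a : Fin ν => truncB hT m hR hB hδ (fun z => f z a)
    (differentiableOn_pi.1 hf a) fun z hz' =>
      ((norm_le_pi_norm (f z) a).trans (hball z hz').1).trans hB
  choose ab hab hba using fun (i : Fin 3) (a : Fin ν) => truncB hT m hR hB hδ (fun z => b i z a)
    (differentiableOn_pi.1 (hb i) a) fun z hz' =>
      (norm_le_pi_norm (b i z) a).trans ((hball z hz').2.1 i)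
  obtain ⟨ag, hag, hga⟩ := truncB hT m hR hB hδ g hg fun z hz' => (hball z hz').2.2.1
  set x : Unk ν m → ℂ := asm pr.B af ab l q ag with hx
  have hF : ∀ w ∈ closedBall (0 : ℂ) 2, ‖fx pr.B x w - f w‖ ≤ δ := fun w hw =>
    (pi_norm_le_iff_of_nonneg hδ0).2 fun a => hfa a w hw
  have hBb : ∀ i, ∀ w ∈ closedBall (0 : ℂ) 2, ‖bx pr.B x i w - b i w‖ ≤ δ := fun i w hw =>
    (pi_norm_le_iff_of_nonneg hδ0).2 fun a => hba i a w hw
  have hG : ∀ w ∈ closedBall (0 : ℂ) 2,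
      ‖pol pr.B x (.inr (.inr (.inr true))) w - g w‖ ≤ δ := fun w hw => hga w hw
  have hsub : closedBall (0 : ℂ) 2 ⊆ ball 0 R := closedBall_subset_ball (by linarith)
  have hBδ : δ ≤ pr.B * δ := le_mul_of_one_le_left hδ0 hB
  have hν0 : (0 : ℝ) ≤ ν := Nat.cast_nonneg ν
  refine ⟨x, norm_asm hB haf hab hl hq hag, hF, ?_⟩
  rintro (⟨i, s, t⟩ | a | a)
  · set w := node (cl.z i) cl.σ M s with hw
    have hwi : w ∈ closedBall (cl.z i) cl.σ := node_mem _ hσ.le M s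
    have hw2 : w ∈ closedBall (0 : ℂ) 2 := small_disc_subset (hz i) hσ1 hwi
    have hwn : ‖w‖ ≤ 2 := mem_closedBall_zero_iff.1 hw2
    obtain ⟨hf1, hbB, -, hP, hL⟩ := hball w (hsub hw2)
    have hωp := hω i
    have hft : ‖fx pr.B x w‖ ≤ ‖f w‖ + δ :=
      (norm_le_norm_add_norm_sub' _ (f w)).trans (by gcongr; exact hF w hw2)
    rcases t with _ | la | j | _
    · change ‖eval (fx pr.B x w) (form 0) / ((pr.ε * cl.ω i ^ 1 : ℝ) : ℂ)‖ ≤ 1
      rw [form_zero, map_zero, zero_div, norm_zero]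
      exact zero_le_one
    · change ‖bx pr.B x la.1 w la.2 / ((pr.Γb * cl.ω i : ℝ) : ℂ)‖ ≤ 1
      refine norm_div_le_one (by positivity) ((norm_le_pi_norm _ la.2).trans ?_)
      refine le_trans ?_ (hsm i w hwi la.1)
      exact (norm_le_norm_add_norm_sub' _ (b la.1 w)).trans (by gcongr; exact hBb la.1 w hw2)
    · change ‖(lf (bx pr.B x j w) (fx pr.B x w) - pr.Ptz j w) / (pr.ε' : ℂ)‖ ≤ 1
      refine norm_div_le_one hε' (le_trans ?_ hfin)
      have e : lf (bx pr.B x j w) (fx pr.B x w) - pr.Ptz j w =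
          lf (bx pr.B x j w - b j w) (fx pr.B x w) + lf (b j w) (fx pr.B x w - f w) +
            (cl.P j w - pr.Ptz j w) := by
        rw [lf_sub_left, lf_sub_right, hP j]; ring
      have h1 : ‖lf (bx pr.B x j w - b j w) (fx pr.B x w)‖ ≤ ν * δ * 2 :=
        (norm_lf_le _ _).trans (by
          gcongr
          · exact hBb j w hw2
          · linarith)
      have h2 : ‖lf (b j w) (fx pr.B x w - f w)‖ ≤ ν * pr.B * δ :=
        (norm_lf_le _ _).trans (by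
          gcongr
          · exact hbB j
          · exact hF w hw2)
      have h3 := (hQ w hw2).2 j
      have h4 : ν * δ ≤ ν * (pr.B * δ) := by gcongr
      rw [e]
      refine (norm_add₃_le).trans ?_
      nlinarith
    · change ‖(lf (lx pr.B x) (fx pr.B x w) - pr.β * Qx pr.B pr.k x w * gx pr.B x w) /
        (pr.ε' : ℂ)‖ ≤ 1
      refine norm_div_le_one hε' (le_trans ?_ hfin)
      have e : lf (lx pr.B x) (fx pr.B x w) - pr.β * Qx pr.B pr.k x w * gx pr.B x w =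
          lf l (fx pr.B x w - f w) - pr.β * Qp pr.k q w * w *
            (pol pr.B x (.inr (.inr (.inr true))) w - g w) := by
        rw [hx, lx_asm hB hm, Qx_asm hB hk, lf_sub_right, hL, gx]; ring
      have h1 : ‖lf l (fx pr.B x w - f w)‖ ≤ ν * 1 * δ :=
        (norm_lf_le _ _).trans (by gcongr; exact hF w hw2)
      have h2 : ‖pr.β * Qp pr.k q w * w * (pol pr.B x (.inr (.inr (.inr true))) w - g w)‖ ≤
          1 * pr.B * 2 * δ := by
        rw [norm_mul, norm_mul, norm_mul, Complex.norm_real, Real.norm_of_nonneg hβ0]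
        gcongr
        · exact (hQ w hw2).1
        · exact hG w hw2
      have h4 : ν * δ ≤ ν * (pr.B * δ) := by gcongr
      rw [e]
      refine (norm_sub_le _ _).trans ?_
      nlinarith
  · change ‖fx pr.B x 0 a / ((2 * pr.ϑ : ℝ) : ℂ)‖ ≤ 1
    refine norm_div_le_one (by positivity) ((norm_le_pi_norm _ a).trans ?_)
    have h0 := hF 0 (mem_closedBall_self (by norm_num))
    have := norm_le_norm_add_norm_sub' (fx pr.B x 0) (f 0)
    linarith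
  · change ‖lx pr.B x a‖ ≤ 1
    rw [hx, lx_asm hB hm]
    exact (norm_le_pi_norm l a).trans hl

end True2Aux

theorem gdeg2S : Gdeg2Stmt := by
  intro ν p d N m M cl pr e ω' hd r
  rcases r with t | r | t
  · exact ((PD.eval_form (pd_lin (fun a i => PD.fst_apply _) (True2Aux.pd_fx pr.B _))
      fun n => PD.snd_apply n).mono (by omega)).div_const _
  · have h := (gdeg p 1 N m M cl pr le_rfl r).comp_clm (True2Aux.xsL ν p m (Mon ν d → ℂ) _)
    simp only [True2Aux.xsL_apply] at h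
    exact h.mono (by omega)
  · exact ((True2Aux.pd_fx pr.B _ _).mono (by omega)).div_const _

theorem true2S (hT : TruncStmt) : True2Stmt := by
  intro ν p d N m M cl pr e ω' c A f b l q g R Γ δ ζ he hA hR hm hk hB hδ hδ1 hz hσ hσ1 hc hf hb
    hg hap hball hl hq hQ hsm hω hζ hζε hε hε' hΓb hϑ hβ0 hβ1 hf0 hδϑ hfin
  obtain ⟨x, hx, hF, hG⟩ := True2Aux.old hT M hR hm hk hB hδ hδ1 hz hσ hσ1 hf hb hg hball hl hq hQ
    (fun i w hw => (hsm i w hw).2.2) (fun i => (hω i).1) hε' hΓb hϑ hβ0 hβ1 hf0 hδϑ hfin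
  have hsub : closedBall (0 : ℂ) 2 ⊆ ball 0 R := closedBall_subset_ball (by linarith)
  have hft : ∀ w ∈ closedBall (0 : ℂ) 2, ‖fx pr.B x w‖ ≤ ‖f w‖ + δ := fun w hw =>
    (norm_le_norm_add_norm_sub' _ (f w)).trans (by gcongr; exact hF w hw)
  have hlin : ∀ (y : Fin p → ℂ) (t : ℝ), ‖y‖ ≤ t → ‖lin e A y‖ ≤ (p + 1) * t := fun y t hy =>
    (norm_lin_le he A y).trans (by
      refine mul_le_mul ?_ hy (norm_nonneg _) (by positivity)
      nlinarith [mul_le_of_le_one_right (Nat.cast_nonneg (α := ℝ) p) hA])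
  refine ⟨Sum.elim x fun ai => A ai.1 ai.2, (pi_norm_le_iff_of_nonneg zero_le_one).2 ?_, ?_⟩
  · rintro (i | ai)
    · exact (norm_le_pi_norm x i).trans hx
    · exact ((norm_le_pi_norm (A ai.1) ai.2).trans (norm_le_pi_norm A ai.1)).trans hA
  rintro (⟨i, s⟩ | r | ⟨i, s, a⟩)
  · set w := node (cl.z i) cl.σ M s with hw
    have hwi : w ∈ closedBall (cl.z i) cl.σ := node_mem _ hσ.le M s
    have hw2 : w ∈ closedBall (0 : ℂ) 2 := small_disc_subset (hz i) hσ1 hwi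
    obtain ⟨hωp, -, -, hδω, hE⟩ := hω i
    change ‖eval (lin e A (fx pr.B x w)) (form c) / ((pr.ε * cl.ω i ^ d : ℝ) : ℂ)‖ ≤ 1
    refine TrueAux.norm_div_le_one (by positivity) ?_
    have h1 := (hsm i w hwi).1
    have h0 : 0 ≤ Γ * cl.ω i := (norm_nonneg _).trans h1
    have h2 := form_lip c (hlin (fx pr.B x w) (2 * Γ * cl.ω i) (by linarith [hft w hw2]))
      (hlin (f w) (2 * Γ * cl.ω i) (by linarith))
    have h3 : 0 ≤ (((p : ℝ) + 1) * (2 * Γ * cl.ω i)) ^ (d - 1) :=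
      pow_nonneg (mul_nonneg (by positivity) (by linarith)) _
    have h4 : (Fintype.card (Mon ν d) : ℝ) * ‖c‖ * (d * ‖lin e A (fx pr.B x w) - lin e A (f w)‖ *
        ((p + 1) * (2 * Γ * cl.ω i)) ^ (d - 1)) ≤ Fintype.card (Mon ν d) * 1 *
          (d * ((p + 1) * δ) * ((p + 1) * (2 * Γ * cl.ω i)) ^ (d - 1)) := by
      gcongr
      rw [← lin_sub]
      exact hlin _ _ (hF w hw2)
    have h5 : ‖eval (lin e A (f w)) (form c)‖ ≤ ζ * (Γ * cl.ω i) ^ d :=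
      (hap w (hsub hw2)).trans (by gcongr)
    have h6 : 2 * (ζ * Γ ^ d) * cl.ω i ^ d ≤ pr.ε * cl.ω i ^ d := by gcongr
    have h7 := norm_le_norm_add_norm_sub' (eval (lin e A (fx pr.B x w)) (form c))
      (eval (lin e A (f w)) (form c))
    rw [mul_pow] at h5
    linarith
  · exact hG r
  · set w := node (cl.z i) cl.σ M s with hw
    have hwi : w ∈ closedBall (cl.z i) cl.σ := node_mem _ hσ.le M s
    obtain ⟨-, h1, h2, -⟩ := hω i
    change ‖fx pr.B x w a / ((2 * ω' i : ℝ) : ℂ)‖ ≤ 1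
    refine TrueAux.norm_div_le_one (by positivity) ((norm_le_pi_norm _ a).trans ?_)
    linarith [hft w (small_disc_subset (hz i) hσ1 hwi), (hsm i w hwi).2.1]

end

end Pool.Agent.Lib.MP_45f16c_ag.AS
end

-- part Pool.Agent.Lib.MP_45f16c_ag.AS.Region2
section

/-! Bounded lifts provide data. -/

set_option autoImplicit false
open Metric MeasureTheory MvPolynomial Filter Module
open scoped ComplexConjugate Matrix Topology

namespace Pool.Agent.Lib.MP_45f16c_ag.AS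

noncomputable section

namespace Region2Aux

variable {ν p d m N : ℕ}

section deriv
variable {E : Type} [NormedAddCommGroup E] [NormedSpace ℂ E]

theorem fderiv_eval_form' {A : E → Fin ν → ℂ} {A' : E →L[ℂ] (Fin ν → ℂ)}
    (B : E →L[ℂ] (Mon ν d → ℂ)) {v : E} (hA : HasFDerivAt A A' v) :
    ∃ D : E →L[ℂ] ℂ, HasFDerivAt (fun v => eval (A v) (form (B v))) D v ∧
      ∀ u, D u = eval (A v) (form (B u)) + lf (grad (B v) (A v)) (A' u) := by
  let P : ((Fin ν → ℂ) × (Mon ν d → ℂ)) →L[ℂ] (Fin ν → ℂ) := ContinuousLinearMap.fst ℂ _ _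
  let Q : ((Fin ν → ℂ) × (Mon ν d → ℂ)) →L[ℂ] (Mon ν d → ℂ) := ContinuousLinearMap.snd ℂ _ _
  have hd : Differentiable ℂ fun w => eval (P w) (form (Q w)) :=
    (PD.eval_form (fun a => (PD.apply a).comp_clm P) fun a => (PD.apply a).comp_clm Q).differentiable
  have h := (hd (A v, B v)).hasFDerivAt.comp v (hA.prodMk B.hasFDerivAt)
  refine ⟨_, h, fun u => ?_⟩
  rw [ContinuousLinearMap.comp_apply, fderiv_eval_form]
  rfl

theorem hasFDerivAt_lin {e : Fin p → Fin ν} (he : Function.Injective e)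
    (α : E →L[ℂ] (Fin ν → Fin p → ℂ)) (β : E →L[ℂ] (Fin p → ℂ)) (v : E) :
    ∃ A' : E →L[ℂ] (Fin ν → ℂ), HasFDerivAt (fun v => lin e (α v) (β v)) A' v ∧
      ∀ u, A' u = lin e (α v) (β u) + lin0 e (α u) (β v) := by
  have h : ∀ a, ∃ φ : E →L[ℂ] ℂ, HasFDerivAt (fun v => lin e (α v) (β v) a) φ v ∧
      ∀ u, φ u = lin e (α v) (β u) a + lin0 e (α u) (β v) a := fun a => by
    have hβ : ∀ i, HasFDerivAt (fun v => β v i) _ v := fun i =>
      ((ContinuousLinearMap.proj (R := ℂ) (φ := fun _ : Fin p => ℂ) i).comp β).hasFDerivAt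
    by_cases h : ∃ i, e i = a
    · obtain ⟨i, rfl⟩ := h
      simp only [lin_apply_e he, lin0, if_pos (⟨i, rfl⟩ : ∃ i', e i' = e i), add_zero]
      exact ⟨_, hβ i, fun _ => rfl⟩
    · have hα : ∀ i, HasFDerivAt (fun v => α v a i) _ v := fun i =>
        (((ContinuousLinearMap.proj (R := ℂ) (φ := fun _ : Fin p => ℂ) i).comp
          (ContinuousLinearMap.proj (R := ℂ) (φ := fun _ : Fin ν => Fin p → ℂ) a)).comp
            α).hasFDerivAt
      simp only [lin_apply_not _ _ h, lin0, if_neg h]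
      refine ⟨_, HasFDerivAt.fun_sum fun i _ => (hα i).mul (hβ i), fun u => ?_⟩
      rw [← Finset.sum_add_distrib, sum_apply]
      exact Finset.sum_congr rfl fun i _ => by simp [mul_comm]
  choose φ h1 h2 using h
  exact ⟨ContinuousLinearMap.pi φ, hasFDerivAt_pi.2 h1, fun u => funext fun a => h2 a u⟩

end deriv

/-- The old unknowns as a continuous linear map. -/
def xsL (ν p m : ℕ) : (Unk2 ν p m → ℂ) →L[ℂ] (Unk p m → ℂ) :=
  ContinuousLinearMap.pi fun i =>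
    ContinuousLinearMap.proj (R := ℂ) (φ := fun _ : Unk2 ν p m => ℂ) (.inl i)

/-- The matrix as a continuous linear map. -/
def AsL (ν p m : ℕ) : (Unk2 ν p m → ℂ) →L[ℂ] (Fin ν → Fin p → ℂ) :=
  ContinuousLinearMap.pi fun a => ContinuousLinearMap.pi fun i =>
    ContinuousLinearMap.proj (R := ℂ) (φ := fun _ : Unk2 ν p m => ℂ) (.inr (a, i))

theorem norm_xs_le (v : Unk2 ν p m → ℂ) : ‖xs v‖ ≤ ‖v‖ :=
  (pi_norm_le_iff_of_nonneg (norm_nonneg _)).2 fun _ => norm_le_pi_norm v _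

theorem norm_As_le (v : Unk2 ν p m → ℂ) : ‖As v‖ ≤ ‖v‖ :=
  (pi_norm_le_iff_of_nonneg (norm_nonneg _)).2 fun _ =>
    (pi_norm_le_iff_of_nonneg (norm_nonneg _)).2 fun _ => norm_le_pi_norm v _

/-- The variation of the disc in the direction `u`. -/
def xiz (e : Fin p → Fin ν) (B : ℝ) (v u : Unk2 ν p m → ℂ) (w : ℂ) : Fin ν → ℂ :=
  lin e (As v) (fx B (xs u) w) + lin0 e (As u) (fx B (xs v) w)

theorem pd_fz (e : Fin p → Fin ν) (B : ℝ) (v : Unk2 ν p m → ℂ) (a : Fin ν) :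
    PD ℂ m fun w => fz e B v w a :=
  (pd_lin (e := e) (fun a i => PD.const (As v a i)) (RegionAux.pd_fx B (xs v)) a).mono
    (zero_add m).le

theorem pd_xiz (e : Fin p → Fin ν) (B : ℝ) (v u : Unk2 ν p m → ℂ) (a : Fin ν) :
    PD ℂ m fun w => xiz e B v u w a :=
  ((pd_lin (e := e) (fun a i => PD.const (As v a i)) (RegionAux.pd_fx B (xs u)) a).add
    (pd_lin0 (e := e) (fun a i => PD.const (As u a i)) (RegionAux.pd_fx B (xs v)) a)).mono
      (zero_add m).le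

theorem fderiv_E (cl : Cls N) (pr : Par m) (M : ℕ) {e : Fin p → Fin ν} (he : Function.Injective e)
    (ω' : Fin N → ℝ) (i : Fin N) (s : Fin M) (v u : (Unk2 ν p m → ℂ) × (Mon ν d → ℂ)) :
    fderiv ℂ (Gm2 cl pr M e ω' (.inl (i, s))) v u =
      (eval (fz e pr.B v.1 (node (cl.z i) cl.σ M s)) (form u.2) +
        lf (grad v.2 (fz e pr.B v.1 (node (cl.z i) cl.σ M s)))
          (xiz e pr.B v.1 u.1 (node (cl.z i) cl.σ M s))) / ((pr.ε * cl.ω i ^ d : ℝ) : ℂ) := by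
  set w := node (cl.z i) cl.σ M s
  let α : ((Unk2 ν p m → ℂ) × (Mon ν d → ℂ)) →L[ℂ] (Fin ν → Fin p → ℂ) :=
    (AsL ν p m).comp (ContinuousLinearMap.fst ℂ _ _)
  let β : ((Unk2 ν p m → ℂ) × (Mon ν d → ℂ)) →L[ℂ] (Fin p → ℂ) :=
    ((fxL pr.B w).comp (xsL ν p m)).comp (ContinuousLinearMap.fst ℂ _ _)
  let B : ((Unk2 ν p m → ℂ) × (Mon ν d → ℂ)) →L[ℂ] (Mon ν d → ℂ) := ContinuousLinearMap.snd ℂ _ _
  have hα : ∀ v, α v = As v.1 := fun _ => rfl
  have hβ : ∀ v, β v = fx pr.B (xs v.1) w := fun v => fxL_apply _ _ _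
  have hB : ∀ v, B v = v.2 := fun _ => rfl
  obtain ⟨A', h1, h2⟩ := hasFDerivAt_lin he α β v
  obtain ⟨D, h3, h4⟩ := fderiv_eval_form' B h1
  have e1 : Gm2 cl pr M e ω' (.inl (i, s)) =
      fun v => eval (lin e (α v) (β v)) (form (B v)) * ((pr.ε * cl.ω i ^ d : ℝ) : ℂ)⁻¹ := by
    funext v; rw [hα, hβ, hB, ← div_eq_mul_inv]; rfl
  rw [e1, (h3.mul_const _).fderiv, smul_apply, h4, h2, hα, hα, hβ, hβ, hB, hB,
    smul_eq_mul, mul_comm, ← div_eq_mul_inv, fz, xiz]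

theorem fderiv_S (cl : Cls N) (pr : Par m) (M : ℕ) (e : Fin p → Fin ν)
    (ω' : Fin N → ℝ) (i : Fin N) (s : Fin M) (a : Fin p)
    (v u : (Unk2 ν p m → ℂ) × (Mon ν d → ℂ)) :
    fderiv ℂ (Gm2 cl pr M e ω' (.inr (.inr (i, s, a)))) v u =
      fx pr.B (xs u.1) (node (cl.z i) cl.σ M s) a / ((2 * ω' i : ℝ) : ℂ) := by
  set w := node (cl.z i) cl.σ M s
  let β : ((Unk2 ν p m → ℂ) × (Mon ν d → ℂ)) →L[ℂ] ℂ :=
    ((polL pr.B (.inl a) w).comp (xsL ν p m)).comp (ContinuousLinearMap.fst ℂ _ _)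
  have hβ : ∀ v, β v = fx pr.B (xs v.1) w a := fun v => polL_apply _ _ _ _
  have e1 : Gm2 (d := d) cl pr M e ω' (.inr (.inr (i, s, a))) =
      fun v => β v * ((2 * ω' i : ℝ) : ℂ)⁻¹ := by
    funext v; rw [hβ, ← div_eq_mul_inv]; rfl
  rw [e1, (β.hasFDerivAt.mul_const _).fderiv, smul_apply, hβ, smul_eq_mul,
    mul_comm, ← div_eq_mul_inv]

theorem num_lo {ω Γ a b c n : ℝ} (hω : 0 < ω) (hΓ : 0 ≤ Γ) (h1 : ω ^ 2 ≤ Γ * a)
    (h2 : a ≤ b * ω * n + c) (h3 : 2 * Γ * c ≤ ω ^ 2) : ω ≤ 2 * b * Γ * n := by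
  have := mul_le_mul_of_nonneg_left h2 hΓ
  refine le_of_mul_le_mul_left ?_ hω
  linarith

theorem num_X {m B S : ℝ} (hm : 0 ≤ m) (hB : 1 ≤ B) (hS : 1 ≤ S) :
    B * m * (m * S) ≤ (m + 1) ^ 2 * B * S ∧ B * m * S ≤ (m + 1) ^ 2 * B * S ∧
      1 ≤ (m + 1) ^ 2 * B * S := by
  have hBS : 1 ≤ B * S := one_le_mul_of_one_le_of_one_le hB hS
  have a1 := mul_nonneg hm (by linarith : 0 ≤ B * S)
  have a2 := mul_nonneg (sq_nonneg m) (by linarith : 0 ≤ B * S)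
  refine ⟨?_, ?_, ?_⟩ <;> linarith

theorem num_sq {X : ℝ} (h : 1 ≤ X) : X ≤ 3 * X ^ 2 := by nlinarith

theorem num_xi {q M Λ ω : ℝ} (h : 0 ≤ M * Λ * ω) :
    (q + 1) * (M * Λ * (2 * ω)) + q * (M * Λ * (2 * ω)) ≤ 4 * (q + 1) * M * Λ * ω := by
  linarith

end Region2Aux

open RegionAux Region2Aux in
theorem region2S (hI : InterpStmt) (hP : ProjStmt) : Region2Stmt := by
  intro ν p d j N m M cl pr e ω' ρ Γ S Λ δ W₁ W₂ W₃ L B' E G₀ G₁ hv he hp hd hm hk hM hΓ hS hΛ hB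
    hε hε' hΓb hϑ hβ hβ1 hL hω' hPt h1 h2 h3 hW₁ hW₂ hW₃ hB' hE hG₀ hG₁ hG₀0 v hv1 hG ⟨χ, hχ⟩
  have hB0 : 0 ≤ pr.B := by linarith
  have hM0 : (0 : ℝ) < M := by exact_mod_cast (by omega : 0 < M)
  have hp0 : (0 : ℝ) < p := by exact_mod_cast (by omega : 0 < p)
  have hdm : 3 * m ≤ (d + 2) * m := Nat.mul_le_mul_right _ (by omega)
  set W := 2 * p * M * S * pr.Γb * Γ with hW
  have hW0 : 0 < W := by positivity
  set x := xs v.1 with hx
  set g := fx pr.B x with hg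
  set f := fz e pr.B v.1 with hf
  have hx1 : ‖x‖ ≤ S := (norm_xs_le _).trans hv1
  have hA1 : ‖As v.1‖ ≤ S := (norm_As_le _).trans hv1
  have hpS : 0 < p * S + 1 := by positivity
  have hpS1 : 1 ≤ p * S + 1 := le_add_of_nonneg_left (by positivity)
  have hgf : ∀ w, ‖g w‖ ≤ ‖f w‖ := fun w => norm_le_norm_lin he _ _
  have hlin : ∀ y, ‖lin e (As v.1) y‖ ≤ (p * S + 1) * ‖y‖ := fun y =>
    (norm_lin_le he _ _).trans (by gcongr)
  have hfg : ∀ w, ‖f w‖ ≤ (p * S + 1) * ‖g w‖ := fun w => hlin _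
  have hc : ∀ i t, ∀ w ∈ closedBall (cl.z i) cl.σ,
      ‖cons (d := 1) cl pr i t (x, 0) w‖ ≤ M * S := fun i t =>
    hI _ M _ _ _ _ (by omega) (pd_cons cl pr le_rfl hm hk i t (x, 0)) hv.σpos
      fun s => hG (.inr (.inl (.inl (i, s, t))))
  have hlo : ∀ i, ∀ w ∈ closedBall (cl.z i) cl.σ, cl.ω i ≤ W * ‖g w‖ := fun i w hw => by
    have hω := hv.ωpos i
    obtain ⟨l, hl⟩ := hv.lo i w hw
    have a1 : ‖bx pr.B x l w‖ ≤ M * S * (pr.Γb * cl.ω i) :=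
      (pi_norm_le_iff_of_nonneg (by positivity)).2 fun a =>
        norm_le_of_div (by positivity) (hc i (.inr (.inl (l, a))) w hw)
    have a2 : ‖lf (bx pr.B x l w) (g w) - pr.Ptz l w‖ ≤ M * S * pr.ε' :=
      norm_le_of_div hε' (hc i (.inr (.inr (.inl l))) w hw)
    have a3 := hPt l w (small_disc_subset (hv.hz i) hv.σle hw)
    have a4 : ‖lf (bx pr.B x l w) (g w)‖ ≤ p * (M * S * (pr.Γb * cl.ω i)) * ‖g w‖ :=
      (norm_lf_le _ _).trans (by gcongr)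
    have a5 : ‖cl.P l w‖ ≤ p * (M * S * (pr.Γb * cl.ω i)) * ‖g w‖ + (M * S * pr.ε' + δ) := by
      have e : cl.P l w = lf (bx pr.B x l w) (g w) -
        (lf (bx pr.B x l w) (g w) - pr.Ptz l w) + (cl.P l w - pr.Ptz l w) := by ring
      rw [e]
      linarith [norm_add_le (lf (bx pr.B x l w) (g w) -
        (lf (bx pr.B x l w) (g w) - pr.Ptz l w)) (cl.P l w - pr.Ptz l w),
        norm_sub_le (lf (bx pr.B x l w) (g w)) (lf (bx pr.B x l w) (g w) - pr.Ptz l w)]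
    refine (num_lo (b := p * M * S * pr.Γb) (n := ‖g w‖) hω (zero_le_one.trans hΓ) hl
      (a5.trans (le_of_eq (by ring))) (h1 i)).trans (le_of_eq ?_)
    rw [hW]
    ring
  have hlo' : ∀ i, ∀ w ∈ closedBall (cl.z i) cl.σ, cl.ω i ≤ W * ‖f w‖ := fun i w hw =>
    (hlo i w hw).trans (mul_le_mul_of_nonneg_left (hgf w) hW0.le)
  have hsz : ∀ (u : Unk p m → ℂ) (R : ℝ) (i : Fin N), 0 ≤ R →
      (∀ s a, ‖fx pr.B u (node (cl.z i) cl.σ M s) a / ((2 * ω' i : ℝ) : ℂ)‖ ≤ R) →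
      ∀ w ∈ closedBall (cl.z i) cl.σ, ‖fx pr.B u w‖ ≤ M * R * (2 * ω' i) :=
    fun u R i hR h w hw => by
      have := hω' i
      exact (pi_norm_le_iff_of_nonneg (by positivity)).2 fun a => norm_le_of_div (by positivity)
        (hI m M (fun w => fx pr.B u w a / ((2 * ω' i : ℝ) : ℂ)) _ _ _ (by omega)
          ((pd_fx pr.B u a).div_const _) hv.σpos (fun s => h s a) w hw)
  have hhi : ∀ i, ∀ w ∈ closedBall (cl.z i) cl.σ, ‖g w‖ ≤ M * S * (2 * ω' i) := fun i =>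
    hsz x S i (by linarith) fun s a => hG (.inr (.inr (i, s, a)))
  have hLg : ∀ w : ℂ, ‖w‖ ≤ 1 → L ≤ ‖g w‖ := fun w hw => by
    obtain ⟨i, hi⟩ := hv.cover w hw
    exact le_of_mul_le_mul_left ((mul_comm W L).le.trans ((h2 i).trans (hlo i w hi))) hW0
  have hgΛ : ∀ w : ℂ, ‖w‖ ≤ 1 → ‖g w‖ ≤ pr.B * m * S := fun w hw =>
    (norm_fx_le hB0 x (by linarith)).trans (by gcongr)
  obtain ⟨y, hy, hyχ⟩ := (hP (Mon ν d)).2 j χ
  choose ξ hξ1 hξ2 using fun a => hχ (prj y a) fun i => hyχ i a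
  set Λ' := Λ * (1 + j) with hΛ'
  have hΛ0 : 0 < Λ' := by positivity
  have hb : ∀ a, Λ * ‖prj y a‖ ≤ Λ' := fun a => by
    rw [hΛ']; gcongr; exact norm_prj_le hy a
  set c₁ := pr.β / (p * S + 1) with hc₁
  have hc₁0 : 0 < c₁ := by positivity
  have hc₁1 : c₁ ≤ 1 := (div_le_one hpS).2 (by linarith)
  set X := (m + 1) ^ 2 * pr.B * S with hX
  have hm0 : (0 : ℝ) ≤ m := by positivity
  have hX1 : pr.B * m * (m * S) ≤ X ∧ pr.B * m * S ≤ X ∧ 1 ≤ X := num_X hm0 hB hS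
  have hX2 : X ≤ 3 * X ^ 2 := num_sq hX1.2.2
  have hXB : (p * S + 1) * X ≤ B' :=
    ((mul_le_mul_of_nonneg_left hX2 hpS.le).trans (le_of_eq (by ring))).trans hB'
  have hXB2 : 3 * X ^ 2 ≤ B' :=
    ((le_mul_of_one_le_left (by positivity) hpS1).trans (le_of_eq (by ring))).trans hB'
  have hfin : ∀ (R : ℝ) (a : ℂ) (z : ℂ) (i : Fin N), 0 ≤ R → R ≤ S + Λ' →
      z ∈ closedBall (cl.z i) cl.σ → ‖a / ((pr.ε * cl.ω i ^ d : ℝ) : ℂ)‖ ≤ M * R →
      ‖a‖ ≤ E * ‖f z‖ ^ d := fun R a z i hR hR' hi h => by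
    have hω := hv.ωpos i
    refine (norm_le_of_div (by positivity) h).trans ?_
    calc _ ≤ M * (S + Λ') * (pr.ε * (W * ‖f z‖) ^ d) := by gcongr; exact hlo' i z hi
      _ = M * (S + Λ') * pr.ε * W ^ d * ‖f z‖ ^ d := by rw [mul_pow]; ring
      _ ≤ _ := by gcongr
  have hγ0 : ‖(c₁ : ℂ) * (Qs pr.B pr.k x 0 * gx pr.B x 0)‖ = c₁ := by
    have e : gx pr.B x 0 = 1 := by simp [gx]
    rw [Qs_zero, e, mul_one, mul_one, Complex.norm_real, Real.norm_of_nonneg hc₁0.le]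
  refine ⟨y, f, fun a => xiz e pr.B v.1 (ξ a),
    fun z => (c₁ : ℂ) * (Qs pr.B pr.k x z * gx pr.B x z), hy, pd_fz e pr.B v.1,
    fun a => differentiable_pi.2 fun b => (pd_xiz e pr.B v.1 (ξ a) b).differentiable,
    ((differentiable_Qs _ _ _).mul (((PD.const' _ 1).add
      (PD.id'.mul (PD.pol_z pr.B x _))).differentiable)).const_mul _,
    fun i w hw => (hlo' i w hw).trans (by gcongr), fun i w hw => ?_, fun i w hw a => ?_,
    fun z hz => ?_, fun z hz a => ?_, fun z hz => ?_, fun z hz w hw => ?_, fun z hz => ?_, ?_, ?_⟩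
  · have := hω' i
    calc _ ≤ (p * S + 1) * (M * S * (2 * ω' i)) :=
          (hfg w).trans (mul_le_mul_of_nonneg_left (hhi i w hw) hpS.le)
      _ = 2 * (p * S + 1) * M * S * ω' i := by ring
      _ ≤ _ := by gcongr
  · have := hω' i
    have a1 : ‖fx pr.B (xs (ξ a)) w‖ ≤ M * Λ' * (2 * ω' i) :=
      hsz _ Λ' i hΛ0.le (fun s b => by
        have := (hξ2 a (.inr (.inr (i, s, b)))).trans (hb a)
        rwa [fderiv_S] at this) w hw
    have a2 : ‖lin0 e (As (ξ a)) (g w)‖ ≤ p * Λ' * (M * S * (2 * ω' i)) :=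
      (norm_lin0_le _ _).trans (by
        gcongr
        · exact (norm_As_le _).trans ((hξ1 a).trans (hb a))
        · exact hhi i w hw)
    have a3 := (hlin (fx pr.B (xs (ξ a)) w)).trans (mul_le_mul_of_nonneg_left a1 hpS.le)
    have a4 : 0 ≤ M * Λ' * ω' i := by positivity
    calc _ ≤ (p * S + 1) * (M * Λ' * (2 * ω' i)) + p * Λ' * (M * S * (2 * ω' i)) :=
          (norm_add_le _ _).trans (add_le_add a3 a2)
      _ ≤ 4 * (p * S + 1) * M * Λ' * ω' i :=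
          (add_le_add le_rfl (le_of_eq (by ring))).trans (num_xi (q := p * S) a4)
      _ ≤ _ := by gcongr
  · rw [mem_closedBall_zero_iff] at hz
    exact ⟨(hLg z hz).trans (hgf z), (hfg z).trans
      ((mul_le_mul_of_nonneg_left ((hgΛ z hz).trans hX1.2.1) hpS.le).trans hXB)⟩
  · rw [mem_closedBall_zero_iff] at hz
    obtain ⟨i, hi⟩ := hv.cover z hz
    refine hfin Λ' _ z i hΛ0.le (by linarith) hi (hI ((d + 2) * m) M
      (fun w => (eval (f w) (form (prj y a)) + lf (grad v.2 (f w)) (xiz e pr.B v.1 (ξ a) w)) /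
        ((pr.ε * cl.ω i ^ d : ℝ) : ℂ)) (cl.z i) cl.σ Λ' hM (PD.div_const _ (PD.add ?_ ?_))
          hv.σpos (fun s => ?_) z hi)
    · exact (PD.eval_form (pd_fz e pr.B v.1) fun b => PD.const (prj y a b)).mono
        (by rw [add_mul]; omega)
    · refine (PD.lf (e := (d - 1) * m + 0) (fun b => ?_) (pd_xiz e pr.B v.1 (ξ a))).mono ?_
      · exact (PD.eval_form (pd_fz e pr.B v.1) fun b' => PD.const (dcL ν d b v.2 b')).congr
          fun w => grad_eq _ _ _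
      · have : (d - 1) * m ≤ d * m := Nat.mul_le_mul_right _ (by omega)
        rw [add_mul]; omega
    · have := (hξ2 a (.inl (i, s))).trans (hb a)
      rwa [Region2Aux.fderiv_E _ _ _ he] at this
  · rw [mem_closedBall_zero_iff] at hz
    obtain ⟨i, hi⟩ := hv.cover z hz
    exact hfin S _ z i (by linarith) (by linarith) hi (hI ((d + 2) * m) M
      (fun w => eval (f w) (form v.2) / ((pr.ε * cl.ω i ^ d : ℝ) : ℂ)) (cl.z i) cl.σ S hM
      (((PD.eval_form (pd_fz e pr.B v.1) fun b => PD.const (v.2 b)).mono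
        (by rw [add_mul]; omega)).div_const _) hv.σpos (fun s => hG (.inl (i, s))) z hi)
  · rw [mem_closedBall_zero_iff] at hz hw
    constructor
    · have a1 : ‖g z - g w‖ ≤ X * ‖z - w‖ :=
        (pi_norm_le_iff_of_nonneg (by have := hX1.2.2; positivity)).2 fun a =>
          (pol_lip hB0 x _ hz hw).trans (by
            gcongr
            exact le_trans (by gcongr) hX1.1)
      have a2 : f z - f w = lin e (As v.1) (g z - g w) := (lin_sub _ _ _).symm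
      rw [a2]
      calc _ ≤ (p * S + 1) * (X * ‖z - w‖) :=
            (hlin _).trans (mul_le_mul_of_nonneg_left a1 hpS.le)
        _ = (p * S + 1) * X * ‖z - w‖ := by ring
        _ ≤ _ := by gcongr
    · rw [← mul_sub, norm_mul, Complex.norm_real, Real.norm_of_nonneg hc₁0.le]
      refine (mul_le_of_le_one_left (norm_nonneg _) hc₁1).trans
        ((gam_lip hB hS hk hx1 hz hw).trans ?_)
      gcongr
  · obtain ⟨i, hi⟩ := hv.cover z hz.le
    have a1 : ‖lf (lx pr.B x) (g z) - pr.β * Qx pr.B pr.k x z * gx pr.B x z‖ ≤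
        M * S * pr.ε' := norm_le_of_div hε' (hc i (.inr (.inr (.inr ()))) z hi)
    have a2 : ‖lx pr.B x‖ ≤ S :=
      (pi_norm_le_iff_of_nonneg (by linarith)).2 fun a => hG (.inr (.inl (.inr (.inr a))))
    have a3 : ‖lf (lx pr.B x) (g z)‖ ≤ p * S * ‖g z‖ := (norm_lf_le _ _).trans (by gcongr)
    have a4 := norm_sub_le (lf (lx pr.B x) (g z))
      (lf (lx pr.B x) (g z) - pr.β * Qx pr.B pr.k x z * gx pr.B x z)
    rw [sub_sub_cancel, norm_mul, norm_mul, Complex.norm_real, Real.norm_of_nonneg hβ.le] at a4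
    have a5 := hLg z hz.le
    refine le_trans ?_ (hgf z)
    rw [norm_mul, norm_mul, Qs_circle _ _ _ hz, Complex.norm_real, Real.norm_of_nonneg hc₁0.le,
      hc₁, div_mul_eq_mul_div, div_le_iff₀ hpS]
    linarith
  · have a1 : ‖g 0‖ ≤ 2 * pr.ϑ * S := (pi_norm_le_iff_of_nonneg (by positivity)).2 fun a =>
      (norm_le_of_div (by positivity) (hG (.inr (.inl (.inr (.inl a)))))).trans (mul_comm _ _).le
    have a2 := (hfg 0).trans (mul_le_mul_of_nonneg_left a1 hpS.le)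
    rw [hγ0, hc₁, le_div_iff₀ hpS]
    calc _ ≤ G₀ * ((p * S + 1) * (2 * pr.ϑ * S)) * (p * S + 1) := by gcongr
      _ = G₀ * (2 * (p * S + 1) ^ 2 * pr.ϑ * S) := by ring
      _ ≤ _ := hG₀
  · rw [hγ0, hc₁, le_div_iff₀ hpS]
    exact hG₁

end

end Pool.Agent.Lib.MP_45f16c_ag.AS
end
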