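import Pool.Agent.Lib.MP_45f16c_ag.AS.BL
import Pool.Agent.Lib.MP_45f16c_ag.Main
import Pool.Agent.Lib.MP_45f16c_ag.Core
import Pool.Agent.Lib.MP_45f16c_ag.Unif
import Pool.Agent.Lib.MP_45f16c_ag.Three

-- part Pool.Agent.Lib.MP_45f16c_ag.AS.Last
section

/-! The two levels. -/

set_option autoImplicit false
open Metric MeasureTheory MvPolynomial Filter Module
open scoped ComplexConjugate Matrix Topology

namespace Pool.Agent.Lib.MP_45f16c_ag.AS

noncomputable section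

namespace LastAux

variable {ν d : ℕ}

theorem not_hyp {c : Mon ν d → ℂ} (hb : ¬IsBrody (form c)) (τ ζ C : ℝ) (hζ : 0 ≤ ζ) :
    ¬Hyp c ν τ ζ C := fun h => by
  simp only [IsBrody, not_forall] at hb
  obtain ⟨f, f1, f2, f3, z, w, i, j, f4⟩ := hb
  have hE : Ent fun z i => f i z := ⟨differentiable_pi.2 f1, fun z h => by
    obtain ⟨i, hi⟩ := f2 z
    exact hi (congrFun h i)⟩
  obtain ⟨a, t, ht, h1⟩ := HoferAux.unb (gauge (pois fact)) hE ⟨z, w, i, j, f4⟩ (τ + 1)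
  have h2 := h id 0 (fun z i => f i z) a t Function.injective_id (by simp) hE.diff ht
    fun u _ => ⟨hE.ne u, by rw [lin_id, f3, norm_zero]; positivity⟩
  linarith

theorem ae_of_null (hd : 1 ≤ d)
    (h : ∀ η : ℝ, 0 < η → volume {c | c ∈ Usm ν d η ∧ ¬IsBrody (form c)} = 0) :
    ∀ᵐ c : Mon ν d → ℂ, IsSmooth (form c) ∧ IsBrody (form c) := by
  have h2 : ∀ᵐ c : Mon ν d → ℂ, ∀ k l : ℕ,
      ¬((1 / (k + 1 : ℝ)) • c ∈ Usm ν d (1 / (l + 1 : ℝ)) ∧
        ¬IsBrody (form ((1 / (k + 1 : ℝ)) • c))) := by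
    refine ae_all_iff.2 fun k => ae_all_iff.2 fun l => ?_
    have h4 := Measure.addHaar_preimage_smul (volume : Measure (Mon ν d → ℂ))
      (r := 1 / (k + 1 : ℝ)) (by positivity)
      {c | c ∈ Usm ν d (1 / (l + 1 : ℝ)) ∧ ¬IsBrody (form c)}
    rw [h _ (by positivity), mul_zero] at h4
    exact measure_eq_zero_iff_ae_notMem.1 h4
  filter_upwards [h2, smooth ν d hd] with c c1 c2
  obtain ⟨k, l, h3⟩ := FinalAux.cone hd c2
  exact ⟨c2, FinalAux.isBrody_smul (not_not.1 fun h4 => c1 k l ⟨h3, h4⟩)⟩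

end LastAux

open LastAux in
theorem lastS (hLev : LevStmt) (hNo : NoRelStmt) (hAl : Al2Stmt) (hNum : NumStmt) : MainStmt := by
  intro ε₀ hε₀
  obtain ⟨K, C, hK, hC, hL⟩ := hLev
  obtain ⟨K₀, hK₀⟩ := main
  set ε := min ε₀ 1 with hε'
  have hε : 0 < ε := lt_min hε₀ one_pos
  have hε1 : ε ≤ 1 := min_le_right _ _
  obtain ⟨n₀, hN⟩ := hNum K K₀ ε hK hε hε1
  refine ⟨max n₀ 2, fun n d hn hd => ?_⟩
  rcases le_total (K₀ * n * Real.log n) d with h | h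
  · exact hK₀ n d (le_of_max_le_right hn) h
  obtain ⟨w, j₁, D₁, D₂, w1, w2, w3, e1, e2, d1, d2, d3, d4, j1, j2, j3⟩ := hN n d
    (le_of_max_le_left hn) (le_trans (by have := min_le_left ε₀ 1; gcongr) hd) h
  have hw : 1 ≤ w ^ 44 := Nat.one_le_pow _ _ (by omega)
  have hν : ((n + 2 : ℕ) : ℝ) - 1 = n + 1 := by push_cast; ring
  refine ae_of_null (by omega) fun η hη => ?_
  have hU := (isClosed_Usm (ν := n + 2) (d := d) η).measurableSet
  obtain ⟨b, g₁, hg₁, hL⟩ := hL (n + 2) d j₁ D₁ η (ε / 32) (by omega) e1 hη (by positivity)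
    (by linarith) d1 (by rwa [hν]) j1
  have L1 := hL (w ^ 44) j₁ (Usm (n + 2) d η) g₁ hw w3 hU subset_rfl hg₁ le_rfl
    (by push_cast; exact j2) (by
      filter_upwards [hNo (n + 2) d j₁ D₁ η K (2 * (ε / 32)) (by omega) e1 hη hK (by positivity)
        d1 (by rw [hν]; linarith)] with T hT using hT _ _)
  refine le_antisymm (ge_of_tendsto' L1 fun τ => ?_) zero_le
  set B := {c | c ∈ Usm (n + 2) d η ∧
    ¬Hyp c (w ^ 44) τ (Real.exp (-((195 + 15 * d) * (K * τ)))) C} with hB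
  obtain ⟨g, hg, hg', hA⟩ := hAl (n + 2) d w D₂ b η K (2 * (ε / 32)) τ
    (Real.exp (-((195 + 15 * d) * (K * τ)))) C g₁ w1 w2 w3 e2 hη hK (by positivity) d2
    (by rw [hν]; linarith) (Real.exp_pos _) hC hg₁
  have L2 := hL (n + 2) (w ^ 46) (Usm (n + 2) d η \ toMeasurable volume B) g (by omega) le_rfl
    (hU.diff (measurableSet_toMeasurable _ _)) Set.sdiff_subset hg hg' (by push_cast; exact j3) (by
      filter_upwards [hA] with T hT c hc
      exact hT c hc.1 (not_not.1 fun h' => hc.2 (subset_toMeasurable _ _ ⟨hc.1, h'⟩)))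
  have h0 : volume {c | c ∈ Usm (n + 2) d η \ toMeasurable volume B ∧ ¬IsBrody (form c)} = 0 :=
    le_antisymm (ge_of_tendsto' L2 fun τ' => measure_mono fun c hc =>
      ⟨hc.1, not_hyp hc.2 _ _ _ (Real.exp_pos _).le⟩) zero_le
  rw [← measure_toMeasurable B, ← add_zero (volume (toMeasurable volume B)), ← h0]
  refine (measure_mono fun c hc => ?_).trans (measure_union_le _ _)
  by_cases h' : c ∈ toMeasurable volume B
  · exact Or.inl h'
  · exact Or.inr ⟨⟨hc.1, h'⟩, hc.2⟩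

end

end Pool.Agent.Lib.MP_45f16c_ag.AS
end

-- part Pool.Agent.Lib.MP_45f16c_ag.AS.Core2A
section

/-! The measure estimate for one class: true discs and the region. -/

set_option autoImplicit false
open Metric MeasureTheory MvPolynomial Filter Topology Real

namespace Pool.Agent.Lib.MP_45f16c_ag.AS

namespace Core2Aux

open CoreAux

noncomputable section

theorem rho_le {d : ℕ} {a g ρ : ℝ} (ha : 1 ≤ a) (hg : 0 < g)
    (hρ : 8 * exp (a * (1 + d * g)) ≤ ρ) : 8 * exp (1 + d * g) ≤ ρ := by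
  have h4 : 0 ≤ d * g := by positivity
  have h : exp (1 + d * g) ≤ exp (a * (1 + d * g)) := exp_le_exp.2 (by nlinarith)
  linarith

theorem trunc_le' {d m : ℕ} {K a g T ρ : ℝ} (hK : 1 ≤ K) (hT : 1 ≤ T) (hg : 0 < g)
    (hρ : 8 * exp (a * (1 + d * g)) ≤ ρ) (hm : 208 * (K * T) ≤ a * m) :
    2 * exp (8 * (K * T)) * (4 / (ρ / 2)) ^ m ≤ del d K g T := by
  have hu : 1 ≤ K * T := by nlinarith
  have h0 := exp_pos (a * (1 + d * g))
  have h1 : 4 / (ρ / 2) ≤ exp (-(a * (1 + d * g))) := by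
    rw [exp_neg, div_le_iff₀ (by linarith), inv_mul_eq_div, le_div_iff₀ h0]; linarith
  have h2 : (4 / (ρ / 2)) ^ m ≤ exp (m * -(a * (1 + d * g))) := by
    rw [exp_nat_mul]; gcongr; apply div_nonneg <;> linarith
  have h3 : (2 : ℝ) ≤ exp (K * T) := by have := add_one_le_exp (K * T); linarith
  refine ele (mle (mle h3 le_rfl (exp_pos _).le) h2 (pow_nonneg (by
    apply div_nonneg <;> linarith) _)) ?_
  have h4 : 0 ≤ d * g := by positivity
  have h5 : (d * g) * T ≤ (d * g) * (K * T) := by gcongr; nlinarith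
  have h6 : (d * g) * (208 * (K * T)) ≤ (d * g) * (a * m) := by gcongr
  have h7 : (m : ℝ) * -(a * (1 + d * g)) = -(a * m) - (d * g) * (a * m) := by ring
  rw [h7]
  nlinarith

theorem true_step2 (hTrue : True2Stmt) {ν p d N m M : ℕ} {K a g T ρ Cd Cm : ℝ} {cl : Cls N}
    {Pt : Fin 3 → Fin m → ℂ} {e : Fin p → Fin ν} {ω' : Fin N → ℝ} (hK : 1 ≤ K) (hT : 1 ≤ T)
    (ha : 1 ≤ a) (hg : 0 < g) (hg3 : g ≤ 3 * K)
    (hd : 1 ≤ d) (hρ : 8 * exp (a * (1 + d * g)) ≤ ρ) (hm : 208 * (K * T) ≤ a * m) (hm1 : 1 ≤ m)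
    (hCd0 : 0 < Cd) (hCd : Cd ≤ exp T) (hCm : Cm ≤ T)
    (h1 : 2 * (Fintype.card (Mon ν d) * d * (p + 1) ^ d * 2 ^ d) ≤ exp T) (h2 : 3 * p + 3 ≤ exp T)
    (hv : cl.Valid ρ (exp (g * T))) (he : Function.Injective e)
    (hPt : ∀ z ∈ closedBall (0 : ℂ) 2, ∀ i,
      ‖cl.P i z - ∑ s : Fin m, Pt i s * (z / 2) ^ (s : ℕ)‖ ≤ del d K g T)
    (hDiv : ∀ (f : ℂ → Fin p → ℂ) (P : ℂ → ℂ) (Γ : ℝ), 1 ≤ Γ →
      DifferentiableOn ℂ f (ball 0 ρ) → DifferentiableOn ℂ P (ball 0 ρ) →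
      (∀ z ∈ ball (0 : ℂ) ρ, f z ≠ 0 ∧ ‖deriv f z‖ ≤ Γ * ‖f z‖ ∧ ‖P z‖ ≤ Γ * ‖f z‖ ^ 2) →
      ∃ b : ℂ → Fin p → ℂ, DifferentiableOn ℂ b (ball 0 (ρ / 2)) ∧
        ∀ z ∈ ball (0 : ℂ) (ρ / 2), lf (b z) (f z) = P z ∧ ‖b z‖ ≤ Cd * Γ ^ 2 * ‖f z‖)
    (hMon : ∀ (ρ K T : ℝ) (f : ℂ → Fin p → ℂ), 8 ≤ ρ → 0 ≤ K → Disc ρ K T f →
      ∃ (i₀ i₁ k : ℕ) (l : Fin p → ℂ) (q : ℕ → ℂ) (g : ℂ → ℂ), ‖l‖ ≤ 1 ∧
        (∀ s, ‖q s‖ ≤ 3 ^ k) ∧ (∀ z ∈ closedBall (0 : ℂ) 2, ‖Qp k q z‖ ≤ 3 ^ k) ∧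
        (3 : ℝ) ^ k ≤ Cm * Real.exp i₀ ∧ DifferentiableOn ℂ g (ball 0 (ρ / 2)) ∧
        (∀ z ∈ ball (0 : ℂ) (ρ / 2), ‖g z‖ ≤ Cm * Real.exp i₀ ∧
          lf l (f z) = (Real.exp (-(i₀ : ℝ)) : ℂ) * Qp k q z * (1 + z * g z)) ∧
        ‖f 0‖ ≤ Real.exp (-(i₁ : ℝ)) ∧ (i₁ : ℝ) ≤ K * T ∧ (i₀ : ℝ) + T ≤ i₁ + Cm ∧
        (i₀ : ℝ) + Real.circleAverage (lg f) 0 1 ≤ Cm ∧ (ρ / 4) ^ k ≤ Cm * Real.exp i₀)
    {c : Mon ν d → ℂ} (hc : ‖c‖ ≤ 1) {A : Fin ν → Fin p → ℂ} (hA : ‖A‖ ≤ 1) {f : ℂ → Fin p → ℂ}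
    (hf : Disc ρ K T f) (hX : Apx c e A (exp (-((195 + 15 * d) * (K * T)))) ρ f)
    (hM : cl.Mem ρ (exp (g * T)) f) (hω' : ∀ i, ∀ w ∈ closedBall (cl.z i) cl.σ, ‖f w‖ ≤ ω' i)
    {s₀ : ℝ} (hs : -s₀ ≤ Real.circleAverage (lg f) 0 1) :
    ∃ i₀ i₁ k : ℕ, (i₁ : ℝ) ≤ K * T ∧ (i₀ : ℝ) + T ≤ i₁ + Cm ∧ (i₀ : ℝ) ≤ s₀ + Cm ∧ k ≤ m ∧
      ∃ x : Unk2 ν p m → ℂ, ‖x‖ ≤ 1 ∧
        ∀ r : Con2 p N M, ‖Gm2 cl (par d K g T Cd Pt i₀ i₁ k) M e ω' r (x, c)‖ ≤ 1 := by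
  have hR := eight_le hg (rho_le ha hg hρ)
  set u := K * T with hu
  have hTu : T ≤ u := by nlinarith
  set w := d * (g * T) with hw
  have hw0 : 0 ≤ w := by positivity
  have hgu : g * T ≤ 3 * u := by nlinarith
  set Γ := exp (g * T) with hΓ
  have hΓ1 : 1 ≤ Γ := one_le_exp (by positivity)
  have hω := omega_ge hR hg3 (by linarith) hv hf hM
  have hsub : ball (0 : ℂ) (ρ / 2) ⊆ ball 0 ρ := ball_subset_ball (by linarith)
  have hsub2 : closedBall (0 : ℂ) 2 ⊆ ball 0 (ρ / 2) := closedBall_subset_ball (by linarith)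
  choose b hb1 hb2 using fun l => hDiv f (cl.P l) Γ hΓ1 hf.diff (hv.diff l)
    fun z hz => ⟨hf.ne hz, hM.der z hz, hM.P l z hz⟩
  obtain ⟨i₀, i₁, k, l, q, g₁, m1, m2, m3, m4, m5, m6, m7, m8, m9, m10, m11⟩ :=
    hMon ρ K T f (by linarith) (by linarith) hf
  have hi : Cm * exp i₀ ≤ exp (2 * u) :=
    ele (mle (hCm.trans (by have := add_one_le_exp T; linarith : T ≤ exp T)) le_rfl
      (exp_pos _).le) (by linarith)
  have hi8 : Cm * exp i₀ ≤ exp (8 * u) := ele hi (by linarith)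
  have hk : k ≤ m := by
    have h4 : 0 ≤ d * g := by positivity
    have a0 : exp a ≤ ρ / 4 := by
      have b1 : exp a ≤ exp (a * (1 + d * g)) := exp_le_exp.2 (by nlinarith)
      have b2 := exp_pos a
      linarith
    have a1 : exp (k * a) ≤ (ρ / 4) ^ k := by
      rw [exp_nat_mul]; gcongr
    have a2 := exp_le_exp.1 (a1.trans (m11.trans hi))
    have a3 : a * k ≤ a * m := by nlinarith
    exact_mod_cast le_of_mul_le_mul_left a3 (by linarith : 0 < a)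
  have hδω : ∀ i, del d K g T ≤ cl.ω i := fun i =>
    (exp_le_exp.2 (by linarith)).trans (hω i)
  have hδ0 : 0 ≤ del d K g T := (exp_pos _).le
  have hω'' : ∀ i, exp (-u) ≤ ω' i := fun i =>
    (hf.lo (cl.z i) (by rw [mem_ball_zero_iff]; linarith [hv.hz i])).trans
      (hω' i _ (mem_closedBall_self hv.σpos.le))
  refine ⟨i₀, i₁, k, m8, m9, by linarith, hk, hTrue ν p d N m M cl (par d K g T Cd Pt i₀ i₁ k) e ω'
    c A f b l q g₁ (ρ / 2) Γ (del d K g T) (exp (-((195 + 15 * d) * u))) he hA hR hm1 hk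
    (one_le_exp (by linarith)) (trunc_le' hK hT hg hρ hm) (exp_le_one_iff.2 (by linarith))
    hv.hz hv.σpos hv.σle hc (hf.diff.mono hsub) hb1 m5 (fun z hz => hX z (hsub hz))
    (fun z hz => ⟨hf.hi z (hsub hz),
      fun i => ?_, (m6 z hz).1.trans hi8, fun i => (hb2 i z hz).1,
      (m6 z hz).2⟩) m1 (fun s => (m2 s).trans (m4.trans hi8))
    (fun z hz => ⟨(m3 z hz).trans (m4.trans hi8), hPt z hz⟩)
    (fun i z hz => ⟨hM.hi i z hz, hω' i z hz, fun i' => ?_⟩)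
    (fun i => ⟨hv.ωpos i, (exp_pos _).trans_le (hω'' i),
      (exp_le_exp.2 (by linarith)).trans (hω'' i), ?_, ?_⟩) (exp_pos _).le ?_
    (exp_pos _) (exp_pos _) (by simp only [par]; positivity) (exp_pos _) (exp_pos _).le
    (exp_le_one_iff.2 (by simp)) m7 (exp_le_exp.2 (by linarith)) ?_⟩
  · refine (hb2 i z hz).2.trans ?_
    have a1 : Γ ^ 2 ≤ exp (6 * u) := by
      rw [hΓ, ← exp_nat_mul]; exact exp_le_exp.2 (by push_cast; linarith)
    have a2 : ‖f z‖ ≤ exp 0 := by rw [exp_zero]; exact hf.hi z (hsub hz)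
    exact ele (mle (mle hCd a1 (by positivity)) a2 (norm_nonneg _)) (by linarith)
  · have a1 := (hb2 i' z (hsub2 (small_disc_subset (hv.hz i) hv.σle hz))).2
    have a2 : Cd * Γ ^ 2 * ‖f z‖ ≤ Cd * Γ ^ 2 * (Γ * cl.ω i) := by
      gcongr; exact hM.hi i z hz
    have a3 : cl.ω i ≤ Γ ^ 3 * cl.ω i :=
      le_mul_of_one_le_left (hv.ωpos i).le (one_le_pow₀ hΓ1)
    have a4 := hδω i
    change _ ≤ (Cd + 1) * Γ ^ 3 * cl.ω i
    nlinarith
  · exact (hδω i).trans (le_mul_of_one_le_left (hv.ωpos i).le hΓ1)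
  · have hω0 := hv.ωpos i
    have a1 : (2 * Γ) ^ (d - 1) ≤ 2 ^ d * exp w := by
      rw [hw, exp_nat_mul, ← mul_pow]
      exact pow_le_pow_right₀ (by linarith) (Nat.sub_le _ _)
    have a2 : 2 * (Fintype.card (Mon ν d) * d * (p + 1) ^ d * 2 ^ d) * exp w * del d K g T ≤
        exp (-(194 * u) - 4 * w) * cl.ω i := by
      refine (ele (mle (mle h1 le_rfl (exp_pos _).le) le_rfl hδ0)
        (b := -(194 * u) - 4 * w + -(4 * u)) (by linarith)).trans ?_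
      rw [exp_add]; gcongr; exact hω i
    have a3 : cl.ω i ^ d = cl.ω i * cl.ω i ^ (d - 1) := by
      rw [← pow_succ', Nat.sub_add_cancel hd]
    have a4 : ((p : ℝ) + 1) ^ d = (p + 1) * (p + 1) ^ (d - 1) := by
      rw [← pow_succ', Nat.sub_add_cancel hd]
    change _ ≤ exp (-(194 * u) - 4 * w) * cl.ω i ^ d
    calc _ = 2 * (Fintype.card (Mon ν d) * d * (p + 1) ^ d * del d K g T * (2 * Γ) ^ (d - 1)) *
          cl.ω i ^ (d - 1) := by rw [a4, mul_pow, mul_pow]; ring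
      _ ≤ 2 * (Fintype.card (Mon ν d) * d * (p + 1) ^ d * del d K g T * (2 ^ d * exp w)) *
          cl.ω i ^ (d - 1) := by gcongr
      _ = 2 * (Fintype.card (Mon ν d) * d * (p + 1) ^ d * 2 ^ d) * exp w * del d K g T *
          cl.ω i ^ (d - 1) := by ring
      _ ≤ exp (-(194 * u) - 4 * w) * cl.ω i * cl.ω i ^ (d - 1) := by gcongr
      _ = _ := by rw [a3, mul_assoc]
  · change 2 * (exp (-((195 + 15 * d) * u)) * Γ ^ d) ≤ exp (-(194 * u) - 4 * w)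
    have a1 : Γ ^ d = exp w := by rw [hΓ, ← exp_nat_mul]
    have a2 : (2 : ℝ) ≤ exp u := by have := add_one_le_exp u; linarith
    have a3 : w ≤ d * (3 * u) := by rw [hw]; gcongr
    rw [a1]
    exact ele (mle a2 (mle le_rfl le_rfl (exp_pos _).le) (by positivity)) (by linarith)
  · exact ele (mle (mle h2 le_rfl (exp_pos _).le) le_rfl hδ0) (by linarith)

theorem region_step2 (hReg : Region2Stmt) {ν p d j N m : ℕ} {K g ε χ s₀ T ρ Cd Cm P : ℝ}
    {cl : Cls N} {Pt : Fin 3 → Fin m → ℂ} {e : Fin p → Fin ν} {ω' : Fin N → ℝ} {i₀ i₁ k : ℕ}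
    (hp : 1 ≤ p) (hd : 1 ≤ d) (hK : 1 ≤ K) (hT : 1 ≤ T) (hg : 0 < g) (hg3 : g ≤ 3 * K)
    (hε1 : ε ≤ 1) (hCd0 : 0 < Cd) (hm1 : 1 ≤ m) (hm9 : (m : ℝ) ≤ 209 * (K * T))
    (hP1 : 1 ≤ P) (hmp : (m : ℝ) + 1 ≤ P) (hMp : (((d + 2) * m + 1 : ℕ) : ℝ) ≤ P)
    (e1 : 4 * P ^ 2 ≤ exp T) (e2 : 2 * p * (Cd + 1) * P ^ 2 ≤ exp T)
    (e3 : 3 * (p + 1) * P ^ 7 ≤ exp T)
    (e5 : (2 + j) * (2 * p * (Cd + 1)) ^ d * P ^ (2 * d + 2) ≤ exp T)
    (x1 : 2 * p * (Cd + 1) * P ^ 2 ≤ exp (χ * T)) (x2 : 2 * (p + 1) * P ^ 3 ≤ exp (χ * T))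
    (x3 : 4 * (p + 1) * (1 + j) * P ^ 2 ≤ exp (χ * T))
    (x4 : 2 * (p + 1) ^ 2 * exp Cm * P ^ 3 ≤ exp (χ * T))
    (x5 : (p + 1) * exp Cm * P ^ 1 ≤ exp (χ * T))
    (hv : cl.Valid ρ (exp (g * T))) (he : Function.Injective e)
    (hω : ∀ i, exp (-(4 * (K * T))) ≤ cl.ω i) (hω' : ∀ i, 0 < ω' i)
    (hPt : ∀ z ∈ closedBall (0 : ℂ) 2, ∀ i,
      ‖cl.P i z - ∑ s : Fin m, Pt i s * (z / 2) ^ (s : ℕ)‖ ≤ del d K g T)
    (hi₀ : (i₀ : ℝ) + T ≤ i₁ + Cm) (hs₀ : (i₀ : ℝ) ≤ s₀ + Cm) (hk : k ≤ m)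
    (v : (Unk2 ν p m → ℂ) × (Mon ν d → ℂ)) (hv1 : ‖v.1‖ ≤ P)
    (hG : ∀ r : Con2 p N ((d + 2) * m + 1),
      ‖Gm2 cl (par d K g T Cd Pt i₀ i₁ k) ((d + 2) * m + 1) e ω' r v‖ ≤ P)
    (hL : LiftL (fun r : Con2 p N ((d + 2) * m + 1) =>
      fderiv ℂ (Gm2 cl (par d K g T Cd Pt i₀ i₁ k) ((d + 2) * m + 1) e ω' r) v) j
      (exp (ε * T))) : DatT K g ε χ s₀ T cl ω' v.2 j := by
  set u := K * T with hu
  have hTu : T ≤ u := by nlinarith
  set w := d * (g * T) with hw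
  have hw0 : 0 ≤ w := by positivity
  have hgu : g * T ≤ 3 * u := by nlinarith
  set Γ := exp (g * T) with hΓ
  have hΓ1 : 1 ≤ Γ := one_le_exp (by positivity)
  have hΓ3 : Γ ≤ exp (3 * u) := exp_le_exp.2 hgu
  set M : ℕ := (d + 2) * m + 1 with hM
  have hMS : M * P ≤ P ^ 2 := by rw [sq]; gcongr
  have hp2 : 1 ≤ P ^ 2 := one_le_pow₀ hP1
  have hW : 2 * p * M * P * ((Cd + 1) * Γ ^ 3) * Γ ≤ 2 * p * (Cd + 1) * P ^ 2 * Γ ^ 4 := by
    calc _ = 2 * p * (Cd + 1) * (M * P) * Γ ^ 4 := by ring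
      _ ≤ _ := by gcongr
  have hΓ4 : Γ ^ 4 ≤ exp (12 * u) := by
    rw [hΓ, ← exp_nat_mul]; exact exp_le_exp.2 (by push_cast; linarith)
  have hΓ4' : Γ ^ 4 ≤ exp (4 * (g * T)) := by
    rw [hΓ, ← exp_nat_mul]; exact exp_le_exp.2 (by push_cast; linarith)
  have hδ : del d K g T ≤ exp (-(20 * u)) := exp_le_exp.2 (by linarith)
  have hpS : p * P + 1 ≤ (p + 1) * P := by linarith
  obtain ⟨y, f, ξ, γ, key⟩ := hReg ν p d j N m M cl (par d K g T Cd Pt i₀ i₁ k) e ω' ρ Γ P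
    (exp (ε * T)) (del d K g T) (exp ((4 * g + χ) * T)) (exp (χ * T)) (exp ((ε + χ) * T))
    (exp (-(17 * u))) (exp (17 * u)) (exp (-(100 * u))) (exp ((1 - χ) * T)) (exp (-s₀ - χ * T))
    hv he hp hd hm1 hk (by omega) hΓ1 hP1 (exp_pos _)
    (one_le_exp (by linarith)) (exp_pos _) (exp_pos _) (by simp only [par]; positivity)
    (exp_pos _) (exp_pos _) (exp_le_one_iff.2 (by
      have : (0 : ℝ) ≤ i₀ := by positivity
      linarith)) (exp_pos _) hω' (fun i z hz => hPt z hz i)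
    (fun i => by
      change 2 * Γ * (M * P * exp (-(20 * u)) + del d K g T) ≤ _
      have a1 : 2 * Γ * (M * P * exp (-(20 * u)) + del d K g T) ≤
          4 * P ^ 2 * Γ * exp (-(20 * u)) := by
        have a2 : M * P * exp (-(20 * u)) ≤ P ^ 2 * exp (-(20 * u)) := by gcongr
        have a3 : del d K g T ≤ P ^ 2 * exp (-(20 * u)) :=
          hδ.trans (le_mul_of_one_le_left (exp_pos _).le hp2)
        nlinarith
      have a4 : exp (-(8 * u)) ≤ cl.ω i ^ 2 := by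
        rw [show -(8 * u) = (2 : ℕ) * -(4 * u) by push_cast; ring, exp_nat_mul]
        gcongr; exact hω i
      exact a1.trans ((ele (mle (mle e1 hΓ3 (by positivity)) le_rfl (exp_pos _).le)
        (by linarith)).trans a4))
    (fun i => by
      change exp (-(17 * u)) * (2 * p * M * P * ((Cd + 1) * Γ ^ 3) * Γ) ≤ _
      exact (ele (mle le_rfl (hW.trans (mle e2 hΓ4 (by positivity))) (by positivity))
        (by linarith)).trans (hω i))
    (by
      change M * P * exp (-(20 * u)) ≤ _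
      exact ele (mle (hMS.trans (by linarith : P ^ 2 ≤ exp T)) le_rfl (exp_pos _).le)
        (by linarith))
    (by
      change 2 * p * M * P * ((Cd + 1) * Γ ^ 3) * Γ ≤ _
      exact ele (hW.trans (mle x1 hΓ4' (by positivity))) (by linarith))
    (by
      calc _ ≤ 2 * ((p + 1) * P) * P * P := by gcongr
        _ = 2 * (p + 1) * P ^ 3 := by ring
        _ ≤ _ := x2)
    (by
      calc _ ≤ 4 * ((p + 1) * P) * P * (exp (ε * T) * (1 + j)) := by gcongr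
        _ = 4 * (p + 1) * (1 + j) * P ^ 2 * exp (ε * T) := by ring
        _ ≤ _ := ele (mle x3 le_rfl (exp_pos _).le) (by linarith))
    (by
      change 3 * (p * P + 1) * ((m + 1) ^ 2 * exp (8 * u) * P) ^ 2 ≤ _
      calc _ ≤ 3 * ((p + 1) * P) * (P ^ 2 * exp (8 * u) * P) ^ 2 := by gcongr
        _ = 3 * (p + 1) * P ^ 7 * exp (8 * u) * exp (8 * u) := by ring
        _ ≤ _ := ele (mle (mle e3 le_rfl (exp_pos _).le) le_rfl (exp_pos _).le) (by linarith))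
    (by
      change M * (P + exp (ε * T) * (1 + j)) * exp (-(194 * u) - 4 * w) *
        (2 * p * M * P * ((Cd + 1) * Γ ^ 3) * Γ) ^ d ≤ _
      have a1 : (Γ ^ 4) ^ d = exp (4 * w) := by
        rw [hΓ, ← exp_nat_mul, ← exp_nat_mul, hw]; congr 1; push_cast; ring
      have a2 : exp (ε * T) ≤ exp u := exp_le_exp.2 (by nlinarith)
      have a3 : 1 ≤ exp u := one_le_exp (by linarith)
      have a4 : P + exp (ε * T) * (1 + j) ≤ (2 + j) * P * exp u := by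
        have b1 : P ≤ P * exp u := le_mul_of_one_le_right (by linarith) a3
        have b2 : exp (ε * T) * (1 + j) ≤ (P * exp u) * (1 + j) := by
          gcongr
          exact a2.trans (le_mul_of_one_le_left (exp_pos _).le hP1)
        linarith
      calc _ ≤ P * ((2 + j) * P * exp u) * exp (-(194 * u) - 4 * w) *
            (2 * p * (Cd + 1) * P ^ 2 * Γ ^ 4) ^ d := by gcongr
        _ = (2 + j) * (2 * p * (Cd + 1)) ^ d * P ^ (2 * d + 2) * exp u *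
            exp (-(194 * u) - 4 * w) * exp (4 * w) := by
          rw [mul_pow, mul_pow _ (P ^ 2), a1, ← pow_mul, pow_add]; ring
        _ ≤ _ := ele (mle (mle (mle e5 le_rfl (exp_pos _).le) le_rfl (exp_pos _).le) le_rfl
          (exp_pos _).le) (by linarith))
    (by
      change exp ((1 - χ) * T) * (2 * (p * P + 1) ^ 2 * exp (-(i₁ : ℝ)) * P) ≤ exp (-(i₀ : ℝ))
      calc _ ≤ exp ((1 - χ) * T) * (2 * ((p + 1) * P) ^ 2 * exp (-(i₁ : ℝ)) * P) := by gcongr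
        _ = 2 * (p + 1) ^ 2 * exp Cm * P ^ 3 * exp ((1 - χ) * T) * exp (-(i₁ : ℝ)) *
            exp (-Cm) := by
          rw [exp_neg Cm]; field_simp
        _ ≤ _ := ele (mle (mle (mle x4 le_rfl (exp_pos _).le) le_rfl (exp_pos _).le) le_rfl
          (exp_pos _).le) (by linarith))
    (by
      change exp (-s₀ - χ * T) * (p * P + 1) ≤ exp (-(i₀ : ℝ))
      calc _ ≤ exp (-s₀ - χ * T) * ((p + 1) * P) := by gcongr
        _ = (p + 1) * exp Cm * P ^ 1 * exp (-s₀ - χ * T) * exp (-Cm) := by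
          rw [exp_neg Cm]; field_simp
        _ ≤ _ := ele (mle (mle x5 le_rfl (exp_pos _).le) le_rfl (exp_pos _).le) (by linarith))
    (exp_pos _).le v hv1 hG hL
  exact ⟨m, y, f, ξ, γ, hm9, key⟩

end

end Core2Aux

end Pool.Agent.Lib.MP_45f16c_ag.AS
end

-- part Pool.Agent.Lib.MP_45f16c_ag.AS.Core2
section

/-! The measure estimate for one class. -/

set_option autoImplicit false
open Metric MeasureTheory MvPolynomial Filter Module
open scoped ComplexConjugate Matrix Topology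

namespace Pool.Agent.Lib.MP_45f16c_ag.AS

namespace Core2Aux

open CoreAux Real

noncomputable section

theorem count_step2 {ν p d j m n a' κ : ℕ} {K a ε T C P x : ℝ} (hp : 1 ≤ p) (hK : 1 ≤ K)
    (hT : 1 ≤ T) (ha : 1 ≤ a) (hC : 0 < C)
    (hj : 2912 * p * K * log (4 * d + 3) / a + 2 ≤ ε * (j + 1))
    (hm : (m : ℝ) ≤ 208 * (K * T) / a + 1)
    (hκ : κ = (5 * p + 2) * m + ν * p) (hnp : (n : ℝ) + 1 ≤ P) (hx0 : 0 ≤ x) (hx : x ≤ P)
    (e : C * exp ((2 * (5 * p + 2) + 2 * (ν * p) + 2 * a') * log (4 * d + 3)) *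
      P ^ (4 * a' + 3) ≤ exp T) :
    ((n + 1) ^ 3 : ℕ) * (C * (P * x) ^ (2 * a') *
      (2 * ((2 * d + 1 : ℕ) : ℝ) + 1) ^ (2 * (κ + a')) / exp (ε * T) ^ (j + 1)) ≤ exp (-T) := by
  have hP : 0 ≤ P := by have : (0 : ℝ) ≤ n := by positivity
                        linarith
  set Lg := log (4 * d + 3) with hLg
  have hL : 0 ≤ Lg := by
    have : (0 : ℝ) ≤ d := by positivity
    exact log_nonneg (by linarith)
  have a0 : (2 * ((2 * d + 1 : ℕ) : ℝ) + 1) = 4 * d + 3 := by push_cast; ring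
  have a1 : (4 * d + 3 : ℝ) ^ (2 * (κ + a')) = exp ((2 * (κ + a') : ℕ) * Lg) := by
    rw [exp_nat_mul, hLg, exp_log (by positivity)]
  have hp' : (1 : ℝ) ≤ p := by exact_mod_cast hp
  set v := K * T / a with hv
  have hv0 : 0 ≤ v := by positivity
  have hm' : (m : ℝ) ≤ 208 * v + 1 := by rw [hv, ← mul_div_assoc]; exact hm
  have a2 : ((2 * (κ + a') : ℕ) : ℝ) * Lg ≤
      (2 * (5 * p + 2) + 2 * (ν * p) + 2 * a') * Lg + 2912 * p * v * Lg := by
    rw [← add_mul]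
    refine mul_le_mul_of_nonneg_right ?_ hL
    rw [hκ]; push_cast
    have b1 : (5 * p + 2 : ℝ) * m ≤ (5 * p + 2) * (208 * v + 1) := by gcongr
    have b2 : v ≤ p * v := le_mul_of_one_le_left hv0 hp'
    nlinarith
  have a3 : 2912 * p * v * Lg + 2 * T ≤ (j + 1 : ℕ) * (ε * T) := by
    have b1 : (2912 * p * K * Lg / a + 2) * T ≤ ε * (j + 1) * T := by gcongr
    have b2 : (2912 * p * K * Lg / a + 2) * T = 2912 * p * v * Lg + 2 * T := by
      rw [hv]; ring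
    push_cast
    linarith
  rw [a0, a1, ← exp_nat_mul, ← mul_div_assoc, div_le_iff₀ (exp_pos _), ← exp_add]
  calc _ ≤ P ^ 3 * (C * (P * P) ^ (2 * a') *
        exp ((2 * (5 * p + 2) + 2 * (ν * p) + 2 * a') * Lg + 2912 * p * v * Lg)) := by
        push_cast at a2 ⊢; gcongr
    _ = C * exp ((2 * (5 * p + 2) + 2 * (ν * p) + 2 * a') * Lg) * P ^ (4 * a' + 3) *
        exp (2912 * p * v * Lg) := by
        rw [← sq, ← pow_mul, exp_add]; ring
    _ ≤ _ := ele (mle e le_rfl (exp_pos _).le) (by linarith)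

theorem card_unk2 (ν p m : ℕ) : Fintype.card (Unk2 ν p m) = (5 * p + 2) * m + ν * p := by
  rw [Fintype.card_sum, card_unk, Fintype.card_prod, Fintype.card_fin, Fintype.card_fin]

theorem card_le2 (ν p d N m n a : ℕ) (hmn : m ≤ n) :
    2 * Fintype.card (Unk2 ν p m) + Fintype.card (Con2 p N ((d + 2) * m + 1)) + 2 ≤
      (2 * (5 * p + 2) + 2 * (ν * p) + N * (d + 2) * (4 * p + 6) + 2 * p + 2 + a + (d + 2)) *
        (n + 1) ∧
    Fintype.card (Unk2 ν p m) + a + Fintype.card (Con2 p N ((d + 2) * m + 1)) ≤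
      (2 * (5 * p + 2) + 2 * (ν * p) + N * (d + 2) * (4 * p + 6) + 2 * p + 2 + a + (d + 2)) *
        (n + 1) := by
  have cR : Fintype.card (Con2 p N ((d + 2) * m + 1)) =
      N * (((d + 2) * m + 1) * (4 * p + 6)) + 2 * p := by
    simp only [Fintype.card_prod, Fintype.card_sum, Fintype.card_fin, Fintype.card_unit]; ring
  have hMle : (d + 2) * m + 1 ≤ (d + 2) * (n + 1) := by
    have := Nat.mul_le_mul_left (d + 2) hmn
    rw [mul_add]; omega
  have cR' : N * (((d + 2) * m + 1) * (4 * p + 6)) ≤ N * (d + 2) * (4 * p + 6) * (n + 1) := by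
    calc _ ≤ N * ((d + 2) * (n + 1) * (4 * p + 6)) := by gcongr
      _ = _ := by ring
  have cU : (5 * p + 2) * m ≤ (5 * p + 2) * n := Nat.mul_le_mul_left _ hmn
  rw [card_unk2, cR]
  generalize N * (((d + 2) * m + 1) * (4 * p + 6)) = x at *
  generalize N * (d + 2) * (4 * p + 6) = y at *
  generalize (5 * p + 2) * m = z at *
  generalize ν * p = t at *
  constructor <;> nlinarith [Nat.zero_le (a * n), Nat.zero_le (d * n), Nat.zero_le (p * n),
    Nat.zero_le (t * n)]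

theorem ev' (C c : ℝ) (a : ℕ) {χ : ℝ} (hχ : 0 < χ) :
    ∀ᶠ T : ℝ in atTop, C * (c * T) ^ a ≤ exp (χ * T) := by
  have h := (tendsto_id.const_mul_atTop hχ).eventually (ev C (c / χ) a)
  filter_upwards [h] with T hT
  have h1 : c / χ * (χ * id T) = c * T := by simp only [id]; field_simp
  rw [h1] at hT
  exact hT

end

end Core2Aux

noncomputable section

open CoreAux Core2Aux Real in
theorem core2S (hSard : SardStmt) (hTrue : True2Stmt) (hReg : Region2Stmt) (hG : Gdeg2Stmt)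
    (hDiv : DivStmt) (hMon : Mon2Stmt) (hTr : TruncStmt) : Core2Stmt := by
  intro ν p d j N K a ε g χ ρ hK hp hd ha hε hε1 hg hg3 hχ hρ hj
  have hR := eight_le hg (rho_le ha hg hρ)
  obtain ⟨CS, hCS, hS⟩ := hSard (Mon ν d) j
  obtain ⟨Cd, hCd, hDv⟩ := hDiv p ρ (by linarith)
  obtain ⟨Cm, hCm, hMn⟩ := hMon p
  set a' := Fintype.card (Mon ν d) with ha'
  set c₁ : ℕ := 2 * (5 * p + 2) + 2 * (ν * p) + N * (d + 2) * (4 * p + 6) + 2 * p + 2 + a' +
    (d + 2) with hc₁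
  set c₂ : ℝ := c₁ * (210 * K) with hc₂
  filter_upwards [eventually_ge_atTop 1, eventually_ge_atTop Cm, ev Cd 1 0,
    ev (2 * (a' * d * (p + 1) ^ d * 2 ^ d)) 1 0, ev (3 * p + 3) 1 0, ev 4 c₂ 2,
    ev (2 * p * (Cd + 1)) c₂ 2, ev (3 * (p + 1)) c₂ 7,
    ev ((2 + j) * (2 * p * (Cd + 1)) ^ d) c₂ (2 * d + 2),
    ev (CS * exp ((2 * (5 * p + 2) + 2 * (ν * p) + 2 * a') * log (4 * d + 3))) c₂ (4 * a' + 3),
    ev' (2 * p * (Cd + 1)) c₂ 2 hχ, ev' (2 * (p + 1)) c₂ 3 hχ,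
    ev' (4 * (p + 1) * (1 + j)) c₂ 2 hχ, ev' (2 * (p + 1) ^ 2 * exp Cm) c₂ 3 hχ,
    ev' ((p + 1) * exp Cm) c₂ 1 hχ] with T hT hTm b1 b2 b3 e1 e2 e3 e5 e7 x1 x2 x3 x4 x5
  intro cl e ω' s₀ U hv he hUm hU1 hU
  simp only [pow_zero, mul_one] at b1 b2 b3
  set P := c₂ * T with hP
  obtain ⟨n, hn1, hn2, hn3, hn4, hle⟩ := level hK hT c₁
  rw [← hc₂, ← hP] at hle
  have hu : 1 ≤ K * T := by nlinarith
  have ha0 : 0 < a := by linarith
  obtain ⟨m, hm1, hm2, hm3, hmn⟩ : ∃ m : ℕ, 208 * (K * T) ≤ a * m ∧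
      (m : ℝ) ≤ 208 * (K * T) / a + 1 ∧ 1 ≤ m ∧ m ≤ n := by
    have h0 : 0 < 208 * (K * T) / a := by positivity
    refine ⟨⌈208 * (K * T) / a⌉₊, ?_, (Nat.ceil_lt_add_one h0.le).le, Nat.ceil_pos.2 h0,
      Nat.ceil_le.2 ((div_le_self (by positivity) ha).trans hn1)⟩
    have h1 := Nat.le_ceil (208 * (K * T) / a)
    rwa [div_le_iff₀' ha0] at h1
  have hmn' : (m : ℝ) ≤ n := by exact_mod_cast hmn
  set M : ℕ := (d + 2) * m + 1 with hM
  have cκ := card_unk2 ν p m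
  have hMle : M ≤ (d + 2) * (n + 1) := by
    have := Nat.mul_le_mul_left (d + 2) hmn
    rw [hM, mul_add]; omega
  have hnp : (n : ℝ) + 1 ≤ P := by
    exact_mod_cast hle (n + 1) (Nat.le_mul_of_pos_left _ (by omega))
  have hMp : (M : ℝ) ≤ P := hle M (hMle.trans (Nat.mul_le_mul_right _ (by omega)))
  have hP1 : 1 ≤ P := by have : (0 : ℝ) ≤ n := by positivity
                         linarith
  have hSp : (2 * Fintype.card (Unk2 ν p m) + Fintype.card (Con2 p N M) + 2 : ℝ) ≤ P := by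
    exact_mod_cast hle _ (card_le2 ν p d N m n a' hmn).1
  have hxp : (Fintype.card (Unk2 ν p m) + a' + Fintype.card (Con2 p N M) : ℝ) ≤ P := by
    exact_mod_cast hle _ (card_le2 ν p d N m n a' hmn).2
  by_cases hne : ∃ f : ℂ → Fin p → ℂ, Disc ρ K T f ∧ cl.Mem ρ (exp (g * T)) f ∧
    ∀ i, ∀ w ∈ closedBall (cl.z i) cl.σ, ‖f w‖ ≤ ω' i
  swap
  · refine (measure_mono (t := ∅) ?_).trans (by simp)
    rintro c ⟨_, A, f, _, f1, _, f3, f4, _⟩
    exact hne ⟨f, f1, f3, f4⟩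
  obtain ⟨f₀, f1, f2, f3⟩ := hne
  have hω := omega_ge hR hg3 (by linarith) hv f1 f2
  have hω' : ∀ i, 0 < ω' i := fun i => (exp_pos _).trans_le
    ((f1.lo (cl.z i) (by rw [mem_ball_zero_iff]; linarith [hv.hz i])).trans
      (f3 i _ (mem_closedBall_self hv.σpos.le)))
  have hsub : ball (0 : ℂ) (ρ / 2) ⊆ ball 0 ρ := ball_subset_ball (by linarith)
  choose Pt _ hPt using fun l => hTr m (cl.P l) (ρ / 2) (exp (8 * (K * T))) hR
    ((hv.diff l).mono hsub) fun z hz => (f2.P l z (hsub hz)).trans (by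
      have h1 : ‖f₀ z‖ ^ 2 ≤ exp 0 := by
        rw [exp_zero]; exact pow_le_one₀ (norm_nonneg _) (f1.hi z (hsub hz))
      have h2 : g * T ≤ 3 * K * T := by gcongr
      exact ele (mle le_rfl h1 (by positivity)) (by linarith [mul_pos hg (by linarith : 0 < T)]))
  have hPt' : ∀ z ∈ closedBall (0 : ℂ) 2, ∀ i,
      ‖cl.P i z - ∑ s : Fin m, Pt i s * (z / 2) ^ (s : ℕ)‖ ≤ del d K g T :=
    fun z hz i => (hPt i z hz).trans (trunc_le' hK hT hg hρ hm1)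
  let B : ℕ × ℕ × ℕ → Set (Mon ν d → ℂ) := fun t =>
    {y | ((t.1 : ℝ) + T ≤ t.2.1 + Cm ∧ (t.1 : ℝ) ≤ s₀ + Cm ∧ t.2.2 ≤ m) ∧ y ∈ U ∧
      ∃ x : Unk2 ν p m → ℂ, ‖x‖ ≤ 1 ∧
        ∀ r : Con2 p N M, ‖Gm2 cl (par d K g T Cd Pt t.1 t.2.1 t.2.2) M e ω' r (x, y)‖ ≤ 1}
  let I := Finset.range (n + 1) ×ˢ Finset.range (n + 1) ×ˢ Finset.range (n + 1)
  have hcov : {c | c ∈ U ∧ ∃ (A : Fin ν → Fin p → ℂ) (f : ℂ → Fin p → ℂ), ‖A‖ ≤ 1 ∧
      Disc ρ K T f ∧ Apx c e A (Real.exp (-((195 + 15 * d) * (K * T)))) ρ f ∧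
      cl.Mem ρ (Real.exp (g * T)) f ∧ (∀ i, ∀ w ∈ closedBall (cl.z i) cl.σ, ‖f w‖ ≤ ω' i) ∧
      -s₀ ≤ Real.circleAverage (lg f) 0 1} ⊆ ⋃ t ∈ I, B t := by
    rintro c ⟨hc, A, f, g0, g1, g2, g3, g4, g5⟩
    obtain ⟨i₀, i₁, k, t1, t2, t2', t3, t4⟩ := true_step2 (M := M) hTrue hK hT ha hg hg3 hd hρ hm1
      hm3 hCd b1 hTm b2 b3 hv he hPt' hDv hMn (mem_closedBall_zero_iff.1 (hU1 hc)) g0 g1 g2 g3 g4
      g5
    refine Set.mem_iUnion₂.2 ⟨(i₀, i₁, k), ?_, ⟨t2, t2', t3⟩, hc, t4⟩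
    simp only [I, Finset.mem_product, Finset.mem_range, Nat.lt_succ_iff]
    exact ⟨by exact_mod_cast (by linarith : (i₀ : ℝ) ≤ n),
      by exact_mod_cast (by linarith : (i₁ : ℝ) ≤ n), t3.trans hmn⟩
  have hB : ∀ t, volume (B t) ≤ ENNReal.ofReal (CS * (P * (Fintype.card (Unk2 ν p m) + a' +
      Fintype.card (Con2 p N M))) ^ (2 * a') * (2 * ((2 * d + 1 : ℕ) : ℝ) + 1) ^
        (2 * (Fintype.card (Unk2 ν p m) + a')) / exp (ε * T) ^ (j + 1)) := fun t => by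
    by_cases ht : (t.1 : ℝ) + T ≤ t.2.1 + Cm ∧ (t.1 : ℝ) ≤ s₀ + Cm ∧ t.2.2 ≤ m
    · refine (measure_mono fun y hy => hy.2).trans (hS (Unk2 ν p m) (Con2 p N M) (2 * d + 1) _
        U P _ (by omega) (hG ν p d N m M cl _ e ω' hd) hUm hU1 hSp (exp_pos _)
        fun v v1 v2 v3 hL => hU v.2 v1 ?_)
      exact region_step2 hReg hp hd hK hT hg hg3 hε1 hCd hm3 (by linarith) hP1 (by linarith) hMp
        e1 e2 e3 e5 x1 x2 x3 x4 x5 hv he hω hω' hPt' ht.1 ht.2.1 ht.2.2 v v2 v3 hL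
    · rw [show B t = ∅ from Set.eq_empty_of_forall_notMem fun y hy => ht hy.1]; simp
  refine (measure_mono hcov).trans ((measure_biUnion_finset_le _ _).trans
    ((Finset.sum_le_card_nsmul _ _ _ fun t _ => hB t).trans ?_))
  have hI : I.card = (n + 1) ^ 3 := by simp [I]; ring
  rw [hI, nsmul_eq_mul, ← ENNReal.ofReal_natCast, ← ENNReal.ofReal_mul (by positivity)]
  exact ENNReal.ofReal_le_ofReal
    (count_step2 hp hK hT ha hCS hj hm2 cκ hnp (by positivity) hxp e7)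

end

end Pool.Agent.Lib.MP_45f16c_ag.AS
end

-- part Pool.Agent.Lib.MP_45f16c_ag.AS.Resc
section

/-! Rescaling of slow discs and the growth certificate. -/

set_option autoImplicit false
open Metric MeasureTheory MvPolynomial Filter Module
open scoped ComplexConjugate Matrix Topology

namespace Pool.Agent.Lib.MP_45f16c_ag.AS

noncomputable section

namespace RescAux

theorem step (a : ℕ → ℝ) {δ : ℝ} (hδ : 0 ≤ δ) (I : ℕ) :
    (∃ i ≤ I, a 0 ≤ a i ∧ a (i + 1) ≤ a i + δ) ∨ a 0 + (I + 1) * δ < a (I + 1) := by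
  induction I with
  | zero => exact (le_or_gt (a 1) (a 0 + δ)).imp (fun h => ⟨0, le_rfl, le_rfl, h⟩) (by simp)
  | succ I ih =>
    rcases ih with ⟨i, h, h'⟩ | h
    · exact .inl ⟨i, h.trans I.le_succ, h'⟩
    · have : 0 ≤ ((I : ℝ) + 1) * δ := by positivity
      refine (le_or_gt (a (I + 1 + 1)) (a (I + 1) + δ)).imp
        (fun h' => ⟨I + 1, le_rfl, by linarith, h'⟩) fun h' => ?_
      push_cast
      linarith

theorem avg {ν : ℕ} {ρ K T r : ℝ} {g : ℂ → Fin ν → ℂ} (h : Disc ρ K T g) (h0 : 0 < r)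
    (hr : r < ρ) : -(K * T) ≤ Real.circleAverage (lg g) 0 r ∧ Real.circleAverage (lg g) 0 r ≤ 0 := by
  have hs : sphere (0 : ℂ) |r| ⊆ ball 0 ρ := by
    rw [abs_of_pos h0]
    exact sphere_subset_ball hr
  have hi : CircleIntegrable (lg g) 0 r := (continuousOn_lg (h.diff.continuousOn.mono hs)
    fun z hz => norm_pos_iff.1 ((Real.exp_pos _).trans_le (h.lo z (hs hz)))).circleIntegrable'
  refine ⟨(Real.circleAverage_const _ 0 r).ge.trans (Real.circleAverage_mono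
    (circleIntegrable_const _ _ _) hi fun z hz => ?_), Real.circleAverage_mono_on_of_le_circle hi
    fun z hz => Real.log_nonpos (norm_nonneg _) (h.hi z (hs hz))⟩
  exact (Real.le_log_iff_exp_le ((Real.exp_pos _).trans_le (h.lo z (hs hz)))).2 (h.lo z (hs hz))

theorem refl (k : ℕ) (q : ℕ → ℂ) {z w : ℂ} (h : conj z * w = 1) : conj (Qp k q z) =
    conj z ^ k * (1 + ∑ s ∈ Finset.range k, conj (q s / 2 ^ s) * w ^ (k - s)) := by
  rw [Qp, map_add, map_pow, map_sum, mul_add, mul_one, Finset.mul_sum]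
  refine congrArg _ (Finset.sum_congr rfl fun s hs => ?_)
  obtain ⟨n, rfl⟩ := Nat.exists_eq_add_of_le (Finset.mem_range.1 hs).le
  rw [Nat.add_sub_cancel_left, pow_add, mul_mul_mul_comm, ← mul_pow, h, one_pow, mul_one, ← map_pow,
    ← map_mul, div_pow, mul_div_left_comm]

end RescAux

open RescAux in
theorem rescS (hO : OscStmt) : RescStmt := by
  intro K ε ρ hK hε hρ
  obtain ⟨R, h4, hR⟩ : ∃ R : ℝ, 4 ≤ R ∧ 8 * K / ε ≤ R := ⟨_, le_max_left _ _, le_max_right _ _⟩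
  obtain ⟨I, hI⟩ := exists_nat_ge (2 * K / ε)
  rw [div_le_iff₀ hε] at hR hI
  have h1 : 1 ≤ R := by linarith
  have hp : ∀ i ≤ I + 1, R ^ i * ρ ≤ R ^ (I + 1) * ρ := fun i hi => by gcongr
  have hq : ∀ i ≤ I + 1, R ^ i < R ^ (I + 1) * ρ := fun i hi =>
    (lt_mul_of_one_lt_right (by positivity) (by linarith)).trans_le (hp i hi)
  refine ⟨R ^ (I + 1) * ρ, by simpa using hp 0 (Nat.zero_le _), fun ν T g hT hg => ?_⟩
  obtain ⟨i, hi, a0, a1⟩ := (step (fun i => Real.circleAverage (lg g) 0 (R ^ i))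
      (δ := ε * T / 2) (by positivity) I).resolve_right fun h => by
    have b0 := (avg hg (by positivity) (hq 0 (Nat.zero_le _))).1
    have b1 := (avg hg (by positivity) (hq _ le_rfl)).2
    have := mul_le_mul_of_nonneg_right hI hT
    have := mul_nonneg hε.le hT
    linarith
  have ht : 0 < R ^ i := by positivity
  have hn : ∀ z : ℂ, ‖((R ^ i : ℝ) : ℂ) * z‖ = R ^ i * ‖z‖ := fun z => by
    rw [norm_mul, Complex.norm_of_nonneg ht.le]
  have hm : ∀ z ∈ ball (0 : ℂ) ρ, ((R ^ i : ℝ) : ℂ) * z ∈ ball (0 : ℂ) (R ^ (I + 1) * ρ) :=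
    fun z hz => by
      rw [mem_ball_zero_iff] at hz ⊢
      rw [hn]
      exact (mul_lt_mul_of_pos_left hz ht).trans_le (hp i (hi.trans I.le_succ))
  have e : Real.circleAverage (lg fun ζ => g (((R ^ i : ℝ) : ℂ) * ζ)) 0 1 =
      Real.circleAverage (lg g) 0 (R ^ i) := by
    have := GaugeAux.avg_scale (lg g) 0 0 (R ^ i) 1
    simp only [zero_add, mul_zero, mul_one] at this
    exact this
  refine ⟨R ^ i, one_le_pow₀ h1, hp i (hi.trans I.le_succ), ⟨hg.diff.comp (by fun_prop) hm,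
    fun z hz => hg.lo _ (hm z hz), fun z hz => hg.hi _ (hm z hz), ?_⟩, fun z hz => ?_⟩
  · have := hg.gr
    simp only [pow_zero] at a0
    rw [Tch, e, lg, mul_zero]
    rw [Tch, lg] at this
    linarith
  · have h2 := hO ν g _ (K * T) (R ^ (i + 1)) (2 / R) 0 (((R ^ i : ℝ) : ℂ) * z) hg.diff
      (fun w hw => ⟨hg.lo w hw, hg.hi w hw⟩) (by positivity)
      (closedBall_subset_ball (hq _ (by omega))) (by positivity)
      ((div_lt_one (by linarith)).2 (by linarith)) (by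
        rw [sub_zero, hn, pow_succ, show 2 / R * (R ^ i * R) = R ^ i * 2 by field_simp]
        exact mul_le_mul_of_nonneg_left (mem_closedBall_zero_iff.1 hz) ht.le)
    have h3 : 2 * (2 / R) * (K * T) ≤ ε * T / 2 := by
      rw [show 2 * (2 / R) * (K * T) = 4 * K * T / R by ring, div_le_iff₀ (by linarith)]
      linarith [mul_le_mul_of_nonneg_right hR hT]
    rw [Tch] at h2
    rw [e]
    linarith

theorem mon2S (hM : MonStmt) : Mon2Stmt := by
  intro ν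
  obtain ⟨C, hC, H⟩ := hM ν
  refine ⟨C + ν, by positivity, fun ρ K T f hρ hK hf => ?_⟩
  obtain ⟨i₀, i₁, k, l, q, g, h1, h2, h3, h4, h5, h6, h7, -, h9⟩ := H ρ K (Tch f 0 1) f hρ
    ⟨hf.diff, fun z hz => (Real.exp_le_exp.2 (neg_le_neg
      (mul_le_mul_of_nonneg_left hf.gr hK))).trans (hf.lo z hz), hf.hi, le_rfl⟩
  have hν : (0 : ℝ) ≤ ν := Nat.cast_nonneg ν
  have hE := Real.exp_pos (i₀ : ℝ)
  have hc : C * Real.exp i₀ ≤ (C + ν) * Real.exp i₀ := by gcongr; linarith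
  have h0 := hf.lo 0 (mem_ball_self (by linarith))
  have hl : lg f 0 ≤ -(i₁ : ℝ) := (Real.log_le_iff_le_exp ((Real.exp_pos _).trans_le h0)).2 h7
  have hg := hf.gr
  refine ⟨i₀, i₁, k, l, q, g, h1, h2, h3, h4.trans hc, h5,
    fun z hz => ⟨(h6 z hz).1.trans hc, (h6 z hz).2⟩, h7,
    neg_le_neg_iff.1 (Real.exp_le_exp.1 (h0.trans h7)), by linarith, by
      rw [Tch] at h9
      linarith, ?_⟩
  have hR : 0 < ρ / 4 := by linarith
  have h := MonAux.maxmod (h := fun z => (1 + ∑ s ∈ Finset.range k,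
      conj (q s / 2 ^ s) * (z / (ρ / 4 : ℝ) ^ 2) ^ (k - s)) * (1 + z * g z))
    (M := ν * Real.exp i₀ / (ρ / 4) ^ k) (ρ := ρ / 2) (by fun_prop) hR (by linarith)
    (fun z hz => ?_) (mem_closedBall_self hR.le)
  · rw [Finset.sum_eq_zero fun s hs => by
      simp [Nat.sub_ne_zero_of_lt (Finset.mem_range.1 hs)], le_div_iff₀ (by positivity)] at h
    simp only [add_zero, zero_mul, mul_one, norm_one, one_mul] at h
    exact h.trans (by gcongr; linarith)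
  have e1 := congrArg norm (RescAux.refl k q (z := z) (w := z / (ρ / 4 : ℝ) ^ 2) (by
    rw [← mul_div_assoc, Complex.conj_mul', hz, div_self (by exact_mod_cast (pow_pos hR 2).ne')]))
  have e2 := congrArg norm (h6 z (mem_ball_zero_iff.2 (by linarith))).2
  rw [Complex.norm_conj, norm_mul, norm_pow, Complex.norm_conj, hz] at e1
  rw [norm_mul, norm_mul, Complex.norm_of_nonneg (Real.exp_pos _).le, Real.exp_neg, mul_assoc,
    eq_inv_mul_iff_mul_eq₀ hE.ne', e1] at e2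
  have e3 : ‖lf l (f z)‖ ≤ ν * 1 * 1 := (norm_lf_le _ _).trans (by
    gcongr
    exact hf.hi z (mem_ball_zero_iff.2 (by linarith)))
  rw [le_div_iff₀ (by positivity), norm_mul]
  nlinarith

end

end Pool.Agent.Lib.MP_45f16c_ag.AS
end

-- part Pool.Agent.Lib.MP_45f16c_ag.AS.Roots
section

/-! Zeros of polynomials and the boundary inequality. -/

set_option autoImplicit false
open Metric MeasureTheory MvPolynomial Filter Module
open scoped ComplexConjugate Matrix Topology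

namespace Pool.Agent.Lib.MP_45f16c_ag.AS

noncomputable section

namespace RootsAux

theorem one_le_gain {z a : ℂ} (r : ℝ) (h : z ≠ a) : 1 ≤ max r ‖z - a‖ / ‖z - a‖ := by
  have ht : 0 < ‖z - a‖ := norm_pos_iff.2 (sub_ne_zero.2 h)
  rw [le_div_iff₀ ht, one_mul]
  exact le_max_right _ _

theorem add_le_exp {M r s : ℝ} (hr : 0 < r) (hM : r ≤ M) (hs : 0 ≤ s) :
    M + s ≤ M * Real.exp (s / r) := by
  have h1 : s / r + 1 ≤ Real.exp (s / r) := Real.add_one_le_exp _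
  have h2 : s ≤ M * (s / r) := by
    rw [mul_div_assoc', le_div_iff₀ hr]
    nlinarith
  nlinarith

/-- One factor of the product. -/
def Fac (F : ℂ → ℂ) (a : ℂ) : Prop :=
  ∀ (z z' : ℂ) (r s : ℝ), ‖z‖ ≤ 1 → 0 < r → r ≤ 1 → ‖z' - z‖ ≤ s → z ≠ a →
    ‖F z'‖ ≤ ‖F z‖ * (Real.exp (s / r) * (max r ‖z - a‖ / ‖z - a‖))

theorem fac_one : Fac (fun _ => 1) 2 := by
  intro z z' r s _ hr _ hs hza
  have hs0 : 0 ≤ s := (norm_nonneg _).trans hs
  have h1 : 1 ≤ Real.exp (s / r) := Real.one_le_exp (div_nonneg hs0 hr.le)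
  have h2 := one_le_gain r hza
  simp only [norm_one, one_mul]
  nlinarith

theorem fac_root (ρ : ℂ) : ∃ a : ℂ, ‖a‖ ≤ 2 ∧ Fac (fun z => z - ρ) a := by
  have tri : ∀ z z' : ℂ, ‖z' - ρ‖ ≤ ‖z - ρ‖ + ‖z' - z‖ := fun z z' => by
    have := norm_add_le (z - ρ) (z' - z)
    rwa [show z - ρ + (z' - z) = z' - ρ by ring] at this
  by_cases h : ‖ρ‖ ≤ 2
  · refine ⟨ρ, h, fun z z' r s _ hr _ hs hza => ?_⟩
    have hs0 : 0 ≤ s := (norm_nonneg _).trans hs
    have ht : 0 < ‖z - ρ‖ := norm_pos_iff.2 (sub_ne_zero.2 hza)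
    have h1 := add_le_exp hr (le_max_left r ‖z - ρ‖) hs0
    have h2 : ‖z - ρ‖ * (Real.exp (s / r) * (max r ‖z - ρ‖ / ‖z - ρ‖)) =
        max r ‖z - ρ‖ * Real.exp (s / r) := by
      field_simp
    show ‖z' - ρ‖ ≤ ‖z - ρ‖ * (Real.exp (s / r) * (max r ‖z - ρ‖ / ‖z - ρ‖))
    rw [h2]
    have := tri z z'
    have := le_max_right r ‖z - ρ‖
    linarith
  · refine ⟨2, by simp, fun z z' r s hz hr hr1 hs hza => ?_⟩
    have hs0 : 0 ≤ s := (norm_nonneg _).trans hs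
    have ht : r ≤ ‖z - ρ‖ := by
      have := norm_sub_norm_le ρ z
      rw [norm_sub_rev] at this
      push Not at h
      linarith
    have h1 := add_le_exp hr ht hs0
    have h2 := one_le_gain r hza
    show ‖z' - ρ‖ ≤ ‖z - ρ‖ * (Real.exp (s / r) * (max r ‖z - 2‖ / ‖z - 2‖))
    have h3 : ‖z - ρ‖ * Real.exp (s / r) ≤
        ‖z - ρ‖ * (Real.exp (s / r) * (max r ‖z - 2‖ / ‖z - 2‖)) :=
      mul_le_mul_of_nonneg_left (le_mul_of_one_le_right (Real.exp_pos _).le h2) (norm_nonneg _)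
    have := tri z z'
    linarith

theorem split (m : ℕ) (p : Polynomial ℂ) (hp : p.natDegree ≤ m + 1) :
    ∃ (q : Polynomial ℂ) (F : ℂ → ℂ) (a : ℂ), q.natDegree ≤ m ∧ ‖a‖ ≤ 2 ∧ Fac F a ∧
      ∀ z, p.eval z = F z * q.eval z := by
  by_cases h : p.natDegree ≤ m
  · exact ⟨p, fun _ => 1, 2, h, by simp, fac_one, fun z => by simp⟩
  · have hd : 0 < p.degree := Polynomial.natDegree_pos_iff_degree_pos.1 (by omega)
    obtain ⟨ρ, hρ⟩ := Complex.exists_root hd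
    obtain ⟨q, hq⟩ := Polynomial.dvd_iff_isRoot.2 hρ
    obtain ⟨a, ha, hF⟩ := fac_root ρ
    have hq0 : q ≠ 0 := by
      rintro rfl
      rw [mul_zero] at hq
      rw [hq] at h
      simp at h
    have hdeg : p.natDegree = 1 + q.natDegree := by
      rw [hq, Polynomial.natDegree_mul (Polynomial.X_sub_C_ne_zero ρ) hq0,
        Polynomial.natDegree_X_sub_C]
    refine ⟨q, fun z => z - ρ, a, by omega, ha, hF, fun z => ?_⟩
    rw [hq]
    simp

theorem poly (m : ℕ) : ∀ p : Polynomial ℂ, p.natDegree ≤ m → ∃ a : Fin m → ℂ, (∀ k, ‖a k‖ ≤ 2) ∧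
    ∀ (z z' : ℂ) (r s : ℝ), ‖z‖ ≤ 1 → 0 < r → r ≤ 1 → ‖z' - z‖ ≤ s → (∀ k, z ≠ a k) →
      ‖p.eval z'‖ ≤ ‖p.eval z‖ * (Real.exp (m * s / r) * Rz a r z) := by
  induction m with
  | zero =>
    intro p hp
    refine ⟨Fin.elim0, fun k => k.elim0, fun z z' r s _ _ _ _ _ => ?_⟩
    rw [Polynomial.eq_C_of_natDegree_le_zero hp]
    simp [Rz]
  | succ m ih =>
    intro p hp
    obtain ⟨q, F, a₀, hq, ha₀, hF, e⟩ := split m p hp
    obtain ⟨a, ha, hb⟩ := ih q hq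
    refine ⟨Fin.cons a₀ a, fun k => Fin.cases ha₀ ha k, fun z z' r s hz hr hr1 hs hk => ?_⟩
    have h1 := hF z z' r s hz hr hr1 hs (hk 0)
    have h2 := hb z z' r s hz hr hr1 hs fun k => hk k.succ
    have h3 : Rz (Fin.cons a₀ a : Fin (m + 1) → ℂ) r z =
        max r ‖z - a₀‖ / ‖z - a₀‖ * Rz a r z := by
      simp only [Rz, Fin.prod_univ_succ, Fin.cons_zero, Fin.cons_succ]
    have h4 : Real.exp (((m + 1 : ℕ) : ℝ) * s / r) = Real.exp (s / r) * Real.exp (m * s / r) := by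
      rw [← Real.exp_add]
      congr 1
      push_cast
      ring
    rw [e z, e z', norm_mul, norm_mul, h3, h4]
    calc ‖F z'‖ * ‖q.eval z'‖
        ≤ (‖F z‖ * (Real.exp (s / r) * (max r ‖z - a₀‖ / ‖z - a₀‖))) *
            (‖q.eval z‖ * (Real.exp (m * s / r) * Rz a r z)) :=
          mul_le_mul h1 h2 (norm_nonneg _) ((norm_nonneg _).trans h1)
      _ = _ := by ring

theorem norm_pair (u : ℂ) (t : ℝ) (ht : 0 ≤ t) {M : ℝ} :
    ‖(![u, (t : ℂ)] : Fin 2 → ℂ)‖ ≤ M ↔ ‖u‖ ≤ M ∧ t ≤ M := by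
  constructor
  · intro h
    have h0 := (norm_le_pi_norm (![u, (t : ℂ)] : Fin 2 → ℂ) 0).trans h
    have h1 := (norm_le_pi_norm (![u, (t : ℂ)] : Fin 2 → ℂ) 1).trans h
    simp only [Matrix.cons_val_zero, Matrix.cons_val_one, Complex.norm_real, Real.norm_eq_abs,
      abs_of_nonneg ht] at h0 h1
    exact ⟨h0, h1⟩
  · rintro ⟨h0, h1⟩
    refine (pi_norm_le_iff_of_nonneg (ht.trans h1)).2 fun i => ?_
    fin_cases i
    · simpa using h0
    · simpa [abs_of_nonneg ht] using h1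

theorem avg_ker {z : ℂ} (hz : z ∈ ball (0 : ℂ) 1) :
    Real.circleAverage (fun ζ => poissonKernel 0 z ζ) 0 1 = 1 := by
  have h := PoisAux.log_eq (g := fun _ => ((Real.exp 1 : ℝ) : ℂ)) (c := 0) (R := 1) (w := z)
    (fun _ _ => analyticAt_const) (fun _ _ => by exact_mod_cast (Real.exp_pos 1).ne') hz
  simpa only [Complex.norm_real, Real.norm_eq_abs, abs_of_pos (Real.exp_pos 1), Real.log_exp,
    mul_one] using h

theorem ker_le {z ζ : ℂ} {σ : ℝ} (hσ : 0 < σ) (hz : ‖z‖ ≤ 1) (hζ : ‖ζ‖ = 1) (h : σ < ‖ζ - z‖) :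
    poissonKernel 0 z ζ ≤ 2 * (1 - ‖z‖) / σ ^ 2 := by
  rw [poissonKernel_def]
  simp only [sub_zero, hζ]
  have h0 := norm_nonneg z
  refine div_le_div₀ (by nlinarith) (by nlinarith) (by positivity) ?_
  exact pow_le_pow_left₀ hσ.le h.le 2

end RootsAux

theorem rootsS : RootsStmt := by
  intro m h hh
  obtain ⟨p, hp, e⟩ := hh.exists_poly
  obtain ⟨a, ha, hb⟩ := RootsAux.poly m p hp
  refine ⟨a, ha, fun z z' r s hz hr hr1 hs hk => ?_⟩
  rw [e z, e z']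
  exact hb z z' r s hz hr hr1 hs hk

theorem annS (hP : PoisStmt) : AnnStmt := by
  intro ν f γ A B σ hf hγ hσ hB hA hosc hb z hz
  have hz1 : ‖z‖ ≤ 1 := mem_closedBall_zero_iff.1 hz
  have hA0 : 0 ≤ A := by
    have := Real.exp_le_exp.1 ((hA z hz).1.trans (hA z hz).2)
    linarith
  have hfz : 0 < ‖f z‖ := (Real.exp_pos _).trans_le (hA z hz).1
  have hE : 0 ≤ 4 * A * (1 - ‖z‖) / σ ^ 2 :=
    div_nonneg (mul_nonneg (by positivity) (by linarith)) (by positivity)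
  rcases hz1.eq_or_lt with h1 | h1
  · exact (hb z h1).trans (le_mul_of_one_le_left hfz.le (Real.one_le_exp (by linarith)))
  have hzb : z ∈ ball (0 : ℂ) 1 := mem_ball_zero_iff.2 h1
  obtain ⟨g, hg⟩ : ∃ g : ℂ → Fin 2 → ℂ, g = fun w => ![γ w, ((Real.exp (-A) : ℝ) : ℂ)] :=
    ⟨_, rfl⟩
  have hgd : Differentiable ℂ g := by
    rw [hg]
    refine differentiable_pi.2 fun i => ?_
    fin_cases i
    · simpa using hγ
    · simp
  have hgl : ∀ w, ‖γ w‖ ≤ ‖g w‖ ∧ Real.exp (-A) ≤ ‖g w‖ := fun w => by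
    rw [hg]
    exact (RootsAux.norm_pair _ _ (Real.exp_pos _).le).1 le_rfl
  have hgp : ∀ w, 0 < ‖g w‖ := fun w => (Real.exp_pos _).trans_le (hgl w).2
  have hg0 : ∀ w, g w ≠ 0 := fun w => norm_pos_iff.1 (hgp w)
  have h2 := hP 2 g 0 1 2 one_pos one_lt_two hgd.differentiableOn (fun w _ => hg0 w) z hzb
  have hk : ContinuousOn (poissonKernel 0 z) (sphere (0 : ℂ) |1|) := PoisAux.ker_cont hzb
  have i1 : CircleIntegrable (fun ζ => poissonKernel 0 z ζ * lg g ζ) 0 1 :=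
    (hk.mul (continuousOn_lg hgd.continuous.continuousOn fun w _ => hg0 w)).circleIntegrable'
  have i2 : CircleIntegrable (fun ζ => (lg f z + B) • poissonKernel 0 z ζ) 0 1 :=
    (hk.const_smul (lg f z + B)).circleIntegrable'
  have i3 : CircleIntegrable (fun _ : ℂ => 4 * A * (1 - ‖z‖) / σ ^ 2) 0 1 :=
    continuousOn_const.circleIntegrable'
  have h3 : Real.circleAverage (fun ζ => poissonKernel 0 z ζ * lg g ζ) 0 1 ≤
      Real.circleAverage (fun ζ => (lg f z + B) • poissonKernel 0 z ζ +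
        4 * A * (1 - ‖z‖) / σ ^ 2) 0 1 := by
    refine Real.circleAverage_mono i1 (i2.add i3) fun ζ hζ => ?_
    rw [abs_one] at hζ
    have hζ1 : ‖ζ‖ = 1 := mem_sphere_zero_iff_norm.1 hζ
    have hζc : ζ ∈ closedBall (0 : ℂ) 1 := sphere_subset_closedBall hζ
    have hP0 : 0 ≤ poissonKernel 0 z ζ := PoisAux.ker_nonneg hζ hzb
    have hgf : ‖g ζ‖ ≤ ‖f ζ‖ := by
      rw [hg]
      exact (RootsAux.norm_pair _ _ (Real.exp_pos _).le).2 ⟨hb ζ hζ1, (hA ζ hζc).1⟩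
    show poissonKernel 0 z ζ * lg g ζ ≤
      (lg f z + B) * poissonKernel 0 z ζ + 4 * A * (1 - ‖z‖) / σ ^ 2
    by_cases hd : ‖ζ - z‖ ≤ σ
    · have h4 : lg g ζ ≤ lg f z + B := by
        have := Real.log_le_log (hgp ζ) (hgf.trans (hosc z hz ζ hζc hd))
        rw [Real.log_mul (Real.exp_pos _).ne' hfz.ne', Real.log_exp] at this
        unfold lg
        linarith
      nlinarith
    · have h4 : lg g ζ ≤ A := by
        have := Real.log_le_log (hgp ζ) (hgf.trans (hA ζ hζc).2)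
        rwa [Real.log_exp] at this
      have h5 : -A ≤ lg f z := by
        have := Real.log_le_log (Real.exp_pos _) (hA z hz).1
        rwa [Real.log_exp] at this
      have h6 := RootsAux.ker_le hσ hz1 hζ1 (not_le.1 hd)
      have h7 : 2 * A * poissonKernel 0 z ζ ≤ 4 * A * (1 - ‖z‖) / σ ^ 2 := by
        calc 2 * A * poissonKernel 0 z ζ ≤ 2 * A * (2 * (1 - ‖z‖) / σ ^ 2) :=
              mul_le_mul_of_nonneg_left h6 (by positivity)
          _ = _ := by ring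
      have h8 : poissonKernel 0 z ζ * lg g ζ ≤ poissonKernel 0 z ζ * (lg f z + B + 2 * A) :=
        mul_le_mul_of_nonneg_left (by linarith) hP0
      linarith
  rw [Real.circleAverage_fun_add i2 i3, Real.circleAverage_fun_smul, RootsAux.avg_ker hzb,
    Real.circleAverage_const, smul_eq_mul, mul_one] at h3
  have h4 : Real.log ‖g z‖ ≤ Real.log ‖f z‖ + (B + 4 * A * (1 - ‖z‖) / σ ^ 2) := by
    have := h2.trans h3
    unfold lg at this
    linarith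
  have h5 := Real.exp_le_exp.2 h4
  rw [Real.exp_log (hgp z), Real.exp_add, Real.exp_log hfz, mul_comm] at h5
  exact (hgl z).1.trans h5

end

end Pool.Agent.Lib.MP_45f16c_ag.AS
end
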