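import Pool.Agent.Lib.MP_45f16c_ag.AS.BL

-- part Pool.Agent.Lib.MP_45f16c_ag.AS.Cov
section

/-! Covering by subspaces and the algebraic theorem. -/

set_option autoImplicit false
open Metric MeasureTheory MvPolynomial Filter Module
open scoped ComplexConjugate Matrix Topology

namespace Pool.Agent.Lib.MP_45f16c_ag.AS

noncomputable section

namespace CovAux

variable {k : Type} [Field k] {ν p : ℕ}

theorem exists_fam {I : Type} (x : I → Fin ν → k) (T : Finset I) :
    ∃ b : Fin p → Fin ν → k, T.card ≤ p → ∀ i ∈ T, x i ∈ Set.range b := by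
  by_cases h : T.card ≤ p
  · obtain ⟨e⟩ : Nonempty (T ↪ Fin p) :=
      Function.Embedding.nonempty_of_card_le (by simpa using h)
    exact ⟨Function.extend e (fun t => x t) 0, fun _ i hi =>
      ⟨e ⟨i, hi⟩, e.injective.extend_apply _ _ _⟩⟩
  · exact ⟨0, fun h' => (h h').elim⟩

theorem exists_form {S : Submodule k (Fin ν → k)} {y : Fin ν → k} (hy : y ∉ S) :
    ∃ l : Fin ν → k, l ⬝ᵥ y ≠ 0 ∧ ∀ z ∈ S, l ⬝ᵥ z = 0 := by
  obtain ⟨f, hf, hS⟩ := Submodule.exists_dual_map_eq_bot_of_notMem hy inferInstance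
  have key : ∀ z : Fin ν → k, (fun a => f fun j => if a = j then 1 else 0) ⬝ᵥ z = f z := fun z => by
    rw [LinearMap.pi_apply_eq_sum_univ f z, dotProduct]
    exact Finset.sum_congr rfl fun a _ => by rw [smul_eq_mul, mul_comm]
  refine ⟨_, by rw [key]; exact hf, fun z hz => ?_⟩
  rw [key]
  have : f z ∈ S.map f := Submodule.mem_map_of_mem hz
  rwa [hS, Submodule.mem_bot] at this

theorem pool_fin {B : Set (Fin ν → k)}
    (hB : ∀ (N : ℕ) (b : Fin N → Fin p → Fin ν → k),
      ∃ x ∈ B, ∀ ρ, x ∉ Submodule.span k (Set.range (b ρ)))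
    {I : Type} [Fintype I] (s : Finset I) : ∃ x : I → Fin ν → k, (∀ i, x i ∈ B) ∧
      ∀ T ⊆ s, T.card ≤ p + 1 → ∀ v : I → k, ∃ l : Fin ν → k, ∀ i ∈ T, l ⬝ᵥ x i = v i := by
  classical
  induction s using Finset.induction_on with
  | empty =>
    obtain ⟨y, hy, -⟩ := hB 0 fun i => i.elim0
    exact ⟨fun _ => y, fun _ => hy, fun T hT _ v => ⟨0, fun i hi => by simpa using hT hi⟩⟩
  | insert i₀ s hi₀ ih =>
    obtain ⟨x, hx, hI⟩ := ih
    choose b hb using exists_fam (p := p) x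
    obtain ⟨y, hy, hyb⟩ := hB _ fun ρ => b ((Fintype.equivFin (Finset I)).symm ρ)
    refine ⟨Function.update x i₀ y, fun i => ?_, fun T hT hc v => ?_⟩
    · by_cases h : i = i₀
      · rw [h, Function.update_self]; exact hy
      · rw [Function.update_of_ne h]; exact hx i
    · have hs : T.erase i₀ ⊆ s := Finset.subset_insert_iff.1 hT
      obtain ⟨l, hl⟩ := hI (T.erase i₀) hs (Finset.card_erase_le.trans hc) v
      by_cases h0 : i₀ ∈ T
      · have hc' : (T.erase i₀).card ≤ p := by rw [Finset.card_erase_of_mem h0]; omega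
        have hn := hyb (Fintype.equivFin (Finset I) (T.erase i₀))
        rw [Equiv.symm_apply_apply] at hn
        obtain ⟨l₁, h1, h2⟩ := exists_form hn
        refine ⟨l + ((v i₀ - l ⬝ᵥ y) / (l₁ ⬝ᵥ y)) • l₁, fun i hi => ?_⟩
        rw [add_dotProduct, smul_dotProduct, smul_eq_mul]
        by_cases h : i = i₀
        · rw [h, Function.update_self, div_mul_cancel₀ _ h1]; ring
        · have hi' : i ∈ T.erase i₀ := Finset.mem_erase.2 ⟨h, hi⟩
          rw [Function.update_of_ne h, hl i hi', h2 _ (Submodule.subset_span (hb _ hc' i hi'))]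
          ring
      · refine ⟨l, fun i hi => ?_⟩
        have h : i ≠ i₀ := fun e => h0 (e ▸ hi)
        rw [Function.update_of_ne h, hl i (Finset.mem_erase.2 ⟨h, hi⟩)]

theorem pw {w : ℕ} (hw : 12 ≤ w) {a b : ℕ} (h : a < b) : 12 * w ^ a ≤ w ^ b :=
  calc 12 * w ^ a ≤ w * w ^ a := Nat.mul_le_mul_right _ hw
    _ = w ^ (a + 1) := by ring
    _ ≤ w ^ b := Nat.pow_le_pow_right (by omega) h

theorem n_a {w : ℕ} (hw : 12 ≤ w) : 11 * w ^ 46 < w ^ 23 * (w ^ 24 + 1 - w ^ 23) := by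
  have h1 := pw hw (show 23 < 24 by norm_num)
  have h0 : 0 < w ^ 23 := by positivity
  have h2 : 11 * w ^ 23 + 1 ≤ w ^ 24 + 1 - w ^ 23 := by omega
  calc 11 * w ^ 46 < w ^ 23 * (11 * w ^ 23 + 1) := by
        have : w ^ 23 * (11 * w ^ 23 + 1) = 11 * w ^ 46 + w ^ 23 := by ring
        omega
    _ ≤ _ := Nat.mul_le_mul_left _ h2

theorem n_b {w : ℕ} (hw : 12 ≤ w) : (3 * w ^ 14 + 2) * (w ^ 14 + w ^ 23) ≤ w ^ 46 := by
  have h0 : 0 < w ^ 14 := by positivity
  have h1 := pw hw (show 14 < 23 by norm_num)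
  have h2 := pw hw (show 37 < 46 by norm_num)
  calc (3 * w ^ 14 + 2) * (w ^ 14 + w ^ 23) ≤ (5 * w ^ 14) * (2 * w ^ 23) :=
        Nat.mul_le_mul (by omega) (by omega)
    _ = 10 * w ^ 37 := by ring
    _ ≤ _ := by omega

theorem n_c {w : ℕ} (hw : 12 ≤ w) :
    2 * w ^ 46 < (w ^ 15 - (3 * w ^ 14 + 2)) * (w ^ 32 - (w ^ 14 + w ^ 23)) := by
  have h0 : 0 < w ^ 14 := by positivity
  have h00 : 0 < w ^ 46 := by positivity
  have h1 := pw hw (show 14 < 23 by norm_num)
  have h2 := pw hw (show 14 < 15 by norm_num)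
  have h3 := pw hw (show 23 < 32 by norm_num)
  have h4 : (7 * w ^ 14) * w ^ 32 ≤
      (w ^ 15 - (3 * w ^ 14 + 2)) * (2 * (w ^ 32 - (w ^ 14 + w ^ 23))) :=
    Nat.mul_le_mul (by omega) (by omega)
  have h5 : (7 * w ^ 14) * w ^ 32 = 7 * w ^ 46 := by ring
  rw [h5, Nat.mul_left_comm] at h4
  omega

end CovAux

open CovAux

theorem poolS : PoolStmt := by
  intro k _ ν p B
  by_cases h : ∃ (N : ℕ) (b : Fin N → Fin p → Fin ν → k),
      ∀ x ∈ B, ∃ ρ, x ∈ Submodule.span k (Set.range (b ρ))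
  · exact Or.inl h
  · push Not at h
    refine Or.inr fun I _ => ?_
    obtain ⟨x, hx, hI⟩ := pool_fin h (Finset.univ : Finset I)
    exact ⟨x, hx, fun T => hI T (Finset.subset_univ T)⟩

theorem algS (hD : DualStmt) (hP : PoolStmt) (h1 : L1Stmt) (h2 : L2Stmt) : AlgStmt := by
  intro k _ _ ν d w ι _ _ E Y hw hd hsp
  have p45 : 0 < w ^ 45 := by positivity
  have p32 : 0 < w ^ 32 := by positivity
  have p26 : 0 < w ^ 26 := by positivity
  have na := n_a hw
  have nb := n_b hw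
  have nc := n_c hw
  have hu : w ^ 24 * (w ^ 21 + 1) ≤ d := by
    have := pw hw (show 24 < 45 by norm_num)
    have e : w ^ 24 * (w ^ 21 + 1) = w ^ 45 + w ^ 24 := by ring
    omega
  obtain ⟨Φ, N₁, N₂, s, r, hΦ, hr, hs1, hs2, H⟩ := hD k ν d (w ^ 46) (w ^ 15) ι E Y (by omega) hsp
  obtain ⟨M₁, b₁, hb₁⟩ := (hP k ν (w ^ 44) {x | Bad1 Φ d (w ^ 29) x}).resolve_right fun h => by
    obtain ⟨x, hx, hI⟩ := h (Fin (2 * w ^ 46 + 1) × Fin (w ^ 18))
    refine h1 k ν d (w ^ 46) (w ^ 29) (w ^ 24) (w ^ 23) (w ^ 21) (w ^ 26 - 1) (w ^ 18) (w ^ 44 + 1) Φ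
      hΦ hr (by omega) ?_ hu ?_ (by omega) ?_ x hI hx
    · have e : w ^ 26 * w ^ 21 = w ^ 47 := by ring
      have := pw hw (show 46 < 47 by norm_num)
      have := pw hw (show 21 < 46 by norm_num)
      rw [Nat.sub_one_mul, e]
      omega
    · have e : w ^ 26 * w ^ 18 = w ^ 44 := by ring
      rw [Nat.sub_add_cancel p26, e]
      omega
    · have e : w ^ 18 * (w ^ 29 + 1) = w ^ 47 + w ^ 18 := by ring
      have := pw hw (show 46 < 47 by norm_num)
      have := pw hw (show 23 < 46 by norm_num)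
      omega
  obtain ⟨M₂, b₂, hb₂⟩ := (hP k ν (w ^ 44) {x | Bad2 Φ d (w ^ 15) x}).resolve_right fun h => by
    obtain ⟨x, hx, hI⟩ := h (Fin (w ^ 32) × Fin (w ^ 32))
    refine h2 k ν d (w ^ 46) (w ^ 15) (w ^ 14) (w ^ 32) (w ^ 24) (w ^ 23) (w ^ 21) (w ^ 11) (w ^ 32)
      (w ^ 44 + 1) Φ hΦ hr ?_ ?_ (by omega) ?_ ?_ (by omega) (by omega) x hI hx
    · have e : w ^ 32 * (w ^ 14 + 1) = w ^ 46 + w ^ 32 := by ring
      omega
    · have e : w ^ 11 * w ^ 21 = w ^ 32 := by ring
      omega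
    · have e : (w ^ 11 + 1) * w ^ 32 = w ^ 43 + w ^ 32 := by ring
      have := pw hw (show 43 < 44 by norm_num)
      have := pw hw (show 32 < 43 by norm_num)
      omega
    · have := pw hw (show 14 < 45 by norm_num)
      omega
  refine ⟨N₁, N₂, M₁ + M₂, s, r, Fin.append b₁ b₂, hs1, hs2, fun x i₀ hx hb => H _ x i₀ hx ?_ ?_⟩
  · intro h
    obtain ⟨ρ, hρ⟩ := hb₁ x h
    exact hb (Fin.castAdd M₂ ρ) (by rwa [Fin.append_left])
  · intro h
    obtain ⟨ρ, hρ⟩ := hb₂ x h
    exact hb (Fin.natAdd M₁ ρ) (by rwa [Fin.append_right])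

end

end Pool.Agent.Lib.MP_45f16c_ag.AS
end

-- part Pool.Agent.Lib.MP_45f16c_ag.AS.Dual
section

/-! Duality between syzygies and obstructions. -/

set_option autoImplicit false
open Metric MeasureTheory MvPolynomial Filter Module
open scoped ComplexConjugate Matrix Topology

namespace Pool.Agent.Lib.MP_45f16c_ag.AS

noncomputable section

namespace DualAux

variable {k : Type} [Field k] {ν d j t : ℕ} {ι : Type} [Fintype ι] [DecidableEq ι]

/-- Functionals of degree `d` killing the family. -/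
def Ph (E : ι → Mon ν d → k) : Submodule k (DD k ν) where
  carrier := {η | η ∈ Dg k ν d ∧ ∀ i, η (formR (E i)) = 0}
  add_mem' h h' := ⟨add_mem h.1 h'.1, fun i => by simp [h.2 i, h'.2 i]⟩
  zero_mem' := ⟨zero_mem _, fun _ => rfl⟩
  smul_mem' a _ h := ⟨Submodule.smul_mem _ a h.1, fun i => by simp [h.2 i]⟩

omit [Fintype ι] [DecidableEq ι] in
theorem mem_Ph {E : ι → Mon ν d → k} {η : DD k ν} :
    η ∈ Ph E ↔ η ∈ Dg k ν d ∧ ∀ i, η (formR (E i)) = 0 := Iff.rfl

omit [Fintype ι] [DecidableEq ι] in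
theorem finrank_Ph (E : ι → Mon ν d → k) (Y : Fin j → Mon ν d → k)
    (h : Submodule.span k (Set.range E ∪ Set.range Y) = ⊤) : finrank k (Ph E) ≤ j := by
  let φ : Ph E →ₗ[k] (Fin j → k) :=
    LinearMap.pi fun l => (Module.Dual.eval k _ (formRL k ν d (Y l))) ∘ₗ (Ph E).subtype
  have hφ : Function.Injective φ := by
    refine (injective_iff_map_eq_zero _).2 ?_
    rintro ⟨η, hη⟩ h0
    have h1 : η ∘ₗ formRL k ν d = 0 := by
      refine LinearMap.ext_on h ?_
      rintro c (⟨i, rfl⟩ | ⟨l, rfl⟩)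
      · exact hη.2 i
      · exact congrFun h0 l
    refine Subtype.ext (Dg_ext hη.1 fun P hP => ?_)
    rw [← formR_coeff hP]
    exact LinearMap.congr_fun h1 _
  have := LinearMap.finrank_le_finrank_of_injective hφ
  rwa [Module.finrank_fin_fun] at this

/-- The multiplication map whose kernel are the syzygies of degree `t`. -/
def mult (E : ι → Mon ν d → k) (t : ℕ) : (ι → Mon ν t → k) →ₗ[k] MvPolynomial (Fin ν) k :=
  ∑ i, (LinearMap.mulRight k (formR (E i))) ∘ₗ (formRL k ν t) ∘ₗ LinearMap.proj i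

omit [DecidableEq ι] in
theorem mult_apply (E : ι → Mon ν d → k) (z : ι → Mon ν t → k) :
    mult E t z = ∑ i, formR (z i) * formR (E i) := by
  rw [mult, LinearMap.sum_apply]
  rfl

theorem mult_single (E : ι → Mon ν d → k) (i : ι) (c : Mon ν t → k) :
    mult E t (Pi.single i c) = formR c * formR (E i) := by
  rw [mult_apply, Finset.sum_eq_single i (fun b _ hb => by
    rw [Pi.single_eq_of_ne hb, ← formRL_apply, map_zero, zero_mul]) (by simp), Pi.single_eq_same]

omit [Fintype ι] in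
theorem vv_single (x : Fin ν → k) (i : ι) (c : Mon ν t → k) :
    vv (Pi.single i c : ι → Mon ν t → k) x = Pi.single i (eval x (formR c)) := by
  funext b
  by_cases hb : b = i
  · subst hb; rw [vv, Pi.single_eq_same, Pi.single_eq_same]
  · rw [vv, Pi.single_eq_of_ne hb, Pi.single_eq_of_ne hb, ← formRL_apply, map_zero, map_zero]

attribute [local irreducible] formR

/-- The functional `η` lifts the functional `f` on the values. -/
def Lifts (E : ι → Mon ν d → k) (t : ℕ) (x : Fin ν → k) (η : DD k ν) (f : Dual k (ι → k)) : Prop :=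
  η ∈ Dg k ν (d + t) ∧ ∀ P : MvPolynomial (Fin ν) k, P.IsHomogeneous t → ∀ i,
    η (P * formR (E i)) = eval x P * f (Pi.single i 1)

theorem exists_lift (E : ι → Mon ν d → k) (x : Fin ν → k) (f : Dual k (ι → k))
    (hf : ∀ z ∈ LinearMap.ker (mult E t), f (vv z x) = 0) : ∃ η, Lifts E t x η f := by
  have h1 : f ∘ₗ vvL t x ∈ (LinearMap.ker (mult E t)).dualAnnihilator :=
    (Submodule.mem_dualAnnihilator _).2 hf
  rw [← LinearMap.range_dualMap_eq_dualAnnihilator_ker] at h1
  obtain ⟨η, hη⟩ := h1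
  refine ⟨η ∘ₗ homogeneousComponent (d + t), comp_mem_Dg _ _, fun P hP i => ?_⟩
  rw [comp_apply_hom _ (by rw [add_comm]; exact hP.mul (formR_hom _))]
  have := LinearMap.congr_fun hη (Pi.single i fun m : Mon ν t => coeff m.1 P)
  rw [LinearMap.dualMap_apply, mult_single, formR_coeff hP, LinearMap.comp_apply, vvL_apply,
    vv_single, formR_coeff hP] at this
  rw [this, ← smul_eq_mul, ← map_smul, ← Pi.single_smul', smul_eq_mul, mul_one]

omit [Fintype ι] in
theorem Lifts.obs {E : ι → Mon ν d → k} {x : Fin ν → k} {η : DD k ν} {f : Dual k (ι → k)}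
    (h : Lifts E t x η f) : η ∈ Obs (Ph E) d t x :=
  mem_Obs.2 ⟨h.1, fun P hP h0 => mem_Ph.2 ⟨act_mem_Dg hP h.1, fun i => by
    rw [act_apply, h.2 P hP, h0, zero_mul]⟩⟩

theorem dual_zero {f : Dual k (ι → k)} (h : ∀ i, f (Pi.single i 1) = 0) : f = 0 :=
  (Pi.basisFun k ι).ext fun i => by rw [Pi.basisFun_apply, h, LinearMap.zero_apply]

theorem Lifts.eq_zero {E : ι → Mon ν d → k} {x : Fin ν → k} {η : DD k ν} {f : Dual k (ι → k)}
    (h : Lifts E t x η f) {i₀ : ι} (hi : vv E x i₀ ≠ 0) (hf : f (Pi.single i₀ 1) = 0)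
    {P : MvPolynomial (Fin ν) k} (hP : P.IsHomogeneous t) (hx : eval x P ≠ 0)
    (hm : act P η ∈ Ph E ⊔ k ∙ dl d x) : f = 0 := by
  obtain ⟨φ, hφ, ψ, hψ, e⟩ := Submodule.mem_sup.1 hm
  obtain ⟨c, rfl⟩ := Submodule.mem_span_singleton.1 hψ
  have h1 : ∀ i, c * vv E x i = eval x P * f (Pi.single i 1) := fun i => by
    have := LinearMap.congr_fun e (formR (E i))
    rwa [LinearMap.add_apply, hφ.2 i, zero_add, LinearMap.smul_apply, dl_apply x (formR_hom _),
      act_apply, h.2 P hP, smul_eq_mul] at this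
  have hc : c = 0 := by
    have := h1 i₀
    rw [hf, mul_zero] at this
    exact (mul_eq_zero.1 this).resolve_right hi
  refine dual_zero fun i => ?_
  have := h1 i
  rw [hc, zero_mul] at this
  exact (mul_eq_zero.1 this.symm).resolve_left hx

omit [Fintype ι] [DecidableEq ι] in
theorem dl_notMem {E : ι → Mon ν d → k} {x : Fin ν → k} {i₀ : ι} (hi : vv E x i₀ ≠ 0) :
    dl d x ∉ Ph E := fun h => hi (by
  have := h.2 i₀
  rwa [dl_apply x (formR_hom _)] at this)

omit [DecidableEq ι] in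
/-- A functional killing the values of a spanning family of cycles kills all values. -/
theorem kills {E : ι → Mon ν d → k} {N : ℕ} {r : Fin N → ι → Mon ν t → k}
    (hr : LinearMap.ker (mult E t) ≤ Submodule.span k (Set.range r)) {x : Fin ν → k}
    {f : Dual k (ι → k)} (hf : ∀ κ, f (vv (r κ) x) = 0) :
    ∀ z ∈ LinearMap.ker (mult E t), f (vv z x) = 0 := fun z hz => by
  have : Submodule.span k (Set.range r) ≤ LinearMap.ker (f ∘ₗ vvL t x) :=
    Submodule.span_le.2 (by rintro _ ⟨κ, rfl⟩; exact hf κ)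
  exact this (hr hz)

theorem top_of_not_bad2 {E : ι → Mon ν d → k} {N : ℕ} {r : Fin N → ι → Mon ν t → k}
    (hr : LinearMap.ker (mult E t) ≤ Submodule.span k (Set.range r)) {x : Fin ν → k} {i₀ : ι}
    (hi : vv E x i₀ ≠ 0) (hB : ¬Bad2 (Ph E) d t x) {W : Submodule k (ι → k)}
    (hW : Pi.single i₀ 1 ∈ W) (hW' : ∀ κ, vv (r κ) x ∈ W) : W = ⊤ := by
  by_contra hne
  obtain ⟨f, hf0, hf⟩ := Submodule.exists_le_ker_of_lt_top W (lt_top_iff_ne_top.2 hne)
  obtain ⟨η, hη⟩ := exists_lift (t := t) E x f (kills hr fun κ => hf (hW' κ))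
  exact hB ⟨dl_notMem hi, η, hη.obs, fun P hP hx hm => hf0 (hη.eq_zero hi (hf hW) hP hx hm)⟩

omit [Fintype ι] [DecidableEq ι] in
theorem exists_ne_zero (hd : 1 ≤ d) {E : ι → Mon ν d → k} {x : Fin ν → k} {i₀ : ι}
    (hi : vv E x i₀ ≠ 0) : ∃ a, x a ≠ 0 := by
  by_contra hc
  simp only [not_exists, not_not] at hc
  refine hi ?_
  have hx : x = 0 := funext hc
  rw [vv, hx, eval_zero, constantCoeff_eq]
  exact (formR_hom (E i₀)).coeff_eq_zero (by simp; omega)

theorem codim_of_not_bad1 (hd : 1 ≤ d) {E : ι → Mon ν d → k} {N μ : ℕ}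
    {s : Fin N → ι → Mon ν 1 → k}
    (hs : LinearMap.ker (mult E 1) ≤ Submodule.span k (Set.range s)) {x : Fin ν → k} {i₀ : ι}
    (hi : vv E x i₀ ≠ 0) (hB : ¬Bad1 (Ph E) d μ x) {W : Submodule k (ι → k)}
    (hW : Pi.single i₀ 1 ∈ W) (hW' : ∀ α, vv (s α) x ∈ W) : finrank k ((ι → k) ⧸ W) ≤ μ := by
  let Z : Submodule k (DD k ν × W.dualAnnihilator) :=
    { carrier := {p | Lifts E 1 x p.1 p.2.1}
      add_mem' := fun h h' => ⟨add_mem h.1 h'.1, fun P hP i => by
        simp [h.2 P hP i, h'.2 P hP i, mul_add]⟩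
      zero_mem' := ⟨zero_mem _, fun P hP i => by simp⟩
      smul_mem' := fun a _ h => ⟨Submodule.smul_mem _ a h.1, fun P hP i => by
        simp [h.2 P hP i, mul_left_comm]⟩ }
  have hsurj : LinearMap.range ((LinearMap.snd k _ _) ∘ₗ Z.subtype) = ⊤ := by
    refine LinearMap.range_eq_top.2 fun f => ?_
    obtain ⟨η, hη⟩ := exists_lift (t := 1) E x f.1
      (kills hs fun α => (Submodule.mem_dualAnnihilator _).1 f.2 _ (hW' α))
    exact ⟨⟨(η, f), hη⟩, rfl⟩
  have : Module.Free k W.dualAnnihilator := Module.Free.of_divisionRing k W.dualAnnihilator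
  have : Module.Projective k W.dualAnnihilator := Module.Projective.of_free
  obtain ⟨σ, hσ⟩ := LinearMap.exists_rightInverse_of_surjective _ hsurj
  let g : W.dualAnnihilator →ₗ[k] DD k ν := (LinearMap.fst k _ _) ∘ₗ Z.subtype ∘ₗ σ
  have hg : ∀ f, Lifts E 1 x (g f) f.1 := fun f => by
    have h1 : Lifts E 1 x (σ f).1.1 (σ f).1.2.1 := (σ f).2
    have h2 : (σ f).1.2 = f := LinearMap.congr_fun hσ f
    rwa [h2] at h1
  have hf0 : ∀ f : W.dualAnnihilator, f.1 (Pi.single i₀ 1) = 0 := fun f =>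
    (Submodule.mem_dualAnnihilator _).1 f.2 _ hW
  have hinj : Function.Injective g := by
    refine (injective_iff_map_eq_zero _).2 fun f h0 => Subtype.ext ?_
    obtain ⟨a, ha⟩ := exists_ne_zero hd hi
    refine (hg f).eq_zero hi (hf0 f) (isHomogeneous_X k a) (by rwa [eval_X]) ?_
    rw [h0, map_zero]
    exact zero_mem _
  by_contra hlt
  refine hB ⟨LinearMap.range g, ?_, ?_, ?_⟩
  · rintro _ ⟨f, rfl⟩
    exact (hg f).obs
  · rw [LinearMap.finrank_range_of_inj hinj]
    have h1 := Subspace.finrank_add_finrank_dualAnnihilator_eq W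
    have h2 := W.finrank_quotient_add_finrank
    omega
  · rintro _ ⟨f, rfl⟩ l hl hm
    have : f = 0 := Subtype.ext
      ((hg f).eq_zero hi (hf0 f) (LL_hom l) (by rwa [eval_LL]) hm)
    rw [this, map_zero]

theorem select {V : Type} [AddCommGroup V] [Module k V] [FiniteDimensional k V] {N μ : ℕ}
    (W : Submodule k V) (hW : finrank k (V ⧸ W) ≤ μ) (u : Fin (N + 1) → V)
    (hu : W ⊔ Submodule.span k (Set.range u) = ⊤) :
    ∃ sel : Fin μ → Fin (N + 1), W ⊔ Submodule.span k (Set.range fun κ => u (sel κ)) = ⊤ := by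
  classical
  obtain ⟨κ, a, ha, hsp, hli⟩ := exists_linearIndependent' k (fun i => W.mkQ (u i))
  have : Finite κ := Finite.of_injective a ha
  have := Fintype.ofFinite κ
  have hc : Fintype.card κ ≤ Fintype.card (Fin μ) := by
    rw [Fintype.card_fin]
    exact hli.fintype_card_le_finrank.trans hW
  obtain ⟨e⟩ := Function.Embedding.nonempty_of_card_le hc
  refine ⟨Function.extend e a fun _ => 0, ?_⟩
  rw [eq_top_iff, ← hu, sup_le_iff]
  refine ⟨le_sup_left, Submodule.span_le.2 ?_⟩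
  rintro _ ⟨i, rfl⟩
  have h1 : W.mkQ (u i) ∈ Submodule.span k (Set.range ((fun i => W.mkQ (u i)) ∘ a)) := by
    rw [hsp]; exact Submodule.subset_span ⟨i, rfl⟩
  have h2 : Submodule.span k (Set.range ((fun i => W.mkQ (u i)) ∘ a)) ≤
      (Submodule.span k (Set.range fun κ => u (Function.extend e a (fun _ => 0) κ))).map W.mkQ := by
    refine Submodule.span_le.2 ?_
    rintro _ ⟨c, rfl⟩
    refine ⟨u (a c), Submodule.subset_span ⟨e c, ?_⟩, rfl⟩
    simp only [e.injective.extend_apply]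
  obtain ⟨w, hw, hw'⟩ := h2 h1
  have h3 : u i - w ∈ W := by
    rw [← Submodule.Quotient.eq]
    exact hw'.symm
  exact Submodule.mem_sup.2 ⟨u i - w, h3, w, hw, sub_add_cancel _ _⟩

omit [DecidableEq ι] in
theorem exists_span (E : ι → Mon ν d → k) (t : ℕ) : ∃ (N : ℕ) (r : Fin (N + 1) → ι → Mon ν t → k),
    (∀ κ, ∑ i, formR (r κ i) * formR (E i) = 0) ∧
      LinearMap.ker (mult E t) ≤ Submodule.span k (Set.range r) := by
  let b := Module.finBasis k (LinearMap.ker (mult E t))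
  refine ⟨_, Fin.cons 0 fun κ => (b κ).1, fun κ => ?_, fun z hz => ?_⟩
  · rw [← mult_apply]
    refine Fin.cases ?_ (fun κ => ?_) κ
    · rw [Fin.cons_zero, map_zero]
    · rw [Fin.cons_succ]; exact (b κ).2
  · have h1 : z = ∑ κ, b.repr ⟨z, hz⟩ κ • (b κ).1 := by
      have := congrArg (LinearMap.ker (mult E t)).subtype (b.sum_repr ⟨z, hz⟩)
      rw [map_sum] at this
      exact this.symm
    rw [h1]
    exact Submodule.sum_mem _ fun κ _ => Submodule.smul_mem _ _
      (Submodule.subset_span ⟨κ.succ, by rw [Fin.cons_succ]⟩)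

end DualAux

open DualAux in
theorem dualS : DualStmt := by
  intro k _ ν d j t ι _ _ E Y hd hsp
  obtain ⟨N₁, s, hs0, hs⟩ := exists_span E 1
  obtain ⟨N₂, r, hr0, hr⟩ := exists_span E t
  refine ⟨Ph E, N₁ + 1, N₂ + 1, s, r, fun η h => h.1, finrank_Ph E Y hsp, hs0, hr0,
    fun μ x i₀ hi hB1 hB2 => ?_⟩
  let W : Submodule k (ι → k) :=
    Submodule.span k (insert (Pi.single i₀ 1) (Set.range fun α => vv (s α) x))
  have hW : Pi.single i₀ 1 ∈ W := Submodule.subset_span (Set.mem_insert _ _)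
  have hW' : ∀ α, vv (s α) x ∈ W := fun α =>
    Submodule.subset_span (Set.mem_insert_of_mem _ ⟨α, rfl⟩)
  obtain ⟨sel, hsel⟩ := select W (codim_of_not_bad1 hd hs hi hB1 hW hW') (fun κ => vv (r κ) x)
    (top_of_not_bad2 hr hi hB2 (Submodule.mem_sup_left hW) fun κ =>
      Submodule.mem_sup_right (Submodule.subset_span ⟨κ, rfl⟩))
  refine ⟨sel, ?_⟩
  rw [eq_top_iff, ← hsel, sup_le_iff]
  refine ⟨Submodule.span_mono ?_, Submodule.span_mono ?_⟩
  · rintro _ (rfl | ⟨α, rfl⟩)
    · exact ⟨.inr (.inr ()), rfl⟩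
    · exact ⟨.inl α, rfl⟩
  · rintro _ ⟨κ, rfl⟩
    exact ⟨.inr (.inl κ), rfl⟩

end

end Pool.Agent.Lib.MP_45f16c_ag.AS
end

-- part Pool.Agent.Lib.MP_45f16c_ag.AS.Fld
section

/-! The residue field of subexponential sequences. -/

set_option autoImplicit false
open Metric MeasureTheory MvPolynomial Filter Module
open scoped ComplexConjugate Matrix Topology

namespace Pool.Agent.Lib.MP_45f16c_ag.AS

noncomputable section

namespace FldAux

variable {𝒰 : Ultrafilter ℕ} {T : ℕ → ℝ}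

theorem ev_le (hT : Tendsto T 𝒰 atTop) (C : ℝ) {c : ℝ} (hc : 0 < c) :
    ∀ᶠ n in 𝒰, C ≤ Real.exp (c * T n) :=
  (Real.tendsto_exp_atTop.comp (hT.const_mul_atTop hc)).eventually_ge_atTop C

theorem two_le (hT : Tendsto T 𝒰 atTop) {c c' : ℝ} (h : c' < c) :
    ∀ᶠ n in 𝒰, Real.exp (c' * T n) + Real.exp (c' * T n) ≤ Real.exp (c * T n) := by
  filter_upwards [ev_le hT 2 (sub_pos.mpr h)] with n hn
  have e : Real.exp (c * T n) = Real.exp ((c - c') * T n) * Real.exp (c' * T n) := by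
    rw [← Real.exp_add]; congr 1; ring
  rw [e, ← two_mul]
  exact mul_le_mul_of_nonneg_right hn (Real.exp_pos _).le

theorem add_le (hT : Tendsto T 𝒰 atTop) {a b : ℕ → ℂ} {c c₁ c₂ : ℝ} (h1 : c₁ < c) (h2 : c₂ < c)
    (ha : ∀ᶠ n in 𝒰, ‖a n‖ ≤ Real.exp (c₁ * T n)) (hb : ∀ᶠ n in 𝒰, ‖b n‖ ≤ Real.exp (c₂ * T n)) :
    ∀ᶠ n in 𝒰, ‖(a + b) n‖ ≤ Real.exp (c * T n) := by
  filter_upwards [ha, hb, two_le hT (max_lt h1 h2), hT.eventually_ge_atTop 0] with n a1 a2 a3 a4
  refine (norm_add_le _ _).trans ((add_le_add (a1.trans ?_) (a2.trans ?_)).trans a3)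
  · exact Real.exp_le_exp.mpr (mul_le_mul_of_nonneg_right (le_max_left _ _) a4)
  · exact Real.exp_le_exp.mpr (mul_le_mul_of_nonneg_right (le_max_right _ _) a4)

theorem mul_le {a b : ℕ → ℂ} {c c₁ c₂ : ℝ} (h : c₁ + c₂ = c)
    (ha : ∀ᶠ n in 𝒰, ‖a n‖ ≤ Real.exp (c₁ * T n)) (hb : ∀ᶠ n in 𝒰, ‖b n‖ ≤ Real.exp (c₂ * T n)) :
    ∀ᶠ n in 𝒰, ‖(a * b) n‖ ≤ Real.exp (c * T n) := by
  filter_upwards [ha, hb] with n a1 a2
  rw [Pi.mul_apply, norm_mul, ← h, add_mul, Real.exp_add]
  exact mul_le_mul a1 a2 (norm_nonneg _) (Real.exp_pos _).le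

/-- Subexponential sequences. -/
def OO (hT : Tendsto T 𝒰 atTop) : Subring (ℕ → ℂ) where
  carrier := {a | ∀ c : ℝ, 0 < c → ∀ᶠ n in 𝒰, ‖a n‖ ≤ Real.exp (c * T n)}
  mul_mem' := fun ha hb c hc =>
    mul_le (add_halves c) (ha _ (half_pos hc)) (hb _ (half_pos hc))
  one_mem' := fun c hc => by simpa only [Pi.one_apply, norm_one] using ev_le hT 1 hc
  add_mem' := fun ha hb c hc =>
    add_le hT (half_lt_self hc) (half_lt_self hc) (ha _ (half_pos hc)) (hb _ (half_pos hc))
  zero_mem' := fun c hc => by simpa only [Pi.zero_apply, norm_zero] using ev_le hT 0 hc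
  neg_mem' := fun ha c hc => by simpa only [Pi.neg_apply, norm_neg] using ha c hc

/-- Exponentially small sequences. -/
def MM (hT : Tendsto T 𝒰 atTop) : Ideal (OO hT) where
  carrier := {a | ∃ c : ℝ, c < 0 ∧ ∀ᶠ n in 𝒰, ‖a.1 n‖ ≤ Real.exp (c * T n)}
  add_mem' := fun {a b} ⟨c₁, h1, ha⟩ ⟨c₂, h2, hb⟩ => by
    obtain ⟨c, h3, h4⟩ := exists_between (max_lt h1 h2)
    exact ⟨c, h4, add_le hT ((le_max_left _ _).trans_lt h3) ((le_max_right _ _).trans_lt h3) ha hb⟩
  zero_mem' := ⟨-1, by norm_num, Eventually.of_forall fun n => by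
    simpa using (Real.exp_pos _).le⟩
  smul_mem' := fun a b ⟨c, h, hb⟩ =>
    ⟨c / 2, by linarith, mul_le (c₁ := -c / 2) (by ring) (a.2 _ (by linarith)) hb⟩

theorem one_notMem (hT : Tendsto T 𝒰 atTop) : (1 : OO hT) ∉ MM hT := by
  rintro ⟨c, h, h1⟩
  obtain ⟨n, a1, a2⟩ := (h1.and (hT.eventually_gt_atTop 0)).exists
  have : Real.exp (c * T n) < 1 := Real.exp_lt_one_iff.mpr (mul_neg_of_neg_of_pos h a2)
  have a3 : ‖(1 : ℂ)‖ ≤ Real.exp (c * T n) := a1
  rw [norm_one] at a3
  linarith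

theorem maximal (hT : Tendsto T 𝒰 atTop) : (MM hT).IsMaximal := by
  refine Ideal.isMaximal_iff.mpr ⟨one_notMem hT, fun J a hJ ha haJ => ?_⟩
  have h1 : ∀ c : ℝ, 0 < c → ∀ᶠ n in 𝒰, Real.exp (-c * T n) < ‖a.1 n‖ := fun c hc => by
    have : ¬ ∀ᶠ n in 𝒰, ‖a.1 n‖ ≤ Real.exp (-c * T n) := fun h => ha ⟨-c, by linarith, h⟩
    exact (Ultrafilter.eventually_not.mpr this).mono fun n hn => not_le.mp hn
  let b : OO hT := ⟨fun n => (a.1 n)⁻¹, fun c hc => (h1 c hc).mono fun n hn => by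
    rw [norm_inv]
    refine (inv_anti₀ (Real.exp_pos _) hn.le).trans ?_
    rw [← Real.exp_neg, neg_mul, neg_neg]⟩
  have h2 : 1 - b * a ∈ MM hT := ⟨-1, by norm_num, (h1 1 one_pos).mono fun n hn => by
    have h0 : a.1 n ≠ 0 := norm_pos_iff.mp ((Real.exp_pos _).trans hn)
    have : (1 - b * a).1 n = 0 := sub_eq_zero.mpr (inv_mul_cancel₀ h0).symm
    rw [this, norm_zero]
    exact (Real.exp_pos _).le⟩
  simpa using J.add_mem (hJ h2) (J.mul_mem_left b haJ)

end FldAux

theorem fieldS : FieldStmt := by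
  intro 𝒰 T hT
  have := FldAux.maximal hT
  let : Field (FldAux.OO hT ⧸ FldAux.MM hT) := Ideal.Quotient.field _
  let j : ℂ →+* FldAux.OO hT := (Pi.constRingHom ℕ ℂ).codRestrict (FldAux.OO hT)
    fun z c hc => FldAux.ev_le hT ‖z‖ hc
  refine ⟨FldAux.OO hT, FldAux.OO hT ⧸ FldAux.MM hT, inferInstance,
    Infinite.of_injective _ ((Ideal.Quotient.mk (FldAux.MM hT)).comp j).injective,
    Ideal.Quotient.mk _, ⟨Ideal.Quotient.mk_surjective, fun _ => Iff.rfl, fun a => ?_⟩⟩
  rw [Ideal.Quotient.eq_zero_iff_mem]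
  exact ⟨fun ⟨c, h, h1⟩ => ⟨-c, by linarith, by simpa using h1⟩,
    fun ⟨c, h, h1⟩ => ⟨-c, by linarith, by simpa using h1⟩⟩

theorem transS : TransStmt := by
  intro 𝒰 T O k _ π hT hU ι β _ _ V hV c hc
  classical
  have h1 : ∀ i : ι, ∃ B : β → O, ∀ i', π (∑ b, B b * V b i') = (Pi.single i 1 : ι → k) i' :=
    fun i => by
    obtain ⟨B, hB⟩ := (Submodule.mem_span_range_iff_exists_fun k).mp
      (hV ▸ Submodule.mem_top : (Pi.single i 1 : ι → k) ∈ _)
    choose B' hB' using fun b => hU.surj (B b)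
    refine ⟨B', fun i' => ?_⟩
    rw [← hB]
    simp only [map_sum, map_mul, hB', Finset.sum_apply, Pi.smul_apply, smul_eq_mul]
  choose B hB using h1
  obtain ⟨N, hN⟩ : ∃ N : ℝ, N = (Fintype.card ι : ℝ) := ⟨_, rfl⟩
  have hN0 : 0 ≤ N := hN ▸ Nat.cast_nonneg _
  have h2 : ∀ i i', ∀ᶠ n in 𝒰, ‖∑ b, (B i b).1 n * (V b i').1 n - (Pi.single i 1 : ι → ℂ) i'‖ *
      (2 * N) ≤ 1 := fun i i' => by
    obtain ⟨c', h3, h4⟩ := (hU.ker (∑ b, B i b * V b i' - (Pi.single i 1 : ι → O) i')).mp (by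
      rw [map_sub, hB, Pi.apply_single (fun _ => π) (fun _ => map_zero π), map_one, sub_self])
    filter_upwards [h4, FldAux.ev_le hT (2 * N) h3] with n a1 a2
    have e : (∑ b, B i b * V b i' - (Pi.single i 1 : ι → O) i').1 n =
        ∑ b, (B i b).1 n * (V b i').1 n - (Pi.single i 1 : ι → ℂ) i' := by
      by_cases h : i' = i
      · subst h; simp
      · simp [h]
    rw [e] at a1
    refine (mul_le_mul a1 a2 (by positivity) (Real.exp_pos _).le).trans ?_
    rw [← Real.exp_add, neg_add_cancel, Real.exp_zero]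
  have h3 : ∀ i b, ∀ᶠ n in 𝒰, ‖(B i b).1 n‖ ≤ Real.exp (c / 2 * T n) := fun i b =>
    (hU.mem _).mp (B i b).2 _ (half_pos hc)
  filter_upwards [eventually_all.mpr fun i => eventually_all.mpr (h2 i),
    eventually_all.mpr fun i => eventually_all.mpr (h3 i),
    FldAux.ev_le hT (2 * N) (half_pos hc)] with n a1 a2 a3 v
  let L : (ι → ℂ) →ₗ[ℂ] (ι → ℂ) :=
    Fintype.linearCombination ℂ fun i i' => ∑ b, (B i b).1 n * (V b i').1 n
  have hL : ∀ u, 2 * ‖L u - u‖ ≤ ‖u‖ := fun u => by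
    rw [← le_div_iff₀' two_pos]
    refine (pi_norm_le_iff_of_nonneg (by positivity)).mpr fun i' => ?_
    have hN1 : 0 < N := by
      have : Nonempty ι := ⟨i'⟩
      exact hN ▸ Nat.cast_pos.mpr Fintype.card_pos
    have e : (L u - u) i' = ∑ i, u i *
        (∑ b, (B i b).1 n * (V b i').1 n - (Pi.single i 1 : ι → ℂ) i') := by
      simp only [L, Fintype.linearCombination_apply, Pi.sub_apply, Finset.sum_apply, Pi.smul_apply,
        smul_eq_mul, mul_sub, Finset.sum_sub_distrib, Pi.single_apply, mul_ite, mul_one, mul_zero,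
        Finset.sum_ite_eq, Finset.mem_univ, if_true]
    rw [e]
    refine (norm_sum_le_of_le (n := fun _ => ‖u‖ * (2 * N)⁻¹) _ fun i _ => ?_).trans ?_
    · rw [norm_mul]
      refine mul_le_mul (norm_le_pi_norm u i) ?_ (norm_nonneg _) (norm_nonneg _)
      rw [← one_div, le_div_iff₀ (by positivity)]
      exact a1 i i'
    · rw [Finset.sum_const, Finset.card_univ, nsmul_eq_mul, ← hN]
      exact le_of_eq (by field_simp)
  have hL2 : ∀ u, ‖u‖ ≤ 2 * ‖L u‖ := fun u => by
    have := norm_sub_le (L u) (L u - u)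
    rw [sub_sub_cancel] at this
    linarith [hL u]
  have inj : Function.Injective L := (injective_iff_map_eq_zero L).mpr fun u hu => by
    have := hL2 u
    rw [hu, norm_zero, mul_zero] at this
    exact norm_le_zero_iff.mp this
  obtain ⟨u, rfl⟩ := LinearMap.injective_iff_surjective.mp inj v
  refine ⟨fun b => ∑ i, u i * (B i b).1 n, ?_, ?_⟩
  · refine (pi_norm_le_iff_of_nonneg (by positivity)).mpr fun b => ?_
    refine (norm_sum_le_of_le (n := fun _ => 2 * ‖L u‖ * Real.exp (c / 2 * T n)) _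
      fun i _ => ?_).trans ?_
    · rw [norm_mul]
      exact mul_le_mul ((norm_le_pi_norm u i).trans (hL2 u)) (a2 i b) (norm_nonneg _)
        (by positivity)
    · rw [Finset.sum_const, Finset.card_univ, nsmul_eq_mul, ← hN]
      have e : Real.exp (c * T n) = Real.exp (c / 2 * T n) * Real.exp (c / 2 * T n) := by
        rw [← Real.exp_add]; congr 1; ring
      rw [e]
      have := mul_le_mul_of_nonneg_right a3
        (mul_nonneg (Real.exp_pos (c / 2 * T n)).le (norm_nonneg (L u)))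
      linarith
  · funext i'
    simp only [L, Fintype.linearCombination_apply, Finset.sum_apply, Pi.smul_apply, smul_eq_mul,
      Finset.mul_sum, Finset.sum_mul, mul_assoc]
    exact Finset.sum_comm

end

end Pool.Agent.Lib.MP_45f16c_ag.AS
end

-- part Pool.Agent.Lib.MP_45f16c_ag.AS.Subsp
section

/-! Three small lemmas. -/

set_option autoImplicit false
open Metric MeasureTheory MvPolynomial Filter Module
open scoped ComplexConjugate Matrix Topology

namespace Pool.Agent.Lib.MP_45f16c_ag.AS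

noncomputable section

namespace SubspAux

variable {ν p d : ℕ}

/-- A maximal minor gives a bounded normal form. -/
theorem of_det (N : Matrix (Fin ν) (Fin p) ℂ) (e₀ : Fin p → Fin ν)
    (h : (N.submatrix e₀ id).det ≠ 0) : ∃ (e : Fin p → Fin ν) (A : Fin ν → Fin p → ℂ),
    Function.Injective e ∧ ‖A‖ ≤ 1 ∧ ∀ y, res e A (N *ᵥ y) = 0 := by
  have : Nonempty (Fin p → Fin ν) := ⟨e₀⟩
  obtain ⟨e, he⟩ := Finite.exists_max fun e : Fin p → Fin ν => ‖(N.submatrix e id).det‖
  have h0 : 0 < ‖(N.submatrix e id).det‖ := (norm_pos_iff.2 h).trans_le (he e₀)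
  have h1 : (N.submatrix e id).det ≠ 0 := norm_pos_iff.1 h0
  have hinj : Function.Injective e := fun i i' hi => by
    by_contra hne
    exact h1 (Matrix.det_zero_of_row_eq hne (by funext k; simp [hi]))
  have hup : ∀ a i, (N.submatrix e id).updateRow i (N a) =
      N.submatrix (Function.update e i a) id := fun a i => by
    ext k l
    by_cases hk : k = i
    · subst hk; simp
    · simp [Matrix.updateRow_ne hk, Function.update_of_ne hk]
  refine ⟨e, fun a i => ((N.submatrix e id).updateRow i (N a)).det / (N.submatrix e id).det,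
    hinj, ?_, fun y => ?_⟩
  · refine (pi_norm_le_iff_of_nonneg zero_le_one).2 fun a =>
      (pi_norm_le_iff_of_nonneg zero_le_one).2 fun i => ?_
    rw [norm_div, div_le_one h0, hup]
    exact he _
  · funext a
    rw [res, Pi.sub_apply, Pi.zero_apply, sub_eq_zero]
    by_cases ha : ∃ i, e i = a
    · obtain ⟨i, rfl⟩ := ha
      rw [lin_apply_e hinj]
    · rw [lin_apply_not _ _ ha]
      have h2 : ∀ l, N a l = ∑ i, ((N.submatrix e id).updateRow i (N a)).det /
          (N.submatrix e id).det * N (e i) l := fun l => by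
        have h3 := congrFun (Matrix.mulVec_cramer (N.submatrix e id)ᵀ (N a)) l
        rw [Matrix.det_transpose, Pi.smul_apply, smul_eq_mul] at h3
        refine mul_left_cancel₀ h1 ?_
        rw [← h3, Finset.mul_sum, Matrix.mulVec, dotProduct]
        refine Finset.sum_congr rfl fun i _ => ?_
        rw [Matrix.cramer_transpose_apply, ← mul_assoc, mul_div_cancel₀ _ h1, mul_comm]
        rfl
      simp only [Matrix.mulVec, dotProduct, Finset.mul_sum]
      rw [Finset.sum_comm]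
      refine Finset.sum_congr rfl fun l _ => ?_
      rw [h2 l, Finset.sum_mul]
      exact Finset.sum_congr rfl fun i _ => mul_assoc _ _ _

/-- Some `p` columns span all columns. -/
theorem exists_cols (c : Fin ν → Fin p → ℂ) (hp : p ≤ ν) : ∃ e : Fin p → Fin ν,
    Function.Injective e ∧ ∀ a, c a ∈ Submodule.span ℂ (Set.range fun i => c (e i)) := by
  obtain ⟨κ, g, hg, hs, hl⟩ := exists_linearIndependent' ℂ c
  have : Finite κ := Finite.of_injective g hg
  have := Fintype.ofFinite κ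
  have h1 : Fintype.card κ ≤ p := by simpa using hl.fintype_card_le_finrank
  obtain ⟨u, h2, -, h3⟩ := Finset.exists_subsuperset_card_eq (n := p)
    (Finset.subset_univ (Finset.univ.image g)) (Finset.card_image_le.trans h1) (by simpa using hp)
  refine ⟨u.orderEmbOfFin h3, (u.orderEmbOfFin h3).injective, fun a => ?_⟩
  have h4 : c a ∈ Submodule.span ℂ (Set.range (c ∘ g)) :=
    hs ▸ Submodule.subset_span ⟨a, rfl⟩
  refine Submodule.span_mono ?_ h4
  rintro _ ⟨k, rfl⟩
  have h5 : g k ∈ Set.range (u.orderEmbOfFin h3) := by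
    rw [Finset.range_orderEmbOfFin]
    exact h2 (Finset.mem_image_of_mem g (Finset.mem_univ k))
  obtain ⟨i, hi⟩ := h5
  exact ⟨i, by simp only [hi, Function.comp_apply]⟩

attribute [local irreducible] form formR

theorem norm_coeff_le (c : Mon ν d → ℂ) (m : Fin ν →₀ ℕ) : ‖coeff m (form c)‖ ≤ ‖c‖ := by
  by_cases h : m.degree = d
  · rw [show coeff m (form c) = c ⟨m, mem_mon.2 h⟩ from coeff_form c ⟨m, mem_mon.2 h⟩]
    exact norm_le_pi_norm _ _
  · rw [(form_isHomogeneous c).coeff_eq_zero h, norm_zero]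
    exact norm_nonneg _

end SubspAux

attribute [local irreducible] form formR

theorem subspS : SubspStmt := by
  intro ν p b hp
  obtain ⟨e₀, h1, h2⟩ := SubspAux.exists_cols (fun a κ => b κ a) hp
  have h3 : ∀ a, ∃ r : Fin p → ℂ, (∀ κ, b κ a = ∑ i, r i * b κ (e₀ i)) ∧
      ∀ i, e₀ i = a → r = Pi.single i 1 := fun a => by
    by_cases ha : ∃ i, e₀ i = a
    · obtain ⟨i, rfl⟩ := ha
      refine ⟨Pi.single i 1, fun κ => ?_, fun i' hi => by rw [h1 hi]⟩
      rw [Finset.sum_eq_single i (fun k _ hk => by simp [hk]) (by simp)]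
      simp
    · obtain ⟨r, hr⟩ := (Submodule.mem_span_range_iff_exists_fun ℂ).1 (h2 a)
      refine ⟨r, fun κ => ?_, fun i hi => absurd ⟨i, hi⟩ ha⟩
      have := congrFun hr κ
      simpa [Finset.sum_apply] using this.symm
  choose N hN hN' using h3
  have h4 : (Matrix.of N).submatrix e₀ id = 1 := by
    ext i k
    simp [hN' (e₀ i) i rfl, Matrix.one_apply, Pi.single_apply, eq_comm]
  obtain ⟨e, A, h5, h6, h7⟩ := SubspAux.of_det (Matrix.of N) e₀ (by rw [h4]; simp)
  refine ⟨e, A, h5, h6, fun κ => ?_⟩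
  have h8 : b κ = Matrix.of N *ᵥ fun i => b κ (e₀ i) := funext fun a => hN a κ
  rw [h8]
  exact h7 _

theorem genCS : GenCStmt := by
  intro ν d j hd c y hc hy
  have hj : (0 : ℝ) ≤ j := Nat.cast_nonneg j
  have hd' : (0 : ℝ) ≤ d := Nat.cast_nonneg d
  refine ⟨Sum.elim (fun ab m => coeff m.1 (X ab.2 * pderiv ab.1 (form c)))
    (Sum.elim (prj y) fun _ => 0), ?_, fun x => funext fun i => ?_, fun m => rfl⟩
  · refine (pi_norm_le_iff_of_nonneg (by positivity)).2 fun i => ?_
    rcases i with ab | m | l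
    · refine (pi_norm_le_iff_of_nonneg (by positivity)).2 fun m => ?_
      rw [Sum.elim_inl, coeff_X_mul']
      split_ifs
      · rw [← form_dcL]
        refine (SubspAux.norm_coeff_le _ _).trans ((norm_dcL_le _ _).trans ?_)
        nlinarith [norm_nonneg c]
      · rw [norm_zero]; positivity
    · rw [Sum.elim_inr, Sum.elim_inl]
      linarith [norm_prj_le hy m]
    · rw [Sum.elim_inr, Sum.elim_inr, norm_zero]; positivity
  · rw [vv_eq]
    rcases i with ab | m | l
    · have h1 : (X ab.2 * pderiv ab.1 (form c) : MvPolynomial (Fin ν) ℂ).IsHomogeneous d := by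
        have := (isHomogeneous_X ℂ ab.2).mul ((form_isHomogeneous c).pderiv (i := ab.1))
        rwa [show 1 + (d - 1) = d by omega] at this
      rw [Sum.elim_inl, form_coeff h1, map_mul, eval_X, gen, Sum.elim_inl, grad]
    · rw [Sum.elim_inr, Sum.elim_inl, gen, Sum.elim_inr, Sum.elim_inl]
    · rw [Sum.elim_inr, Sum.elim_inr, gen, Sum.elim_inr, Sum.elim_inr, form_zero, map_zero]

theorem difS : DifStmt := by
  intro q d j μ h N₁ N₂ s r f ξ hf hξ
  have hX : ∀ i b, Differentiable ℂ fun z => Xi j (f z) (fun m => ξ m z) i b := fun i b => by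
    rcases i with ab | m | l
    · by_cases h : b = ab.1
      · simp only [Xi, Sum.elim_inl, h, Pi.single_eq_same]
        exact (differentiable_pi.1 hf ab.2).neg
      · simp only [Xi, Sum.elim_inl, Pi.single_eq_of_ne h]
        exact differentiable_const _
    · exact differentiable_pi.1 (hξ m) b
    · exact differentiable_const _
  have hV : ∀ t i, Differentiable ℂ fun z =>
      Sum.elim (fun α => vv (s α) (f z)) (fun κ => vv (r κ) (f z)) t i := fun t i => by
    rcases t with α | κ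
    · simp only [Sum.elim_inl, vv_eq]
      exact differentiable_eval_form _ hf
    · simp only [Sum.elim_inr, vv_eq]
      exact differentiable_eval_form _ hf
  refine differentiable_pi.2 fun t => ?_
  by_cases ht : nR t.1.1 ≤ μ
  · simp only [Dl2, if_pos ht, Dt, Matrix.det_apply', Matrix.of_apply]
    refine ((differentiable_pi.1 hf _).pow _).mul
      (Differentiable.fun_sum fun σ _ => (differentiable_const _).mul
        (Differentiable.fun_finsetProd fun k _ => ?_))
    refine Fin.cases ?_ (fun k' => ?_) (σ k)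
    · simp only [Fin.cons_zero]
      exact differentiable_const _
    · simp only [Fin.cons_succ]
      exact Differentiable.fun_sum fun i _ => (hV _ i).mul (hX i k)
  · simp only [Dl2, if_neg ht]
    exact differentiable_const _

end

end Pool.Agent.Lib.MP_45f16c_ag.AS
end
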