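import Pool.Agent.Lib.MP_45f16c_ag.AS.L2





import Pool.Agent.Lib.MP_45f16c_ag.AS.Subsp



import Pool.Agent.Lib.MP_45f16c_ag.AS.Pt


import Pool.Agent.Lib.MP_45f16c_ag.AS.Roots
import Pool.Agent.Lib.MP_45f16c_ag.AS.Jmp
import Pool.Agent.Lib.MP_45f16c_ag.AS.Bad
import Pool.Agent.Lib.MP_45f16c_ag.AS.An
import Pool.Agent.Lib.MP_45f16c_ag.AS.Ht
import Pool.Agent.Lib.MP_45f16c_ag.AS.Al1
import Pool.Agent.Lib.MP_45f16c_ag.AS.Al2
import Pool.Agent.Lib.MP_45f16c_ag.AS.Region2





import Pool.Agent.Lib.MP_45f16c_ag.AS.Lev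
import Pool.Agent.Lib.MP_45f16c_ag.AS.Num


/-! Almost every hypersurface of degree at least `(2 + ε) n` is smooth and Brody hyperbolic. -/

set_option autoImplicit false

namespace Pool.Agent.Lib.MP_45f16c_ag.AS

theorem algAll : AlgStmt :=
  algS dualS poolS (l1S (macS shS) indS)
    (l2S (macS shS) indS (satS (macS shS)) (gcS (satS (macS shS))))

theorem jmpAll : JmpStmt := jmpS (mono (pois fact))

theorem genAll : GenStmt := genS (green base) unif projS

theorem mainAS : MainStmt :=
  lastS
    (levS (sel2S (gauge (pois fact)) (mono (pois fact)) (dbl (mono (pois fact))))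
      (rescS (osc (pois fact))) (fast2S (osc (pois fact)) three) slow
      (core2S (sard bez area detS) (true2S trunc) (region2S interp projS) gdeg2S divS
        (mon2S (monS fact)) trunc)
      (noSlowS (al genAll pa mp)) relS)
    (noRelS (al1S genAll pa mp))
    (al2S (ultS fieldS transS subspS algAll) (ptS expS) difS genCS
      (anS rootsS jmpAll (annS (pois fact)) (badS jmpAll) (goodS jmpAll)) htS)
    numS

end Pool.Agent.Lib.MP_45f16c_ag.AS
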