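import Pool.Agent.Lib.MP_45f16c_ag.AS.Stmts

/-! Basic facts on inverse systems. -/

set_option autoImplicit false
open MvPolynomial Module
open scoped Matrix

namespace Pool.Agent.Lib.MP_45f16c_ag.AS

noncomputable section

variable {k : Type} [Field k] {ν d s t u : ℕ} {P Q : MvPolynomial (Fin ν) k} {η : DD k ν}
  {x l : Fin ν → k} {T : Set (Fin ν → k)} {Φ : Submodule k (DD k ν)}

theorem act_apply (P Q : MvPolynomial (Fin ν) k) (η : DD k ν) : act P η Q = η (P * Q) := rfl

theorem act_mul (P Q : MvPolynomial (Fin ν) k) (η : DD k ν) :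
    act (P * Q) η = act P (act Q η) := by
  refine LinearMap.ext fun R => ?_
  simp only [act_apply]; congr 1; ring

theorem act_comm (P Q : MvPolynomial (Fin ν) k) (η : DD k ν) :
    act P (act Q η) = act Q (act P η) := by rw [← act_mul, mul_comm, act_mul]

theorem act_one (η : DD k ν) : act 1 η = η := LinearMap.ext fun R => by simp [act_apply]

/-- Contraction as a linear map in the polynomial. -/
def actL (η : DD k ν) : MvPolynomial (Fin ν) k →ₗ[k] DD k ν where
  toFun P := act P η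
  map_add' P Q := LinearMap.ext fun R => by simp [act_apply, add_mul]
  map_smul' a P := LinearMap.ext fun R => by simp [act_apply]

theorem actL_apply (η : DD k ν) (P : MvPolynomial (Fin ν) k) : actL η P = act P η := rfl

theorem act_zero_left (η : DD k ν) : act 0 η = 0 := (actL η).map_zero

theorem act_add_left (P Q : MvPolynomial (Fin ν) k) (η : DD k ν) :
    act (P + Q) η = act P η + act Q η := (actL η).map_add P Q

theorem act_sub_left (P Q : MvPolynomial (Fin ν) k) (η : DD k ν) :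
    act (P - Q) η = act P η - act Q η := (actL η).map_sub P Q

theorem act_smul_left (a : k) (P : MvPolynomial (Fin ν) k) (η : DD k ν) :
    act (a • P) η = a • act P η := (actL η).map_smul a P

theorem act_sum_left {α : Type} (S : Finset α) (P : α → MvPolynomial (Fin ν) k) (η : DD k ν) :
    act (∑ i ∈ S, P i) η = ∑ i ∈ S, act (P i) η := map_sum (actL η) P S

/-- The linear form as a linear map of its coefficients. -/
def LLm (k : Type) [Field k] (ν : ℕ) : (Fin ν → k) →ₗ[k] MvPolynomial (Fin ν) k where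
  toFun := LL
  map_add' l l' := by simp [LL, add_smul, Finset.sum_add_distrib]
  map_smul' a l := by simp [LL, Finset.smul_sum, smul_smul]

theorem LLm_apply (l : Fin ν → k) : LLm k ν l = LL l := rfl

theorem LL_add (l l' : Fin ν → k) : LL (l + l') = LL l + LL l' := (LLm k ν).map_add l l'

theorem LL_sub (l l' : Fin ν → k) : LL (l - l') = LL l - LL l' := (LLm k ν).map_sub l l'

theorem LL_smul (a : k) (l : Fin ν → k) : LL (a • l) = a • LL l := (LLm k ν).map_smul a l

theorem LL_single (a : Fin ν) : LL (Pi.single a (1 : k)) = X a := by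
  rw [LL, Finset.sum_eq_single a (fun b _ hb => by simp [hb]) (by simp)]; simp

theorem LL_hom (l : Fin ν → k) : (LL l).IsHomogeneous 1 :=
  (homogeneousSubmodule (Fin ν) k 1).sum_mem fun a _ =>
    Submodule.smul_mem _ _ (isHomogeneous_X k a)

theorem LL_pow_hom (l : Fin ν → k) (n : ℕ) : (LL l ^ n).IsHomogeneous n := by
  simpa using (LL_hom l).pow n

theorem eval_LL (l x : Fin ν → k) : eval x (LL l) = l ⬝ᵥ x := by
  simp [LL, dotProduct, smul_eval]

theorem mem_Dg : η ∈ Dg k ν t ↔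
    ∀ (s : ℕ) (P : MvPolynomial (Fin ν) k), P.IsHomogeneous s → s ≠ t → η P = 0 := Iff.rfl

theorem act_mem_Dg (hP : P.IsHomogeneous s) (h : η ∈ Dg k ν (t + s)) : act P η ∈ Dg k ν t :=
  fun _ _ hQ hs => h _ _ (hP.mul hQ) (by omega)

theorem act_eq_zero_of_lt (hP : P.IsHomogeneous s) (h : η ∈ Dg k ν t) (hts : t < s) :
    act P η = 0 := by
  refine LinearMap.ext fun Q => ?_
  rw [act_apply, ← sum_homogeneousComponent Q, Finset.mul_sum, map_sum]
  exact Finset.sum_eq_zero fun i _ =>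
    h _ _ (hP.mul (homogeneousComponent_isHomogeneous i Q)) (by omega)

theorem Dg_apply (h : η ∈ Dg k ν t) (P : MvPolynomial (Fin ν) k) :
    η P = η (homogeneousComponent t P) := by
  conv_lhs => rw [← sum_homogeneousComponent P, map_sum]
  refine Finset.sum_eq_single t
    (fun i _ hi => h _ _ (homogeneousComponent_isHomogeneous i P) hi) fun ht => ?_
  rw [homogeneousComponent_eq_zero t P (by simpa using ht), map_zero]

theorem Dg_ext (h : η ∈ Dg k ν t)
    (h0 : ∀ P : MvPolynomial (Fin ν) k, P.IsHomogeneous t → η P = 0) : η = 0 := by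
  refine LinearMap.ext fun P => ?_
  rw [Dg_apply h, h0 _ (homogeneousComponent_isHomogeneous t P), LinearMap.zero_apply]

theorem comp_mem_Dg (η : DD k ν) (t : ℕ) : η ∘ₗ homogeneousComponent t ∈ Dg k ν t :=
  fun s P hP hs => by
    rw [LinearMap.comp_apply, homogeneousComponent_of_mem hP, if_neg hs.symm, map_zero]

theorem comp_apply_hom (η : DD k ν) (hP : P.IsHomogeneous t) :
    (η ∘ₗ homogeneousComponent t) P = η P := by
  rw [LinearMap.comp_apply, homogeneousComponent_of_mem hP, if_pos rfl]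

/-! ### Forms over a ring -/

section ring
variable {R R' : Type} [CommRing R] [CommRing R']

/-- `formR` as a linear map. -/
def formRL (R : Type) [CommRing R] (ν d : ℕ) : (Mon ν d → R) →ₗ[R] MvPolynomial (Fin ν) R where
  toFun := formR
  map_add' c c' := by simp [formR, Finset.sum_add_distrib]
  map_smul' a c := by simp [formR, Finset.smul_sum, smul_monomial]

theorem formRL_apply (c : Mon ν d → R) : formRL R ν d c = formR c := rfl

theorem formR_eq_form (c : Mon ν d → ℂ) : formR c = form c := rfl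

theorem formR_hom (c : Mon ν d → R) : (formR c).IsHomogeneous d :=
  IsHomogeneous.sum _ _ _ fun m _ => isHomogeneous_monomial _ m.degree_eq

theorem formR_single (m : Mon ν d) (a : R) : formR (Pi.single m a) = monomial m.1 a := by
  classical
  rw [formR, Finset.sum_eq_single m (fun b _ hb => by simp [hb]) (by simp)]; simp

theorem coeff_formR (c : Mon ν d → R) (m : Mon ν d) : coeff m.1 (formR c) = c m := by
  classical
  rw [formR, coeff_sum, Finset.sum_eq_single m (fun b _ hb => by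
    rw [coeff_monomial, if_neg fun h => hb (Subtype.ext h)]) (by simp)]
  simp

theorem formR_coeff {P : MvPolynomial (Fin ν) R} (hP : P.IsHomogeneous d) :
    formR (fun m : Mon ν d => coeff m.1 P) = P := by
  ext m
  by_cases hm : m.degree = d
  · exact coeff_formR _ ⟨m, mem_mon.2 hm⟩
  · rw [(formR_hom _).coeff_eq_zero hm, hP.coeff_eq_zero hm]

theorem map_formR (φ : R →+* R') (c : Mon ν d → R) :
    MvPolynomial.map φ (formR c) = formR fun m => φ (c m) := by
  simp [formR, map_monomial]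

theorem map_vv {ι : Type} (φ : R →+* R') (s : ι → Mon ν d → R) (x : Fin ν → R) (i : ι) :
    φ (vv s x i) = vv (fun i m => φ (s i m)) (fun a => φ (x a)) i := by
  rw [vv, vv, ← map_formR, eval_map, ← eval₂_id, eval₂_comp_left]
  simp [Function.comp_def]

/-- `vv` as a linear map in the family. -/
def vvL {ι : Type} (d : ℕ) (x : Fin ν → R) : (ι → Mon ν d → R) →ₗ[R] (ι → R) where
  toFun s := vv s x
  map_add' s s' := funext fun i => by
    simp only [vv, Pi.add_apply, ← formRL_apply, map_add]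
  map_smul' a s := funext fun i => by
    simp only [vv, Pi.smul_apply, ← formRL_apply, map_smul, smul_eval, smul_eq_mul,
      RingHom.id_apply]

theorem vvL_apply {ι : Type} (x : Fin ν → R) (s : ι → Mon ν d → R) : vvL d x s = vv s x := rfl

end ring

instance finite_Dg (k : Type) [Field k] (ν t : ℕ) : FiniteDimensional k (Dg k ν t) := by
  refine FiniteDimensional.of_injective
    ((formRL k ν t).dualMap ∘ₗ (Dg k ν t).subtype) ((injective_iff_map_eq_zero _).2 ?_)
  rintro ⟨η, h⟩ h0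
  refine Subtype.ext (Dg_ext h fun P hP => ?_)
  rw [← formR_coeff hP]
  exact LinearMap.congr_fun h0 _

theorem finite_of_le (h : Φ ≤ Dg k ν t) : FiniteDimensional k Φ :=
  Submodule.finiteDimensional_of_le h

theorem eq_zero_of_LL (h : η ∈ Dg k ν (t + 1)) (h0 : ∀ l, act (LL l) η = 0) : η = 0 := by
  refine Dg_ext h fun P hP => ?_
  rw [← formR_coeff hP, formR, map_sum]
  refine Finset.sum_eq_zero fun m _ => ?_
  obtain ⟨a, ha⟩ : ∃ a, m.1 a ≠ 0 := by
    by_contra hc
    have := m.sum_eq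
    simp only [not_exists, not_not] at hc
    simp [hc] at this
  have e : monomial m.1 (coeff m.1 P) =
      X a * monomial (m.1 - Finsupp.single a 1) (coeff m.1 P) := by
    rw [X, monomial_mul, one_mul, add_tsub_cancel_of_le]
    exact Finsupp.single_le_iff.2 (by omega)
  rw [e, ← LL_single, ← act_apply, h0, LinearMap.zero_apply]

theorem dl_mem (t : ℕ) (x : Fin ν → k) : dl t x ∈ Dg k ν t := comp_mem_Dg _ t

theorem dl_apply (x : Fin ν → k) (hP : P.IsHomogeneous t) : dl t x P = eval x P := by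
  rw [dl, comp_apply_hom _ hP]; rfl

theorem act_dl (x : Fin ν → k) (hP : P.IsHomogeneous s) (t : ℕ) :
    act P (dl (t + s) x) = eval x P • dl t x := by
  refine sub_eq_zero.1 (Dg_ext (sub_mem (act_mem_Dg hP (dl_mem _ x))
    (Submodule.smul_mem _ _ (dl_mem t x))) fun Q hQ => ?_)
  rw [LinearMap.sub_apply, LinearMap.smul_apply, act_apply, dl_apply x hQ,
    dl_apply x (by rw [add_comm]; exact hP.mul hQ), map_mul, smul_eq_mul, sub_self]

theorem mem_span_dl {l₀ : Fin ν → k} (h : η ∈ Dg k ν t) (h1 : l₀ ⬝ᵥ x ≠ 0)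
    (h0 : ∀ l, l ⬝ᵥ x = 0 → act (LL l) η = 0) : η ∈ k ∙ dl t x := by
  obtain ⟨l₁, h2⟩ : ∃ l₁, l₁ ⬝ᵥ x = 1 := ⟨(l₀ ⬝ᵥ x)⁻¹ • l₀, by simp [h1]⟩
  have hX : ∀ a Q, η (X a * Q) = x a * η (LL l₁ * Q) := fun a Q => by
    have := LinearMap.congr_fun (h0 (Pi.single a 1 - x a • l₁) (by simp [h2])) Q
    rwa [act_apply, LL_sub, LL_smul, LL_single, sub_mul, map_sub, smul_mul_assoc, map_smul,
      LinearMap.zero_apply, sub_eq_zero] at this
  have hp : ∀ a (n : ℕ) Q, η (X a ^ n * Q) = x a ^ n * η (LL l₁ ^ n * Q) := fun a n => by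
    induction n with
    | zero => simp
    | succ n ih =>
      intro Q
      rw [pow_succ, mul_assoc, ih, mul_left_comm (LL l₁ ^ n), hX, pow_succ, pow_succ' (LL l₁),
        mul_assoc, mul_assoc]
  have hm : ∀ (S : Finset (Fin ν)) (α : Fin ν → ℕ) Q, η ((∏ a ∈ S, X a ^ α a) * Q) =
      (∏ a ∈ S, x a ^ α a) * η (LL l₁ ^ (∑ a ∈ S, α a) * Q) := fun S α => by
    induction S using Finset.induction_on with
    | empty => simp
    | insert a S ha ih =>
      intro Q
      rw [Finset.prod_insert ha, Finset.prod_insert ha, Finset.sum_insert ha, mul_assoc, hp,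
        mul_left_comm (LL l₁ ^ α a), ih, pow_add, mul_assoc, mul_left_comm (LL l₁ ^ ∑ a ∈ S, α a),
        mul_assoc (LL l₁ ^ α a)]
  refine Submodule.mem_span_singleton.2 ⟨η (LL l₁ ^ t), (sub_eq_zero.1 (Dg_ext
    (sub_mem h (Submodule.smul_mem _ _ (dl_mem t x))) fun P hP => ?_)).symm⟩
  rw [LinearMap.sub_apply, LinearMap.smul_apply, dl_apply x hP, ← formR_coeff hP, formR, map_sum,
    map_sum, Finset.smul_sum, ← Finset.sum_sub_distrib]
  refine Finset.sum_eq_zero fun m _ => ?_
  have e := hm Finset.univ m.1 1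
  rw [mul_one, mul_one, m.sum_eq] at e
  rw [monomial_eq, Finsupp.prod_fintype _ _ (by simp), ← smul_eq_C_mul, map_smul, e, smul_eval]
  simp only [map_prod, map_pow, eval_X, smul_eq_mul]
  ring

theorem mem_Van : l ∈ Van T ↔ ∀ x ∈ T, l ⬝ᵥ x = 0 := Iff.rfl

theorem NN_zero (T : Set (Fin ν → k)) : NN T 0 = ⊥ := rfl

theorem mem_NN_succ : η ∈ NN T (u + 1) ↔ ∀ l ∈ Van T, act (LL l) η ∈ NN T u := by
  simp [NN, Submodule.mem_iInf]

theorem act_mem_NN (P : MvPolynomial (Fin ν) k) (h : η ∈ NN T u) : act P η ∈ NN T u := by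
  induction u generalizing η with
  | zero => rw [NN_zero, Submodule.mem_bot] at h ⊢; rw [h, map_zero]
  | succ u ih => exact mem_NN_succ.2 fun l hl => act_comm P _ η ▸ ih (mem_NN_succ.1 h l hl)

theorem NN_le_succ (T : Set (Fin ν → k)) (u : ℕ) : NN T u ≤ NN T (u + 1) :=
  fun _ h => mem_NN_succ.2 fun _ _ => act_mem_NN _ h

theorem NN_mono (T : Set (Fin ν → k)) : Monotone (NN T) := monotone_nat_of_le_succ (NN_le_succ T)

theorem eq_zero_of_NN_empty (h : η ∈ Dg k ν t) (h' : η ∈ NN ∅ u) (hu : u ≤ t) : η = 0 := by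
  induction u generalizing η t with
  | zero => exact h'
  | succ u ih =>
    obtain ⟨t, rfl⟩ : ∃ t', t = t' + 1 := ⟨t - 1, by omega⟩
    exact eq_zero_of_LL h fun l => ih (act_mem_Dg (LL_hom l) h)
      (mem_NN_succ.1 h' l fun _ hx => hx.elim) (by omega)

theorem mem_Sat : η ∈ Sat Φ d s ↔ η ∈ Dg k ν (d + s) ∧
    ∀ P : MvPolynomial (Fin ν) k, P.IsHomogeneous s → act P η ∈ Φ := by
  simp [Sat, Submodule.mem_iInf]

theorem mem_Obs : η ∈ Obs Φ d s x ↔ η ∈ Dg k ν (d + s) ∧
    ∀ P : MvPolynomial (Fin ν) k, P.IsHomogeneous s → eval x P = 0 → act P η ∈ Φ := by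
  simp [Obs, Submodule.mem_iInf]

theorem Sat_le_Dg (Φ : Submodule k (DD k ν)) (d s : ℕ) : Sat Φ d s ≤ Dg k ν (d + s) := inf_le_left

theorem Obs_le_Dg (Φ : Submodule k (DD k ν)) (d s : ℕ) (x : Fin ν → k) :
    Obs Φ d s x ≤ Dg k ν (d + s) := inf_le_left

theorem Sat_le_Obs (Φ : Submodule k (DD k ν)) (d s : ℕ) (x : Fin ν → k) :
    Sat Φ d s ≤ Obs Φ d s x := fun _ h =>
  mem_Obs.2 ⟨(mem_Sat.1 h).1, fun P hP _ => (mem_Sat.1 h).2 P hP⟩

theorem Sat_zero_le (Φ : Submodule k (DD k ν)) (d : ℕ) : Sat Φ d 0 ≤ Φ := fun η h =>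
  act_one η ▸ (mem_Sat.1 h).2 1 (isHomogeneous_one _ _)

theorem act_mem_Sat (hP : P.IsHomogeneous t) (h : η ∈ Sat Φ d (s + t)) : act P η ∈ Sat Φ d s :=
  mem_Sat.2 ⟨act_mem_Dg hP (by rw [add_assoc]; exact (mem_Sat.1 h).1),
    fun Q hQ => act_mul Q P η ▸ (mem_Sat.1 h).2 _ (hQ.mul hP)⟩

theorem act_mem_Obs (hP : P.IsHomogeneous t) (h : η ∈ Obs Φ d (s + t) x) :
    act P η ∈ Obs Φ d s x :=
  mem_Obs.2 ⟨act_mem_Dg hP (by rw [add_assoc]; exact (mem_Obs.1 h).1),
    fun Q hQ h0 => act_mul Q P η ▸ (mem_Obs.1 h).2 _ (hQ.mul hP) (by rw [map_mul, h0, zero_mul])⟩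

theorem act_mem_Sat_of_Obs (hP : P.IsHomogeneous t) (h0 : eval x P = 0)
    (h : η ∈ Obs Φ d (s + t) x) : act P η ∈ Sat Φ d s :=
  mem_Sat.2 ⟨act_mem_Dg hP (by rw [add_assoc]; exact (mem_Obs.1 h).1),
    fun Q hQ => act_mul Q P η ▸ (mem_Obs.1 h).2 _ (hQ.mul hP) (by rw [map_mul, h0, mul_zero])⟩

end

end Pool.Agent.Lib.MP_45f16c_ag.AS
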