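import Pool.Agent.Lib.MP_45f16c_ag.AS.BA

/-! Basic facts on the parametrisation of subspaces. -/

set_option autoImplicit false
open MvPolynomial

namespace Pool.Agent.Lib.MP_45f16c_ag.AS

noncomputable section

variable {ν p d : ℕ}

section ring
variable {R R' : Type} [CommRing R] [CommRing R'] {e : Fin p → Fin ν}

/-- `lin0` as a linear map in the point. -/
def lin0L (e : Fin p → Fin ν) (A : Fin ν → Fin p → R) : (Fin p → R) →ₗ[R] (Fin ν → R) where
  toFun := lin0 e A
  map_add' y y' := funext fun a => by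
    simp only [lin0, Pi.add_apply]; split_ifs <;> simp [mul_add, Finset.sum_add_distrib]
  map_smul' c y := funext fun a => by
    simp only [lin0, Pi.smul_apply]; split_ifs <;> simp [Finset.mul_sum, mul_left_comm]

/-- `lin` as a linear map in the point. -/
def linL (e : Fin p → Fin ν) (A : Fin ν → Fin p → R) : (Fin p → R) →ₗ[R] (Fin ν → R) where
  toFun := lin e A
  map_add' y y' := funext fun a => by
    have h := congrFun ((lin0L e A).map_add y y') a
    simp only [lin0L, LinearMap.coe_mk, AddHom.coe_mk, Pi.add_apply] at h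
    simp only [lin, Pi.add_apply, h, ite_add_zero, Finset.sum_add_distrib]; ring
  map_smul' c y := funext fun a => by
    have h := congrFun ((lin0L e A).map_smul c y) a
    simp only [lin0L, LinearMap.coe_mk, AddHom.coe_mk, Pi.smul_apply] at h
    simp [lin, h, mul_add, Finset.mul_sum]

/-- `res` as a linear map in the point. -/
def resL (e : Fin p → Fin ν) (A : Fin ν → Fin p → R) : (Fin ν → R) →ₗ[R] (Fin ν → R) :=
  LinearMap.id - linL e A ∘ₗ LinearMap.funLeft R R e

theorem lin0L_apply (A : Fin ν → Fin p → R) (y : Fin p → R) : lin0L e A y = lin0 e A y := rfl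

theorem linL_apply (A : Fin ν → Fin p → R) (y : Fin p → R) : linL e A y = lin e A y := rfl

theorem resL_apply (A : Fin ν → Fin p → R) (x : Fin ν → R) : resL e A x = res e A x := rfl

theorem lin_smul (A : Fin ν → Fin p → R) (c : R) (y : Fin p → R) :
    lin e A (c • y) = c • lin e A y := (linL e A).map_smul c y

theorem lin_sub (A : Fin ν → Fin p → R) (y y' : Fin p → R) :
    lin e A (y - y') = lin e A y - lin e A y' := (linL e A).map_sub y y'

theorem lin_apply_e (he : Function.Injective e) (A : Fin ν → Fin p → R) (y : Fin p → R)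
    (i : Fin p) : lin e A y (e i) = y i := by
  simp [lin, lin0, he.eq_iff]

theorem lin_apply_not (A : Fin ν → Fin p → R) (y : Fin p → R) {a : Fin ν} (h : ¬∃ i, e i = a) :
    lin e A y a = ∑ i, A a i * y i := by
  rw [lin, lin0, if_neg h, Finset.sum_eq_zero fun i _ => if_neg fun h' => h ⟨i, h'⟩, zero_add]

theorem lin_id (A : Fin ν → Fin ν → R) (y : Fin ν → R) : lin id A y = y :=
  funext fun a => lin_apply_e Function.injective_id A y a

theorem map_lin (φ : R →+* R') (A : Fin ν → Fin p → R) (y : Fin p → R) (a : Fin ν) :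
    φ (lin e A y a) = lin e (fun a i => φ (A a i)) (fun i => φ (y i)) a := by
  simp only [lin, lin0, map_add, map_sum, apply_ite φ, map_zero, map_mul]

theorem map_res (φ : R →+* R') (A : Fin ν → Fin p → R) (x : Fin ν → R) (a : Fin ν) :
    φ (res e A x a) = res e (fun a i => φ (A a i)) (fun a => φ (x a)) a := by
  simp only [res, Pi.sub_apply, map_sub, map_lin]

end ring

variable {e : Fin p → Fin ν}

theorem norm_sum_mul_le (A : Fin ν → Fin p → ℂ) (y : Fin p → ℂ) (a : Fin ν) :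
    ‖∑ i, A a i * y i‖ ≤ p * ‖A‖ * ‖y‖ :=
  (norm_lf_le (A a) y).trans (by gcongr; exact norm_le_pi_norm A a)

theorem norm_lin0_le (A : Fin ν → Fin p → ℂ) (y : Fin p → ℂ) : ‖lin0 e A y‖ ≤ p * ‖A‖ * ‖y‖ := by
  refine (pi_norm_le_iff_of_nonneg (by positivity)).2 fun a => ?_
  rw [lin0]
  split_ifs
  · rw [norm_zero]; positivity
  · exact norm_sum_mul_le A y a

theorem norm_lin_le (he : Function.Injective e) (A : Fin ν → Fin p → ℂ) (y : Fin p → ℂ) :
    ‖lin e A y‖ ≤ (p * ‖A‖ + 1) * ‖y‖ := by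
  refine (pi_norm_le_iff_of_nonneg (by positivity)).2 fun a => ?_
  have h0 : 0 ≤ p * ‖A‖ * ‖y‖ := by positivity
  by_cases h : ∃ i, e i = a
  · obtain ⟨i, rfl⟩ := h
    rw [lin_apply_e he]
    linarith [norm_le_pi_norm y i]
  · rw [lin_apply_not A y h]
    linarith [norm_sum_mul_le A y a, norm_nonneg y]

theorem norm_le_norm_lin (he : Function.Injective e) (A : Fin ν → Fin p → ℂ) (y : Fin p → ℂ) :
    ‖y‖ ≤ ‖lin e A y‖ :=
  (pi_norm_le_iff_of_nonneg (norm_nonneg _)).2 fun i =>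
    lin_apply_e he A y i ▸ norm_le_pi_norm (lin e A y) (e i)

theorem norm_comp_le (e : Fin p → Fin ν) (x : Fin ν → ℂ) : ‖fun i => x (e i)‖ ≤ ‖x‖ :=
  (pi_norm_le_iff_of_nonneg (norm_nonneg _)).2 fun i => norm_le_pi_norm x (e i)

theorem norm_res_le (he : Function.Injective e) {A : Fin ν → Fin p → ℂ} (hA : ‖A‖ ≤ 1)
    (x : Fin ν → ℂ) : ‖res e A x‖ ≤ (p + 2) * ‖x‖ := by
  have h1 : ‖lin e A fun i => x (e i)‖ ≤ (p * 1 + 1) * ‖x‖ :=
    (norm_lin_le he A _).trans (by gcongr; exact norm_comp_le e x)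
  have h2 := norm_sub_le x (lin e A fun i => x (e i))
  rw [res]
  linarith

section pd
variable {𝕜 : Type} [NontriviallyNormedField 𝕜] [NormedAlgebra 𝕜 ℂ] {E : Type}
  [NormedAddCommGroup E] [NormedSpace 𝕜 E] {n n' : ℕ} {A : E → Fin ν → Fin p → ℂ}
  {y : E → Fin p → ℂ}

theorem pd_lin0 (hA : ∀ a i, PD 𝕜 n fun v => A v a i) (hy : ∀ i, PD 𝕜 n' fun v => y v i)
    (a : Fin ν) : PD 𝕜 (n + n') fun v => lin0 e (A v) (y v) a :=
  PD.ite _ (PD.const' _ _) (PD.sum _ fun i _ => (hA a i).mul (hy i))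

theorem pd_lin (hA : ∀ a i, PD 𝕜 n fun v => A v a i) (hy : ∀ i, PD 𝕜 n' fun v => y v i)
    (a : Fin ν) : PD 𝕜 (n + n') fun v => lin e (A v) (y v) a :=
  (PD.sum _ fun i _ => PD.ite _ ((hy i).mono (Nat.le_add_left _ _)) (PD.const' _ _)).add
    (pd_lin0 hA hy a)

end pd

theorem vv_eq {ι : Type} (s : ι → Mon ν d → ℂ) (x : Fin ν → ℂ) (i : ι) :
    vv s x i = eval x (form (s i)) := rfl

theorem vv_smul {ι : Type} (s : ι → Mon ν d → ℂ) (a : ℂ) (x : Fin ν → ℂ) :
    vv s (a • x) = a ^ d • vv s x := funext fun i => by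
  rw [Pi.smul_apply, vv_eq, vv_eq, eval_form_smul, smul_eq_mul]

theorem norm_vv_le {ι : Type} [Fintype ι] (s : ι → Mon ν d → ℂ) (x : Fin ν → ℂ) :
    ‖vv s x‖ ≤ Fintype.card (Mon ν d) * ‖s‖ * ‖x‖ ^ d :=
  (pi_norm_le_iff_of_nonneg (by positivity)).2 fun i => by
    rw [vv_eq]
    exact (norm_eval_form_le (s i) x).trans (by gcongr; exact norm_le_pi_norm s i)

end

end Pool.Agent.Lib.MP_45f16c_ag.AS
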