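import Pool.Agent.Lib.MP_45f16c_ag.AS.BL

-- part Pool.Agent.Lib.MP_45f16c_ag.AS.Sh
section

/-! Shadows of families of monomials. -/

set_option autoImplicit false
open Metric MeasureTheory MvPolynomial Filter Module
open scoped ComplexConjugate Matrix Topology

namespace Pool.Agent.Lib.MP_45f16c_ag.AS

noncomputable section

namespace ShAux

theorem split {ι : Type} [DecidableEq ι] (y : ι) (F : Finset (ι → ℕ)) :
    ∃ F' : Finset (ι → ℕ), (∀ β, β ∈ F' ↔ β + Pi.single y 1 ∈ F) ∧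
      F.card = (F.filter fun α => α y = 0).card + F'.card := by
  refine ⟨F.preimage (· + Pi.single y 1) (add_left_injective _).injOn,
    fun β => Finset.mem_preimage, ?_⟩
  rw [← Finset.card_filter_add_card_filter_not (fun α : ι → ℕ => α y = 0), add_right_inj]
  refine (Finset.card_bij (fun β _ => β + Pi.single y 1) (fun β h => ?_)
    (fun _ _ _ _ h => add_left_injective _ h) fun α h => ?_).symm
  · exact Finset.mem_filter.2 ⟨(Finset.mem_preimage.1 h :), by simp⟩
  · obtain ⟨h1, h2⟩ := Finset.mem_filter.1 h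
    have e : α - Pi.single y 1 + Pi.single y 1 = α := tsub_add_cancel_of_le fun i => by
      rcases eq_or_ne i y with rfl | k
      · simpa using Nat.one_le_iff_ne_zero.2 h2
      · simp [k]
    exact ⟨α - Pi.single y 1, Finset.mem_preimage.2 (by rwa [e]), e⟩

theorem zero {a n : ℕ} (h : a ≤ n) : (a : ℤ) * ((0 : ℕ) + 2 - a) ≤ n := by
  have h1 : (a : ℤ) ≤ n := by exact_mod_cast h
  rcases Nat.eq_zero_or_pos a with rfl | k
  · simp
  · have h2 : (1 : ℤ) ≤ a := by exact_mod_cast k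
    push_cast
    nlinarith

end ShAux

theorem shS : ShStmt := by
  intro ι _ s
  induction s using Finset.induction_on with
  | empty =>
    intro u a F G h1 _ h3
    rcases u with _ | u
    · exact ShAux.zero (by omega)
    · obtain rfl : F = ∅ := Finset.eq_empty_of_forall_notMem fun α h => by simpa using h1 α h
      obtain rfl : a = 0 := by simpa using (le_add_self.trans h3 :)
      simp
  | insert y s hy ih =>
    intro u
    induction u with
    | zero => exact fun a F G _ _ h3 => ShAux.zero (by omega)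
    | succ u iu =>
      intro a F G h1 h2 h3
      obtain ⟨F', f1, f2⟩ := ShAux.split y F
      obtain ⟨G', g1, g2⟩ := ShAux.split y G
      have c1 : F'.card ≤ G.card :=
        Finset.card_le_card fun β h => h2 β y (Finset.mem_insert_self _ _) ((f1 β).1 h)
      have k1 := fun δ => ih (u + 1) δ (F.filter fun α => α y = 0) (G.filter fun α => α y = 0)
        (fun α h => by
          have := h1 α (Finset.mem_filter.1 h).1
          rwa [Finset.sum_insert hy, (Finset.mem_filter.1 h).2, zero_add] at this)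
        fun β i hi h => Finset.mem_filter.2
          ⟨h2 β i (Finset.mem_insert_of_mem hi) (Finset.mem_filter.1 h).1,
            (Nat.add_eq_zero_iff.1 (Finset.mem_filter.1 h).2).1⟩
      have k2 := fun δ => iu δ F' G' (fun α h => by
          simpa [Finset.sum_add_distrib] using h1 _ ((f1 α).1 h))
        fun β i hi h => (g1 β).2 (h2 _ i hi (by rw [add_right_comm]; exact (f1 _).1 h))
      rw [f2, g2] at h3
      rw [g2] at c1
      rw [f2]
      generalize (F.filter fun α => α y = 0).card = f, (G.filter fun α => α y = 0).card = g,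
        F'.card = f', G'.card = g' at *
      by_cases c2 : g + a ≤ f
      · exact (k1 a c2).trans (by exact_mod_cast Nat.le_add_right f f')
      · by_cases c3 : f ≤ g
        · have k3 := k2 a (by omega)
          have k4 : (a : ℤ) ≤ f := by omega
          push_cast
          linarith
        · obtain ⟨δ, rfl⟩ := Nat.exists_eq_add_of_lt (not_le.1 c3)
          obtain ⟨b, rfl⟩ : ∃ b, a = δ + 1 + b := ⟨a - (δ + 1), by omega⟩
          have k3 := k1 (δ + 1) (by omega)
          have k4 := k2 b (by omega)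
          have k5 : (0 : ℤ) ≤ b * (2 * δ + 1) := by positivity
          push_cast at k3 k4 ⊢
          linarith

end

end Pool.Agent.Lib.MP_45f16c_ag.AS
end

-- part Pool.Agent.Lib.MP_45f16c_ag.AS.Mac
section

/-! A Macaulay type bound. -/

set_option autoImplicit false
open Metric MeasureTheory MvPolynomial Filter Module
open scoped ComplexConjugate Matrix Topology

namespace Pool.Agent.Lib.MP_45f16c_ag.AS

noncomputable section

namespace MacAux

variable {k Ω L V : Type} [Field k] [LinearOrder L] [AddCommGroup V] [Module k V]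

/-- Leading indices of a subspace. -/
def Ld (key : Ω → L) (κ : V →ₗ[k] Ω → k) (P : Submodule k V) (w : Ω) : Prop :=
  ∃ v ∈ P, κ v w ≠ 0 ∧ ∀ w', key w < key w' → κ v w' = 0

variable {key : Ω → L} {κ : V →ₗ[k] Ω → k} {P : Submodule k V}

open Classical in
theorem le_card (B : Finset Ω) (hB : ∀ v ∈ P, ∀ w, κ v w ≠ 0 → w ∈ B)
    (hκ : ∀ v, (∀ w, κ v w = 0) → v = 0) : finrank k P ≤ (B.filter (Ld key κ P)).card := by
  rw [← Fintype.card_coe, ← finrank_fintype_fun_eq_card k]
  refine LinearMap.finrank_le_finrank_of_injective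
    (f := LinearMap.funLeft k k Subtype.val ∘ₗ κ ∘ₗ P.subtype)
    ((injective_iff_map_eq_zero _).2 fun v hv => Subtype.ext (hκ _ fun w => by_contra fun hw => ?_))
  obtain ⟨z, hz, h⟩ := (B.filter fun w => κ v w ≠ 0).exists_max_image key
    ⟨w, Finset.mem_filter.2 ⟨hB _ v.2 w hw, hw⟩⟩
  rw [Finset.mem_filter] at hz
  exact hz.2 (congrFun hv ⟨z, Finset.mem_filter.2 ⟨hz.1, v, v.2, hz.2, fun w' hw' =>
    by_contra fun e => hw'.not_ge (h w' (Finset.mem_filter.2 ⟨hB _ v.2 w' e, e⟩))⟩⟩)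

theorem card_le [FiniteDimensional k P] (hk : Function.Injective key) (F : Finset Ω)
    (h : ∀ w ∈ F, Ld key κ P w) : F.card ≤ finrank k P := by
  classical
  choose v hv h1 h2 using fun w : F => h w w.2
  rw [← Fintype.card_coe]
  refine LinearIndependent.fintype_card_le_finrank (b := fun w => (⟨v w, hv w⟩ : P))
    (Fintype.linearIndependent_iff.2 fun g hg w => by_contra fun hw => ?_)
  obtain ⟨z, hz, h3⟩ := (Finset.univ.filter fun w => g w ≠ 0).exists_max_image
    (fun w => key w) ⟨w, by simpa using hw⟩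
  have e := congrArg (fun x : P => κ x z) hg
  simp only [Submodule.coe_sum, Submodule.coe_smul, map_sum, map_smul, Finset.sum_apply,
    Pi.smul_apply, smul_eq_mul, Submodule.coe_zero, map_zero, Pi.zero_apply] at e
  rw [Finset.sum_eq_single z (fun y _ hy => ?_) (by simp)] at e
  · exact mul_ne_zero (by simpa using hz) (h1 z) e
  · by_cases hy' : g y = 0
    · rw [hy', zero_mul]
    · rw [h2 y z ((h3 y (by simpa using hy')).lt_of_ne fun e => hy (Subtype.ext (hk e))), mul_zero]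

variable {ν N : ℕ} (b : Fin N → Fin ν → k)

/-- Monomials in a family of linear forms. -/
def mono (α : Fin N → ℕ) : MvPolynomial (Fin ν) k := ∏ i, LL (b i) ^ α i

theorem mono_add (α : Fin N → ℕ) (i : Fin N) :
    mono b (α + Pi.single i 1) = LL (b i) * mono b α := by
  simp only [mono, Pi.add_apply, pow_add, Finset.prod_mul_distrib]
  rw [mul_comm, Finset.prod_eq_single i (fun j _ hj => by simp [hj]) (by simp)]
  simp

/-- The values on the monomials. -/
def kap : DD k ν →ₗ[k] (Fin N → ℕ) → k := LinearMap.pi fun α => LinearMap.applyₗ (mono b α)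

theorem kap_act (η : DD k ν) (α : Fin N → ℕ) (i : Fin N) :
    kap b (act (LL (b i)) η) α = kap b η (α + Pi.single i 1) := congrArg η (mono_add b α i).symm

theorem supp {η : DD k ν} {t : ℕ} (h : η ∈ Dg k ν t) (α : Fin N → ℕ) (h0 : kap b η α ≠ 0) :
    α ∈ Finset.piAntidiag Finset.univ t :=
  Finset.mem_piAntidiag.2 ⟨by_contra fun e => h0 (h _ _
    (IsHomogeneous.prod _ _ _ fun i _ => LL_pow_hom (b i) (α i)) e), fun i _ => Finset.mem_univ i⟩

theorem mem_NN {T : Set (Fin ν → k)} {s : Finset (Fin N)} (h1 : ∀ a, ∃ i, b i = Pi.single a 1)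
    (h2 : Van T ≤ Submodule.span k (b '' s)) (u : ℕ) (η : DD k ν)
    (h : ∀ α, u ≤ ∑ i ∈ s, α i → kap b η α = 0) : η ∈ NN T u := by
  induction u generalizing η with
  | zero =>
    have key : ∀ (P : MvPolynomial (Fin ν) k) α, η (P * mono b α) = 0 := fun P => by
      induction P using MvPolynomial.induction_on with
      | C c =>
        intro α
        rw [C_mul', map_smul]
        exact smul_eq_zero_of_right c (h α (Nat.zero_le _))
      | add p q hp hq =>
        intro α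
        rw [add_mul, map_add, hp, hq, add_zero]
      | mul_X p a hp =>
        intro α
        obtain ⟨i, hi⟩ := h1 a
        rw [mul_assoc, ← LL_single, ← hi, ← mono_add, hp]
    exact LinearMap.ext fun P => by simpa [mono] using key P 0
  | succ u ih =>
    refine mem_NN_succ.2 fun l hl => (h2.trans (Submodule.span_le.2 ?_) hl :
      l ∈ (NN T u).comap (actL η ∘ₗ LLm k ν))
    rintro _ ⟨i, hi, rfl⟩
    refine ih (act (LL (b i)) η) fun α hα => (kap_act b η α i).trans (h _ ?_)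
    simpa [Finset.sum_add_distrib, Finset.mem_coe.1 hi] using hα

/-- The order on the exponents. -/
def ky (s : Finset (Fin N)) (α : Fin N → ℕ) : ℕ ×ₗ Lex (Fin N → ℕ) :=
  toLex (∑ i ∈ s, α i, toLex α)

theorem ky_add {s : Finset (Fin N)} {α β : Fin N → ℕ} (h : ky s α < ky s β) (γ : Fin N → ℕ) :
    ky s (α + γ) < ky s (β + γ) := by
  simp only [ky, Prod.Lex.toLex_lt_toLex, Pi.add_apply, Finset.sum_add_distrib,
    add_lt_add_iff_right, add_left_inj] at h ⊢
  exact h.imp id fun ⟨e, i, h1, h2⟩ =>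
    ⟨e, i, fun j hj => congrArg (· + γ j) (h1 j hj), Nat.add_lt_add_right h2 _⟩

end MacAux

open MacAux in
theorem macS (hS : ShStmt) : MacStmt := by
  classical
  intro k _ ν t u a T Ψ Φ hΨ hΦ hact hlt
  obtain ⟨m, c, hc⟩ := Submodule.fg_iff_exists_fin_generating_family.1
    (IsNoetherian.noetherian (Van T))
  let b : Fin (m + ν) → Fin ν → k := Fin.append c fun a => Pi.single a 1
  let s := Finset.univ.filter fun i => b i ∈ Van T
  have hN := mem_NN b (T := T) (s := s) (fun a => ⟨_, Fin.append_right _ _ a⟩) (by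
    rw [← hc]
    refine Submodule.span_mono ?_
    rintro _ ⟨j, rfl⟩
    have e : b (Fin.castAdd ν j) = c j := Fin.append_left _ _ j
    refine ⟨_, Finset.mem_coe.2 (Finset.mem_filter.2 ⟨Finset.mem_univ _, ?_⟩), e⟩
    rw [e, ← hc]
    exact Submodule.subset_span ⟨j, rfl⟩)
  have hk : Function.Injective (ky s) := fun α β e => congrArg (fun x => (ofLex x).2) e
  have := finite_of_le hΦ
  have := finite_of_le (inf_le_left.trans hΨ : Ψ ⊓ NN T u ≤ _)
  have h1 := le_card (key := ky s) (κ := kap b) _ (fun v hv => supp b (hΨ hv))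
    fun v hv => hN 0 v fun α _ => hv α
  by_contra hn
  rw [← Finset.card_filter_add_card_filter_not fun α => u ≤ ∑ i ∈ s, α i] at h1
  have h2 := card_le (κ := kap b) (P := Ψ ⊓ NN T u) hk
    (((Finset.piAntidiag Finset.univ (t + 1)).filter (Ld (ky s) (kap b) Ψ)).filter
      fun α => ¬ u ≤ ∑ i ∈ s, α i) fun w hw => by
      obtain ⟨hw, hu⟩ := Finset.mem_filter.1 hw
      obtain ⟨v, hv, e1, e2⟩ := (Finset.mem_filter.1 hw).2
      exact ⟨v, ⟨hv, hN u v fun α hα => e2 α
        (Prod.Lex.toLex_lt_toLex.2 (.inl ((not_le.1 hu).trans_le hα)))⟩, e1, e2⟩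
  obtain ⟨F, hF, e⟩ := Finset.exists_subset_card_eq
    (Nat.le_of_add_le_add_right (((not_lt.1 hn).trans h1).trans (Nat.add_le_add_left h2 _)))
  have h3 := card_le (κ := kap b) (P := Φ) hk
    ((Finset.piAntidiag Finset.univ t).filter (Ld (ky s) (kap b) Φ))
    fun w hw => (Finset.mem_filter.1 hw).2
  have h4 := hS _ s u a F _ (fun α hα => (Finset.mem_filter.1 (hF hα)).2) (fun β i hi hβ => by
    obtain ⟨v, hv, e1, e2⟩ := (Finset.mem_filter.1 (Finset.mem_filter.1 (hF hβ)).1).2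
    have hm := hact _ (Finset.mem_filter.1 hi).2 v hv
    rw [← kap_act] at e1
    exact Finset.mem_filter.2 ⟨supp b (hΦ hm) β e1, _, hm, e1, fun w hw =>
      (kap_act b v w i).trans (e2 _ (ky_add hw _))⟩) (e ▸ Nat.add_le_add_right h3 a)
  rcases le_total a (u + 1) with ha | ha
  · zify [ha] at hlt e
    linarith
  · rw [Nat.sub_eq_zero_of_le ha] at hlt
    exact Nat.not_lt_zero _ hlt

theorem satS (hM : MacStmt) : SatStmt := by
  intro k _ ν d e Φ hΦ he hd s
  induction s with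
  | zero =>
    have := finite_of_le hΦ
    exact (Submodule.finrank_mono (Sat_zero_le Φ d)).trans he
  | succ s ih =>
    have h := hM k ν (d + s) (d + s + 1) 1 ∅ (Sat Φ d (s + 1)) (Sat Φ d s) (Sat_le_Dg _ _ _)
      (Sat_le_Dg _ _ _) (fun l _ η hη => act_mem_Sat (LL_hom l) hη) (by omega)
    rw [(Submodule.eq_bot_iff (Sat Φ d (s + 1) ⊓ NN ∅ (d + s + 1))).2 fun η hη =>
      eq_zero_of_NN_empty (Sat_le_Dg _ _ _ hη.1) hη.2 le_rfl, finrank_bot] at h
    omega

end

end Pool.Agent.Lib.MP_45f16c_ag.AS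
end

-- part Pool.Agent.Lib.MP_45f16c_ag.AS.Ind
section

/-! Independence of functionals supported near subspaces. -/

set_option autoImplicit false
open Metric MeasureTheory MvPolynomial Filter Module
open scoped ComplexConjugate Matrix Topology

namespace Pool.Agent.Lib.MP_45f16c_ag.AS

noncomputable section

namespace IndAux

variable {k : Type} [Field k] {ν : ℕ}

theorem ind1 {V T : Set (Fin ν → k)} (hV : ∀ l, ∃ l' ∈ V, l - l' ∈ Van T) (u : ℕ) :
    ∀ (t : ℕ) (η : DD k ν), η ∈ Dg k ν t → η ∈ NN T u → u ≤ t →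
      (∀ l ∈ V, act (LL l) η = 0) → η = 0 := by
  induction u with
  | zero => exact fun _ _ _ h _ _ => h
  | succ u ih =>
    intro t η h h' hu h0
    obtain ⟨t, rfl⟩ : ∃ t', t = t' + 1 := ⟨t - 1, by omega⟩
    refine eq_zero_of_LL h fun l => ?_
    obtain ⟨l', hl, hl'⟩ := hV l
    have e := ih t _ (act_mem_Dg (LL_hom (l - l')) h) (mem_NN_succ.1 h' _ hl') (by omega)
      fun m hm => by rw [act_comm, h0 m hm, map_zero]
    rwa [LL_sub, act_sub_left, h0 l' hl, sub_zero] at e

theorem inner {I : Type} {T : I → Set (Fin ν → k)} {i₀ : I} {J : Finset I}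
    (hV : ∀ l, ∃ l', (∀ i ∈ J, l' ∈ Van (T i)) ∧ l - l' ∈ Van (T i₀)) {u t : ℕ} {η : DD k ν}
    (h : η ∈ Dg k ν t) (h' : η ∈ NN (T i₀) u) (h0 : η ≠ 0) (hu : 0 < u) (v : ℕ)
    (hv : u + v ≤ t + 1) :
    ∃ P : MvPolynomial (Fin ν) k, P.IsHomogeneous v ∧ act P η ≠ 0 ∧
      ∀ i ∈ J, ∀ w ψ, ψ ∈ NN (T i) (w + v) → act P ψ ∈ NN (T i) w := by
  induction v with
  | zero =>
    exact ⟨1, isHomogeneous_one _ _, by rwa [act_one], fun i _ w ψ hψ => by rwa [act_one]⟩
  | succ v ih =>
    obtain ⟨P, hP, hP0, hP1⟩ := ih (by omega)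
    obtain ⟨t, rfl⟩ : ∃ t', t = t' + v := ⟨t - v, by omega⟩
    by_contra hc
    refine hP0 (ind1 (V := {l | ∀ i ∈ J, l ∈ Van (T i)}) hV u t _ (act_mem_Dg hP h)
      (act_mem_NN P h') (by omega) fun l hl => ?_)
    by_contra hl0
    refine hc ⟨LL l * P, by rw [add_comm]; exact (LL_hom l).mul hP, by rwa [act_mul],
      fun i hi w ψ hψ => ?_⟩
    rw [act_mul]
    exact mem_NN_succ.1 (hP1 i hi (w + 1) ψ (by rwa [add_right_comm, add_assoc])) l (hl i hi)

theorem ind2 {I : Type} {T : I → Set (Fin ν → k)} {γ u : ℕ} {i₀ : I}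
    (hV : ∀ J : Finset I, i₀ ∉ J → J.card ≤ γ →
      ∀ l, ∃ l', (∀ i ∈ J, l' ∈ Van (T i)) ∧ l - l' ∈ Van (T i₀)) (G : ℕ) :
    ∀ (t : ℕ) (J : Finset I) (ψ : I → DD k ν), i₀ ∉ J → J.card ≤ γ * G →
      u * (G + 1) ≤ t + 1 → (∀ i, ψ i ∈ Dg k ν t) → (∀ i, ψ i ∈ NN (T i) u) →
      ψ i₀ + ∑ i ∈ J, ψ i = 0 → ψ i₀ = 0 := by
  classical
  induction G with
  | zero =>
    intro t J ψ _ hJ _ _ _ h
    rwa [Finset.card_eq_zero.1 (by omega : J.card = 0), Finset.sum_empty, add_zero] at h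
  | succ G ih =>
    intro t J ψ hi hJ hu hD hN h
    rcases Nat.eq_zero_or_pos u with rfl | hu0
    · exact hN i₀
    by_contra h0
    have hu' : u * (G + 1) + u ≤ t + 1 := by rwa [← Nat.mul_succ]
    have hu1 : u ≤ u * (G + 1) := Nat.le_mul_of_pos_right u (Nat.succ_pos G)
    obtain ⟨J₁, hJ₁, hc⟩ := Finset.exists_subset_card_eq (min_le_right γ J.card)
    obtain ⟨P, hP, hP0, hP1⟩ := inner (hV J₁ (fun h => hi (hJ₁ h)) (by omega)) (hD i₀) (hN i₀)
      h0 hu0 u (by omega)
    obtain ⟨t, rfl⟩ : ∃ t', t = t' + u := ⟨t - u, by omega⟩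
    refine hP0 (ih t (J \ J₁) (fun i => act P (ψ i)) (fun h => hi (Finset.mem_sdiff.1 h).1) ?_
      (by omega) (fun i => act_mem_Dg hP (hD i)) (fun i => act_mem_NN P (hN i)) ?_)
    · rw [Finset.card_sdiff_of_subset hJ₁, hc]
      rw [Nat.mul_succ] at hJ
      omega
    · have e := congrArg (act P) h
      rw [map_zero, map_add, map_sum, ← Finset.sum_sdiff hJ₁,
        Finset.sum_eq_zero (s := J₁) fun i hi => hP1 i hi 0 _ (by rw [zero_add]; exact hN i),
        add_zero] at e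
      exact e

end IndAux

theorem indS : IndStmt := by
  classical
  intro k _ ν t u G γ I _ T hV hI hu Φ hΦ
  have := finite_of_le hΦ
  have : ∀ i, Module.Free k (Φ ⊓ NN (T i) u : Submodule k (DD k ν)) := fun i =>
    Module.Free.of_divisionRing k (Φ ⊓ NN (T i) u : Submodule k (DD k ν))
  have : ∀ i, FiniteDimensional k (Φ ⊓ NN (T i) u : Submodule k (DD k ν)) := fun i =>
    finite_of_le (inf_le_left.trans hΦ)
  rw [← Module.finrank_pi_fintype]
  refine LinearMap.finrank_le_finrank_of_injective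
    (f := ∑ i, Submodule.inclusion (inf_le_left : Φ ⊓ NN (T i) u ≤ Φ) ∘ₗ LinearMap.proj i)
    ((injective_iff_map_eq_zero _).2 fun ψ h => funext fun i₀ => Subtype.ext ?_)
  refine IndAux.ind2 (hV i₀) G t (Finset.univ.erase i₀) (fun i => (ψ i : DD k ν)) (by simp) ?_ hu
    (fun i => hΦ (ψ i).2.1) (fun i => (ψ i).2.2) ?_
  · rw [Finset.card_erase_of_mem (Finset.mem_univ _), Finset.card_univ]; omega
  · rw [Finset.add_sum_erase _ (fun i => (ψ i : DD k ν)) (Finset.mem_univ _)]
    have e := congrArg Subtype.val h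
    rw [LinearMap.sum_apply, Submodule.coe_sum] at e
    exact e

end

end Pool.Agent.Lib.MP_45f16c_ag.AS
end

-- part Pool.Agent.Lib.MP_45f16c_ag.AS.Gc
section

/-! Vanishing of obstructions in large degree. -/

set_option autoImplicit false
open Metric MeasureTheory MvPolynomial Filter Module
open scoped ComplexConjugate Matrix Topology

namespace Pool.Agent.Lib.MP_45f16c_ag.AS

noncomputable section

namespace GcAux

variable {k : Type} [Field k] {ν d : ℕ} {Φ : Submodule k (DD k ν)} {x l : Fin ν → k}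

theorem stab (a : ℕ → ℕ) {e : ℕ} (h : a 0 ≤ e) : ∃ m ≤ e, a m ≤ a (m + 1) := by
  by_contra! hc
  have key : ∀ m ≤ e + 1, a m + m ≤ e := fun m => by
    induction m with
    | zero => exact fun _ => h
    | succ m ih => exact fun hm => by have := ih (by omega); have := hc m (by omega); omega
  have := key (e + 1) le_rfl
  omega

theorem det_kill {ι : Type} [Fintype ι] [DecidableEq ι] (M : Matrix ι ι (MvPolynomial (Fin ν) k))
    (g : ι → DD k ν) (h : ∀ i, ∑ j, act (M i j) (g j) = 0) (j : ι) : act M.det (g j) = 0 := by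
  have : ∑ a, act ((M.adjugate * M) j a) (g a) = 0 := by
    simp only [Matrix.mul_apply, act_sum_left, act_mul]
    rw [Finset.sum_comm]
    exact Finset.sum_eq_zero fun i _ => by rw [← map_sum, h, map_zero]
  rwa [Matrix.adjugate_mul, Finset.sum_eq_single j (fun a _ ha => by
    rw [Matrix.smul_apply, Matrix.one_apply_ne ha.symm, smul_zero, act_zero_left]) (by simp),
    Matrix.smul_apply, Matrix.one_apply_eq, smul_eq_mul, mul_one] at this

theorem det_hom {b : ℕ} (c : Fin b → Fin b → Fin ν → k) :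
    (Matrix.of fun i j => LL (c i j)).det.IsHomogeneous b := by
  rw [Matrix.det_apply]
  refine (homogeneousSubmodule (Fin ν) k b).sum_mem fun σ _ => ?_
  rw [Units.smul_def]
  refine zsmul_mem ?_ _
  simpa using IsHomogeneous.prod Finset.univ (fun i => LL (c (σ i) i)) (fun _ => 1)
    fun i _ => LL_hom _

/-- The image under all linear forms which vanish at `x`. -/
def AA (x : Fin ν → k) (Z : Submodule k (DD k ν)) : Submodule k (DD k ν) :=
  ⨆ l ∈ Van {x}, Z.map (act (LL l))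

theorem mem_AA {Z : Submodule k (DD k ν)} {η : DD k ν} (hl : l ∈ Van {x}) (h : η ∈ Z) :
    act (LL l) η ∈ AA x Z :=
  Submodule.mem_iSup_of_mem l (Submodule.mem_iSup_of_mem hl (Submodule.mem_map_of_mem h))

theorem AA_le {Z Z' : Submodule k (DD k ν)}
    (h : ∀ l ∈ Van {x}, ∀ η ∈ Z, act (LL l) η ∈ Z') : AA x Z ≤ Z' :=
  iSup₂_le fun l hl => Submodule.map_le_iff_le_comap.2 (h l hl)

theorem AA_step {Z Z' : Submodule k (DD k ν)} {P : MvPolynomial (Fin ν) k}
    (h : Z' ≤ Z.map (act P)) : AA x Z' ≤ (AA x Z).map (act P) := AA_le fun l hl η hη => by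
  obtain ⟨z, hz, rfl⟩ := h hη
  exact ⟨_, mem_AA hl hz, act_comm _ _ _⟩

theorem AA_sum {ι : Type} [Fintype ι] (g : ι → DD k ν) {η : DD k ν}
    (h : η ∈ AA x (Submodule.span k (Set.range g))) :
    ∃ c : ι → Fin ν → k, (∀ j, c j ∈ Van {x}) ∧ η = ∑ j, act (LL (c j)) (g j) := by
  let R : Submodule k (DD k ν) :=
    { carrier := {η | ∃ c : ι → Fin ν → k, (∀ j, c j ∈ Van {x}) ∧ η = ∑ j, act (LL (c j)) (g j)}
      add_mem' := by
        rintro _ _ ⟨c, a, rfl⟩ ⟨c', a', rfl⟩
        exact ⟨c + c', fun j => add_mem (a j) (a' j), by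
          simp only [Pi.add_apply, LL_add, act_add_left, Finset.sum_add_distrib]⟩
      zero_mem' := ⟨0, fun _ => zero_mem _, (Finset.sum_eq_zero fun j _ => by
        rw [Pi.zero_apply, ← LLm_apply, map_zero, act_zero_left]).symm⟩
      smul_mem' := by
        rintro t _ ⟨c, a, rfl⟩
        exact ⟨t • c, fun j => Submodule.smul_mem _ t (a j), by
          simp only [Pi.smul_apply, LL_smul, act_smul_left, Finset.smul_sum]⟩ }
  refine (AA_le (Z' := R) fun l hl z hz => ?_) h
  obtain ⟨t, rfl⟩ := (Submodule.mem_span_range_iff_exists_fun k).1 hz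
  exact ⟨fun j => t j • l, fun j => Submodule.smul_mem _ _ hl, by
    simp only [map_sum, map_smul, LL_smul, act_smul_left]⟩

theorem kill (hl : l ⬝ᵥ x = 1) (Z : Submodule k (DD k ν)) [FiniteDimensional k Z]
    (h : Z.map (act (LL l)) ≤ AA x Z) : ∃ P : MvPolynomial (Fin ν) k,
      P.IsHomogeneous (finrank k Z) ∧ eval x P = 1 ∧ ∀ z ∈ Z, act P z = 0 := by
  have : Module.Free k Z := Module.Free.of_divisionRing k Z
  let g : Fin (finrank k Z) → DD k ν := fun j => finBasis k Z j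
  have hZ : Submodule.span k (Set.range g) = Z := by
    rw [show g = Z.subtype ∘ finBasis k Z from rfl, Set.range_comp, ← Submodule.map_span,
      Basis.span_eq, Submodule.map_subtype_top]
  choose c h1 h2 using fun i => AA_sum (x := x) g (η := act (LL l) (g i))
    (hZ.symm ▸ h (Submodule.mem_map_of_mem (finBasis k Z i).2))
  refine ⟨_, det_hom fun i j => (if i = j then l else 0) - c i j, ?_, fun z hz => ?_⟩
  · rw [RingHom.map_det, ← Matrix.det_one (n := Fin (finrank k Z))]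
    congr 1
    ext i j
    rw [RingHom.mapMatrix_apply, Matrix.map_apply, Matrix.of_apply, eval_LL, sub_dotProduct,
      h1 i j x rfl, sub_zero, Matrix.one_apply]
    split_ifs
    exacts [hl, zero_dotProduct x]
  · obtain ⟨t, rfl⟩ := (Submodule.mem_span_range_iff_exists_fun k).1 (hZ.ge hz)
    rw [map_sum]
    refine Finset.sum_eq_zero fun j _ => ?_
    rw [map_smul, det_kill _ g fun i => ?_, smul_zero]
    simp only [Matrix.of_apply, LL_sub, act_sub_left, Finset.sum_sub_distrib]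
    rw [← h2, Finset.sum_eq_single i (fun a _ ha => by
      rw [if_neg ha.symm, ← LLm_apply, map_zero, act_zero_left]) (by simp), if_pos rfl, sub_self]

theorem mem_NN {P : MvPolynomial (Fin ν) k} (n : ℕ) : ∀ Y : Submodule k (DD k ν),
    (∀ z ∈ (AA x)^[n] Y, act P z = 0) → ∀ y ∈ Y, act P y ∈ NN {x} n := by
  induction n with
  | zero => exact fun Y h y hy => h y hy
  | succ n ih =>
    exact fun Y h y hy => mem_NN_succ.2 fun l hl => act_comm P _ y ▸ ih _ h _ (mem_AA hl hy)

theorem eq_zero (hl : l ⬝ᵥ x = 1) (hx : dl d x ∉ Φ) (n : ℕ) : ∀ (i : ℕ) (ψ : DD k ν),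
    ψ ∈ Sat Φ d i → ψ ∈ NN {x} n → n ≤ i + 1 → ψ = 0 := by
  induction n with
  | zero => exact fun _ _ _ h _ => h
  | succ n ih =>
    intro i ψ h1 h2 hn
    obtain ⟨c, rfl⟩ := Submodule.mem_span_singleton.1 (mem_span_dl (Sat_le_Dg Φ d i h1)
      (hl ▸ one_ne_zero) fun l' h => by
        have h3 := mem_NN_succ.1 h2 l' fun y hy => by rw [hy]; exact h
        cases i with
        | zero => rwa [show n = 0 by omega] at h3
        | succ i => exact ih i _ (act_mem_Sat (LL_hom l') h1) h3 (by omega))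
    have h3 := (mem_Sat.1 h1).2 _ (LL_pow_hom l i)
    rw [map_smul, act_dl x (LL_pow_hom l i), map_pow, eval_LL, hl, one_pow, one_smul] at h3
    rw [show c = 0 from by_contra fun hc => hx ((Φ.smul_mem_iff hc).1 h3), zero_smul]

theorem exists_kill {e : ℕ} (hl : l ⬝ᵥ x = 1) (hx : dl d x ∉ Φ)
    (h : ∀ s, finrank k (Sat Φ d s) ≤ e) : ∃ (i b : ℕ) (P : MvPolynomial (Fin ν) k),
      i ≤ 3 * e + 1 ∧ b ≤ i ∧ P.IsHomogeneous b ∧ eval x P = 1 ∧ ∀ z ∈ Sat Φ d i, act P z = 0 := by
  have fin : ∀ s, FiniteDimensional k (Sat Φ d s) := fun s => finite_of_le (Sat_le_Dg Φ d s)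
  obtain ⟨m, hm, h1⟩ := stab (fun m => finrank k ((Sat Φ d (2 * e + m)).map (act (LL l ^ m))))
    ((Submodule.finrank_map_le _ _).trans (h _))
  have h2 : (Sat Φ d (2 * e + m + 1)).map (act (LL l ^ (m + 1))) =
      (Sat Φ d (2 * e + m)).map (act (LL l ^ m)) := by
    refine Submodule.eq_of_le_of_finrank_le ?_ h1
    rintro _ ⟨z, hz, rfl⟩
    exact ⟨_, act_mem_Sat (LL_hom l) hz, by rw [pow_succ, act_mul]⟩
  obtain ⟨Y, hY⟩ : ∃ Y, Y = (Sat Φ d (2 * e + m + 1)).map (act (LL l ^ m)) := ⟨_, rfl⟩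
  have h3 : ∀ n, (AA x)^[n + 1] Y ≤ ((AA x)^[n] Y).map (act (LL l)) := fun n => by
    induction n with
    | zero =>
      refine AA_le fun l' _ η hη => ?_
      obtain ⟨z, hz, rfl⟩ := hY.le hη
      obtain ⟨w, hw, e⟩ := h2.ge ⟨_, act_mem_Sat (LL_hom l') hz, act_comm _ _ _⟩
      exact ⟨_, hY.ge ⟨w, hw, rfl⟩, by rw [← e, pow_succ', act_mul]⟩
    | succ n ih =>
      rw [Function.iterate_succ_apply' _ (n + 1)]
      conv_rhs => rw [Function.iterate_succ_apply']
      exact AA_step ih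
  have h4 : ∀ n, FiniteDimensional k ((AA x)^[n] Y) ∧ finrank k ((AA x)^[n] Y) ≤ e := fun n => by
    induction n with
    | zero =>
      rw [Function.iterate_zero_apply, hY]
      exact ⟨inferInstance, (Submodule.finrank_map_le _ _).trans (h _)⟩
    | succ n ih =>
      have := ih.1
      exact ⟨Submodule.finiteDimensional_of_le (h3 n),
        (Submodule.finrank_mono (h3 n)).trans ((Submodule.finrank_map_le _ _).trans ih.2)⟩
  obtain ⟨n, hn, h5⟩ := stab (fun n => finrank k ((AA x)^[n] Y)) (h4 0).2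
  have := (h4 n).1
  obtain ⟨P, p1, p2, p3⟩ := kill hl ((AA x)^[n] Y) (by
    rw [← Function.iterate_succ_apply' (AA x)]
    exact (Submodule.eq_of_le_of_finrank_le (h3 n) ((Submodule.finrank_map_le _ _).trans h5)).ge)
  have h6 := (h4 n).2
  generalize finrank k ((AA x)^[n] Y) = b at p1 h6
  refine ⟨2 * e + m + 1, b + m, P * LL l ^ m, by omega, by omega, p1.mul (LL_pow_hom l m),
    by rw [map_mul, p2, map_pow, eval_LL, hl, one_pow, mul_one], fun z hz => ?_⟩
  refine eq_zero hl hx n (2 * e + 1 - b) _ (act_mem_Sat (p1.mul (LL_pow_hom l m)) ?_) ?_ (by omega)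
  · rwa [show 2 * e + 1 - b + (b + m) = 2 * e + m + 1 by omega]
  · rw [act_mul]
    exact mem_NN n Y p3 _ (hY.ge ⟨z, hz, rfl⟩)

end GcAux

theorem gcS (hS : SatStmt) : GcStmt := by
  intro k _ ν d e s Φ x l h1 h2 h3 hl hx hs η hη
  obtain ⟨i, b, P, hi, hb, p1, p2, p3⟩ := GcAux.exists_kill hl hx (hS k ν d e Φ h1 h2 h3)
  obtain ⟨r, rfl⟩ : ∃ r, s = i + 1 + r := ⟨s - (i + 1), by omega⟩
  obtain ⟨c, hc⟩ : ∃ c, i + 1 = c + b := ⟨i + 1 - b, by omega⟩
  have h4 := act_mem_Obs (LL_pow_hom l r) hη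
  obtain ⟨t, ht⟩ := Submodule.mem_span_singleton.1 (mem_span_dl (t := d + c) (x := x) (l₀ := l)
    (act_mem_Dg p1 (by rw [add_assoc, ← hc]; exact Obs_le_Dg _ _ _ _ h4)) (hl ▸ one_ne_zero)
    fun l' h => by
      rw [act_comm]
      exact p3 _ (act_mem_Sat_of_Obs (LL_hom l') (by rw [eval_LL, h]) h4))
  have h5 : (LL l ^ c * (P * LL l ^ r)).IsHomogeneous (i + 1 + r) := by
    rw [hc, add_assoc]
    exact (LL_pow_hom l c).mul (p1.mul (LL_pow_hom l r))
  rw [← sub_add_cancel (LL l ^ (i + 1 + r)) (LL l ^ c * (P * LL l ^ r)), act_add_left]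
  refine Submodule.add_mem_sup ((mem_Obs.1 hη).2 _ ((LL_pow_hom l _).sub h5) ?_) ?_
  · simp only [map_sub, map_mul, map_pow, eval_LL, hl, p2, one_pow, mul_one, sub_self]
  · rw [act_mul, act_mul, ← ht, map_smul, act_dl x (LL_pow_hom l c)]
    exact Submodule.smul_mem _ _ (Submodule.smul_mem _ _ (Submodule.mem_span_singleton_self _))

end

end Pool.Agent.Lib.MP_45f16c_ag.AS
end

-- part Pool.Agent.Lib.MP_45f16c_ag.AS.L1
section

/-! Obstructions in degree one. -/

set_option autoImplicit false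
open Metric MeasureTheory MvPolynomial Filter Module
open scoped ComplexConjugate Matrix Topology

namespace Pool.Agent.Lib.MP_45f16c_ag.AS

noncomputable section

namespace L1Aux

variable {k : Type} [Field k] {ν : ℕ}

theorem avoid [Infinite k] {ι V W : Type} [Finite ι] [AddCommGroup V] [Module k V] [AddCommGroup W]
    [Module k W] (f : ι → V →ₗ[k] W) (h : ∀ i, ∃ v, f i v ≠ 0) : ∃ v, ∀ i, f i v ≠ 0 :=
  Submodule.exists_forall_notMem_of_forall_ne_top (fun i => LinearMap.ker (f i)) fun i e => by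
    obtain ⟨v, hv⟩ := h i
    exact hv (LinearMap.mem_ker.1 (e ▸ Submodule.mem_top))

/-- The scalar product with a point. -/
def dot (x : Fin ν → k) : (Fin ν → k) →ₗ[k] k where
  toFun l := l ⬝ᵥ x
  map_add' l l' := add_dotProduct l l' x
  map_smul' a l := smul_dotProduct a l x

/-- Contraction by the member of the pencil that vanishes at the point. -/
def lam (l₀ x : Fin ν → k) (ψ : DD k ν) : (Fin ν → k) →ₗ[k] DD k ν :=
  actL ψ ∘ₗ LLm k ν ∘ₗ ((l₀ ⬝ᵥ x) • LinearMap.id - (dot x).smulRight l₀)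

theorem lam_apply (l₀ x : Fin ν → k) (ψ : DD k ν) (l : Fin ν → k) :
    lam l₀ x ψ l = act (LL ((l₀ ⬝ᵥ x) • l - (l ⬝ᵥ x) • l₀)) ψ := rfl

theorem obs {Φ : Submodule k (DD k ν)} {d : ℕ} {x l : Fin ν → k} {η : DD k ν}
    (h : η ∈ Obs Φ d 1 x) (h0 : l ⬝ᵥ x = 0) : act (LL l) η ∈ Φ :=
  (mem_Obs.1 h).2 _ (LL_hom l) (by rw [eval_LL, h0])

theorem sep {I : Type} [DecidableEq I] {r n γ : ℕ} {x : I × Fin r → Fin ν → k} (hx : Itp x n)
    (hn : (γ + 1) * r ≤ n) (i₀ : I) (J : Finset I) (h0 : i₀ ∉ J) (hJ : J.card ≤ γ)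
    (l : Fin ν → k) : ∃ l', (∀ i ∈ J, l' ∈ Van (Set.range fun b => x (i, b))) ∧
      l - l' ∈ Van (Set.range fun b => x (i₀, b)) := by
  obtain ⟨l', h⟩ := hx (insert i₀ J ×ˢ Finset.univ) (by
    rw [Finset.card_product, Finset.card_insert_of_notMem h0, Finset.card_univ, Fintype.card_fin]
    exact (Nat.mul_le_mul_right r (by omega)).trans hn)
    fun z => if z.1 = i₀ then l ⬝ᵥ x z else 0
  refine ⟨l', fun i hi => ?_, ?_⟩
  · rintro _ ⟨b, rfl⟩
    rw [h (i, b) (by simp [hi]), if_neg (ne_of_mem_of_not_mem hi h0)]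
  · rintro _ ⟨b, rfl⟩
    rw [sub_dotProduct, h (i₀, b) (by simp), if_pos rfl, sub_self]

theorem step1 [Infinite k] (hI : IndStmt) {d j u G γ r n : ℕ} {Φ : Submodule k (DD k ν)}
    (hΦ : Φ ≤ Dg k ν (d + 1)) (hj : finrank k Φ ≤ j) (h1 : 2 * j ≤ γ * G)
    (h2 : u * (G + 1) ≤ d + 1) (hn : (γ + 1) * r ≤ n) {x : Fin (2 * j + 1) × Fin r → Fin ν → k}
    (hx : Itp x n) {l₀ : Fin ν → k} (h0 : ∀ z, l₀ ⬝ᵥ x z ≠ 0) :
    ∃ i, ∀ b, ∀ η ∈ Obs Φ (d + 1) 1 (x (i, b)), ∀ φ ∈ Φ,
      act (LL l₀) η + φ ∈ NN (Set.range fun b => x (i, b)) u →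
        act (LL l₀) η + φ ∈ k ∙ dl (d + 1) (x (i, b)) := by
  by_contra hc
  simp only [not_exists, not_forall] at hc
  choose b η hη φ hφ k1 k2 using hc
  have := finite_of_le hΦ
  obtain ⟨l₁, h3⟩ := avoid (fun i => lam l₀ (x (i, b i)) (act (LL l₀) (η i) + φ i)) fun i => by
    by_contra e
    simp only [not_exists, not_not] at e
    refine k2 i (mem_span_dl (add_mem (act_mem_Dg (LL_hom l₀) (mem_Obs.1 (hη i)).1) (hΦ (hφ i)))
      (h0 _) fun l hl => ?_)
    have e' := e l
    rw [lam_apply, hl, zero_smul, sub_zero, LL_smul, act_smul_left] at e'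
    exact (smul_eq_zero.1 e').resolve_left (h0 _)
  have hm : ∀ l, Φ.map (act (LL l)) ≤ Dg k ν d := fun l => by
    rintro _ ⟨ψ, hψ, rfl⟩
    exact act_mem_Dg (LL_hom l) (hΦ hψ)
  have h4 : Φ.map (act (LL l₀)) ⊔ Φ.map (act (LL l₁)) ≤ Dg k ν d := sup_le (hm _) (hm _)
  have h5 := hI k ν d u G γ (Fin (2 * j + 1)) (fun i => Set.range fun b => x (i, b))
    (sep hx hn) (by rw [Fintype.card_fin]; omega) h2 _ h4
  have h6 := Submodule.finrank_add_le_finrank_add_finrank (Φ.map (act (LL l₀)))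
    (Φ.map (act (LL l₁)))
  have h7 := Submodule.finrank_map_le (act (LL l₀)) Φ
  have h8 := Submodule.finrank_map_le (act (LL l₁)) Φ
  have h9 := Finset.card_nsmul_le_sum Finset.univ (fun i => finrank k
      ((Φ.map (act (LL l₀)) ⊔ Φ.map (act (LL l₁))) ⊓ NN (Set.range fun b => x (i, b)) u :
        Submodule k (DD k ν))) 1 fun i _ => by
    have := finite_of_le (inf_le_left.trans h4 :
      (Φ.map (act (LL l₀)) ⊔ Φ.map (act (LL l₁))) ⊓ NN (Set.range fun b => x (i, b)) u ≤ _)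
    refine Submodule.one_le_finrank_iff.2 ((Submodule.ne_bot_iff _).2 ⟨_, ⟨?_, ?_⟩, h3 i⟩)
    · rw [lam_apply, map_add, act_comm]
      refine add_mem (Submodule.mem_sup_left ⟨_, obs (hη i) ?_, rfl⟩) ?_
      · rw [sub_dotProduct, smul_dotProduct, smul_dotProduct, smul_eq_mul, smul_eq_mul, mul_comm,
          sub_self]
      · rw [LL_sub, LL_smul, LL_smul, act_sub_left, act_smul_left, act_smul_left]
        exact sub_mem (Submodule.smul_mem _ _ (Submodule.mem_sup_right ⟨_, hφ i, rfl⟩))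
          (Submodule.smul_mem _ _ (Submodule.mem_sup_left ⟨_, hφ i, rfl⟩))
    · exact act_mem_NN _ (k1 i)
  rw [Finset.card_univ, Fintype.card_fin, smul_eq_mul, mul_one] at h9
  omega

end L1Aux

open L1Aux in
theorem l1S (hM : MacStmt) (hI : IndStmt) : L1Stmt := by
  intro k _ _ ν d j μ u a G γ r n Φ hΦ hj hd h1 h2 hn h3 h4 x hx hb
  obtain ⟨d, rfl⟩ : ∃ d', d = d' + 1 := ⟨d - 1, by omega⟩
  choose O hO hμ hz using hb
  have hr : r ≤ n := (Nat.le_mul_of_pos_left r (Nat.succ_pos γ)).trans hn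
  obtain ⟨l₀, h0⟩ := avoid (fun z => dot (x z)) fun z => by
    obtain ⟨l, hl⟩ := hx {z} (by rw [Finset.card_singleton]; have := z.2.pos; omega) fun _ => 1
    exact ⟨l, fun e => one_ne_zero ((hl z (Finset.mem_singleton_self z)).symm.trans e)⟩
  obtain ⟨i, hi⟩ := step1 hI hΦ hj h1 h2 hn hx (l₀ := l₀) h0
  have fin : ∀ b, FiniteDimensional k (O (i, b)) := fun b =>
    finite_of_le ((hO _).trans (Obs_le_Dg _ _ _ _))
  let S : (∀ b, O (i, b)) →ₗ[k] DD k ν := ∑ b, (O (i, b)).subtype ∘ₗ LinearMap.proj b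
  have hS : ∀ v, S v = ∑ b, (v b : DD k ν) := fun v => LinearMap.sum_apply _ _ _
  have key : ∀ v, S v ∈ NN (Set.range fun b => x (i, b)) u → v = 0 := fun v hv => by
    refine funext fun b => Subtype.ext (hz (i, b) _ (v b).2 l₀ (h0 _) ?_)
    obtain ⟨l, hl⟩ := hx ({i} ×ˢ Finset.univ) (by simpa using hr)
      fun z => if z.2 = b then l₀ ⬝ᵥ x z else 0
    have e : act (LL l) (S v) = act (LL l₀) (v b) +
        (act (LL (l - l₀)) (v b) + ∑ c ∈ Finset.univ.erase b, act (LL l) (v c)) := by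
      rw [hS, map_sum, ← Finset.add_sum_erase _ _ (Finset.mem_univ b), LL_sub, act_sub_left]
      abel
    have hφ : act (LL (l - l₀)) (v b) + ∑ c ∈ Finset.univ.erase b, act (LL l) (v c) ∈ Φ := by
      refine add_mem (obs (hO _ (v b).2) ?_) (sum_mem fun c hc => obs (hO _ (v c).2) ?_)
      · rw [sub_dotProduct, hl (i, b) (by simp), if_pos rfl, sub_self]
      · rw [hl (i, c) (by simp), if_neg (Finset.ne_of_mem_erase hc)]
    have h5 := hi b _ (hO _ (v b).2) _ hφ (e ▸ act_mem_NN _ hv)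
    rw [← add_sub_cancel_right (act (LL l₀) (v b : DD k ν)) _]
    exact sub_mem (Submodule.mem_sup_right h5) (Submodule.mem_sup_left hφ)
  have h5 := hM k ν (d + 1) u a (Set.range fun b => x (i, b)) (LinearMap.range S) Φ (by
      rintro _ ⟨v, rfl⟩
      rw [hS]
      exact sum_mem fun b _ => (mem_Obs.1 (hO _ (v b).2)).1) hΦ (by
      rintro l hl _ ⟨v, rfl⟩
      rw [hS, map_sum]
      exact sum_mem fun b _ => obs (hO _ (v b).2) (hl _ ⟨b, rfl⟩)) (hj.trans_lt h3)
  have h6 : LinearMap.range S ⊓ NN (Set.range fun b => x (i, b)) u = ⊥ := by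
    refine (Submodule.eq_bot_iff _).2 ?_
    rintro _ ⟨⟨v, rfl⟩, hv⟩
    rw [key v hv, map_zero]
  have h7 := Finset.card_nsmul_le_sum Finset.univ (fun b => finrank k (O (i, b))) (μ + 1)
    fun b _ => hμ (i, b)
  have fr : ∀ b, Module.Free k (O (i, b)) := fun b => Module.Free.of_divisionRing k (O (i, b))
  have inj : Function.Injective S := fun v w e => sub_eq_zero.1 (key _ (by
    rw [hS, hS] at e
    rw [hS]
    change ∑ b, ((v b : DD k ν) - w b) ∈ _
    rw [Finset.sum_sub_distrib, e, sub_self]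
    exact zero_mem _))
  rw [h6, finrank_bot, LinearMap.finrank_range_of_inj inj, Module.finrank_pi_fintype] at h5
  rw [Finset.card_univ, Fintype.card_fin, smul_eq_mul] at h7
  omega

end

end Pool.Agent.Lib.MP_45f16c_ag.AS
end

-- part Pool.Agent.Lib.MP_45f16c_ag.AS.L2
section

/-! Obstructions in degree h. -/

set_option autoImplicit false
open Metric MeasureTheory MvPolynomial Filter Module
open scoped ComplexConjugate Matrix Topology

namespace Pool.Agent.Lib.MP_45f16c_ag.AS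

noncomputable section

namespace L2Aux

variable {k : Type} [Field k] {ν d e u a r s : ℕ} {Φ : Submodule k (DD k ν)}

theorem small (hS : SatStmt) {T : Set (Fin ν → k)} (hΦ : Φ ≤ Dg k ν d)
    (he : finrank k (Φ ⊓ NN T u : Submodule k (DD k ν)) ≤ e) (hd : e ≤ d)
    {Ψ : Submodule k (DD k ν)} (h : Ψ ⊓ NN T u ≤ Sat Φ d s) :
    finrank k (Ψ ⊓ NN T u : Submodule k (DD k ν)) ≤ e := by
  have := finite_of_le (Sat_le_Dg (Φ ⊓ NN T u) d s)
  refine (Submodule.finrank_mono fun η hη => ?_).trans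
    (hS k ν d e _ (inf_le_left.trans hΦ) he hd s)
  exact mem_Sat.2 ⟨(mem_Sat.1 (h hη)).1, fun P hP =>
    ⟨(mem_Sat.1 (h hη)).2 P hP, act_mem_NN P hη.2⟩⟩

theorem up (hM : MacStmt) (hS : SatStmt) {T : Set (Fin ν → k)} (hΦ : Φ ≤ Dg k ν d)
    (he : finrank k (Φ ⊓ NN T u : Submodule k (DD k ν)) ≤ e) (hd : e ≤ d)
    (h : finrank k (Sat Φ d s) < a * (u + 1 - a)) :
    finrank k (Sat Φ d (s + 1)) < finrank k (Sat Φ d s) + a + e :=
  (hM k ν (d + s) u a T _ _ (Sat_le_Dg Φ d (s + 1)) (Sat_le_Dg Φ d s)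
    (fun l _ _ hη => act_mem_Sat (LL_hom l) hη) h).trans_le
    (Nat.add_le_add_left (small hS hΦ he hd inf_le_left) _)

theorem down (hM : MacStmt) (hS : SatStmt) (hG : GcStmt) {p : Fin r → Fin ν → k}
    (hp : ∀ v : Fin r → k, ∃ l : Fin ν → k, ∀ b, l ⬝ᵥ p b = v b) (hΦ : Φ ≤ Dg k ν d)
    (he : finrank k (Φ ⊓ NN (Set.range p) u : Submodule k (DD k ν)) ≤ e) (hd : e ≤ d)
    {m : ℕ} (hb : ∀ b, Bad2 Φ d (s + 1 + m) (p b)) (hs : 3 * e + 2 ≤ s)
    (h : finrank k (Sat Φ d s) < a * (u + 1 - a)) :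
    finrank k (Sat Φ d (s + 1)) + r < finrank k (Sat Φ d s) + a + e := by
  obtain ⟨l₀, h₀⟩ := hp fun _ => 1
  choose l hl using fun b => hp (Pi.single b 1)
  choose η η1 η2 using fun b => (hb b).2
  let ζ : Fin r → DD k ν := fun b => act (LL l₀ ^ m) (η b)
  have ζ1 : ∀ b, ζ b ∈ Obs Φ d (s + 1) (p b) := fun b => act_mem_Obs (LL_pow_hom l₀ m) (η1 b)
  let F : (Sat Φ d (s + 1) × (Fin r → k)) →ₗ[k] DD k ν :=
    (Sat Φ d (s + 1)).subtype.coprod (Fintype.linearCombination k ζ)
  have hF : ∀ v, F v = v.1.1 + ∑ b, v.2 b • ζ b := fun v => rfl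
  have f1 : ∀ v, F v ∈ Dg k ν (d + s + 1) := fun v =>
    add_mem (Sat_le_Dg Φ d (s + 1) v.1.2)
      (sum_mem fun b _ => (Dg k ν _).smul_mem _ (Obs_le_Dg Φ d (s + 1) _ (ζ1 b)))
  have f2 : ∀ v (R : MvPolynomial (Fin ν) k), R.IsHomogeneous (s + 1) →
      (∀ b, eval (p b) R = 0) → act R (F v) ∈ Φ := fun v R hR hz => by
    rw [hF, map_add, map_sum]
    refine add_mem ((mem_Sat.1 v.1.2).2 R hR) (sum_mem fun b _ => ?_)
    rw [map_smul]
    exact Φ.smul_mem _ ((mem_Obs.1 (ζ1 b)).2 R hR (hz b))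
  have f3 : ∀ v, F v ∈ NN (Set.range p) u → v.2 = 0 := fun v hv => funext fun b => by
    have o : act (LL (l b)) (F v) ∈ Obs (Φ ⊓ NN (Set.range p) u) d s (p b) :=
      mem_Obs.2 ⟨act_mem_Dg (LL_hom _) (f1 v), fun P hP hz => by
        rw [← act_mul]
        refine ⟨f2 v _ (hP.mul (LL_hom _)) fun c => ?_, act_mem_NN _ hv⟩
        rw [map_mul, eval_LL, hl]
        by_cases hc : c = b
        · rw [hc, hz, zero_mul]
        · rw [Pi.single_eq_of_ne hc, mul_zero]⟩
    have g := SetLike.le_def.1 (sup_le_sup_right inf_le_left _) (hG k ν d e s _ (p b) l₀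
      (inf_le_left.trans hΦ) he hd (h₀ b) (fun c => (hb b).1 c.1) hs _ o)
    have hR := (LL_pow_hom l₀ s).mul (LL_hom (l b))
    rw [← act_mul, hF, map_add, ← Finset.add_sum_erase _ _ (Finset.mem_univ b), map_add, map_sum,
      add_mem_cancel_left (Submodule.mem_sup_left ((mem_Sat.1 v.1.2).2 _ hR)),
      add_mem_cancel_right (sum_mem fun c hc => Submodule.mem_sup_left (by
        rw [map_smul]
        refine Φ.smul_mem _ ((mem_Obs.1 (ζ1 c)).2 _ hR ?_)
        rw [map_mul, eval_LL, hl, Pi.single_eq_of_ne (Finset.ne_of_mem_erase hc), mul_zero])),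
      map_smul] at g
    by_contra hc
    rw [Submodule.smul_mem_iff _ hc, ← act_mul] at g
    refine η2 b _ (hR.mul (LL_pow_hom l₀ m)) ?_ g
    simp [eval_LL, h₀, hl]
  have f4 : ∀ v, F v ∈ NN (Set.range p) u → F v = v.1.1 := fun v hv => by
    simp [hF, f3 v hv]
  have inj : Function.Injective F := (injective_iff_map_eq_zero _).2 fun v hv => by
    have z : F v ∈ NN (Set.range p) u := hv ▸ zero_mem _
    exact Prod.ext (Subtype.ext ((f4 v z).symm.trans hv)) (f3 v z)
  have := finite_of_le (Sat_le_Dg Φ d (s + 1))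
  have := Free.of_divisionRing k (Sat Φ d (s + 1))
  have key := hM k ν (d + s) u a (Set.range p) (LinearMap.range F) _
    (by rintro _ ⟨v, rfl⟩; exact f1 v) (Sat_le_Dg Φ d s) (by
      rintro l' hl' _ ⟨v, rfl⟩
      refine mem_Sat.2 ⟨act_mem_Dg (LL_hom _) (f1 v), fun P hP => ?_⟩
      rw [← act_mul]
      refine f2 v _ (hP.mul (LL_hom _)) fun c => ?_
      rw [map_mul, eval_LL, hl' _ ⟨c, rfl⟩, mul_zero]) h
  rw [LinearMap.finrank_range_of_inj inj, finrank_prod, finrank_fin_fun] at key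
  refine key.trans_le (Nat.add_le_add_left (small (s := s + 1) hS hΦ he hd ?_) _)
  rintro _ ⟨⟨v, rfl⟩, hv⟩
  rw [f4 v hv]
  exact v.1.2

end L2Aux

theorem l2S (hM : MacStmt) (hI : IndStmt) (hS : SatStmt) (hG : GcStmt) : L2Stmt := by
  intro k _ ν d j h e s u a G γ r n Φ hΦ hj h1 h2 h3 h4 h5 h6 h7 x hx hb
  have key := hI k ν d u G γ (Fin s) (fun i => Set.range fun b => x (i, b))
    (fun i₀ J hJ hc l => by
      obtain ⟨l', hl⟩ := hx (insert i₀ J ×ˢ Finset.univ) (by
        rw [Finset.card_product, Finset.card_insert_of_notMem hJ, Finset.card_fin]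
        exact (Nat.mul_le_mul_right r (by omega)).trans h4)
        fun t => if t.1 = i₀ then l ⬝ᵥ x t else 0
      refine ⟨l', fun i hi => ?_, ?_⟩
      · rintro _ ⟨b, rfl⟩
        rw [hl (i, b) (by simp [hi]), if_neg (by rintro rfl; exact hJ hi)]
      · rintro _ ⟨b, rfl⟩
        rw [sub_dotProduct, hl (i₀, b) (by simp), if_pos rfl, sub_self])
    (by rwa [Fintype.card_fin]) h3 Φ hΦ
  obtain ⟨i, hi⟩ : ∃ i, finrank k
      (Φ ⊓ NN (Set.range fun b => x (i, b)) u : Submodule k (DD k ν)) ≤ e := by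
    by_contra c
    push Not at c
    have := Finset.card_nsmul_le_sum Finset.univ _ (e + 1) fun i _ => c i
    rw [Finset.card_fin, smul_eq_mul] at this
    omega
  have hp : ∀ v : Fin r → k, ∃ l : Fin ν → k, ∀ b, l ⬝ᵥ x (i, b) = v b := fun v => by
    obtain ⟨l, hl⟩ := hx ({i} ×ˢ Finset.univ) (by
      rw [Finset.card_product, Finset.card_singleton, Finset.card_fin]
      exact (Nat.mul_le_mul_right r (by omega)).trans h4) fun t => v t.2
    exact ⟨l, fun b => hl (i, b) (by simp)⟩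
  have := finite_of_le hΦ
  have A : ∀ t ≤ 3 * e + 2, finrank k (Sat Φ d t) ≤ j + t * (e + a) := fun t ht => by
    induction t with
    | zero => exact (Submodule.finrank_mono (Sat_zero_le Φ d)).trans (by omega)
    | succ t ih =>
      have i1 := ih (by omega)
      have i2 := Nat.mul_le_mul_right (e + a) ((Nat.le_succ t).trans ht)
      have := L2Aux.up (a := a) (s := t) hM hS hΦ hi h5 (by omega)
      rw [add_one_mul]
      omega
  obtain ⟨p1, p2⟩ := Nat.mul_ne_zero_iff.1 (Nat.ne_zero_of_lt h7)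
  have B : ∀ t, 3 * e + 2 + t ≤ h → finrank k (Sat Φ d (3 * e + 2 + t)) + t * (r - (e + a)) ≤
      j + (3 * e + 2) * (e + a) := fun t ht => by
    induction t with
    | zero => simpa using A _ le_rfl
    | succ t ih =>
      have i1 := ih (by omega)
      obtain ⟨m, rfl⟩ := Nat.exists_eq_add_of_le ht
      have := L2Aux.down (a := a) (s := 3 * e + 2 + t) (m := m) hM hS hG hp hΦ hi h5
        (fun b => hb (i, b)) (by omega) (by omega)
      rw [add_one_mul, ← add_assoc (3 * e + 2)]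
      omega
  have := B (h - (3 * e + 2)) (by omega)
  omega

end

end Pool.Agent.Lib.MP_45f16c_ag.AS
end
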