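import Pool.Agent.Lib.MP_45f16c_ag.AS.BL

/-! One level of the argument. -/

set_option autoImplicit false
open Metric MeasureTheory MvPolynomial Filter Module
open scoped ComplexConjugate Matrix Topology

namespace Pool.Agent.Lib.MP_45f16c_ag.AS

noncomputable section

namespace LevAux

variable {ν p d j : ℕ}

theorem rdat_mono {K ε g σ σ' T : ℝ} {c : Mon ν d → ℂ} {y : Fin j → Mon ν d → ℂ}
    {f : ℂ → Fin ν → ℂ} {ξ : Mon ν d → ℂ → Fin ν → ℂ} {γ : ℂ → ℂ}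
    (h : RDat K ε g σ T c y f ξ γ) (hσ : σ' ≤ σ) : RDat K ε g σ' T c y f ξ γ :=
  ⟨h.hy, h.pf, h.dξ, h.dγ, h.abs, fun z hz z' hz' e => h.osc z hz z' hz' (e.trans hσ), h.hξ,
    h.err, h.onX, h.lip, h.circ, h.g0⟩

theorem apx_of_from {c : Mon ν d → ℂ} {e : Fin p → Fin ν} {A : Fin ν → Fin p → ℂ}
    {f g : ℂ → Fin p → ℂ} {a : ℂ} {R ρ ζ ζ' : ℝ} (hF : From f a R ρ g)
    (h : ∀ z ∈ closedBall a R, ‖eval (lin e A (f z)) (form c)‖ ≤ ζ * ‖f z‖ ^ d) (hζ : ζ ≤ ζ') :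
    Apx c e A ζ' ρ g := fun z hz => by
  obtain ⟨l, w, hw, h1⟩ := hF z hz
  rw [h1, lin_smul, eval_form_smul, norm_mul, norm_pow, norm_smul, mul_pow]
  calc ‖l‖ ^ d * ‖eval (lin e A (f w)) (form c)‖ ≤ ‖l‖ ^ d * (ζ * ‖f w‖ ^ d) := by
        gcongr; exact h w hw
    _ = ζ * (‖l‖ ^ d * ‖f w‖ ^ d) := by ring
    _ ≤ _ := by gcongr

theorem cover_le {α ι : Type} [MeasurableSpace α] (μ : Measure α) (I : Finset ι) (S : ι → Set α)
    {x y : ℝ} (hy : I.card * x ≤ y) (h : ∀ i ∈ I, μ (S i) ≤ ENNReal.ofReal x)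
    {B : Set α} (hB : B ⊆ ⋃ i ∈ I, S i) : μ B ≤ ENNReal.ofReal y := by
  refine (measure_mono hB).trans ((measure_biUnion_finset_le _ _).trans
    ((Finset.sum_le_card_nsmul _ _ _ h).trans ?_))
  rw [nsmul_eq_mul, ← ENNReal.ofReal_natCast, ← ENNReal.ofReal_mul (by positivity)]
  exact ENNReal.ofReal_le_ofReal hy

theorem tends (C : ℝ) {θ : ℝ} (hθ : 0 < θ) :
    Tendsto (fun τ : ℕ => C * (τ : ℝ) ^ 2 * Real.exp (-(θ * τ / 4))) atTop (𝓝 0) := by
  have h2 : Tendsto (fun τ : ℕ => θ * τ / 4) atTop atTop :=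
    (tendsto_natCast_atTop_atTop.const_mul_atTop hθ).atTop_div_const (by norm_num)
  have h3 := ((Real.tendsto_pow_mul_exp_neg_atTop_nhds_zero 2).comp h2).const_mul
    (C * (4 / θ) ^ 2)
  rw [mul_zero] at h3
  refine h3.congr fun τ => ?_
  simp only [Function.comp]
  field_simp

/-- Fast discs. -/
theorem fastPart (hFast : Fast2Stmt) (hCore : Core2Stmt) (hRel : RelStmt) {K ε θ σ σ' : ℝ}
    {U : Set (Mon ν d → ℂ)} (hK : 1 ≤ K) (hp : 1 ≤ p) (hd : 1 ≤ d) (hε : 0 < ε) (hε1 : ε ≤ 1)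
    (hθ : 0 < θ) (hθ1 : θ ≤ 1 / 40) (hθε : 140 * θ ≤ ε) (hθd : d * (20 * θ) ≤ 1) (hσ : 0 < σ)
    (hσ1 : σ ≤ 1) (hσ' : σ' ≤ θ * σ / (2 * K)) (hU : MeasurableSet U) (hU1 : U ⊆ closedBall 0 1)
    (hj : 2912 * p * K * Real.log (4 * d + 3) + 2 ≤ ε * (j + 1))
    (hno : ∀ᶠ T : ℝ in atTop, ∀ c ∈ U, ∀ (y : Fin j → Mon ν d → ℂ) (f : ℂ → Fin ν → ℂ)
      (ξ : Mon ν d → ℂ → Fin ν → ℂ) (γ : ℂ → ℂ), ¬RDat K (2 * ε) (200 * θ) σ' T c y f ξ γ) :
    ∃ n : ℝ, ∀ᶠ T : ℝ in atTop,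
      volume {c | c ∈ U ∧ ∃ (e : Fin p → Fin ν) (A : Fin ν → Fin p → ℂ) (f : ℂ → Fin p → ℂ),
        Function.Injective e ∧ ‖A‖ ≤ 1 ∧ Disc (2 * (8 * Real.exp 2) + 2) K T f ∧
        (∀ z ∈ ball (0 : ℂ) ((2 * (8 * Real.exp 2) + 2) / 2), Tch f z σ ≤ θ * T) ∧
        Apx c e A (Real.exp (-((195 + 15 * d) * (K * T)))) (2 * (8 * Real.exp 2) + 2) f} ≤
      ENNReal.ofReal (n * Real.exp (-T)) := by
  set ρ := 8 * Real.exp 2 with hρ
  have hρ3 : 3 ≤ ρ := by have := Real.add_one_le_exp 2; linarith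
  obtain ⟨N, Nc, hF⟩ := hFast p ρ K θ σ hρ3 hK hθ (by linarith) hσ hσ1
  have hC := hCore ν p d j N K 1 ε (20 * θ) (20 * θ) ρ hK hp hd le_rfl hε hε1 (by linarith)
    (by linarith) (by linarith)
    (mul_le_mul_of_nonneg_left (Real.exp_le_exp.2 (by linarith)) (by norm_num))
    (by rwa [div_one])
  refine ⟨(Finset.univ : Finset ((Fin p → Fin ν) × Fin Nc)).card, ?_⟩
  filter_upwards [hF, hC, hno, eventually_ge_atTop 0] with T ⟨cl, hv, hm⟩ hC hno hT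
  refine cover_le volume Finset.univ (fun t : (Fin p → Fin ν) × Fin Nc =>
    {c | Function.Injective t.1 ∧ c ∈ U ∧ ∃ (A : Fin ν → Fin p → ℂ) (f : ℂ → Fin p → ℂ), ‖A‖ ≤ 1 ∧
      Disc ρ K T f ∧ Apx c t.1 A (Real.exp (-((195 + 15 * d) * (K * T)))) ρ f ∧
      (cl t.2).Mem ρ (Real.exp (20 * θ * T)) f ∧
      (∀ i, ∀ w ∈ closedBall ((cl t.2).z i) (cl t.2).σ,
        ‖f w‖ ≤ Real.exp (20 * θ * T) * (cl t.2).ω i) ∧
      -(K * T) ≤ Real.circleAverage (lg f) 0 1}) le_rfl (fun t _ => ?_) ?_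
  · by_cases ht : Function.Injective t.1
    · refine (measure_mono fun c hc => hc.2).trans (hC (cl t.2) t.1
        (fun i => Real.exp (20 * θ * T) * (cl t.2).ω i) (K * T) U (hv t.2).1 ht hU hU1
        fun c hc hD => ?_)
      obtain ⟨y, f, ξ, γ, h⟩ := hRel ν d j N K ε θ _ _ T ρ _ (cl t.2) c hθ hθ1 hθε hT (hv t.2).1
        (hv t.2).2 hD
      exact hno c hc y f ξ γ (rdat_mono h hσ')
    · exact (measure_mono (t := ∅) fun c hc => ht hc.1).trans (by simp)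
  · rintro c ⟨hc, e, A, f, he, hA, h1, h2, h3⟩
    obtain ⟨n, hn⟩ := hm f h1 (by rwa [show ρ + 1 = (2 * ρ + 2) / 2 by ring])
    refine Set.mem_iUnion₂.2 ⟨(e, n), Finset.mem_univ _, he, hc, A, f, hA, h1.mono (by linarith),
      fun z hz => h3 z (ball_subset_ball (by linarith) hz), hn, hn.hi, ?_⟩
    have h4 := h1.gr
    have h5 := h1.le_lg (z := 0) (mem_ball_self (by linarith))
    rw [Tch] at h4
    linarith

/-- Slow discs. -/
theorem slowPart (hSlow : SlowStmt) (hCore : Core2Stmt) (hNo : NoSlowStmt) {D : ℕ}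
    {K ε η a ρ' : ℝ} {U : Set (Mon ν d → ℂ)} (hν : 2 ≤ ν) (hD : D + 2 * ν + j = d + 1)
    (hη : 0 < η) (hK : 1 ≤ K) (hε : 0 < ε) (hε1 : ε ≤ 1 / 4) (hD1 : 1 ≤ D)
    (hεD : 8 * ε * (ν - 1) ≤ D) (hj : 3 ≤ ε * (j + 1)) (hp : 1 ≤ p) (ha : 1 ≤ a)
    (ha' : 2912 * p * K * Real.log (4 * d + 3) ≤ a) (hU : MeasurableSet U) (hU1 : U ⊆ Usm ν d η)
    (hR : ∀ (T : ℝ) (g : ℂ → Fin p → ℂ), 0 ≤ T → Disc ρ' K T g → ∃ t : ℝ, 1 ≤ t ∧
      t * (2 * (8 * Real.exp (a * (1 + d * (2 * K + 1))))) ≤ ρ' ∧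
      Disc (2 * (8 * Real.exp (a * (1 + d * (2 * K + 1))))) K T (fun ζ => g (t * ζ)) ∧
      ∀ z ∈ closedBall (0 : ℂ) 2,
        lg g (t * z) ≤ Real.circleAverage (lg fun ζ => g (t * ζ)) 0 1 + ε * T) :
    ∃ n : ℝ, 0 ≤ n ∧ ∀ᶠ T : ℝ in atTop,
      volume {c | c ∈ U ∧ ∃ (e : Fin p → Fin ν) (A : Fin ν → Fin p → ℂ) (f : ℂ → Fin p → ℂ),
        Function.Injective e ∧ ‖A‖ ≤ 1 ∧ Disc ρ' K T f ∧
        Apx c e A (Real.exp (-((195 + 15 * d) * (K * T)))) ρ' f} ≤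
      ENNReal.ofReal (n * T * Real.exp (-T)) := by
  set ρ := 8 * Real.exp (a * (1 + d * (2 * K + 1))) with hρ
  have hρ8 : 8 ≤ ρ := by
    have := Real.one_le_exp (x := a * (1 + d * (2 * K + 1))) (by positivity); linarith
  obtain ⟨cl, hcl⟩ := hSlow
  have hC := hCore ν p d j 1 K a ε (2 * K + 1) ε ρ hK hp (by omega) ha hε (by linarith)
    (by linarith) (by linarith) hε le_rfl
    (by have := (div_le_one (by linarith)).2 ha'; linarith)
  refine ⟨Fintype.card (Fin p → Fin ν) * (2 * K), by positivity, ?_⟩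
  filter_upwards [hC, hNo ν d j D η K ε hν hD hη hK hε hε1 hD1 hεD, eventually_ge_atTop 1]
    with T hC hno hT
  obtain ⟨hv, hm⟩ := hcl p ρ K T (by linarith) hK (by linarith)
  have hKT : 1 ≤ K * T := by nlinarith
  refine cover_le volume (Finset.univ ×ˢ Finset.range (⌊K * T⌋₊ + 1))
    (fun t : (Fin p → Fin ν) × ℕ =>
    {c | Function.Injective t.1 ∧ c ∈ U ∧ ∃ (A : Fin ν → Fin p → ℂ) (f : ℂ → Fin p → ℂ), ‖A‖ ≤ 1 ∧
      Disc ρ K T f ∧ Apx c t.1 A (Real.exp (-((195 + 15 * d) * (K * T)))) ρ f ∧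
      cl.Mem ρ (Real.exp ((2 * K + 1) * T)) f ∧
      (∀ i, ∀ w ∈ closedBall (cl.z i) cl.σ, ‖f w‖ ≤ Real.exp (-(t.2 : ℝ))) ∧
      -(t.2 + 1 + ε * T) ≤ Real.circleAverage (lg f) 0 1}) (x := Real.exp (-T)) ?_
      (fun t _ => ?_) ?_
  · rw [Finset.card_product, Finset.card_range, Finset.card_univ]
    have h1 : (⌊K * T⌋₊ : ℝ) ≤ K * T := Nat.floor_le (by linarith)
    push_cast
    rw [mul_assoc _ (2 * K) T]
    gcongr
    linarith
  · by_cases ht : Function.Injective t.1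
    · exact (measure_mono fun c hc => hc.2).trans (hC cl t.1 (fun _ => Real.exp (-(t.2 : ℝ)))
        (t.2 + 1 + ε * T) U hv ht hU (hU1.trans (Usm_subset η))
        fun c hc => hno 1 cl ρ _ _ _ hv c (hU1 hc))
    · exact (measure_mono (t := ∅) fun c hc => ht hc.1).trans (by simp)
  · rintro c ⟨hc, e, A, f, he, hA, h1, h3⟩
    obtain ⟨t, t1, t2, t3, t4⟩ := hR T f (by linarith) h1
    set x := Real.circleAverage (lg fun ζ => f (t * ζ)) 0 1 with hx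
    have hx1 : -(K * T) ≤ x := by
      have h4 := t3.gr
      have h5 := t3.le_lg (z := 0) (mem_ball_self (by linarith))
      rw [Tch] at h4
      linarith
    have hεT : 0 ≤ ε * T := by positivity
    refine Set.mem_iUnion₂.2 ⟨(e, ⌊-x - ε * T⌋₊), ?_, he, hc, A, fun ζ => f (t * ζ), hA,
      t3.mono (by linarith), fun z hz => h3 _ ?_, hm _ t3, fun i w hw => ?_, ?_⟩
    · simp only [Finset.mem_product, Finset.mem_univ, Finset.mem_range, true_and, Nat.lt_succ_iff]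
      exact Nat.floor_le_floor (by linarith)
    · rw [mem_ball_zero_iff] at hz ⊢
      rw [norm_mul, Complex.norm_real, Real.norm_of_nonneg (by linarith)]
      nlinarith [norm_nonneg z]
    · have hw2 := small_disc_subset (hv.hz i) hv.σle hw
      have hw3 : w ∈ ball (0 : ℂ) (2 * ρ) := closedBall_subset_ball (by linarith) hw2
      rcases le_or_gt 0 (-x - ε * T) with h0 | h0
      · have h6 := Nat.floor_le h0
        have h7 := t4 w hw2
        rw [← exp_lg (t3.ne hw3)]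
        exact Real.exp_le_exp.2 (h7.trans (by linarith))
      · rw [Nat.floor_of_nonpos h0.le]
        simpa using t3.hi w hw3
    · have := Nat.lt_floor_add_one (-x - ε * T)
      dsimp only
      linarith

theorem scale {K θ : ℝ} (b : ℕ) (hK : 1 ≤ K) (hθ : 0 < θ) (h1 : 200 * θ ≤ 1 / 200)
    (h2 : 200 * θ ≤ 100 / K) : (200 * θ) ^ (2 * b + 4) ≤ θ * θ ^ b / (2 * K) := by
  have h3 : (200 * θ) ^ 2 ≤ θ := by nlinarith
  have h4 : θ * (2 * K) ≤ 1 := by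
    rw [le_div_iff₀ (by linarith)] at h2
    linarith
  rw [show 2 * b + 4 = 2 * (b + 2) by ring, pow_mul, le_div_iff₀ (by linarith)]
  calc ((200 * θ) ^ 2) ^ (b + 2) * (2 * K) ≤ θ ^ (b + 2) * (2 * K) := by gcongr
    _ = θ * θ ^ b * (θ * (2 * K)) := by ring
    _ ≤ θ * θ ^ b * 1 := by gcongr
    _ = _ := mul_one _

end LevAux

open LevAux in
theorem levS (hSel : Sel2Stmt) (hResc : RescStmt) (hFast : Fast2Stmt) (hSlow : SlowStmt)
    (hCore : Core2Stmt) (hNo : NoSlowStmt) (hRel : RelStmt) : LevStmt := by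
  obtain ⟨K, C, hK, hC, hS⟩ := hSel (2 * (8 * Real.exp 2) + 2)
    (by have := Real.exp_pos 2; linarith)
  refine ⟨K, C, hK, hC, fun ν d j₁ D η ε hν hD hη hε hε4 hD1 hεD hj₁ => ?_⟩
  have hd : 1 ≤ d := by omega
  have hd' : (1 : ℝ) ≤ d := by exact_mod_cast hd
  set a := max 1 (2912 * ν * K * Real.log (4 * d + 3)) with ha
  have ha1 : 1 ≤ a := le_max_left _ _
  have hρ := Real.one_le_exp (x := a * (1 + d * (2 * K + 1))) (by positivity)
  obtain ⟨ρ', hρ', hR⟩ := hResc K ε (2 * (8 * Real.exp (a * (1 + d * (2 * K + 1))))) hK hε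
    (by linarith)
  obtain ⟨b, hS⟩ := hS ρ' (by linarith)
  refine ⟨2 * b + 4, min (min (1 / 200) ε) (min (100 / K) (10 / d)), by positivity,
    fun p j U g hp hpν hU hUs hg hg1 hj hno => ?_⟩
  obtain ⟨θ, rfl⟩ : ∃ θ, g = 200 * θ := ⟨g / 200, by ring⟩
  simp only [le_min_iff] at hg1
  obtain ⟨⟨g1, g2⟩, g3, g4⟩ := hg1
  have hθ : 0 < θ := by linarith
  obtain ⟨n₁, hf⟩ := fastPart (σ := θ ^ b) hFast hCore hRel hK hp hd hε (by linarith) hθ
    (by linarith) (by linarith) (by rw [le_div_iff₀ (by linarith)] at g4; linarith)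
    (pow_pos hθ b) (pow_le_one₀ hθ.le (by linarith)) (scale b hK hθ g1 g3) hU
    (hUs.trans (Usm_subset η)) hj hno
  obtain ⟨n₂, hn₂, hs⟩ := slowPart (p := p) hSlow hCore hNo hν hD hη hK hε hε4 hD1 hεD hj₁ hp ha1
    (le_trans (by
      have := Real.log_nonneg (x := 4 * d + 3) (by linarith)
      gcongr) (le_max_right _ _)) hU hUs (hR p)
  obtain ⟨T₀, hs⟩ := eventually_atTop.1 hs
  have e1 := tendsto_natCast_atTop_atTop (R := ℝ)
  have e2 : Tendsto (fun τ : ℕ => θ * τ / 4) atTop atTop :=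
    (e1.const_mul_atTop hθ).atTop_div_const (by norm_num)
  have t1 := ENNReal.tendsto_ofReal
    (((Real.tendsto_exp_neg_atTop_nhds_zero.comp e1).const_mul n₁))
  have t2 := ENNReal.tendsto_ofReal (tends (2 * n₂) hθ)
  have t3 := t1.add t2
  simp only [mul_zero, ENNReal.ofReal_zero, add_zero] at t3
  refine tendsto_of_tendsto_of_tendsto_of_le_of_le' tendsto_const_nhds t3
    (Eventually.of_forall fun _ => zero_le) ?_
  filter_upwards [e1.eventually hf, e2.eventually_ge_atTop T₀, e2.eventually_ge_atTop 1,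
    e1.eventually_ge_atTop 1] with τ a1 a2 a3 a4
  let S : ℕ → Set (Mon ν d → ℂ) := fun T => {c | θ * τ / 4 ≤ T ∧ c ∈ U ∧
    ∃ (e : Fin p → Fin ν) (A : Fin ν → Fin p → ℂ) (f : ℂ → Fin p → ℂ),
      Function.Injective e ∧ ‖A‖ ≤ 1 ∧ Disc ρ' K T f ∧
      Apx c e A (Real.exp (-((195 + 15 * d) * (K * T)))) ρ' f}
  have b2 : volume (⋃ T ∈ Finset.range (τ + 1), S T) ≤
      ENNReal.ofReal (2 * n₂ * (τ : ℝ) ^ 2 * Real.exp (-(θ * τ / 4))) := by
    refine cover_le volume _ S (x := n₂ * τ * Real.exp (-(θ * τ / 4))) ?_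
      (fun T hT => ?_) subset_rfl
    · rw [Finset.card_range]
      push_cast
      calc ((τ : ℝ) + 1) * (n₂ * τ * Real.exp (-(θ * τ / 4))) ≤
            (2 * τ) * (n₂ * τ * Real.exp (-(θ * τ / 4))) := by gcongr; linarith
        _ = _ := by ring
    · by_cases h : θ * τ / 4 ≤ T
      · refine (measure_mono fun c hc => hc.2).trans ((hs T (a2.trans h)).trans
          (ENNReal.ofReal_le_ofReal ?_))
        have : T ≤ τ := Nat.lt_succ_iff.1 (Finset.mem_range.1 hT)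
        gcongr
      · rw [show S T = ∅ from Set.eq_empty_of_forall_notMem fun c hc => h hc.1]; simp
  refine (measure_mono ?_).trans ((measure_union_le _ _).trans (add_le_add a1 b2))
  rintro c ⟨hc, hb⟩
  simp only [Hyp, not_forall, not_le] at hb
  obtain ⟨e, A, f, z, t, he, hA, f1, ht, f2, f3⟩ := hb
  obtain ⟨g, ⟨k1, k2, k3⟩ | ⟨T, k0, k0', k1, k2⟩⟩ := hS θ hθ (by linarith) p f z t τ f1 ht
    (fun w hw => (f2 w hw).1) (by linarith) f3.le
  · exact Or.inl ⟨hc, e, A, g, he, hA, k2, k3, apx_of_from k1 (fun w hw => (f2 w hw).2) le_rfl⟩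
  · refine Or.inr (Set.mem_iUnion₂.2 ⟨T, Finset.mem_range.2 (by omega), k0, hc, e, A, g, he, hA,
      k2, apx_of_from k1 (fun w hw => (f2 w hw).2) ?_⟩)
    gcongr

end

end Pool.Agent.Lib.MP_45f16c_ag.AS
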