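import Pool.Agent.Lib.MP_45f16c_ag.Basic

/-! Objects used in the proof of the asymptotically sharp bound (not in the hand-in statement). -/

set_option autoImplicit false
open Metric MeasureTheory MvPolynomial Filter
open scoped ComplexConjugate Matrix

namespace Pool.Agent.Lib.MP_45f16c_ag.AS

noncomputable section

/-! ### Forms and linear subspaces over a commutative ring -/

section ring
variable {R : Type} [CommRing R] {ν p d : ℕ}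

/-- The form with coefficient vector `c` over any ring (over `ℂ` it is `form`). -/
def formR (c : Mon ν d → R) : MvPolynomial (Fin ν) R := ∑ m : Mon ν d, monomial m.1 (c m)

/-- Values at `x` of a family of forms. -/
def vv {ι : Type} (s : ι → Mon ν d → R) (x : Fin ν → R) : ι → R := fun i => eval x (formR (s i))

/-- The part of the parametrisation `lin` that depends on the matrix. -/
def lin0 (e : Fin p → Fin ν) (A : Fin ν → Fin p → R) (y : Fin p → R) : Fin ν → R :=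
  fun a => if ∃ i, e i = a then 0 else ∑ i, A a i * y i

/-- Parametrisation of a `p`-dimensional subspace: the coordinates `e i` are free. -/
def lin (e : Fin p → Fin ν) (A : Fin ν → Fin p → R) (y : Fin p → R) : Fin ν → R :=
  fun a => (∑ i, if e i = a then y i else 0) + lin0 e A y a

/-- Deviation from the subspace. -/
def res (e : Fin p → Fin ν) (A : Fin ν → Fin p → R) (x : Fin ν → R) : Fin ν → R :=
  x - lin e A fun i => x (e i)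

end ring

/-! ### Inverse systems -/

section alg

/-- The dual of the polynomial ring. -/
abbrev DD (k : Type) [Field k] (ν : ℕ) : Type := Module.Dual k (MvPolynomial (Fin ν) k)

variable {k : Type} [Field k] {ν : ℕ}

/-- Contraction by a polynomial. -/
def act (P : MvPolynomial (Fin ν) k) : DD k ν →ₗ[k] DD k ν := (LinearMap.mulLeft k P).dualMap

/-- The linear form with coefficients `l`. -/
def LL (l : Fin ν → k) : MvPolynomial (Fin ν) k := ∑ a, l a • X a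

/-- Functionals of degree `t`. -/
def Dg (k : Type) [Field k] (ν t : ℕ) : Submodule k (DD k ν) where
  carrier := {η | ∀ (s : ℕ) (P : MvPolynomial (Fin ν) k), P.IsHomogeneous s → s ≠ t → η P = 0}
  add_mem' h h' s P hP hs := by simp [h s P hP hs, h' s P hP hs]
  zero_mem' _ _ _ _ := rfl
  smul_mem' a _ h s P hP hs := by simp [h s P hP hs]

/-- Evaluation at `x` of the component of degree `t`. -/
def dl (t : ℕ) (x : Fin ν → k) : DD k ν :=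
  (aeval x : MvPolynomial (Fin ν) k →ₐ[k] k).toLinearMap ∘ₗ homogeneousComponent t

/-- Linear forms vanishing on `T`. -/
def Van (T : Set (Fin ν → k)) : Submodule k (Fin ν → k) where
  carrier := {l | ∀ x ∈ T, l ⬝ᵥ x = 0}
  add_mem' h h' x hx := by simp [h x hx, h' x hx]
  zero_mem' _ _ := by simp
  smul_mem' a _ h x hx := by simp [h x hx]

/-- Functionals killed by all products of `u` linear forms vanishing on `T`. -/
def NN (T : Set (Fin ν → k)) : ℕ → Submodule k (DD k ν)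
  | 0 => ⊥
  | u + 1 => ⨅ l ∈ Van T, (NN T u).comap (act (LL l))

/-- Functionals of degree `d + s` sent into `Φ` by all forms of degree `s`. -/
def Sat (Φ : Submodule k (DD k ν)) (d s : ℕ) : Submodule k (DD k ν) :=
  Dg k ν (d + s) ⊓ ⨅ P ∈ {P : MvPolynomial (Fin ν) k | P.IsHomogeneous s}, Φ.comap (act P)

/-- Functionals of degree `d + s` sent into `Φ` by all forms of degree `s` vanishing at `x`. -/
def Obs (Φ : Submodule k (DD k ν)) (d s : ℕ) (x : Fin ν → k) : Submodule k (DD k ν) :=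
  Dg k ν (d + s) ⊓
    ⨅ P ∈ {P : MvPolynomial (Fin ν) k | P.IsHomogeneous s ∧ eval x P = 0}, Φ.comap (act P)

/-- Any `n` of the points can be interpolated by a linear form. -/
def Itp {I : Type} (x : I → Fin ν → k) (n : ℕ) : Prop :=
  ∀ T : Finset I, T.card ≤ n → ∀ v : I → k, ∃ l : Fin ν → k, ∀ i ∈ T, l ⬝ᵥ x i = v i

/-- More than `μ` independent obstructions in degree one. -/
def Bad1 (Φ : Submodule k (DD k ν)) (d μ : ℕ) (x : Fin ν → k) : Prop :=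
  ∃ O : Submodule k (DD k ν), O ≤ Obs Φ d 1 x ∧ μ < Module.finrank k O ∧
    ∀ η ∈ O, ∀ l : Fin ν → k, l ⬝ᵥ x ≠ 0 → act (LL l) η ∈ Φ ⊔ k ∙ dl d x → η = 0

/-- An obstruction in degree `h`. -/
def Bad2 (Φ : Submodule k (DD k ν)) (d h : ℕ) (x : Fin ν → k) : Prop :=
  dl d x ∉ Φ ∧ ∃ η ∈ Obs Φ d h x, ∀ P : MvPolynomial (Fin ν) k, P.IsHomogeneous h →
    eval x P ≠ 0 → act P η ∉ Φ ⊔ k ∙ dl d x

end alg

/-! ### Transfer along an ultrafilter -/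

/-- The ring of subexponential sequences and its residue field. -/
structure UF (𝒰 : Ultrafilter ℕ) (T : ℕ → ℝ) (O : Subring (ℕ → ℂ)) {k : Type} [Field k]
    (π : O →+* k) : Prop where
  surj : Function.Surjective π
  mem : ∀ a : ℕ → ℂ, a ∈ O ↔ ∀ c : ℝ, 0 < c → ∀ᶠ n in 𝒰, ‖a n‖ ≤ Real.exp (c * T n)
  ker : ∀ a : O, π a = 0 ↔ ∃ c : ℝ, 0 < c ∧ ∀ᶠ n in 𝒰, ‖a.1 n‖ ≤ Real.exp (-(c * T n))

/-- Quantitative generation at `x` by the values of the families `s` and of `μ` members of `r`. -/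
def Good {ι : Type} [Fintype ι] [DecidableEq ι] {N₁ N₂ : ℕ} (μ : ℕ) (u : Fin N₁ → ι → ℂ)
    (r : Fin N₂ → ι → ℂ) (i₀ : ι) (R : ℝ) : Prop :=
  ∃ sel : Fin μ → Fin N₂, ∀ v : ι → ℂ, ∃ (a : Fin N₁ → ℂ) (a' : Fin μ → ℂ) (t : ℂ),
    ‖a‖ ≤ R * ‖v‖ ∧ ‖a'‖ ≤ R * ‖v‖ ∧ v = ∑ α, a α • u α + ∑ κ, a' κ • r (sel κ) + Pi.single i₀ t

/-! ### Minors -/

section minors
variable {q d N₁ N₂ : ℕ}

/-- Number of slots filled from the second family. -/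
def nR (θ : Fin q → Fin N₁ ⊕ Fin N₂) : ℕ := (Finset.univ.filter fun k => (θ k).isRight).card

/-- The minor of the lifted vectors with the basis vector `a` in the first row. -/
def Dt {ι : Type} [Fintype ι] (Ξ : ι → Fin (q + 1) → ℂ) (u : Fin N₁ → ι → ℂ) (r : Fin N₂ → ι → ℂ)
    (θ : Fin q → Fin N₁ ⊕ Fin N₂) (a : Fin (q + 1)) : ℂ :=
  (Matrix.of (Fin.cons (Pi.single a 1) fun k b => ∑ i, Sum.elim u r (θ k) i * Ξ i b :
    Fin (q + 1) → Fin (q + 1) → ℂ)).det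

/-- The lifts of the generating family. -/
def Xi {ν : ℕ} (j : ℕ) (x : Fin ν → ℂ) (ξ : Mon ν d → Fin ν → ℂ) : Gi ν d j → Fin ν → ℂ :=
  Sum.elim (fun ab => Pi.single ab.1 (-x ab.2)) (Sum.elim ξ fun _ => 0)

/-- The homogenised minors. -/
def Dl2 {j h : ℕ} (μ : ℕ) (s : Fin N₁ → Gi (q + 1) d j → Mon (q + 1) 1 → ℂ)
    (r : Fin N₂ → Gi (q + 1) d j → Mon (q + 1) h → ℂ) (x : Fin (q + 1) → ℂ)
    (ξ : Mon (q + 1) d → Fin (q + 1) → ℂ)
    (t : ((Fin q → Fin N₁ ⊕ Fin N₂) × Fin (q + 1)) × Fin (q + 1)) : ℂ :=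
  if nR t.1.1 ≤ μ then x t.1.2 ^ ((h - 1) * (μ - nR t.1.1)) *
    Dt (Xi j x ξ) (fun α => vv (s α) x) (fun κ => vv (r κ) x) t.1.1 t.2 else 0

end minors

/-! ### Weights for the maximum principle -/

/-- The weight vanishing at the points `a k`. -/
def Wz {J : Type} [Fintype J] (a : J → ℂ) (lam κ : ℝ) (z : ℂ) : ℝ :=
  (∏ k, (‖z - a k‖ / 3) ^ lam) * Real.exp (κ * ‖z‖ ^ 2)

/-- The gain of a jump of radius `r`. -/
def Rz {J : Type} [Fintype J] (a : J → ℂ) (r : ℝ) (z : ℂ) : ℝ :=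
  ∏ k, max r ‖z - a k‖ / ‖z - a k‖

/-! ### Discs -/

section discs
variable {ν p d j N : ℕ}

/-- The disc lies approximately on the linear section of the hypersurface. -/
def Apx (c : Mon ν d → ℂ) (e : Fin p → Fin ν) (A : Fin ν → Fin p → ℂ) (ζ ρ : ℝ)
    (g : ℂ → Fin p → ℂ) : Prop :=
  ∀ z ∈ ball (0 : ℂ) ρ, ‖eval (lin e A (g z)) (form c)‖ ≤ ζ * ‖g z‖ ^ d

/-- Quantitative hyperbolicity of the `p`-dimensional linear sections of the cone. -/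
def Hyp (c : Mon ν d → ℂ) (p : ℕ) (τ ζ C : ℝ) : Prop :=
  ∀ (e : Fin p → Fin ν) (A : Fin ν → Fin p → ℂ) (g : ℂ → Fin p → ℂ) (a : ℂ) (t : ℝ),
    Function.Injective e → ‖A‖ ≤ 1 → Differentiable ℂ g → 0 < t →
    (∀ z ∈ closedBall a (C * t),
      g z ≠ 0 ∧ ‖eval (lin e A (g z)) (form c)‖ ≤ ζ * ‖g z‖ ^ d) → Tch g a t ≤ τ

/-- The values of `g` on the disc of radius `ρ` are multiples of values of `f` near `a`. -/
def From (f : ℂ → Fin p → ℂ) (a : ℂ) (R ρ : ℝ) (g : ℂ → Fin p → ℂ) : Prop :=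
  ∀ ζ ∈ ball (0 : ℂ) ρ, ∃ (l w : ℂ), w ∈ closedBall a R ∧ g ζ = l • f w

/-- The sizes of a class oscillate little at the scale `s`. -/
def COsc (cl : Cls N) (s Γ : ℝ) : Prop :=
  ∀ i i', ∀ w ∈ closedBall (cl.z i) cl.σ, ∀ w' ∈ closedBall (cl.z i') cl.σ, ‖w' - w‖ ≤ s →
    cl.ω i' ≤ Γ * cl.ω i

/-- What a point of the region with bounded lifts provides. -/
structure Dat (cl : Cls N) (ω' : Fin N → ℝ) (m : ℕ) (W₁ W₂ W₃ L B E G₀ G₁ : ℝ) (c : Mon ν d → ℂ)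
    (y : Fin j → Mon ν d → ℂ) (f : ℂ → Fin ν → ℂ) (ξ : Mon ν d → ℂ → Fin ν → ℂ) (γ : ℂ → ℂ) :
    Prop where
  hy : ‖y‖ ≤ 1
  pf : ∀ a, PD ℂ m fun z => f z a
  dξ : ∀ n, Differentiable ℂ (ξ n)
  dγ : Differentiable ℂ γ
  lo : ∀ i, ∀ w ∈ closedBall (cl.z i) cl.σ, cl.ω i ≤ W₁ * ‖f w‖
  hi : ∀ i, ∀ w ∈ closedBall (cl.z i) cl.σ, ‖f w‖ ≤ W₂ * ω' i
  hξ : ∀ i, ∀ w ∈ closedBall (cl.z i) cl.σ, ∀ n, ‖ξ n w‖ ≤ W₃ * ω' i
  abs : ∀ z ∈ closedBall (0 : ℂ) 1, L ≤ ‖f z‖ ∧ ‖f z‖ ≤ B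
  err : ∀ z ∈ closedBall (0 : ℂ) 1, ∀ n,
    ‖eval (f z) (form (prj y n)) + lf (grad c (f z)) (ξ n z)‖ ≤ E * ‖f z‖ ^ d
  onX : ∀ z ∈ closedBall (0 : ℂ) 1, ‖eval (f z) (form c)‖ ≤ E * ‖f z‖ ^ d
  lip : ∀ z ∈ closedBall (0 : ℂ) 1, ∀ w ∈ closedBall (0 : ℂ) 1,
    ‖f z - f w‖ ≤ B * ‖z - w‖ ∧ ‖γ z - γ w‖ ≤ B * ‖z - w‖
  circ : ∀ z : ℂ, ‖z‖ = 1 → ‖γ z‖ ≤ ‖f z‖
  g0 : G₀ * ‖f 0‖ ≤ ‖γ 0‖
  g1 : G₁ ≤ ‖γ 0‖

/-- The data at the level `T`. -/
def DatT (K g ε χ s₀ T : ℝ) (cl : Cls N) (ω' : Fin N → ℝ) (c : Mon ν d → ℂ) (j : ℕ) : Prop :=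
  ∃ (m : ℕ) (y : Fin j → Mon ν d → ℂ) (f : ℂ → Fin ν → ℂ) (ξ : Mon ν d → ℂ → Fin ν → ℂ)
    (γ : ℂ → ℂ), (m : ℝ) ≤ 209 * (K * T) ∧
    Dat cl ω' m (Real.exp ((4 * g + χ) * T)) (Real.exp (χ * T)) (Real.exp ((ε + χ) * T))
      (Real.exp (-(17 * (K * T)))) (Real.exp (17 * (K * T))) (Real.exp (-(100 * (K * T))))
      (Real.exp ((1 - χ) * T)) (Real.exp (-s₀ - χ * T)) c y f ξ γ

/-- Data with lifts bounded relative to the disc and small oscillation at the scale `σ`. -/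
structure RDat (K ε g σ T : ℝ) (c : Mon ν d → ℂ) (y : Fin j → Mon ν d → ℂ) (f : ℂ → Fin ν → ℂ)
    (ξ : Mon ν d → ℂ → Fin ν → ℂ) (γ : ℂ → ℂ) : Prop where
  hy : ‖y‖ ≤ 1
  pf : ∃ m : ℕ, (m : ℝ) ≤ 209 * (K * T) ∧ ∀ a, PD ℂ m fun z => f z a
  dξ : ∀ n, Differentiable ℂ (ξ n)
  dγ : Differentiable ℂ γ
  abs : ∀ z ∈ closedBall (0 : ℂ) 1,
    Real.exp (-(17 * (K * T))) ≤ ‖f z‖ ∧ ‖f z‖ ≤ Real.exp (17 * (K * T))
  osc : ∀ z ∈ closedBall (0 : ℂ) 1, ∀ z' ∈ closedBall (0 : ℂ) 1, ‖z' - z‖ ≤ σ →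
    ‖f z'‖ ≤ Real.exp (g * T) * ‖f z‖
  hξ : ∀ z ∈ closedBall (0 : ℂ) 1, ∀ n, ‖ξ n z‖ ≤ Real.exp (ε * T) * ‖f z‖
  err : ∀ z ∈ closedBall (0 : ℂ) 1, ∀ n,
    ‖eval (f z) (form (prj y n)) + lf (grad c (f z)) (ξ n z)‖ ≤
      Real.exp (-(100 * (K * T))) * ‖f z‖ ^ d
  onX : ∀ z ∈ closedBall (0 : ℂ) 1,
    ‖eval (f z) (form c)‖ ≤ Real.exp (-(100 * (K * T))) * ‖f z‖ ^ d
  lip : ∀ z ∈ closedBall (0 : ℂ) 1, ∀ w ∈ closedBall (0 : ℂ) 1,
    ‖f z - f w‖ ≤ Real.exp (17 * (K * T)) * ‖z - w‖ ∧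
      ‖γ z - γ w‖ ≤ Real.exp (17 * (K * T)) * ‖z - w‖
  circ : ∀ z : ℂ, ‖z‖ = 1 → ‖γ z‖ ≤ ‖f z‖
  g0 : Real.exp (T / 2) * ‖f 0‖ ≤ ‖γ 0‖

end discs

/-! ### The truncated problem in a moving subspace -/

/-- Unknowns: those of the old problem in dimension `p`, and the matrix of the subspace. -/
abbrev Unk2 (ν p m : ℕ) : Type := Unk p m ⊕ Fin ν × Fin p

/-- Constraints: equation of the hypersurface, old constraints, size of the disc. -/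
abbrev Con2 (p N M : ℕ) : Type := (Fin N × Fin M) ⊕ Con p N M ⊕ Fin N × Fin M × Fin p

section core
variable {ν p d m N : ℕ}

/-- The old unknowns. -/
def xs (v : Unk2 ν p m → ℂ) : Unk p m → ℂ := fun i => v (.inl i)

/-- The matrix. -/
def As (v : Unk2 ν p m → ℂ) : Fin ν → Fin p → ℂ := fun a i => v (.inr (a, i))

/-- The polynomial disc in the ambient space. -/
def fz (e : Fin p → Fin ν) (B : ℝ) (v : Unk2 ν p m → ℂ) (w : ℂ) : Fin ν → ℂ :=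
  lin e (As v) (fx B (xs v) w)

/-- The constraint map. -/
def Gm2 (cl : Cls N) (pr : Par m) (M : ℕ) (e : Fin p → Fin ν) (ω' : Fin N → ℝ) (r : Con2 p N M)
    (v : (Unk2 ν p m → ℂ) × (Mon ν d → ℂ)) : ℂ :=
  match r with
  | .inl t => eval (fz e pr.B v.1 (node (cl.z t.1) cl.σ M t.2)) (form v.2) /
      ((pr.ε * cl.ω t.1 ^ d : ℝ) : ℂ)
  | .inr (.inl r) => Gm (d := 1) cl pr M r (xs v.1, 0)
  | .inr (.inr t) => fx pr.B (xs v.1) (node (cl.z t.1) cl.σ M t.2.1) t.2.2 / ((2 * ω' t.1 : ℝ) : ℂ)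

end core

end

end Pool.Agent.Lib.MP_45f16c_ag.AS
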