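import Pool.Agent.Lib.MP_45f16c_ag.AS.Obj

/-! The statements of the modules of the proof. Each one is proved in its own file. -/

set_option autoImplicit false
open Metric MeasureTheory MvPolynomial Filter Module
open scoped ComplexConjugate Matrix Topology

namespace Pool.Agent.Lib.MP_45f16c_ag.AS

noncomputable section

/-! ### Algebra -/

/-- Shadows of small families of monomials of large degree. -/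
def ShStmt : Prop :=
  ∀ (ι : Type) [DecidableEq ι] (s : Finset ι) (u a : ℕ) (F G : Finset (ι → ℕ)),
    (∀ α ∈ F, u ≤ ∑ i ∈ s, α i) → (∀ β : ι → ℕ, ∀ i ∈ s, β + Pi.single i 1 ∈ F → β ∈ G) →
    G.card + a ≤ F.card → (a : ℤ) * (u + 2 - a) ≤ F.card

/-- A Macaulay type bound. -/
def MacStmt : Prop :=
  ∀ (k : Type) [Field k] (ν t u a : ℕ) (T : Set (Fin ν → k)) (Ψ Φ : Submodule k (DD k ν)),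
    Ψ ≤ Dg k ν (t + 1) → Φ ≤ Dg k ν t → (∀ l ∈ Van T, ∀ η ∈ Ψ, act (LL l) η ∈ Φ) →
    finrank k Φ < a * (u + 1 - a) →
    finrank k Ψ < finrank k Φ + a + finrank k (Ψ ⊓ NN T u : Submodule k (DD k ν))

/-- Independence of functionals supported near subspaces in general position. -/
def IndStmt : Prop :=
  ∀ (k : Type) [Field k] (ν t u G γ : ℕ) (I : Type) [Fintype I] (T : I → Set (Fin ν → k)),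
    (∀ (i₀ : I) (J : Finset I), i₀ ∉ J → J.card ≤ γ → ∀ l : Fin ν → k,
      ∃ l', (∀ i ∈ J, l' ∈ Van (T i)) ∧ l - l' ∈ Van (T i₀)) →
    Fintype.card I ≤ γ * G + 1 → u * (G + 1) ≤ t + 1 →
    ∀ Φ : Submodule k (DD k ν), Φ ≤ Dg k ν t →
      ∑ i, finrank k (Φ ⊓ NN (T i) u : Submodule k (DD k ν)) ≤ finrank k Φ

/-- Saturations of a small space are small. -/
def SatStmt : Prop :=
  ∀ (k : Type) [Field k] (ν d e : ℕ) (Φ : Submodule k (DD k ν)), Φ ≤ Dg k ν d →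
    finrank k Φ ≤ e → e ≤ d → ∀ s, finrank k (Sat Φ d s) ≤ e

/-- Vanishing of the obstructions of a small space in large degree. -/
def GcStmt : Prop :=
  ∀ (k : Type) [Field k] (ν d e s : ℕ) (Φ : Submodule k (DD k ν)) (x l : Fin ν → k),
    Φ ≤ Dg k ν d → finrank k Φ ≤ e → e ≤ d → l ⬝ᵥ x = 1 → dl d x ∉ Φ → 3 * e + 2 ≤ s →
    ∀ η ∈ Obs Φ d s x, act (LL l ^ s) η ∈ Φ ⊔ k ∙ dl d x

/-- Few points in general position have many obstructions in degree one. -/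
def L1Stmt : Prop :=
  ∀ (k : Type) [Field k] [Infinite k] (ν d j μ u a G γ r n : ℕ) (Φ : Submodule k (DD k ν)),
    Φ ≤ Dg k ν d → finrank k Φ ≤ j → 1 ≤ d → 2 * j ≤ γ * G → u * (G + 1) ≤ d →
    (γ + 1) * r ≤ n → j < a * (u + 1 - a) → j + a ≤ r * (μ + 1) →
    ∀ x : Fin (2 * j + 1) × Fin r → Fin ν → k, Itp x n → ¬∀ i, Bad1 Φ d μ (x i)

/-- Few points in general position have an obstruction in degree `h`. -/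
def L2Stmt : Prop :=
  ∀ (k : Type) [Field k] (ν d j h e s u a G γ r n : ℕ) (Φ : Submodule k (DD k ν)),
    Φ ≤ Dg k ν d → finrank k Φ ≤ j → j < s * (e + 1) → s ≤ γ * G + 1 → u * (G + 1) ≤ d + 1 →
    (γ + 1) * r ≤ n → e ≤ d → j + (3 * e + 2) * (e + a) < a * (u + 1 - a) →
    j + (3 * e + 2) * (e + a) < (h - (3 * e + 2)) * (r - (e + a)) →
    ∀ x : Fin s × Fin r → Fin ν → k, Itp x n → ¬∀ i, Bad2 Φ d h (x i)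

/-- A set is covered by finitely many small subspaces or contains points in general position. -/
def PoolStmt : Prop :=
  ∀ (k : Type) [Field k] (ν p : ℕ) (B : Set (Fin ν → k)),
    (∃ (N : ℕ) (b : Fin N → Fin p → Fin ν → k),
      ∀ x ∈ B, ∃ ρ, x ∈ Submodule.span k (Set.range (b ρ))) ∨
    ∀ (I : Type) [Fintype I], ∃ x : I → Fin ν → k, (∀ i, x i ∈ B) ∧ Itp x (p + 1)

/-- Duality between syzygies and obstructions. -/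
def DualStmt : Prop :=
  ∀ (k : Type) [Field k] (ν d j t : ℕ) (ι : Type) [Fintype ι] [DecidableEq ι]
    (E : ι → Mon ν d → k) (Y : Fin j → Mon ν d → k), 1 ≤ d →
    Submodule.span k (Set.range E ∪ Set.range Y) = ⊤ →
    ∃ (Φ : Submodule k (DD k ν)) (N₁ N₂ : ℕ) (s : Fin N₁ → ι → Mon ν 1 → k)
      (r : Fin N₂ → ι → Mon ν t → k), Φ ≤ Dg k ν d ∧ finrank k Φ ≤ j ∧
      (∀ α, ∑ i, formR (s α i) * formR (E i) = 0) ∧ (∀ κ, ∑ i, formR (r κ i) * formR (E i) = 0) ∧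
      ∀ (μ : ℕ) (x : Fin ν → k) (i₀ : ι), vv E x i₀ ≠ 0 → ¬Bad1 Φ d μ x → ¬Bad2 Φ d t x →
        ∃ sel : Fin μ → Fin N₂, Submodule.span k (Set.range (Sum.elim (fun α => vv (s α) x)
          (Sum.elim (fun κ => vv (r (sel κ)) x) fun _ : Unit => Pi.single i₀ 1))) = ⊤

/-- Generation by syzygies of small degree outside finitely many small subspaces. -/
def AlgStmt : Prop :=
  ∀ (k : Type) [Field k] [Infinite k] (ν d w : ℕ) (ι : Type) [Fintype ι] [DecidableEq ι]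
    (E : ι → Mon ν d → k) (Y : Fin (w ^ 46) → Mon ν d → k), 12 ≤ w → 2 * w ^ 45 ≤ d →
    Submodule.span k (Set.range E ∪ Set.range Y) = ⊤ →
    ∃ (N₁ N₂ N₃ : ℕ) (s : Fin N₁ → ι → Mon ν 1 → k) (r : Fin N₂ → ι → Mon ν (w ^ 15) → k)
      (b : Fin N₃ → Fin (w ^ 44) → Fin ν → k),
      (∀ α, ∑ i, formR (s α i) * formR (E i) = 0) ∧ (∀ κ, ∑ i, formR (r κ i) * formR (E i) = 0) ∧
      ∀ (x : Fin ν → k) (i₀ : ι), vv E x i₀ ≠ 0 →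
        (∀ ρ, x ∉ Submodule.span k (Set.range (b ρ))) →
        ∃ sel : Fin (w ^ 29) → Fin N₂, Submodule.span k (Set.range (Sum.elim (fun α => vv (s α) x)
          (Sum.elim (fun κ => vv (r (sel κ)) x) fun _ : Unit => Pi.single i₀ 1))) = ⊤

/-! ### Transfer along an ultrafilter -/

/-- The residue field of subexponential sequences. -/
def FieldStmt : Prop :=
  ∀ (𝒰 : Ultrafilter ℕ) (T : ℕ → ℝ), Tendsto T 𝒰 atTop →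
    ∃ (O : Subring (ℕ → ℂ)) (k : Type) (_ : Field k) (_ : Infinite k) (π : O →+* k), UF 𝒰 T O π

/-- Spanning over the residue field gives quantitative spanning. -/
def TransStmt : Prop :=
  ∀ (𝒰 : Ultrafilter ℕ) (T : ℕ → ℝ) (O : Subring (ℕ → ℂ)) (k : Type) [Field k] (π : O →+* k),
    Tendsto T 𝒰 atTop → UF 𝒰 T O π → ∀ (ι β : Type) [Fintype ι] [Fintype β] (V : β → ι → O),
    Submodule.span k (Set.range fun b i => π (V b i)) = ⊤ → ∀ c : ℝ, 0 < c →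
    ∀ᶠ n in 𝒰, ∀ v : ι → ℂ, ∃ a : β → ℂ, ‖a‖ ≤ Real.exp (c * T n) * ‖v‖ ∧
      v = ∑ b, a b • fun i => (V b i).1 n

/-- Normal form of a subspace. -/
def SubspStmt : Prop :=
  ∀ (ν p : ℕ) (b : Fin p → Fin ν → ℂ), p ≤ ν → ∃ (e : Fin p → Fin ν) (A : Fin ν → Fin p → ℂ),
    Function.Injective e ∧ ‖A‖ ≤ 1 ∧ ∀ κ, res e A (b κ) = 0

/-- Approximate syzygies generate quantitatively away from finitely many small subspaces. -/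
def UltStmt : Prop :=
  ∀ (ν d w : ℕ) (ι : Type) [Fintype ι] [DecidableEq ι] (𝒰 : Ultrafilter ℕ) (T : ℕ → ℝ)
    (E : ℕ → ι → Mon ν d → ℂ) (Y : ℕ → Fin (w ^ 46) → Mon ν d → ℂ)
    (Z : ℕ → Mon ν d → Fin (w ^ 46) → ℂ) (τ : Mon ν d → ι) (C η : ℝ),
    12 ≤ w → 2 * w ^ 45 ≤ d → w ^ 44 ≤ ν → Tendsto T 𝒰 atTop → 0 < η →
    (∀ n, ‖E n‖ ≤ C ∧ ‖Y n‖ ≤ C ∧ ‖Z n‖ ≤ C) →
    (∀ n m, Pi.single m 1 = E n (τ m) + ∑ l, Z n m l • Y n l) →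
    ∃ (N₁ N₂ N₃ : ℕ) (c₀ : ℝ) (s : ℕ → Fin N₁ → ι → Mon ν 1 → ℂ)
      (r : ℕ → Fin N₂ → ι → Mon ν (w ^ 15) → ℂ) (e : Fin N₃ → Fin (w ^ 44) → Fin ν)
      (A : ℕ → Fin N₃ → Fin ν → Fin (w ^ 44) → ℂ), 0 < c₀ ∧ (∀ ρ, Function.Injective (e ρ)) ∧
      (∀ n ρ, ‖A n ρ‖ ≤ 1) ∧ ∀ β : ℝ, 0 < β → ∃ c₁ : ℝ, 0 < c₁ ∧ ∀ᶠ n in 𝒰,
        ‖s n‖ ≤ Real.exp (β * T n) ∧ ‖r n‖ ≤ Real.exp (β * T n) ∧ ∀ x : Fin ν → ℂ, ‖x‖ = 1 →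
          (∀ α, ‖∑ i, vv (s n α) x i * vv (E n) x i‖ ≤ Real.exp (-(c₀ * T n))) ∧
          (∀ κ, ‖∑ i, vv (r n κ) x i * vv (E n) x i‖ ≤ Real.exp (-(c₀ * T n))) ∧
          ((∀ ρ, Real.exp (-(c₁ * T n)) ≤ ‖res (e ρ) (A n ρ) x‖) → ∀ i₀, η ≤ ‖vv (E n) x i₀‖ →
            Good (w ^ 29) (fun α => vv (s n α) x) (fun κ => vv (r n κ) x) i₀ (Real.exp (β * T n)))

/-! ### Minors -/

/-- Pointwise algebra of the minors. -/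
def ExpStmt : Prop :=
  ∀ (ι : Type) [Fintype ι] [DecidableEq ι] (q N₁ N₂ μ : ℕ), ∃ C : ℝ, 1 ≤ C ∧
    ∀ (Ξ : ι → Fin (q + 1) → ℂ) (u : Fin N₁ → ι → ℂ) (r : Fin N₂ → ι → ℂ) (R : ℝ),
      1 ≤ R → ‖u‖ ≤ R → ‖r‖ ≤ R →
      (∀ Λ : ℝ, ‖Ξ‖ ≤ Λ → ∀ θ a, ‖Dt Ξ u r θ a‖ ≤ C * (R * Λ) ^ q) ∧
      ∀ (e : ι → ℂ) (H : Fin (q + 1) → ℂ) (w : Fin (q + 1) → ι → ℂ) (i₀ : ι) (a₀ : Fin (q + 1))
        (E δ P : ℝ), 0 ≤ δ → H ≠ 0 → ‖H a₀‖ = ‖H‖ → (∀ b, b ≠ a₀ → Ξ i₀ b = 0) →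
        (∀ a b, ∑ i, w a i * Ξ i b = if a = b then 1 else 0) → ‖w‖ ≤ 1 →
        (∀ i, ‖e i + lf H (Ξ i)‖ ≤ E) → (∀ α, ‖∑ i, u α i * e i‖ ≤ δ) →
        (∀ κ, ‖∑ i, r κ i * e i‖ ≤ δ) → Good μ u r i₀ R →
        (∀ θ, nR θ ≤ μ → ‖Dt Ξ u r θ a₀‖ ≤ P) →
        1 ≤ C * R ^ q * P ∧ ∀ θ a b, ‖H a‖ * ‖Dt Ξ u r θ b‖ ≤ ‖H b‖ * ‖Dt Ξ u r θ a‖ +
          C * R ^ (2 * q) * (δ + E) * P

/-- The pointwise estimates for the homogenised minors. -/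
def PtStmt : Prop :=
  ∀ (q d j μ h D N₁ N₂ : ℕ) (η : ℝ), 1 ≤ d → 1 ≤ h → D + 2 * (q + 1) + μ * (h - 1) = d + 1 →
    0 < η → ∃ C : ℝ, 1 ≤ C ∧ ∀ c ∈ Usm (q + 1) d η, ∀ (y : Fin j → Mon (q + 1) d → ℂ)
      (s : Fin N₁ → Gi (q + 1) d j → Mon (q + 1) 1 → ℂ)
      (r : Fin N₂ → Gi (q + 1) d j → Mon (q + 1) h → ℂ) (x p : Fin (q + 1) → ℂ)
      (ξ : Mon (q + 1) d → Fin (q + 1) → ℂ) (R Λ E δ : ℝ), x ≠ 0 → x = (‖x‖ : ℂ) • p → 1 ≤ R →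
      1 ≤ Λ → 0 ≤ E → 0 ≤ δ → ‖s‖ ≤ R → ‖r‖ ≤ R → (∀ m, ‖ξ m‖ ≤ Λ * ‖x‖) →
      ‖Dl2 μ s r x ξ‖ * ‖x‖ ^ D ≤ C * (R * Λ) ^ q * ‖x‖ ^ (d - 1) ∧
      ((∀ m, ‖eval x (form (prj y m)) + lf (grad c x) (ξ m)‖ ≤ E * ‖x‖ ^ d) →
        (∀ α, ‖∑ i, vv (s α) p i * gen c y p i‖ ≤ δ) →
        (∀ κ, ‖∑ i, vv (r κ) p i * gen c y p i‖ ≤ δ) →
        (∀ i₀, η ≤ ‖gen c y p i₀‖ →
          Good μ (fun α => vv (s α) p) (fun κ => vv (r κ) p) i₀ R) →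
        ‖x‖ ^ (d - 1) ≤ C * R ^ q * (‖Dl2 μ s r x ξ‖ * ‖x‖ ^ D) ∧
        ∀ t a b, ‖grad c x a‖ * ‖Dl2 μ s r x ξ (t, b)‖ ≤ ‖grad c x b‖ * ‖Dl2 μ s r x ξ (t, a)‖ +
          C * R ^ (2 * q) * (δ + E) * ‖grad c x‖ * ‖Dl2 μ s r x ξ‖)

/-- The minors are entire along entire data. -/
def DifStmt : Prop :=
  ∀ (q d j μ h N₁ N₂ : ℕ) (s : Fin N₁ → Gi (q + 1) d j → Mon (q + 1) 1 → ℂ)
    (r : Fin N₂ → Gi (q + 1) d j → Mon (q + 1) h → ℂ) (f : ℂ → Fin (q + 1) → ℂ)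
    (ξ : Mon (q + 1) d → ℂ → Fin (q + 1) → ℂ), Differentiable ℂ f → (∀ m, Differentiable ℂ (ξ m)) →
    Differentiable ℂ fun z => Dl2 μ s r (f z) fun m => ξ m z

/-- Coefficients of the generating family. -/
def GenCStmt : Prop :=
  ∀ (ν d j : ℕ), 1 ≤ d → ∀ (c : Mon ν d → ℂ) (y : Fin j → Mon ν d → ℂ), ‖c‖ ≤ 1 → ‖y‖ ≤ 1 →
    ∃ E : Gi ν d j → Mon ν d → ℂ, ‖E‖ ≤ d + j + 1 ∧ (∀ x, vv E x = gen c y x) ∧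
      ∀ m, E (.inr (.inl m)) = prj y m

/-! ### One complex variable -/

/-- Growth of a polynomial near a point, in terms of its zeros. -/
def RootsStmt : Prop :=
  ∀ (m : ℕ) (h : ℂ → ℂ), PD ℂ m h → ∃ a : Fin m → ℂ, (∀ k, ‖a k‖ ≤ 2) ∧
    ∀ (z z' : ℂ) (r s : ℝ), ‖z‖ ≤ 1 → 0 < r → r ≤ 1 → ‖z' - z‖ ≤ s → (∀ k, z ≠ a k) →
      ‖h z'‖ ≤ ‖h z‖ * (Real.exp (m * s / r) * Rz a r z)

/-- The sub-mean inequality with weights. -/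
def JmpStmt : Prop :=
  ∀ (J : Type) [Fintype J] (a : J → ℂ) (lam κ r M : ℝ) (u : ℂ → ℂ) (φ : ℂ → ℝ) (z₀ : ℂ),
    Differentiable ℂ u → 0 < r → 0 ≤ lam → 0 < M → ContinuousOn φ (sphere z₀ r) →
    (∀ z ∈ sphere z₀ r, ‖u z‖ * Wz a lam κ z ≤ M * Real.exp (φ z)) →
    ‖u z₀‖ * (∏ k, (max r ‖z₀ - a k‖ / 3) ^ lam) * Real.exp (κ * (‖z₀‖ ^ 2 + r ^ 2)) ≤
      M * Real.exp (Real.circleAverage φ z₀ r)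

/-- The boundary inequality persists near the boundary. -/
def AnnStmt : Prop :=
  ∀ (ν : ℕ) (f : ℂ → Fin ν → ℂ) (γ : ℂ → ℂ) (A B σ : ℝ), Differentiable ℂ f →
    Differentiable ℂ γ → 0 < σ → 0 ≤ B →
    (∀ z ∈ closedBall (0 : ℂ) 1, Real.exp (-A) ≤ ‖f z‖ ∧ ‖f z‖ ≤ Real.exp A) →
    (∀ z ∈ closedBall (0 : ℂ) 1, ∀ z' ∈ closedBall (0 : ℂ) 1, ‖z' - z‖ ≤ σ →
      ‖f z'‖ ≤ Real.exp B * ‖f z‖) → (∀ z : ℂ, ‖z‖ = 1 → ‖γ z‖ ≤ ‖f z‖) →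
    ∀ z ∈ closedBall (0 : ℂ) 1, ‖γ z‖ ≤ Real.exp (B + 4 * A * (1 - ‖z‖) / σ ^ 2) * ‖f z‖

/-- A large jump from a maximum point. -/
def BadStmt : Prop :=
  ∀ (J I : Type) [Fintype J] [Fintype I] (ν d : ℕ) (a : J → ℂ) (lam κ r C : ℝ)
    (f : ℂ → Fin ν → ℂ) (U : ℂ → I → ℂ) (G : ℂ → ℝ) (z₀ : ℂ), Differentiable ℂ f →
    Differentiable ℂ U → 0 < r → 0 < lam → 0 < C →
    (∀ z ∈ closedBall z₀ r, f z ≠ 0 ∧ G z ≤ C * ‖f z‖ ^ d ∧ ‖f z‖ ^ d ≤ C * G z ∧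
      ‖U z‖ / G z * Wz a lam κ z ≤ ‖U z₀‖ / G z₀ * Wz a lam κ z₀) →
    0 < ‖U z₀‖ / G z₀ * Wz a lam κ z₀ →
    (∀ k, z₀ ≠ a k) ∧
      Rz a r z₀ ^ lam * Real.exp (κ * r ^ 2) ≤ C ^ 2 * Real.exp (d * Tch f z₀ r)

/-- A small jump from a maximum point. -/
def GoodStmt : Prop :=
  ∀ (J I : Type) [Fintype J] [Fintype I] (ν : ℕ) (a : J → ℂ) (lam κ δ η : ℝ)
    (H : ℂ → Fin ν → ℂ) (Δ : ℂ → I × Fin ν → ℂ) (γ : ℂ → ℂ) (z₀ : ℂ), Differentiable ℂ H →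
    Differentiable ℂ Δ → Differentiable ℂ γ → 0 < δ → 0 < lam → 0 ≤ η → η ≤ 1 / 2 → H z₀ ≠ 0 →
    (∀ z ∈ closedBall z₀ δ, ‖H z - H z₀‖ ≤ ‖H z₀‖ / 4 ∧
      (∀ i b b', ‖H z b‖ * ‖Δ z (i, b')‖ ≤ ‖H z b'‖ * ‖Δ z (i, b)‖ + η * ‖H z‖ * ‖Δ z‖) ∧
      ‖Δ z‖ * ‖γ z‖ / ‖H z‖ * Wz a lam κ z ≤ ‖Δ z₀‖ * ‖γ z₀‖ / ‖H z₀‖ * Wz a lam κ z₀) →
    0 < ‖Δ z₀‖ * ‖γ z₀‖ / ‖H z₀‖ * Wz a lam κ z₀ → Real.exp (κ * δ ^ 2) ≤ (1 + 2 * η) ^ 2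

/-- The maximum principle with an exceptional set. -/
def AnStmt : Prop :=
  ∀ (ν d D N b : ℕ) (K η τ C₁ CY : ℝ), 2 ≤ d → 1 ≤ D → D ≤ d → 1 ≤ N → 1 ≤ K → 0 < η → 1 ≤ C₁ →
    1 ≤ CY → ∃ g₀ : ℝ, 0 < g₀ ∧ ∀ g : ℝ, 0 < g → g ≤ g₀ → ∀ᶠ T : ℝ in atTop, ∀ c ∈ Usm ν d η,
      ∀ (I : Type) [Fintype I] (N' m : ℕ) (Y : Fin N' → (Fin ν → ℂ) →ₗ[ℂ] (Fin ν → ℂ))
        (f : ℂ → Fin ν → ℂ) (γ : ℂ → ℂ) (Δ : ℂ → I × Fin ν → ℂ), N' ≤ N → (m : ℝ) ≤ K * T →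
        (∀ ρ x, ‖Y ρ x‖ ≤ CY * ‖x‖) → (∀ a, PD ℂ m fun z => f z a) → Differentiable ℂ γ →
        Differentiable ℂ Δ →
        (∀ z ∈ closedBall (0 : ℂ) 1,
          Real.exp (-(K * T)) ≤ ‖f z‖ ∧ ‖f z‖ ≤ Real.exp (K * T)) →
        (∀ z ∈ closedBall (0 : ℂ) 1, ∀ z' ∈ closedBall (0 : ℂ) 1, ‖z' - z‖ ≤ g ^ b →
          ‖f z'‖ ≤ Real.exp (g * T) * ‖f z‖) →
        (∀ z : ℂ, ‖z‖ = 1 → ‖γ z‖ ≤ ‖f z‖) → Real.exp (T / 2) * ‖f 0‖ ≤ ‖γ 0‖ →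
        (∀ z ∈ closedBall (0 : ℂ) 1,
          ‖Δ z‖ * ‖f z‖ ^ D ≤ Real.exp (D * T / 3) * ‖f z‖ ^ (d - 1)) →
        (∀ z ∈ closedBall (0 : ℂ) 1, (∀ ρ, Real.exp (-(T / N)) * ‖f z‖ ≤ ‖Y ρ (f z)‖) →
          ‖f z‖ ^ (d - 1) ≤ Real.exp (T / 100) * (‖Δ z‖ * ‖f z‖ ^ D) ∧
          ∀ i a a', ‖grad c (f z) a‖ * ‖Δ z (i, a')‖ ≤ ‖grad c (f z) a'‖ * ‖Δ z (i, a)‖ +
            Real.exp (-(8 * T / N)) * ‖grad c (f z)‖ * ‖Δ z‖) →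
        ¬∀ (ρ : Fin N') (a : ℂ) (t : ℝ), 0 < t → closedBall a (C₁ * t) ⊆ closedBall 0 1 →
          (∀ z ∈ closedBall a (C₁ * t), ‖Y ρ (f z)‖ ≤ Real.exp (-(T / (2 * N))) * ‖f z‖) →
          Tch f a t ≤ τ

/-- A disc close to a linear section inherits the bound on the characteristic. -/
def HtStmt : Prop :=
  ∀ (ν d p : ℕ) (ζ : ℝ), 1 ≤ d → 0 < ζ → ∃ δ : ℝ, 0 < δ ∧ ∀ (c : Mon ν d → ℂ) (τ C : ℝ)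
    (e : Fin p → Fin ν) (A : Fin ν → Fin p → ℂ) (f : ℂ → Fin ν → ℂ) (a : ℂ) (t : ℝ),
    ‖c‖ ≤ 1 → 1 ≤ C → Hyp c p τ ζ C → Function.Injective e → ‖A‖ ≤ 1 → Differentiable ℂ f →
    0 < t → (∀ z ∈ closedBall a (C * t), f z ≠ 0 ∧ ‖eval (f z) (form c)‖ ≤ δ * ‖f z‖ ^ d ∧
      ‖res e A (f z)‖ ≤ δ * ‖f z‖) → Tch f a t ≤ τ + Real.log (2 * p + 2)

/-! ### The three contradictions -/

/-- The approximate Clemens argument with relative bounds. -/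
def Al1Stmt : Prop :=
  ∀ (ν d j D : ℕ) (η : ℝ), 2 ≤ ν → D + 2 * ν + j = d + 1 → 0 < η → ∃ C c₀ : ℝ, 0 < C ∧ 0 < c₀ ∧
    ∀ c ∈ Usm ν d η, ∀ y : Fin j → Mon ν d → ℂ, ‖y‖ ≤ 1 →
      ∀ (f : ℂ → Fin ν → ℂ) (ξ : Mon ν d → ℂ → Fin ν → ℂ) (γ : ℂ → ℂ) (L B Λ ε : ℝ),
        Differentiable ℂ f → (∀ m, Differentiable ℂ (ξ m)) → Differentiable ℂ γ →
        0 < L → L ≤ B → 1 ≤ Λ → 0 ≤ ε → ε ≤ c₀ * (L / B) ^ 2 →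
        (∀ z ∈ closedBall (0 : ℂ) 1, L ≤ ‖f z‖ ∧ ∀ m, ‖ξ m z‖ ≤ Λ * ‖f z‖ ∧
          ‖eval (f z) (form (prj y m)) + lf (grad c (f z)) (ξ m z)‖ ≤ ε * ‖f z‖ ^ d) →
        (∀ z ∈ closedBall (0 : ℂ) 1, ∀ w ∈ closedBall (0 : ℂ) 1,
          ‖f z - f w‖ ≤ B * ‖z - w‖ ∧ ‖γ z - γ w‖ ≤ B * ‖z - w‖) →
        (∀ z : ℂ, ‖z‖ = 1 → ‖γ z‖ ≤ ‖f z‖) →
        ‖γ 0‖ ^ D ≤ C * Λ ^ (ν - 1) * ‖f 0‖ ^ D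

/-- No data for slow discs. -/
def NoSlowStmt : Prop :=
  ∀ (ν d j D : ℕ) (η K ε : ℝ), 2 ≤ ν → D + 2 * ν + j = d + 1 → 0 < η → 1 ≤ K → 0 < ε →
    ε ≤ 1 / 4 → 1 ≤ D → 8 * ε * (ν - 1) ≤ D → ∀ᶠ T : ℝ in atTop,
      ∀ (N : ℕ) (cl : Cls N) (ρ Γ g s : ℝ), cl.Valid ρ Γ → ∀ c ∈ Usm ν d η,
        ¬DatT K g ε ε (s + 1 + ε * T) T cl (fun _ => Real.exp (-s)) c j

/-- Data for fast discs are relative data. -/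
def RelStmt : Prop :=
  ∀ (ν d j N : ℕ) (K ε θ s s₀ T ρ Γ : ℝ) (cl : Cls N) (c : Mon ν d → ℂ), 0 < θ → θ ≤ 1 / 40 →
    140 * θ ≤ ε → 0 ≤ T → cl.Valid ρ Γ → COsc cl s (Real.exp (42 * θ * T)) →
    DatT K (20 * θ) ε (20 * θ) s₀ T cl (fun i => Real.exp (20 * θ * T) * cl.ω i) c j →
    ∃ (y : Fin j → Mon ν d → ℂ) (f : ℂ → Fin ν → ℂ) (ξ : Mon ν d → ℂ → Fin ν → ℂ) (γ : ℂ → ℂ),
      RDat K (2 * ε) (200 * θ) s T c y f ξ γ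

/-- No relative data in small codimension. -/
def NoRelStmt : Prop :=
  ∀ (ν d j D : ℕ) (η K ε : ℝ), 2 ≤ ν → D + 2 * ν + j = d + 1 → 0 < η → 1 ≤ K → 0 < ε →
    1 ≤ D → 4 * ε * (ν - 1) ≤ D → ∀ᶠ T : ℝ in atTop, ∀ g σ : ℝ, ∀ c ∈ Usm ν d η,
      ∀ (y : Fin j → Mon ν d → ℂ) (f : ℂ → Fin ν → ℂ) (ξ : Mon ν d → ℂ → Fin ν → ℂ) (γ : ℂ → ℂ),
        ¬RDat K ε g σ T c y f ξ γ

/-- No relative data in large codimension when the linear sections are hyperbolic. -/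
def Al2Stmt : Prop :=
  ∀ (ν d w D b : ℕ) (η K ε τ ζ C g₁ : ℝ), 12 ≤ w → 2 * w ^ 45 ≤ d → w ^ 44 ≤ ν →
    D + 2 * ν + w ^ 29 * (w ^ 15 - 1) = d + 1 → 0 < η → 1 ≤ K → 0 < ε → 1 ≤ D →
    4 * ε * (ν - 1) ≤ D → 0 < ζ → 1 ≤ C → 0 < g₁ → ∃ g : ℝ, 0 < g ∧ g ≤ g₁ ∧
      ∀ᶠ T : ℝ in atTop, ∀ c ∈ Usm ν d η, Hyp c (w ^ 44) τ ζ C →
        ∀ (y : Fin (w ^ 46) → Mon ν d → ℂ) (f : ℂ → Fin ν → ℂ) (ξ : Mon ν d → ℂ → Fin ν → ℂ)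
          (γ : ℂ → ℂ), ¬RDat K ε g (g ^ b) T c y f ξ γ

/-! ### Selection of discs -/

/-- Local scale selection with an explicit small scale. -/
def Sel2Stmt : Prop :=
  ∀ ρf : ℝ, 2 ≤ ρf → ∃ K C : ℝ, 1 ≤ K ∧ 1 ≤ C ∧ ∀ ρs : ℝ, 2 ≤ ρs → ∃ b : ℕ, ∀ θ : ℝ, 0 < θ →
    θ ≤ 1 / 2 → ∀ (ν : ℕ) (f : ℂ → Fin ν → ℂ) (a : ℂ) (t : ℝ) (τ : ℕ), Differentiable ℂ f →
      0 < t → (∀ z ∈ closedBall a (C * t), f z ≠ 0) → 2 ≤ θ * τ → τ ≤ Tch f a t →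
      ∃ g : ℂ → Fin ν → ℂ, (From f a (C * t) ρf g ∧ Disc ρf K τ g ∧
          ∀ z ∈ ball (0 : ℂ) (ρf / 2), Tch g z (θ ^ b) ≤ θ * τ) ∨
        ∃ T : ℕ, θ * τ / 4 ≤ T ∧ T ≤ τ ∧ From f a (C * t) ρs g ∧ Disc ρs K T g

/-- Rescaling a slow disc so that its maximum is close to its mean. -/
def RescStmt : Prop :=
  ∀ K ε ρ : ℝ, 1 ≤ K → 0 < ε → 3 ≤ ρ → ∃ ρ' : ℝ, ρ ≤ ρ' ∧
    ∀ (ν : ℕ) (T : ℝ) (g : ℂ → Fin ν → ℂ), 0 ≤ T → Disc ρ' K T g → ∃ t : ℝ, 1 ≤ t ∧ t * ρ ≤ ρ' ∧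
      Disc ρ K T (fun ζ => g (t * ζ)) ∧ ∀ z ∈ closedBall (0 : ℂ) 2,
        lg g (t * z) ≤ Real.circleAverage (lg fun ζ => g (t * ζ)) 0 1 + ε * T

/-- Fast discs fall into boundedly many classes, with explicit constants. -/
def Fast2Stmt : Prop :=
  ∀ (ν : ℕ) (ρ K θ σ : ℝ), 3 ≤ ρ → 1 ≤ K → 0 < θ → θ ≤ K → 0 < σ → σ ≤ 1 →
    ∃ N Nc : ℕ, ∀ᶠ T : ℝ in atTop, ∃ cl : Fin Nc → Cls N,
      (∀ n, (cl n).Valid ρ (Real.exp (20 * θ * T)) ∧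
        COsc (cl n) (θ * σ / (2 * K)) (Real.exp (42 * θ * T))) ∧
      ∀ f : ℂ → Fin ν → ℂ, Disc (2 * ρ + 2) K T f →
        (∀ z ∈ ball (0 : ℂ) (ρ + 1), Tch f z σ ≤ θ * T) →
        ∃ n, (cl n).Mem ρ (Real.exp (20 * θ * T)) f

/-- The growth certificate with two more bounds. -/
def Mon2Stmt : Prop :=
  ∀ ν : ℕ, ∃ C : ℝ, 0 < C ∧ ∀ (ρ K T : ℝ) (f : ℂ → Fin ν → ℂ), 8 ≤ ρ → 0 ≤ K → Disc ρ K T f →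
    ∃ (i₀ i₁ k : ℕ) (l : Fin ν → ℂ) (q : ℕ → ℂ) (g : ℂ → ℂ), ‖l‖ ≤ 1 ∧
      (∀ s, ‖q s‖ ≤ 3 ^ k) ∧ (∀ z ∈ closedBall (0 : ℂ) 2, ‖Qp k q z‖ ≤ 3 ^ k) ∧
      (3 : ℝ) ^ k ≤ C * Real.exp i₀ ∧ DifferentiableOn ℂ g (ball 0 (ρ / 2)) ∧
      (∀ z ∈ ball (0 : ℂ) (ρ / 2), ‖g z‖ ≤ C * Real.exp i₀ ∧
        lf l (f z) = (Real.exp (-(i₀ : ℝ)) : ℂ) * Qp k q z * (1 + z * g z)) ∧
      ‖f 0‖ ≤ Real.exp (-(i₁ : ℝ)) ∧ (i₁ : ℝ) ≤ K * T ∧ (i₀ : ℝ) + T ≤ i₁ + C ∧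
      (i₀ : ℝ) + Real.circleAverage (lg f) 0 1 ≤ C ∧ (ρ / 4) ^ k ≤ C * Real.exp i₀

/-! ### The truncated problem -/

/-- The constraints are polynomials of degree at most `2 d + 1`. -/
def Gdeg2Stmt : Prop :=
  ∀ (ν p d N m M : ℕ) (cl : Cls N) (pr : Par m) (e : Fin p → Fin ν) (ω' : Fin N → ℝ), 1 ≤ d →
    ∀ r : Con2 p N M, PD ℂ (2 * d + 1) (Gm2 (d := d) cl pr M e ω' r)

/-- A true disc gives an approximate solution of the truncated problem. -/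
def True2Stmt : Prop :=
  ∀ (ν p d N m M : ℕ) (cl : Cls N) (pr : Par m) (e : Fin p → Fin ν) (ω' : Fin N → ℝ)
    (c : Mon ν d → ℂ) (A : Fin ν → Fin p → ℂ) (f : ℂ → Fin p → ℂ)
    (b : Fin 3 → ℂ → Fin p → ℂ) (l : Fin p → ℂ) (q : ℕ → ℂ) (g : ℂ → ℂ) (R Γ δ ζ : ℝ),
    Function.Injective e → ‖A‖ ≤ 1 →
    8 ≤ R → 1 ≤ m → pr.k ≤ m → 1 ≤ pr.B → 2 * pr.B * (4 / R) ^ m ≤ δ → δ ≤ 1 →
    (∀ i, ‖cl.z i‖ ≤ 1) → 0 < cl.σ → cl.σ ≤ 1 → ‖c‖ ≤ 1 →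
    DifferentiableOn ℂ f (ball 0 R) → (∀ i, DifferentiableOn ℂ (b i) (ball 0 R)) →
    DifferentiableOn ℂ g (ball 0 R) → Apx c e A ζ R f →
    (∀ z ∈ ball (0 : ℂ) R, ‖f z‖ ≤ 1 ∧ (∀ i, ‖b i z‖ ≤ pr.B) ∧ ‖g z‖ ≤ pr.B ∧
      (∀ i, lf (b i z) (f z) = cl.P i z) ∧ lf l (f z) = pr.β * Qp pr.k q z * (1 + z * g z)) →
    ‖l‖ ≤ 1 → (∀ s, ‖q s‖ ≤ pr.B) →
    (∀ z ∈ closedBall (0 : ℂ) 2, ‖Qp pr.k q z‖ ≤ pr.B ∧ ∀ i, ‖cl.P i z - pr.Ptz i z‖ ≤ δ) →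
    (∀ i, ∀ w ∈ closedBall (cl.z i) cl.σ, ‖f w‖ ≤ Γ * cl.ω i ∧ ‖f w‖ ≤ ω' i ∧
      ∀ i', ‖b i' w‖ + δ ≤ pr.Γb * cl.ω i) →
    (∀ i, 0 < cl.ω i ∧ 0 < ω' i ∧ δ ≤ ω' i ∧ δ ≤ Γ * cl.ω i ∧
      2 * (Fintype.card (Mon ν d) * d * ((p + 1) * δ) * ((p + 1) * (2 * Γ * cl.ω i)) ^ (d - 1)) ≤
        pr.ε * cl.ω i ^ d) →
    0 ≤ ζ → 2 * (ζ * Γ ^ d) ≤ pr.ε →
    0 < pr.ε → 0 < pr.ε' → 0 < pr.Γb → 0 < pr.ϑ → 0 ≤ pr.β → pr.β ≤ 1 →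
    ‖f 0‖ ≤ pr.ϑ → δ ≤ pr.ϑ → (3 * p + 3) * pr.B * δ ≤ pr.ε' →
    ∃ x : Unk2 ν p m → ℂ, ‖x‖ ≤ 1 ∧ ∀ r : Con2 p N M, ‖Gm2 cl pr M e ω' r (x, c)‖ ≤ 1

/-- In the region, bounded lifts provide data. -/
def Region2Stmt : Prop :=
  ∀ (ν p d j N m M : ℕ) (cl : Cls N) (pr : Par m) (e : Fin p → Fin ν) (ω' : Fin N → ℝ)
    (ρ Γ S Λ δ W₁ W₂ W₃ L B' E G₀ G₁ : ℝ), cl.Valid ρ Γ → Function.Injective e → 1 ≤ p → 1 ≤ d →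
    1 ≤ m → pr.k ≤ m → (d + 2) * m < M → 1 ≤ Γ → 1 ≤ S → 0 < Λ → 1 ≤ pr.B →
    0 < pr.ε → 0 < pr.ε' → 0 < pr.Γb → 0 < pr.ϑ → 0 < pr.β → pr.β ≤ 1 → 0 < L →
    (∀ i, 0 < ω' i) → (∀ i, ∀ z ∈ closedBall (0 : ℂ) 2, ‖cl.P i z - pr.Ptz i z‖ ≤ δ) →
    (∀ i, 2 * Γ * (M * S * pr.ε' + δ) ≤ cl.ω i ^ 2) →
    (∀ i, L * (2 * p * M * S * pr.Γb * Γ) ≤ cl.ω i) → M * S * pr.ε' ≤ L →
    2 * p * M * S * pr.Γb * Γ ≤ W₁ → 2 * (p * S + 1) * M * S ≤ W₂ →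
    4 * (p * S + 1) * M * (Λ * (1 + j)) ≤ W₃ →
    3 * (p * S + 1) * ((m + 1) ^ 2 * pr.B * S) ^ 2 ≤ B' →
    M * (S + Λ * (1 + j)) * pr.ε * (2 * p * M * S * pr.Γb * Γ) ^ d ≤ E →
    G₀ * (2 * (p * S + 1) ^ 2 * pr.ϑ * S) ≤ pr.β → G₁ * (p * S + 1) ≤ pr.β → 0 ≤ G₀ →
    ∀ v : (Unk2 ν p m → ℂ) × (Mon ν d → ℂ), ‖v.1‖ ≤ S →
      (∀ r : Con2 p N M, ‖Gm2 cl pr M e ω' r v‖ ≤ S) →
      LiftL (fun r : Con2 p N M => fderiv ℂ (Gm2 cl pr M e ω' r) v) j Λ →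
      ∃ (y : Fin j → Mon ν d → ℂ) (f : ℂ → Fin ν → ℂ) (ξ : Mon ν d → ℂ → Fin ν → ℂ) (γ : ℂ → ℂ),
        Dat cl ω' m W₁ W₂ W₃ L B' E G₀ G₁ v.2 y f ξ γ

/-- The measure estimate for one class. -/
def Core2Stmt : Prop :=
  ∀ (ν p d j N : ℕ) (K a ε g χ ρ : ℝ), 1 ≤ K → 1 ≤ p → 1 ≤ d → 1 ≤ a → 0 < ε → ε ≤ 1 → 0 < g →
    g ≤ 3 * K → 0 < χ → 8 * Real.exp (a * (1 + d * g)) ≤ ρ →
    2912 * p * K * Real.log (4 * d + 3) / a + 2 ≤ ε * (j + 1) →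
    ∀ᶠ T : ℝ in atTop, ∀ (cl : Cls N) (e : Fin p → Fin ν) (ω' : Fin N → ℝ) (s₀ : ℝ)
      (U : Set (Mon ν d → ℂ)), cl.Valid ρ (Real.exp (g * T)) → Function.Injective e →
      MeasurableSet U → U ⊆ closedBall 0 1 → (∀ c ∈ U, ¬DatT K g ε χ s₀ T cl ω' c j) →
      volume {c | c ∈ U ∧ ∃ (A : Fin ν → Fin p → ℂ) (f : ℂ → Fin p → ℂ), ‖A‖ ≤ 1 ∧ Disc ρ K T f ∧
        Apx c e A (Real.exp (-((195 + 15 * d) * (K * T)))) ρ f ∧ cl.Mem ρ (Real.exp (g * T)) f ∧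
        (∀ i, ∀ w ∈ closedBall (cl.z i) cl.σ, ‖f w‖ ≤ ω' i) ∧
        -s₀ ≤ Real.circleAverage (lg f) 0 1} ≤ ENNReal.ofReal (Real.exp (-T))

/-- One level: without relative data, most hypersurfaces have hyperbolic sections. -/
def LevStmt : Prop :=
  ∃ K C : ℝ, 1 ≤ K ∧ 1 ≤ C ∧ ∀ (ν d j₁ D : ℕ) (η ε : ℝ), 2 ≤ ν → D + 2 * ν + j₁ = d + 1 → 0 < η →
    0 < ε → ε ≤ 1 / 4 → 1 ≤ D → 8 * ε * (ν - 1) ≤ D → 3 ≤ ε * (j₁ + 1) →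
    ∃ (b : ℕ) (g₁ : ℝ), 0 < g₁ ∧ ∀ (p j : ℕ) (U : Set (Mon ν d → ℂ)) (g : ℝ), 1 ≤ p → p ≤ ν →
      MeasurableSet U → U ⊆ Usm ν d η → 0 < g → g ≤ g₁ →
      2912 * p * K * Real.log (4 * d + 3) + 2 ≤ ε * (j + 1) →
      (∀ᶠ T : ℝ in atTop, ∀ c ∈ U, ∀ (y : Fin j → Mon ν d → ℂ) (f : ℂ → Fin ν → ℂ)
        (ξ : Mon ν d → ℂ → Fin ν → ℂ) (γ : ℂ → ℂ), ¬RDat K (2 * ε) g (g ^ b) T c y f ξ γ) →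
      Tendsto (fun τ : ℕ =>
        volume {c | c ∈ U ∧ ¬Hyp c p τ (Real.exp (-((195 + 15 * d) * (K * τ)))) C}) atTop (𝓝 0)

/-- The choice of the integers. -/
def NumStmt : Prop :=
  ∀ K K₀ ε : ℝ, 1 ≤ K → 0 < ε → ε ≤ 1 → ∃ n₀ : ℕ, ∀ n d : ℕ, n₀ ≤ n → (2 + ε) * n ≤ d →
    (d : ℝ) ≤ K₀ * n * Real.log n → ∃ w j₁ D₁ D₂ : ℕ, 12 ≤ w ∧ 2 * w ^ 45 ≤ d ∧ w ^ 44 ≤ n + 2 ∧
      D₁ + 2 * (n + 2) + j₁ = d + 1 ∧ D₂ + 2 * (n + 2) + w ^ 29 * (w ^ 15 - 1) = d + 1 ∧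
      1 ≤ D₁ ∧ 1 ≤ D₂ ∧ 8 * (ε / 32) * (n + 1) ≤ D₁ ∧ 8 * (ε / 32) * (n + 1) ≤ D₂ ∧
      3 ≤ ε / 32 * (j₁ + 1) ∧
      2912 * w ^ 44 * K * Real.log (4 * d + 3) + 2 ≤ ε / 32 * (j₁ + 1) ∧
      2912 * (n + 2) * K * Real.log (4 * d + 3) + 2 ≤ ε / 32 * (w ^ 46 + 1)

/-- The theorem. -/
def MainStmt : Prop :=
  ∀ ε : ℝ, 0 < ε → ∃ n₀ : ℕ, ∀ n d : ℕ, n₀ ≤ n → (2 + ε) * n ≤ d →
    ∀ᵐ c : Mon (n + 2) d → ℂ, IsSmooth (form c) ∧ IsBrody (form c)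

end

end Pool.Agent.Lib.MP_45f16c_ag.AS
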